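import Pool.Agent.Lib.helper82.CookLevin

/-! Numbers computable in unary in polynomial time. -/

namespace Pool.Agent.Lib.MP_dec383_lc

open Pool.Agent.Lib.helper82 N487b59b3

/-- `f` can be written in unary in polynomial time. -/
def UN {α : Type} [Enc α] (f : α → ℕ) : Prop := PT fun a => List.replicate (f a) true

theorem length_filter_range_lt (n k : ℕ) :
    ((List.range n).filter fun i => decide (i < k)).length = min n k := by
  induction n with
  | zero => simp
  | succ n ih =>
    rw [List.range_succ, List.filter_append, List.length_append, ih]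
    by_cases h : n < k <;> simp [h] <;> omega

theorem length_filter_range_le (n k : ℕ) :
    ((List.range n).filter fun i => decide (k ≤ i)).length = n - k := by
  induction n with
  | zero => simp
  | succ n ih =>
    rw [List.range_succ, List.filter_append, List.length_append, ih]
    by_cases h : k ≤ n <;> simp [h] <;> omega

theorem getD_eq_headD {β : Type} (d : β) : ∀ (l : List β) (n i : ℕ),
    ((((l.zipIdx n).map fun p => (p.2, p.1)).filter fun p => decide (p.1 = n + i)).map
      fun p => p.2).headD d = l.getD i d
  | [], _, _ => by simp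
  | b :: l, n, 0 => by simp
  | b :: l, n, i + 1 => by
    have h := getD_eq_headD d l (n + 1) i
    rw [show n + 1 + i = n + (i + 1) by omega] at h
    simpa [List.filter_cons] using h

variable {α β γ : Type} [Enc α] [Enc β] [Enc γ]

/-- List access at a computed position. -/
theorem ptGetD [Inhabited β] {l : α → List β} {i : α → ℕ} (hl : PT l) (hi : PT i) (d : β) :
    PT fun a => (l a).getD (i a) d :=
  (PT.headD (PT.map (F := fun _ (p : ℕ × β) => p.2)
    (PT.filter (P := fun a (p : ℕ × β) => decide (p.1 = i a)) (PT.enum hl)
      (PT.eq (PT.fst PT.snd') (PT.comp hi PT.fst'))) (PT.snd PT.snd')) d).congr fun a => by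
    simpa using getD_eq_headD d (l a) 0 (i a)

namespace UN

theorem congr {f g : α → ℕ} (h : UN f) (e : ∀ a, f a = g a) : UN g :=
  PT.congr h fun a => by rw [e]

theorem length [Inhabited β] {l : α → List β} (hl : PT l) : UN fun a => (l a).length :=
  (PT.map (F := fun _ _ => true) hl (PT.const true)).congr fun a => by simp

theorem of_ex {f : α → ℕ} (h : ∃ g : α → List Bool, PT g ∧ ∀ a, (g a).length = f a) : UN f := by
  obtain ⟨g, h1, h2⟩ := h
  exact (length h1).congr h2

theorem ex {f : α → ℕ} (h : UN f) : ∃ g : α → List Bool, PT g ∧ ∀ a, (g a).length = f a :=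
  ⟨_, h, fun _ => by simp⟩

theorem pt {f : α → ℕ} (h : UN f) : PT f := (PT.length h).congr fun _ => by simp

theorem const (n : ℕ) : UN fun _ : α => n := PT.const _

theorem comp {f : β → ℕ} {F : α → β} (h : UN f) (hF : PT F) : UN fun a => f (F a) :=
  PT.comp (G := fun b => List.replicate (f b) true) h hF

theorem range {f : α → ℕ} (h : UN f) : PT fun a => List.range (f a) :=
  (PT.range h).congr fun _ => by simp

theorem replicate {f : α → ℕ} {x : α → β} (h : UN f) (hx : PT x) :
    PT fun a => List.replicate (f a) (x a) :=
  (PT.map (F := fun a _ => x a) h (PT.comp hx PT.fst')).congr fun _ => by simp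

theorem add {f g : α → ℕ} (hf : UN f) (hg : UN g) : UN fun a => f a + g a :=
  (PT.append hf hg).congr fun _ => by simp

theorem sum [Inhabited β] {l : α → List β} {f : α → β → ℕ} (hl : PT l)
    (hf : UN fun p : α × β => f p.1 p.2) : UN fun a => ((l a).map (f a)).sum :=
  (length (PT.flatMap (F := fun a b => List.replicate (f a b) true) hl hf)).congr fun _ => by
    simp [List.length_flatMap]

theorem mul {f g : α → ℕ} (hf : UN f) (hg : UN g) : UN fun a => f a * g a :=
  (sum (f := fun a _ => g a) hf (hg.comp PT.fst')).congr fun _ => by simp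

theorem pow {f : α → ℕ} (hf : UN f) : ∀ k : ℕ, UN fun a => f a ^ k
  | 0 => (const 1).congr fun _ => by simp
  | k + 1 => ((pow hf k).mul hf).congr fun _ => by rw [pow_succ]

theorem min {f g : α → ℕ} (hf : UN f) (hg : PT g) : UN fun a => min (f a) (g a) :=
  (length (PT.filter (P := fun a i => decide (i < g a)) hf.range
    (PT.lt PT.snd' (PT.comp hg PT.fst')))).congr fun _ => length_filter_range_lt _ _

theorem sub {f g : α → ℕ} (hf : UN f) (hg : PT g) : UN fun a => f a - g a :=
  (length (PT.filter (P := fun a i => decide (g a ≤ i)) hf.range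
    (PT.le (PT.comp hg PT.fst') PT.snd'))).congr fun _ => length_filter_range_le _ _

theorem of_le {f g : α → ℕ} (hf : PT f) (hg : UN g) (h : ∀ a, f a ≤ g a) : UN f :=
  (hg.min hf).congr fun a => min_eq_right (h a)

theorem max {f g : α → ℕ} (hf : UN f) (hg : UN g) : UN fun a => max (f a) (g a) :=
  (hf.add (hg.sub hf.pt)).congr fun a => by omega

theorem cond {c : α → Bool} {f g : α → ℕ} (hc : PT c) (hf : UN f) (hg : UN g) :
    UN fun a => bif c a then f a else g a :=
  (PT.cond hc hf hg).congr fun a => by beta_reduce; cases c a <;> rfl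

theorem ite {c : α → Prop} [DecidablePred c] {f g : α → ℕ} (hc : PT fun a => decide (c a))
    (hf : UN f) (hg : UN g) : UN fun a => if c a then f a else g a :=
  (PT.ite hc hf hg).congr fun a => by beta_reduce; split_ifs <;> rfl

/-- A power with a computed but bounded exponent. -/
theorem powLe {f k : α → ℕ} (hf : UN f) (hk : UN k) (c : ℕ) (h : ∀ a, k a ≤ c) :
    UN fun a => f a ^ k a :=
  of_le ((PT.powU hf.pt hk).congr fun _ => by simp) ((hf.add (const 1)).pow c) fun a =>
    (Nat.pow_le_pow_left (Nat.le_succ _) _).trans (Nat.pow_le_pow_right (by omega) (h a))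

/-- A list of numbers in unary. -/
theorem list [Inhabited β] {l : α → List β} {f : α → β → ℕ} (hl : PT l)
    (hf : UN fun p : α × β => f p.1 p.2) :
    PT fun a => (l a).map fun b => List.replicate (f a b) true :=
  PT.map (F := fun a b => List.replicate (f a b) true) hl hf

theorem div {f g : α → ℕ} (hf : UN f) (hg : PT g) : UN fun a => f a / g a := by
  have h := length (PT.filter (P := fun a i => decide ((i + 1) * g a ≤ f a)) hf.range
    (PT.le (PT.mul (PT.succ PT.snd') (PT.comp hg PT.fst')) (PT.comp hf.pt PT.fst')))
  refine (ite (c := fun a => g a = 0) (PT.eq hg (PT.const 0)) (const 0) h).congr fun a => ?_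
  split_ifs with h0
  · simp [h0]
  · have e : ∀ i, decide ((i + 1) * g a ≤ f a) = decide (i < f a / g a) := fun i => by
      rw [decide_eq_decide, Nat.lt_iff_add_one_le, Nat.le_div_iff_mul_le (by omega)]
    simp only [e]
    rw [length_filter_range_lt, min_eq_right (Nat.div_le_self _ _)]

theorem mod {f g : α → ℕ} (hf : UN f) (hg : PT g) : UN fun a => f a % g a :=
  (hf.sub (PT.mul hg (hf.div hg).pt)).congr fun _ => (Nat.mod_def _ _).symm

end UN

end Pool.Agent.Lib.MP_dec383_lc
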