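import Pool.Agent.Lib.MP_dec383_lc.Fold

/-! Chains made of blocks of `H` followed by `P`. -/

namespace Pool.Agent.Lib.MP_dec383_lc

open Finset

section
variable (h p : ℕ → ℕ)

def str : ℕ → List Bool
  | 0 => []
  | M + 1 => str M ++ (List.replicate (h M) true ++ List.replicate (p M) false)

def off (M : ℕ) : ℕ := ∑ i ∈ range M, (h i + p i)

theorem off_succ (M : ℕ) : off h p (M + 1) = off h p M + (h M + p M) := sum_range_succ _ _

theorem length_str (M : ℕ) : (str h p M).length = off h p M := by
  induction M with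
  | zero => rfl
  | succ M ih => simp [str, off_succ, ih]

theorem off_le {i j : ℕ} (hij : i < j) : off h p i + (h i + p i) ≤ off h p j := by
  rw [← off_succ]
  exact sum_le_sum_of_subset (range_mono hij)

theorem off_inj {i j i' j' : ℕ} (h1 : j < h i + p i) (h2 : j' < h i' + p i')
    (e : off h p i + j = off h p i' + j') : i = i' ∧ j = j' := by
  rcases lt_trichotomy i i' with h3 | rfl | h3
  · have := off_le h p h3; omega
  · omega
  · have := off_le h p h3; omega

theorem exists_off {M n : ℕ} (hn : n < off h p M) :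
    ∃ i < M, ∃ j < h i + p i, n = off h p i + j := by
  induction M with
  | zero => simp [off] at hn
  | succ M ih =>
    by_cases h1 : n < off h p M
    · obtain ⟨i, hi, r⟩ := ih h1
      exact ⟨i, by omega, r⟩
    · rw [off_succ] at hn
      exact ⟨M, by omega, n - off h p M, by omega, by omega⟩

theorem getD_str {M i j : ℕ} (hi : i < M) (hj : j < h i + p i) :
    (str h p M).getD (off h p i + j) false = true ↔ j < h i := by
  induction M with
  | zero => omega
  | succ M ih =>
    rcases Nat.lt_succ_iff_lt_or_eq.1 hi with h1 | rfl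
    · have := off_le h p h1
      rw [str, List.getD_append _ _ _ _ (by rw [length_str]; omega)]
      exact ih h1
    · rw [str, List.getD_append_right _ _ _ _ (by rw [length_str]; omega), length_str,
        Nat.add_sub_cancel_left]
      by_cases h1 : j < h i
      · rw [List.getD_append _ _ _ _ (by simpa using h1)]
        simp [h1]
      · rw [List.getD_append_right _ _ _ _ (by simpa using h1)]
        simp only [h1, iff_false, List.length_replicate]
        rw [List.getD_eq_getElem _ _ (by simp; omega)]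
        simp

theorem card_hs_str (M : ℕ) : (hs (str h p M)).card = ∑ i ∈ range M, h i := by
  have : ∑ i ∈ range M, h i = ((range M).sigma fun i => range (h i)).card := by simp
  rw [this]
  symm
  refine card_bij (fun e _ => off h p e.1 + e.2) ?_ ?_ ?_
  · rintro ⟨i, j⟩ he
    simp only [mem_sigma, mem_range] at he
    exact mem_hs.2 ((getD_str h p (j := j) he.1 (by omega)).2 he.2)
  · rintro ⟨i, j⟩ he ⟨i', j'⟩ he' e
    simp only [mem_sigma, mem_range] at he he' e
    obtain ⟨rfl, rfl⟩ := off_inj h p (by omega) (by omega) e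
    rfl
  · intro n hn
    rw [mem_hs] at hn
    obtain ⟨i, hi, j, hj, rfl⟩ := exists_off h p (length_str h p M ▸ lt_of_getD hn)
    exact ⟨⟨i, j⟩, by simpa using ⟨hi, (getD_str h p hi hj).1 hn⟩, rfl⟩

theorem bonds_str (M : ℕ) (h1 : ∀ i < M, 1 ≤ h i) (hp : ∀ i < M, 1 ≤ p i) :
    bonds (str h p M) + M = ∑ i ∈ range M, h i := by
  have e1 : ∑ i ∈ range M, h i = ∑ i ∈ range M, (h i - 1) + M := by
    rw [sum_congr rfl (g := fun i => (h i - 1) + 1) fun i hi => by
      have := h1 i (mem_range.1 hi); omega, sum_add_distrib]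
    simp
  have : ∑ i ∈ range M, (h i - 1) = ((range M).sigma fun i => range (h i - 1)).card := by simp
  rw [e1, this]
  congr 1
  symm
  refine card_bij (fun e _ => off h p e.1 + e.2) ?_ ?_ ?_
  · rintro ⟨i, j⟩ he
    simp only [mem_sigma, mem_range] at he
    have a1 := (getD_str h p (j := j) he.1 (by omega)).2 (by omega)
    have a2 := (getD_str h p (j := j + 1) he.1 (by omega)).2 (by omega)
    exact mem_filter.2 ⟨mem_range.2 (lt_of_getD a1), a1, a2⟩
  · rintro ⟨i, j⟩ he ⟨i', j'⟩ he' e
    simp only [mem_sigma, mem_range] at he he' e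
    obtain ⟨rfl, rfl⟩ := off_inj h p (by omega) (by omega) e
    rfl
  · intro n hn
    rw [mem_filter, mem_range, length_str] at hn
    obtain ⟨i, hi, j, hj, rfl⟩ := exists_off h p hn.1
    have a1 := (getD_str h p hi hj).1 hn.2.1
    have := hp i hi
    have a2 := (getD_str h p (j := j + 1) hi (by omega)).1 hn.2.2
    exact ⟨⟨i, j⟩, by simpa using ⟨hi, by omega⟩, rfl⟩

end

structure BFold (s M : ℕ) (h p : ℕ → ℕ) (A : ℕ → ℕ → Pt) : Prop where
  inj : ∀ i < M, ∀ j < h i + p i, ∀ i' < M, ∀ j' < h i' + p i', A i j = A i' j' → i = i' ∧ j = j'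
  step : ∀ i < M, ∀ j, j + 1 < h i + p i → adj (A i j) (A i (j + 1))
  next : ∀ i, i + 1 < M → adj (A i (h i + p i - 1)) (A (i + 1) 0)
  cov : ∀ x, hex s x ↔ ∃ i < M, ∃ j < h i, A i j = x

theorem hexFold_iff (s M : ℕ) (h p : ℕ → ℕ) (h1 : ∀ i < M, 1 ≤ h i) :
    (∃ f, HexFold s (str h p M) f) ↔ ∃ A, BFold s M h p A := by
  constructor
  · rintro ⟨f, ⟨w1, w2⟩, hc⟩
    rw [length_str] at w1 w2
    have lt : ∀ i < M, ∀ j < h i + p i, off h p i + j < off h p M := fun i hi j hj => by
      have := off_le h p hi; omega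
    refine ⟨fun i j => f (off h p i + j), fun i hi j hj i' hi' j' hj' e => off_inj h p hj hj'
      (w1 _ (lt i hi j hj) _ (lt i' hi' j' hj') e), fun i hi j hj => w2 _ (lt i hi _ hj),
      fun i hi => ?_, fun x => (hc x).trans ⟨?_, ?_⟩⟩
    · have a1 := h1 i (by omega)
      have a2 := h1 (i + 1) hi
      have a3 := off_succ h p i
      have := w2 (off h p i + (h i + p i - 1)) (by have := lt (i + 1) hi 0 (by omega); omega)
      rwa [show off h p i + (h i + p i - 1) + 1 = off h p (i + 1) + 0 by omega] at this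
    · rintro ⟨n, hn, rfl⟩
      obtain ⟨i, hi, j, hj, rfl⟩ := exists_off h p (length_str h p M ▸ lt_of_getD hn)
      exact ⟨i, hi, j, (getD_str h p hi hj).1 hn, rfl⟩
    · rintro ⟨i, hi, j, hj, rfl⟩
      exact ⟨_, (getD_str h p hi (by omega)).2 hj, rfl⟩
  · rintro ⟨A, hA⟩
    have : ∀ n, ∃ x : Pt, ∀ i, ∀ j < h i + p i, n = off h p i + j → x = A i j := by
      intro n
      by_cases hn : ∃ i, ∃ j < h i + p i, n = off h p i + j
      · obtain ⟨i, j, hj, rfl⟩ := hn
        refine ⟨A i j, fun i' j' hj' e => ?_⟩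
        obtain ⟨rfl, rfl⟩ := off_inj h p hj hj' e
        rfl
      · exact ⟨0, fun i j hj e => absurd ⟨i, j, hj, e⟩ hn⟩
    choose f hf using this
    refine ⟨f, ⟨fun n hn n' hn' e => ?_, fun n hn => ?_⟩, fun x => (hA.cov x).trans ⟨?_, ?_⟩⟩
    · rw [length_str] at hn hn'
      obtain ⟨i, hi, j, hj, rfl⟩ := exists_off h p hn
      obtain ⟨i', hi', j', hj', rfl⟩ := exists_off h p hn'
      rw [hf _ i j hj rfl, hf _ i' j' hj' rfl] at e
      obtain ⟨rfl, rfl⟩ := hA.inj i hi j hj i' hi' j' hj' e
      rfl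
    · rw [length_str] at hn
      obtain ⟨i, hi, j, hj, rfl⟩ := exists_off h p (show n < off h p M by omega)
      rw [hf _ i j hj rfl]
      by_cases h2 : j + 1 < h i + p i
      · rw [hf _ i (j + 1) h2 (add_assoc _ _ _)]
        exact hA.step i hi j h2
      · have a3 := off_succ h p i
        have h3 : i + 1 < M := by
          by_contra h3
          obtain rfl : M = i + 1 := by omega
          omega
        have := h1 (i + 1) h3
        rw [hf _ (i + 1) 0 (by omega) (by omega), show j = h i + p i - 1 by omega]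
        exact hA.next i h3
    · rintro ⟨i, hi, j, hj, rfl⟩
      exact ⟨_, (getD_str h p hi (by omega)).2 hj, hf _ i j (by omega) rfl⟩
    · rintro ⟨n, hn, rfl⟩
      obtain ⟨i, hi, j, hj, rfl⟩ := exists_off h p (length_str h p M ▸ lt_of_getD hn)
      exact ⟨i, hi, j, (getD_str h p hi hj).1 hn, (hf _ i j hj rfl).symm⟩

/-- A finite set hit injectively by at least as many points is filled. -/
theorem fill {ι : Type} {U : Finset Pt} {I : Finset ι} {F : ι → Pt} (h1 : ∀ e ∈ I, F e ∈ U)
    (h2 : Set.InjOn F I) (h3 : U.card ≤ I.card) : ∀ x ∈ U, ∃ e ∈ I, F e = x := by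
  classical
  have : I.image F = U := eq_of_subset_of_card_le (image_subset_iff.2 h1)
    (by rwa [card_image_of_injOn h2])
  intro x hx
  exact mem_image.1 (this ▸ hx)

theorem bfold_of {s M : ℕ} {h p : ℕ → ℕ} {A : ℕ → ℕ → Pt}
    (step : ∀ i < M, ∀ j, j + 1 < h i + p i → adj (A i j) (A i (j + 1)))
    (next : ∀ i, i + 1 < M → adj (A i (h i + p i - 1)) (A (i + 1) 0))
    (cov : ∀ x, hex s x → ∃ i < M, ∃ j < h i, A i j = x)
    (cnt : ∑ i ∈ range M, h i ≤ 3 * s ^ 2 + 3 * s + 1)
    (out : ∀ i < M, ∀ j < p i, ¬ hex s (A i (h i + j)))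
    (pinj : ∀ i < M, ∀ j < p i, ∀ i' < M, ∀ j' < p i',
      A i (h i + j) = A i' (h i' + j') → i = i' ∧ j = j') : BFold s M h p A := by
  classical
  let I := (range M).sigma fun i => range (h i)
  have hI : I.card ≤ (hexF s).card := by rw [card_hexF]; simpa [I] using cnt
  have hsub : hexF s ⊆ I.image fun e => A e.1 e.2 := fun x hx => by
    obtain ⟨i, hi, j, hj, rfl⟩ := cov x (mem_hexF.1 hx)
    exact mem_image.2 ⟨⟨i, j⟩, by simp [I, hi, hj], rfl⟩
  have heq := eq_of_subset_of_card_le hsub (card_image_le.trans hI)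
  have hinj : Set.InjOn (fun e : Σ _ : ℕ, ℕ => A e.1 e.2) I :=
    card_image_iff.1 (le_antisymm card_image_le (by rw [← heq]; exact hI))
  have hin : ∀ i < M, ∀ j < h i, hex s (A i j) := fun i hi j hj => by
    rw [← mem_hexF, heq]
    exact mem_image.2 ⟨⟨i, j⟩, by simp [I, hi, hj], rfl⟩
  refine ⟨fun i hi j hj i' hi' j' hj' e => ?_, step, next, fun x => ⟨cov x, ?_⟩⟩
  · by_cases a : j < h i <;> by_cases a' : j' < h i'
    · have := @hinj ⟨i, j⟩ (by simp [I, hi, a]) ⟨i', j'⟩ (by simp [I, hi', a']) e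
      simpa using this
    · have := out i' hi' (j' - h i') (by omega)
      rw [show h i' + (j' - h i') = j' by omega, ← e] at this
      exact absurd (hin i hi j a) this
    · have := out i hi (j - h i) (by omega)
      rw [show h i + (j - h i) = j by omega, e] at this
      exact absurd (hin i' hi' j' a') this
    · have := pinj i hi (j - h i) (by omega) i' hi' (j' - h i') (by omega) (by
        rwa [show h i + (j - h i) = j by omega, show h i' + (j' - h i') = j' by omega])
      obtain ⟨rfl, e2⟩ := this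
      omega
  · rintro ⟨i, hi, j, hj, rfl⟩
    exact hin i hi j hj

end Pool.Agent.Lib.MP_dec383_lc
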