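import Pool.Agent.Lib.MP_dec383_lc.Fold
import Pool.Agent.Lib.MP_dec383_lc.UN

/-! The folding problem is in NP. -/

namespace Pool.Agent.Lib.MP_dec383_lc

open Pool.Agent.Lib.helper82 N487b59b3

def adjN (p q : ℕ × ℕ) : Bool :=
  (decide (q.1 = p.1 + 1) && decide (q.2 = p.2)) || (decide (q.1 + 1 = p.1) && decide (q.2 = p.2)) ||
  (decide (q.1 = p.1) && decide (q.2 = p.2 + 1)) || (decide (q.1 = p.1) && decide (q.2 + 1 = p.2)) ||
  (decide (q.1 = p.1 + 1) && decide (q.2 + 1 = p.2)) ||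
  (decide (q.1 + 1 = p.1) && decide (q.2 = p.2 + 1))

def ptOf (W : List (ℕ × ℕ)) (i : ℕ) : Pt := ((W.getD i (0, 0)).1, (W.getD i (0, 0)).2)

theorem adjN_iff (W : List (ℕ × ℕ)) (i j : ℕ) :
    adjN (W.getD i (0, 0)) (W.getD j (0, 0)) = true ↔ adj (ptOf W i) (ptOf W j) := by
  simp only [adjN, adj, ptOf, Bool.or_eq_true, Bool.and_eq_true, decide_eq_true_eq]
  omega

theorem adjN_pt {α : Type} [Enc α] {p q : α → ℕ × ℕ} (hp : PT p) (hq : PT q) :
    PT fun a => adjN (p a) (q a) := by
  have a1 := PT.fst hp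
  have a2 := PT.snd hp
  have b1 := PT.fst hq
  have b2 := PT.snd hq
  exact PT.or (PT.or (PT.or (PT.or (PT.or (PT.and (PT.eq b1 a1.succ) (PT.eq b2 a2))
    (PT.and (PT.eq b1.succ a1) (PT.eq b2 a2))) (PT.and (PT.eq b1 a1) (PT.eq b2 a2.succ)))
    (PT.and (PT.eq b1 a1) (PT.eq b2.succ a2))) (PT.and (PT.eq b1 a1.succ) (PT.eq b2.succ a2)))
    (PT.and (PT.eq b1.succ a1) (PT.eq b2 a2.succ))

def walkB (s : List Bool) (W : List (ℕ × ℕ)) : Bool :=
  (List.range s.length).all fun i => (List.range s.length).all fun j =>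
    (!decide (W.getD i (0, 0) = W.getD j (0, 0)) || decide (i = j)) &&
    (!decide (j = i + 1) || adjN (W.getD i (0, 0)) (W.getD j (0, 0)))

def conN (s : List Bool) (W : List (ℕ × ℕ)) : ℕ :=
  ((List.range s.length).map fun i => ((List.range s.length).map fun j =>
    bif s.getD i false && s.getD j false && decide (i + 2 ≤ j) &&
      adjN (W.getD i (0, 0)) (W.getD j (0, 0)) then 1 else 0).sum).sum

theorem walkB_iff (s : List Bool) (W : List (ℕ × ℕ)) :
    walkB s W = true ↔ Walk s.length (ptOf W) := by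
  have e : ∀ i j, W.getD i (0, 0) = W.getD j (0, 0) ↔ ptOf W i = ptOf W j := fun i j => by
    simp only [ptOf, Prod.ext_iff, Nat.cast_inj]
  simp only [walkB, Walk, List.all_eq_true, List.mem_range, Bool.and_eq_true, Bool.or_eq_true,
    Bool.not_eq_true', decide_eq_false_iff_not, decide_eq_true_eq, adjN_iff, e]
  constructor
  · intro h
    refine ⟨fun i hi j hj hij => (h i hi j hj).1.resolve_left fun h' => h' hij, fun i hi => ?_⟩
    exact (h i (by omega) (i + 1) hi).2.resolve_left fun h' => h' rfl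
  · rintro ⟨h1, h2⟩ i hi j hj
    refine ⟨or_iff_not_imp_left.2 fun h => h1 i hi j hj (not_not.1 h),
      or_iff_not_imp_left.2 fun h => ?_⟩
    obtain rfl := not_not.1 h
    exact h2 i hj

theorem sum_range_list (F : ℕ → ℕ) (n : ℕ) :
    ((List.range n).map F).sum = ∑ i ∈ Finset.range n, F i := by
  rw [← List.sum_toFinset _ List.nodup_range, List.toFinset_range]

theorem conN_eq (s : List Bool) (W : List (ℕ × ℕ)) : conN s W = con s (ptOf W) := by
  simp only [conN, sum_range_list]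
  rw [← Finset.sum_product', con]
  have : ((hs s ×ˢ hs s).filter fun e => e.1 + 2 ≤ e.2 ∧ adj (ptOf W e.1) (ptOf W e.2)) =
      (Finset.range s.length ×ˢ Finset.range s.length).filter fun e =>
        (s.getD e.1 false && s.getD e.2 false && decide (e.1 + 2 ≤ e.2) &&
          adjN (W.getD e.1 (0, 0)) (W.getD e.2 (0, 0))) = true := by
    ext e
    simp only [hs, Finset.mem_filter, Finset.mem_product, Bool.and_eq_true, decide_eq_true_eq,
      adjN_iff]
    tauto
  rw [this, Finset.card_filter]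
  exact Finset.sum_congr rfl fun e _ => by rw [Bool.cond_eq_ite]

theorem walk_bound {n : ℕ} {f : ℕ → Pt} (hf : Walk n f) : ∀ i < n,
    (f 0).1 - i ≤ (f i).1 ∧ (f i).1 ≤ (f 0).1 + i ∧ (f 0).2 - i ≤ (f i).2 ∧ (f i).2 ≤ (f 0).2 + i
  | 0, _ => by simp
  | i + 1, hi => by
    have h1 := walk_bound hf i (by omega)
    have h2 := hf.2 i hi
    unfold adj at h2
    omega

theorem exists_nat_walk {s : List Bool} {f : ℕ → Pt} (hf : Walk s.length f) :
    ∃ W : List (ℕ × ℕ), W.length = s.length ∧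
      (∀ a ∈ W, a.1 ≤ 2 * s.length ∧ a.2 ≤ 2 * s.length) ∧ Walk s.length (ptOf W) ∧
      con s (ptOf W) = con s f := by
  let W : List (ℕ × ℕ) := (List.range s.length).map fun i =>
    (((f i).1 - (f 0).1 + s.length).toNat, ((f i).2 - (f 0).2 + s.length).toNat)
  have e : ∀ i < s.length, ptOf W i =
      ((f i).1 - (f 0).1 + s.length, (f i).2 - (f 0).2 + s.length) := fun i hi => by
    have := walk_bound hf i hi
    simp only [ptOf, W, List.getD_eq_getElem?_getD, List.getElem?_map, List.getElem?_range hi,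
      Option.map_some, Option.getD_some, Prod.mk.injEq]
    omega
  have e2 : ∀ i < s.length, ∀ j < s.length, adj (ptOf W i) (ptOf W j) ↔ adj (f i) (f j) := by
    intro i hi j hj
    rw [e i hi, e j hj]
    unfold adj
    dsimp only
    omega
  refine ⟨W, by simp [W], fun a ha => ?_, ⟨fun i hi j hj h => hf.1 i hi j hj ?_, fun i hi =>
    (e2 i (by omega) _ hi).2 (hf.2 i hi)⟩, ?_⟩
  · obtain ⟨i, hi, rfl⟩ := List.mem_map.1 ha
    have := walk_bound hf i (List.mem_range.1 hi)
    have := List.mem_range.1 hi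
    dsimp only
    omega
  · rw [e i hi, e j hj, Prod.mk.injEq] at h
    exact Prod.ext (by omega) (by omega)
  · unfold con
    congr 1
    refine Finset.filter_congr fun x hx => and_congr Iff.rfl ?_
    rw [Finset.mem_product, mem_hs, mem_hs] at hx
    exact e2 _ (lt_of_getD hx.1) _ (lt_of_getD hx.2)

abbrev SW := List Bool × List (ℕ × ℕ)

theorem getW1 : PT fun p : (SW × ℕ) × ℕ => p.1.1.2.getD p.1.2 (0, 0) :=
  ptGetD (PT.snd (PT.fst PT.fst')) (PT.snd PT.fst') _

theorem getW2 : PT fun p : (SW × ℕ) × ℕ => p.1.1.2.getD p.2 (0, 0) :=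
  ptGetD (PT.snd (PT.fst PT.fst')) PT.snd' _

theorem walkB_pt : PT fun p : SW => walkB p.1 p.2 :=
  PT.all (P := fun (p : SW) i => (List.range p.1.length).all fun j =>
      (!decide (p.2.getD i (0, 0) = p.2.getD j (0, 0)) || decide (i = j)) &&
      (!decide (j = i + 1) || adjN (p.2.getD i (0, 0)) (p.2.getD j (0, 0)))) (PT.range PT.fst')
    (PT.all (P := fun (p : SW × ℕ) j =>
      (!decide (p.1.2.getD p.2 (0, 0) = p.1.2.getD j (0, 0)) || decide (p.2 = j)) &&
      (!decide (j = p.2 + 1) || adjN (p.1.2.getD p.2 (0, 0)) (p.1.2.getD j (0, 0))))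
      (PT.range (PT.fst PT.fst'))
      (PT.and (PT.or (PT.not (PT.eq getW1 getW2)) (PT.eq (PT.snd PT.fst') PT.snd'))
        (PT.or (PT.not (PT.eq PT.snd' (PT.snd PT.fst').succ)) (adjN_pt getW1 getW2))))

theorem conN_un : UN fun p : SW => conN p.1 p.2 :=
  UN.sum (f := fun (p : SW) i => ((List.range p.1.length).map fun j =>
      bif p.1.getD i false && p.1.getD j false && decide (i + 2 ≤ j) &&
        adjN (p.2.getD i (0, 0)) (p.2.getD j (0, 0)) then 1 else 0).sum) (PT.range PT.fst')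
    (UN.sum (f := fun (p : SW × ℕ) j =>
      bif p.1.1.getD p.2 false && p.1.1.getD j false && decide (p.2 + 2 ≤ j) &&
        adjN (p.1.2.getD p.2 (0, 0)) (p.1.2.getD j (0, 0)) then 1 else 0)
      (PT.range (PT.fst PT.fst'))
      (UN.cond (PT.and (PT.and (PT.and (ptGetD (PT.fst (PT.fst PT.fst')) (PT.snd PT.fst') _)
        (ptGetD (PT.fst (PT.fst PT.fst')) PT.snd' _))
        (PT.le (PT.add (PT.snd PT.fst') (PT.const 2)) PT.snd')) (adjN_pt getW1 getW2))
        (UN.const 1) (UN.const 0)))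

theorem hp_np : HP ∈ N68a2faeb.NP := by
  obtain ⟨p, hp, ep⟩ := (Prs.list Prs.bool).prod Prs.nat
  obtain ⟨q, hq, eq⟩ := Prs.list (Prs.nat.prod Prs.nat)
  have h1 : PT fun a : List Bool × List Bool => p a.1 := PT.comp hp PT.fst'
  have h2 : PT fun a : List Bool × List Bool => ((p a.1).1, q a.2) :=
    PT.pair (PT.fst h1) (PT.comp hq PT.snd')
  have h3 : PT fun a : List Bool × List Bool => decide (enc (p a.1) = a.1) &&
      walkB (p a.1).1 (q a.2) && decide ((p a.1).2 ≤ conN (p a.1).1 (q a.2)) :=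
    PT.and (PT.and (PT.eq (PT.comp PT.encList h1) PT.fst') (PT.comp walkB_pt h2 :))
      (PT.le (PT.snd h1) (PT.comp conN_un.pt h2 :))
  refine ⟨Polynomial.X * (12 * Polynomial.X + 3), _, h3.isPolyTime, fun x => ?_⟩
  simp only [HP, decide_eq_true_eq, Bool.and_eq_true, walkB_iff, conN_eq, folding_iff]
  constructor
  · rintro ⟨s, k, rfl, f, hf, hk⟩
    obtain ⟨W, i1, i2, i3, i4⟩ := exists_nat_walk hf
    have e1 : p (bitEncode (s, k)) = (s, k) := ep _
    refine ⟨enc W, ?_, by rw [e1, eq, i4]; exact ⟨⟨rfl, i3⟩, hk⟩⟩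
    have i5 := sz_le_of_forall (6 * s.length + 1) W fun a ha => by
      obtain ⟨u, v⟩ := a
      have := i2 _ ha
      have := sz_nat_le_self u
      have := sz_nat_le_self v
      rw [sz_prod]
      dsimp only at *
      omega
    have i6 : s.length ≤ (bitEncode (s, k)).length := by
      have := length_le_sz s
      have h : sz (s, k) = _ := sz_prod s k
      exact this.trans (by unfold sz enc at *; omega)
    simp only [Polynomial.eval_mul, Polynomial.eval_X, Polynomial.eval_add, Polynomial.eval_ofNat]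
    rw [i1] at i5
    refine i5.trans ?_
    nlinarith
  · rintro ⟨w, -, ⟨i1, i2⟩, i3⟩
    exact ⟨(p x).1, (p x).2, i1, _, i2, i3⟩

end Pool.Agent.Lib.MP_dec383_lc
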