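import Pool.Agent.Lib.MP_dec383_lc.Bins

/-! All stretches of the folding put together. -/

namespace Pool.Agent.Lib.MP_dec383_lc

open Finset

theorem assemble {h p c j L pl : ℕ → ℕ} {s t R q z P F : ℕ} {Cl : ℕ → ℕ → Set Pt} (hq : 1 ≤ q)
    (es : s = q * (2 * t + 2) + 6) (ez : 2 * z = s + 2) (ht : R + 2 ≤ t) (hRe : R % 2 = 0)
    (hF : 2 * F + q * (t * (3 * t + 3)) = 2 * (3 * (s - 2) ^ 2 + 3 * (s - 2) + 1))
    (c0 : c 0 = 0) (j0 : j 0 = 0) (hcj : ∀ τ, c τ < q ∧ j τ ≤ R + 1) (hjP : ∀ τ < P, j τ < R)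
    (hend : ∀ b < q, c (P + b) = b ∧ j (P + b) = R)
    (hsur : ∀ b < q, ∀ k < R, ∃ τ < P, c τ = b ∧ j τ = k)
    (hmon : ∀ τ τ', τ < τ' → τ' ≤ P + q → c τ = c τ' → j τ < j τ')
    (hst : ∀ τ < P + q, (c (τ + 1) = c τ ∧ j (τ + 1) = j τ + 1) ∨
        (j τ % 2 = 0 ∧ j (τ + 1) % 2 = 0 ∧ c (τ + 1) = c τ + 1) ∨
        (j τ % 2 = 1 ∧ j (τ + 1) % 2 = 1 ∧ c (τ + 1) + 1 = c τ))
    (hpl : ∀ τ, pl τ = (τ + 2) * (2 * s))
    (h0 : h 0 = F + 1 + 1) (h1 : h 1 = 2) (h2 : h 2 = 4) (hw : ∀ b < q, h (3 + b) = 3 * t + 4)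
    (hA : ∀ k < z, h (3 + q + k) = 4) (hA2 : h (3 + q + z) = 2)
    (hA3 : ∀ k < s - 1, h (3 + q + z + 1 + k) = 4) (hA4 : h (3 + q + z + s) = 3)
    (hA5 : h (3 + q + z + s + 1) = 1) (hA6 : ∀ k < s - 2, h (3 + q + z + s + 2 + k) = 4)
    (hp0 : ∀ k, 1 ≤ p k)
    (hp1 : ∀ k, k + 1 < 3 + q + z + s + s → p k = 1) (h12 : p (3 + q + z + s + s - 1) = 12)
    (hB1 : ∀ τ < P, h (3 + q + z + s + s + τ) = L τ + 2 ∧ p (3 + q + z + s + s + τ) = pl τ)
    (hB2 : ∀ b < q, ∀ k < t - R, h (3 + q + z + s + s + P + b * (t - R) + k) = 4 ∧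
      p (3 + q + z + s + s + P + b * (t - R) + k) = if k + 1 = t - R then pl (P + b) else 1)
    (hCl1 : ∀ b < q, ∀ τ < P, c τ = b →
      Run (L τ) ((j τ : ℤ), 0) (2 * (t : ℤ) - 1 - j τ, 0) (Cl b (j τ)))
    (hCl2 : ∀ b < q, ∀ x y : ℤ, 0 ≤ x → 0 ≤ y → y < t → x + y < 2 * t →
      (y = 0 ∧ (R : ℤ) ≤ x ∧ x < 2 * t - R) ∨ ∃ k < R, (x, y) ∈ Cl b k)
    (cnt : ∑ i ∈ range (3 + q + z + s + s + P + q * (t - R)), h i ≤ 3 * s ^ 2 + 3 * s + 1) :
    ∃ A, BFold s (3 + q + z + s + s + P + q * (t - R)) h p A := by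
  have hs8 : 8 ≤ s := by
    have : 2 * t + 2 ≤ q * (2 * t + 2) := Nat.le_mul_of_pos_left _ hq
    omega
  obtain ⟨u, r0⟩ := filler t q s F es hF
  have sR := rim_seg s z (3 + q) ez (by omega) hA hA2 hA3 hA4 hA5 hA6 hp1 h12
  clear hA hA2 hA3 hA4 hA5 hA6 h12 hF
  obtain ⟨X, hXd⟩ : ∃ X : ℕ → ℤ, ∀ b, X b = s - 1 - (b + 1) * (2 * t + 2) := ⟨_, fun _ => rfl⟩
  have hX : ∀ b, X (b + 1) = X b - (2 * t + 2) := fun b => by rw [hXd, hXd]; push_cast; ring
  have hX0 : X 0 = s - 3 - 2 * t := by rw [hXd]; push_cast; ring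
  have hXq : X q = 3 - 2 * t := by rw [hXd, es]; push_cast; ring
  have hXm : ∀ b b', b < b' → X b' + (2 * t + 2) ≤ X b := fun b b' hb => by
    induction hb with
    | refl => rw [hX]; omega
    | step _ ih => rw [hX]; omega
  have hXt : ∀ b b', (b < b' → X b' + (2 * t + 2) ≤ X b) ∧ (b' < b → X b + (2 * t + 2) ≤ X b') ∧
      (b = b' → X b = X b') := fun b b' => ⟨hXm b b', hXm b' b, congrArg X⟩
  obtain ⟨v, sB⟩ := bins (h := h) (p := p) (s := s) (t := t) (R := R) (q := q)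
    (P := P) (i := (3 + q + z + s + s)) (X := X) (L := L) (pl := pl) (Cl := Cl) (by omega)
    hRe hX hX0 (fun b hb => by have := hXm b q hb; omega) c0 j0 hcj hjP hend hsur hmon hst
    (fun τ τ' d => by
      have : (τ + 2) * (2 * s) + s ≤ (τ' + 2) * (2 * s) := by nlinarith
      rw [hpl, hpl]; exact_mod_cast this)
    (fun τ => by
      have : s ≤ (τ + 2) * (2 * s) := by nlinarith
      rw [hpl]; exact_mod_cast this) hB1 hB2 (fun τ hτ => hCl1 _ (hcj τ).1 τ hτ rfl) hCl2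
  have s0 := Seg.one h0 (hp1 0 (by omega))
    ((r0.snoc ((s : ℤ) - 1, -(s : ℤ) + 2) (by dsimp only [adj]; omega)).snoc
      ((s : ℤ), -(s : ℤ) + 2) (by dsimp only [adj]; omega))
    (Link.single (w := ((s : ℤ) + 1, -(s : ℤ) + 1)) (v := ((s : ℤ), -(s : ℤ) + 1))
      (by dsimp only [adj]; omega) (by dsimp only [adj]; omega))
  have s1 := Seg.one h1 (hp1 1 (by omega))
    (runPair (u := ((s : ℤ), -(s : ℤ) + 1)) (v := ((s : ℤ), -(s : ℤ))) (by dsimp only [adj]; omega))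
    (Link.single (w := ((s : ℤ), -(s : ℤ) - 1)) (v := ((s : ℤ) - 1, -(s : ℤ)))
      (by dsimp only [adj]; omega) (by dsimp only [adj]; omega))
  have s2 := Seg.one h2 (hp1 2 (by omega))
    (rhombus ((s : ℤ) - 1, -(s : ℤ)) ((s : ℤ) - 2, -(s : ℤ)) (0, 1)
      (by dsimp only [adj, Prod.mk_add_mk]; omega) (by dsimp only [adj, Prod.mk_add_mk]; omega)
      (by dsimp only [adj, Prod.mk_add_mk]; omega))
    (Link.single (w := ((s : ℤ) - 2, -(s : ℤ) - 1)) (v := ((s : ℤ) - 3, -(s : ℤ)))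
      (by dsimp only [adj]; omega) (by dsimp only [adj]; omega))
  have s3 := (Seg.chain (h := h) (p := p) q (fun b => 3 + b)
    (fun b => (X b + 2 * t, -(s : ℤ))) _ (fun b => {(X b - 1, -(s : ℤ) - 1)})
    (fun b hb => Seg.one (hw b hb) (hp1 _ (by omega)) (runWall s (X b) t)
      (Link.single (by dsimp only [adj]; omega) (by have := hX b; dsimp only [adj]; omega)))
    (fun b b' d _ x hx hx' => by
      have := hXm b b' d
      have := congrArg Prod.fst (hx.symm.trans hx')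
      dsimp only at this
      omega)).congr (j1 := 3 + q) (u' := ((s : ℤ) - 3, -(s : ℤ))) (v' := (3, -(s : ℤ))) rfl rfl
      (by congr 1; omega) (by congr 1; omega) subset_rfl subset_rfl
  have hfind : ∀ x : ℤ, 4 ≤ x → x ≤ s - 3 → ∃ b < q, X b - 1 ≤ x ∧ x ≤ X b + 2 * t := by
    intro x d1 d2
    have key : ∀ n, X n + 2 * t < x → ∃ b < n, X b - 1 ≤ x ∧ x ≤ X b + 2 * t := fun n => by
      induction n with
      | zero => omega
      | succ n ih =>
        intro d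
        by_cases e : X n + 2 * t < x
        · obtain ⟨b, b1, b2⟩ := ih e
          exact ⟨b, by omega, b2⟩
        · exact ⟨n, by omega, by have := hX n; omega, by omega⟩
    exact key q (by omega)
  refine Seg.final (((((s0.trans s1 ?_).trans s2 ?_).trans s3 ?_).trans sR ?_).trans sB ?_)
    (fun i _ => hp0 i) ?_ ?_ cnt
  · rintro ⟨x, y⟩ d1 d2
    simp only [Set.mem_singleton_iff, Prod.mk.injEq] at d1 d2
    omega
  · rintro ⟨x, y⟩ d1 d2
    simp only [Set.mem_union, Set.mem_singleton_iff, Prod.mk.injEq] at d1 d2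
    omega
  · rintro ⟨x, y⟩ d1 ⟨b, -, d2⟩
    have := hXt 0 b
    simp only [Set.mem_union, Set.mem_singleton_iff, Prod.mk.injEq] at d1 d2
    omega
  · rintro ⟨x, y⟩ (d1 | ⟨b, hb, d1⟩) d2
    · simp only [rimOut, Set.mem_union, Set.mem_singleton_iff, Prod.mk.injEq,
        Set.mem_ofPred_eq] at d1 d2
      omega
    · have := hXt 0 b
      have := hXm b q hb
      simp only [rimOut, Set.mem_singleton_iff, Prod.mk.injEq, Set.mem_ofPred_eq] at d1 d2
      omega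
  · rintro ⟨x, y⟩ ((d1 | ⟨b, hb, d1⟩) | d1) ⟨d2, d3, d4, d5⟩ <;> dsimp only at d2 d3 d4 d5
    · simp only [Set.mem_union, Set.mem_singleton_iff, Prod.mk.injEq] at d1
      omega
    · simp only [Set.mem_singleton_iff, Prod.mk.injEq] at d1
      obtain ⟨b', d6⟩ := d5 d1.2
      have := hXt b b'
      omega
    · simp only [rimOut, Set.mem_ofPred_eq] at d1
      omega
  · rintro ⟨x, y⟩ hx
    have hx' := hx
    unfold hex at hx'
    dsimp only at hx'
    by_cases dJ : ∃ b < q, X b - 1 ≤ x ∧ x ≤ X b + 2 * t ∧ x + y ≤ X b + 2 * t - s + 1 ∧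
        y ≤ -s + 1 + t
    · obtain ⟨b, hb, d1, d2, d3, d4⟩ := dJ
      by_cases dI : X b ≤ x ∧ x < X b + 2 * t ∧ y < -s + 1 + t ∧ x + y < X b + 2 * t - s + 1
      · exact Or.inr ⟨b, hb, by dsimp only; omega⟩
      · refine Or.inl (Or.inl (Or.inr ⟨b, hb, ?_⟩))
        rw [Set.mem_ofPred_eq]; dsimp only; omega
    by_cases d0 : hex ((s : ℤ) - 2) (x, y)
    · refine Or.inl (Or.inl (Or.inl (Or.inl (Or.inl (Or.inr (Or.inr ⟨d0, fun b hb d => dJ
        ⟨b, hb, ?_⟩⟩))))))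
      have b1 := hXd b
      have b2 : ((b : ℤ) + 1) * (2 * t + 2) = b * (2 * t + 2) + (2 * t + 2) := by ring
      unfold hex at d0
      dsimp only at d d0
      omega
    by_cases dR : x ≤ 3 ∨ -s + 3 ≤ y
    · exact Or.inl (Or.inr ⟨hx, d0, dR⟩)
    unfold hex at d0
    dsimp only at d0
    have dx : s - 2 ≤ x := by
      by_contra d
      obtain ⟨b, hb, d1, d2⟩ := hfind x (by omega) (by omega)
      exact dJ ⟨b, hb, d1, d2, by omega, by omega⟩
    refine Or.inl (Or.inl (Or.inl ?_))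
    simp only [Set.mem_union, Set.mem_insert_iff, Set.mem_ofPred_eq, Prod.mk.injEq,
      Prod.mk_add_mk]
    by_cases d1 : y = -s + 2
    · exact Or.inl (Or.inl (by rw [← or_assoc]; exact Or.inl (by omega)))
    by_cases d2 : x = s
    · exact Or.inl (Or.inr (by omega))
    · exact Or.inr (by omega)
  · rintro ⟨x, y⟩ (((d1 | ⟨b, hb, d1⟩) | d1) | d1) <;>
      simp only [rimOut, Set.mem_union, Set.mem_singleton_iff, Prod.mk.injEq,
        Set.mem_ofPred_eq] at d1 <;> unfold hex <;> dsimp only <;> omega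

end Pool.Agent.Lib.MP_dec383_lc
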