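import Pool.Agent.Lib.MP_dec383_lc.Rim

/-! The passes through the bins and the arcs that join them. -/

namespace Pool.Agent.Lib.MP_dec383_lc

open Finset

variable {h p : ℕ → ℕ}

/-- A set that contains the arc of length `n` between the columns `a` and `b`. -/
def farc (s a b : ℤ) (n : ℕ) : Set Pt :=
  {u | u.2 < -s ∧ min a b ≤ u.1 ∧ u.1 ≤ max a b ∧ 2 * (-s - u.2) ≤ n + 1 ∧
    (u.1 = a ∨ u.1 = b ∨ n + 1 - (max a b - min a b) ≤ 2 * (-s - u.2))}

theorem link_farc (s a b : ℤ) (n : ℕ) (hab : a ≠ b) (hn : max a b - min a b + 2 ≤ n) :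
    Link n (a, -s) (b, -s) (farc s a b n) := by
  rcases lt_or_gt_of_ne hab with c | c
  · refine (arc s a b n ((n + 2 - (b - a)) / 2).toNat c (by omega) (by omega)).mono ?_
    rintro ⟨x, y⟩ hx
    simp only [arcSet, farc, Set.mem_ofPred_eq] at hx ⊢
    omega
  · refine (arc s b a n ((n + 2 - (a - b)) / 2).toNat c (by omega) (by omega)).rev.mono ?_
    rintro ⟨x, y⟩ hx
    simp only [arcSet, farc, Set.mem_ofPred_eq] at hx ⊢
    omega

/-- Column through which layer `j` is entered. -/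
def ent (t : ℕ) (X : ℤ) (j : ℕ) : ℤ := if j % 2 = 0 then X + 2 * t - 1 - j else X + j

/-- Column through which layer `j` is left. -/
def ext (t : ℕ) (X : ℤ) (j : ℕ) : ℤ := if j % 2 = 0 then X + j else X + 2 * t - 1 - j

theorem pass {s X : ℤ} {t j L : ℕ} {C : Set Pt} (hr : Run L ((j : ℤ), 0) (2 * (t : ℤ) - 1 - j, 0) C) :
    Run (L + 2) (ent t X j, -s) (ext t X j, -s)
      {u | u = (X + j, -s) ∨ u = (X + 2 * t - 1 - j, -s) ∨ u - (X, -s + 1) ∈ C} := by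
  have h1 : Run (L + 2) (X + j, -s) (X + 2 * t - 1 - j, -s)
      {u | u = (X + j, -s) ∨ u = (X + 2 * t - 1 - j, -s) ∨ u - (X, -s + 1) ∈ C} := by
    refine (((hr.shift (X, -s + 1)).cons (X + j, -s) ?_).snoc (X + 2 * t - 1 - j, -s) ?_).mono ?_
    · dsimp only [adj, Prod.mk_add_mk]; omega
    · dsimp only [adj, Prod.mk_add_mk]; omega
    · rintro u (a | a | a)
      · exact Or.inr (Or.inl a)
      · exact Or.inl a
      · exact Or.inr (Or.inr a)
  unfold ent ext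
  split_ifs
  · exact h1.rev
  · exact h1

theorem comb {s X : ℤ} {t R i n : ℕ} {v : Pt} {T : Set Pt} (hR : R < t)
    (hh : ∀ k < t - R, h (i + k) = 4 ∧ p (i + k) = if k + 1 = t - R then n else 1)
    (hl : Link n (X + R, -s) v T)
    (hT : ∀ x, X + R + 2 ≤ x → x ≤ X + 2 * t - 2 - R → (x, -s - 1) ∉ T) :
    Seg h p i (i + (t - R)) (X + 2 * t - 1 - R, -s) v
      {u | X + R ≤ u.1 ∧ u.1 < X + 2 * t - R ∧ (u.2 = -s ∨ u.2 = -s + 1)}
      (T ∪ {u | u.2 = -s - 1 ∧ X + R + 2 ≤ u.1 ∧ u.1 ≤ X + 2 * t - 2 - R}) := by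
  have s1 := seg_rh (h := h) (p := p) i (t - R - 1) (fun π => (X + 2 * t - 1 - R - π, -s))
    (fun k => (X + 2 * t - 2 - R - 2 * k, -s - 1)) (0, 1)
    (fun k hk => by have := hh k (by omega); rwa [if_neg (by omega)] at this)
    (fun k hk => by dsimp only [adj, Prod.mk_add_mk]; omega)
    (fun k k' a b => by simp only [ne_eq, Prod.mk.injEq]; omega)
  have h2 := hh (t - R - 1) (by omega)
  rw [if_pos (by omega)] at h2
  have s2 := Seg.one h2.1 h2.2 (rhombus (X + R + 1, -s) (X + R, -s) (0, 1)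
    (by dsimp only [adj, Prod.mk_add_mk]; omega) (by dsimp only [adj, Prod.mk_add_mk]; omega)
    (by dsimp only [adj, Prod.mk_add_mk]; omega)) hl
  refine ((s1.congr rfl rfl rfl (by simp only [Prod.mk.injEq, and_true]; omega) subset_rfl
    subset_rfl).trans s2 ?_).congr rfl (by omega) (by simp) rfl ?_ ?_
  · rintro u ⟨k, hk, rfl⟩
    exact hT _ (by omega) (by omega)
  · rintro ⟨x, y⟩ ⟨a, b, c⟩
    dsimp only at a b c
    by_cases d : x ≤ X + R + 1
    · right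
      simp only [Set.mem_ofPred_eq, Prod.mk_add_mk, Prod.mk.injEq]
      omega
    · left
      refine ⟨(X + 2 * t - 1 - R - x).toNat, by omega, ?_⟩
      simp only [Prod.mk_add_mk, Prod.mk.injEq]
      omega
  · rintro u (⟨k, hk, rfl⟩ | a)
    · exact Or.inr ⟨rfl, by dsimp only; omega, by dsimp only; omega⟩
    · exact Or.inl a

theorem span_aux {t R j0 j1 j2 : ℕ} {X0 X1 X2 : ℤ} (hR : R + 2 ≤ t) (h0 : j0 ≤ R + 1)
    (h1 : j1 ≤ R + 1) (h2 : j2 ≤ R + 1)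
    (rel : (X1 = X0 ∧ j1 = j0 + 1) ∨ (j0 % 2 = 0 ∧ j1 % 2 = 0 ∧ X1 = X0 - (2 * t + 2)) ∨
      (j0 % 2 = 1 ∧ j1 % 2 = 1 ∧ X0 = X1 - (2 * t + 2)))
    (pos : (X2 = X0 ∧ X1 ≠ X0 ∧ j0 < j2) ∨ (X2 = X1 ∧ j1 ≤ j2) ∨
      (X2 + (2 * t + 2) ≤ X0 ∧ X2 + (2 * t + 2) ≤ X1) ∨
      (X0 + (2 * t + 2) ≤ X2 ∧ X1 + (2 * t + 2) ≤ X2)) :
    (ext t X2 j2 < min (ext t X0 j0) (ent t X1 j1) ∨
      max (ext t X0 j0) (ent t X1 j1) < ext t X2 j2) ∧
    ((X2 = X1 → j1 < j2) → ent t X2 j2 < min (ext t X0 j0) (ent t X1 j1) ∨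
      max (ext t X0 j0) (ent t X1 j1) < ent t X2 j2) := by
  unfold ent ext
  rcases rel with rel | rel | rel <;> rcases pos with pos | pos | pos | pos <;> split_ifs <;>
    omega

theorem inner_aux {t R j : ℕ} {X Y x : ℤ} (hR : R + 2 ≤ t) (hRe : R % 2 = 0) (hj : j ≤ R + 1)
    (hX : X + (2 * t + 2) ≤ Y ∨ Y + (2 * t + 2) ≤ X ∨ X = Y) (h1 : Y + R + 2 ≤ x)
    (h2 : x ≤ Y + 2 * t - 2 - R) : x ≠ ent t X j ∧ (j ≤ R → x ≠ ext t X j) := by
  unfold ent ext
  split_ifs <;> omega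

theorem bins {s : ℤ} {t R q P i : ℕ} {X : ℕ → ℤ} {c j L pl : ℕ → ℕ} {Cl : ℕ → ℕ → Set Pt}
    (hR : R + 2 ≤ t) (hRe : R % 2 = 0)
    (hX : ∀ b, X (b + 1) = X b - (2 * t + 2)) (hX0 : X 0 = s - 3 - 2 * t)
    (hXq : ∀ b < q, 5 ≤ X b)
    (hc0 : c 0 = 0) (hj0 : j 0 = 0) (hcj : ∀ τ, c τ < q ∧ j τ ≤ R + 1)
    (hjP : ∀ τ < P, j τ < R)
    (hend : ∀ b < q, c (P + b) = b ∧ j (P + b) = R)
    (hsur : ∀ b < q, ∀ k < R, ∃ τ < P, c τ = b ∧ j τ = k)
    (hmon : ∀ τ τ', τ < τ' → τ' ≤ P + q → c τ = c τ' → j τ < j τ')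
    (hst : ∀ τ < P + q, (c (τ + 1) = c τ ∧ j (τ + 1) = j τ + 1) ∨
        (j τ % 2 = 0 ∧ j (τ + 1) % 2 = 0 ∧ c (τ + 1) = c τ + 1) ∨
        (j τ % 2 = 1 ∧ j (τ + 1) % 2 = 1 ∧ c (τ + 1) + 1 = c τ))
    (hpl : ∀ τ τ', τ < τ' → pl τ + s ≤ pl τ') (hpl0 : ∀ τ, s ≤ pl τ)
    (h1 : ∀ τ < P, h (i + τ) = L τ + 2 ∧ p (i + τ) = pl τ)
    (h2 : ∀ b < q, ∀ k < t - R, h (i + P + b * (t - R) + k) = 4 ∧
      p (i + P + b * (t - R) + k) = if k + 1 = t - R then pl (P + b) else 1)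
    (hr : ∀ τ < P, Run (L τ) ((j τ : ℤ), 0) (2 * (t : ℤ) - 1 - j τ, 0) (Cl (c τ) (j τ)))
    (hcov : ∀ b < q, ∀ x y : ℤ, 0 ≤ x → 0 ≤ y → y < t → x + y < 2 * t →
      (y = 0 ∧ (R : ℤ) ≤ x ∧ x < 2 * t - R) ∨ ∃ k < R, (x, y) ∈ Cl b k) :
    ∃ v, Seg h p i (i + P + q * (t - R)) (s - 4, -s) v
      {u | ∃ b < q, X b ≤ u.1 ∧ u.1 < X b + 2 * t ∧ -s ≤ u.2 ∧ u.2 < -s + 1 + t ∧
        u.1 + u.2 < X b + 2 * t - s + 1}
      {u | u.2 < -s ∧ 5 ≤ u.1 ∧ u.1 ≤ s - 5 ∧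
        (u.2 = -s - 1 → ∃ b, X b ≤ u.1 ∧ u.1 < X b + 2 * t)} := by
  have hXm : ∀ b b', b < b' → X b' + (2 * t + 2) ≤ X b := fun b b' hb => by
    induction hb with
    | refl => rw [hX]; omega
    | step _ ih => rw [hX]; omega
  have hXt : ∀ b b', (b < b' → X b' + (2 * t + 2) ≤ X b) ∧ (b' < b → X b + (2 * t + 2) ≤ X b') ∧
      (b = b' → X b = X b') := fun b b' => ⟨hXm b b', hXm b' b, congrArg X⟩
  let E : ℕ → ℤ := fun τ => ent t (X (c τ)) (j τ)
  let F : ℕ → ℤ := fun τ => ext t (X (c τ)) (j τ)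
  have hE : ∀ τ, (j τ % 2 = 0 → E τ = X (c τ) + 2 * t - 1 - j τ ∧ F τ = X (c τ) + j τ) ∧
      (j τ % 2 = 1 → E τ = X (c τ) + j τ ∧ F τ = X (c τ) + 2 * t - 1 - j τ) := fun τ => by
    simp only [E, F, ent, ext]; split_ifs <;> omega
  have hrange : ∀ τ, X (c τ) ≤ E τ ∧ E τ < X (c τ) + 2 * t ∧ X (c τ) ≤ F τ ∧
      F τ < X (c τ) + 2 * t := fun τ => by have := hE τ; have := hcj τ; omega
  have hF : ∀ τ, 5 ≤ F τ ∧ F τ ≤ s - 5 := fun τ => by
    have := hE τ; have := hcj τ; have := hXq _ (hcj τ).1; have := hXt 0 (c τ); omega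
  have hE' : ∀ τ < P + q, 5 ≤ E (τ + 1) ∧ E (τ + 1) ≤ s - 5 := fun τ hτ => by
    have := hE (τ + 1); have := hcj (τ + 1); have := hXq _ (hcj (τ + 1)).1
    have := hXt 0 (c (τ + 1)); have := hmon 0 (τ + 1) (by omega) (by omega); omega
  have hspan : ∀ τ σ, τ < σ → σ ≤ P + q →
      (F σ < min (F τ) (E (τ + 1)) ∨ max (F τ) (E (τ + 1)) < F σ) ∧
      (τ + 1 < σ → E σ < min (F τ) (E (τ + 1)) ∨ max (F τ) (E (τ + 1)) < E σ) := by
    intro τ σ a b
    have a7 := hXt (c τ) (c σ)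
    have a8 := hXt (c (τ + 1)) (c σ)
    have a9 := hmon τ σ a b
    have a10 : c (τ + 1) = c σ → j (τ + 1) ≤ j σ ∧ (τ + 1 < σ → j (τ + 1) < j σ) := fun e =>
      ⟨by rcases (show τ + 1 ≤ σ from a).lt_or_eq with d | d
          · exact (hmon _ _ d b e).le
          · rw [d], fun d => hmon _ _ d b e⟩
    have a11 := hX (c τ)
    have a12 := hX (c (τ + 1))
    have key := span_aux (X0 := X (c τ)) (X1 := X (c (τ + 1))) (X2 := X (c σ)) hR (hcj τ).2
      (hcj (τ + 1)).2 (hcj σ).2 (by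
        rcases hst τ (by omega) with ⟨b1, b2⟩ | ⟨b1, b2, b3⟩ | ⟨b1, b2, b3⟩
        · exact Or.inl ⟨by rw [b1], b2⟩
        · exact Or.inr (Or.inl ⟨b1, b2, by rw [b3, a11]⟩)
        · exact Or.inr (Or.inr ⟨b1, b2, by rw [← a12, b3]⟩)) (by
        by_cases e1 : c (τ + 1) = c σ
        · exact Or.inr (Or.inl ⟨by rw [e1], (a10 e1).1⟩)
        by_cases e0 : c τ = c σ
        · exact Or.inl ⟨by rw [e0], by rw [e0]; omega, a9 e0⟩
        · have := hst τ (by omega)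
          exact Or.inr (Or.inr (by omega)))
    exact ⟨key.1, fun d => key.2 fun e => by omega⟩
  have hne : ∀ τ < P + q, F τ ≠ E (τ + 1) := fun τ hτ => by
    have a1 := hE τ
    have a2 := hE (τ + 1)
    have a4 := (hcj τ).2
    have a5 := (hcj (τ + 1)).2
    have a7 := hXt (c τ) (c (τ + 1))
    have := hst τ hτ
    omega
  have hlink : ∀ τ < P + q, Link (pl τ) (F τ, -s) (E (τ + 1), -s)
      (farc s (F τ) (E (τ + 1)) (pl τ)) := fun τ hτ =>
    link_farc _ _ _ _ (hne τ hτ) (by have := hF τ; have := hE' τ hτ; have := hpl0 τ; omega)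
  have hinner : ∀ τ < P + q, ∀ b x, X b + R + 2 ≤ x → x ≤ X b + 2 * t - 2 - R →
      (x, -s - 1) ∉ farc s (F τ) (E (τ + 1)) (pl τ) := fun τ hτ b x a1 a2 hx => by
    simp only [farc, Set.mem_ofPred_eq] at hx
    have := hF τ; have := hE' τ hτ; have := hpl0 τ
    have b1 := (inner_aux (X := X (c τ)) hR hRe (hcj τ).2 (by have := hXt b (c τ); omega)
      a1 a2).2 (by
        by_cases d : τ < P
        · exact (hjP τ d).le
        · have := (hend (τ - P) (by omega)).2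
          rw [show P + (τ - P) = τ by omega] at this
          omega)
    have b2 := (inner_aux (X := X (c (τ + 1))) hR hRe (hcj (τ + 1)).2
      (by have := hXt b (c (τ + 1)); omega) a1 a2).1
    change x ≠ F τ at b1
    change x ≠ E (τ + 1) at b2
    omega
  have hs := Seg.chain (h := h) (p := p) (P + q)
    (fun τ => if τ ≤ P then i + τ else i + P + (τ - P) * (t - R)) (fun τ => (E τ, -s))
    (fun τ => {u | (τ < P ∧ (u = (X (c τ) + j τ, -s) ∨ u = (X (c τ) + 2 * t - 1 - j τ, -s) ∨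
      u - (X (c τ), -s + 1) ∈ Cl (c τ) (j τ))) ∨ (P ≤ τ ∧ X (c τ) + R ≤ u.1 ∧
        u.1 < X (c τ) + 2 * t - R ∧ (u.2 = -s ∨ u.2 = -s + 1))})
    (fun τ => farc s (F τ) (E (τ + 1)) (pl τ) ∪ {u | P ≤ τ ∧ u.2 = -s - 1 ∧
      X (c τ) + R + 2 ≤ u.1 ∧ u.1 ≤ X (c τ) + 2 * t - 2 - R}) (fun τ hτ => ?_) ?_
  · refine ⟨_, hs.congr (by simp) ?_ ?_ rfl ?_ ?_⟩
    · split_ifs
      · obtain rfl : q = 0 := by omega
        simp
      · rw [Nat.add_sub_cancel_left]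
    · have := hE 0
      rw [hc0, hj0, hX0] at this
      simp only [Prod.mk.injEq, and_true]
      omega
    · rintro ⟨x, y⟩ ⟨b, hb, a1, a2, a3, a4, a5⟩
      dsimp only at a1 a2 a3 a4 a5
      have hb' := hend b hb
      have cmb : X b + R ≤ x → x < X b + 2 * t - R → y = -s ∨ y = -s + 1 →
          P ≤ P + b ∧ X (c (P + b)) + R ≤ x ∧ x < X (c (P + b)) + 2 * t - R ∧
            (y = -s ∨ y = -s + 1) := fun d1 d2 d3 => by rw [hb'.1]; omega
      by_cases e : y = -s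
      · by_cases e1 : x < X b + R
        · obtain ⟨τ, d1, d2, d3⟩ := hsur b hb (x - X b).toNat (by omega)
          refine ⟨τ, by omega, Or.inl ⟨d1, Or.inl ?_⟩⟩
          rw [d2, d3, Prod.mk.injEq]; omega
        by_cases e2 : X b + 2 * t - R ≤ x
        · obtain ⟨τ, d1, d2, d3⟩ := hsur b hb (X b + 2 * t - 1 - x).toNat (by omega)
          refine ⟨τ, by omega, Or.inl ⟨d1, Or.inr (Or.inl ?_)⟩⟩
          rw [d2, d3, Prod.mk.injEq]; omega
        · exact ⟨P + b, by omega, Or.inr (cmb (by omega) (by omega) (Or.inl e))⟩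
      · rcases hcov b hb (x - X b) (y - (-s + 1)) (by omega) (by omega) (by omega) (by omega) with
          d | ⟨k, hk, d⟩
        · exact ⟨P + b, by omega, Or.inr (cmb (by omega) (by omega) (by omega))⟩
        · obtain ⟨τ, d1, d2, d3⟩ := hsur b hb k hk
          refine ⟨τ, by omega, Or.inl ⟨d1, Or.inr (Or.inr ?_)⟩⟩
          rw [d2, d3]; exact d
    · rintro ⟨x, y⟩ ⟨τ, hτ, hx | hx⟩
      · simp only [farc, Set.mem_ofPred_eq] at hx ⊢
        have := hF τ; have := hE' τ hτ; have := hpl0 τ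
        refine ⟨by omega, by omega, by omega, fun e => ?_⟩
        by_cases d : x = F τ
        · exact ⟨c τ, by have := hrange τ; omega⟩
        · exact ⟨c (τ + 1), by have := hrange (τ + 1); omega⟩
      · simp only [Set.mem_ofPred_eq] at hx ⊢
        have := hXq _ (hcj τ).1
        have := hXt 0 (c τ)
        exact ⟨by omega, by omega, by omega, fun _ => ⟨c τ, by omega⟩⟩
  · by_cases a : τ < P
    · refine (Seg.one (h1 τ a).1 (h1 τ a).2 (pass (hr τ a)) (hlink τ hτ)).congr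
        (if_pos a.le).symm (if_pos a).symm rfl rfl ?_ Set.subset_union_left
      rintro u (b | b)
      · exact b.2
      · omega
    · obtain ⟨b, rfl⟩ : ∃ b, τ = P + b := ⟨τ - P, by omega⟩
      obtain ⟨b1, b2⟩ := hend b (by omega)
      have b3 := hE (P + b)
      have b4 := hlink _ hτ
      rw [b1, b2] at b3
      rw [(b3.1 hRe).2] at b4
      refine (comb (by omega) (h2 b (by omega)) b4 fun x d1 d2 => by
        rw [← (b3.1 hRe).2]; exact hinner _ hτ b x d1 d2).congr ?_ ?_ ?_ rfl ?_ ?_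
      · split_ifs
        · obtain rfl : b = 0 := by omega
          simp
        · rw [Nat.add_sub_cancel_left]
      · rw [if_neg (by omega), show P + b + 1 - P = b + 1 by omega, add_mul, one_mul, add_assoc]
      · rw [(b3.1 hRe).1]
      · rintro u (d | d)
        · omega
        · rw [b1] at d; exact d.2
      · rw [(b3.1 hRe).2, b1]
        exact Set.union_subset_union_right _ fun u d => ⟨by omega, d⟩
  · rintro τ τ' a b ⟨x, y⟩ (hx | hx) (hx' | hx')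
    · simp only [farc, Set.mem_ofPred_eq] at hx hx'
      have := (hspan τ τ' a (by omega)).1
      have := (hspan τ (τ' + 1) (by omega) (by omega)).2 (by omega)
      have := hF τ'; have := hE' τ' b; have := hpl τ τ' a
      omega
    · obtain ⟨-, rfl, d1, d2⟩ := hx'
      exact hinner τ (by omega) _ x d1 d2 hx
    · obtain ⟨-, rfl, d1, d2⟩ := hx
      exact hinner τ' b _ x d1 d2 hx'
    · simp only [Set.mem_ofPred_eq] at hx hx'
      have d1 := (hend (τ - P) (by omega)).1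
      have d2 := (hend (τ' - P) (by omega)).1
      rw [show P + (τ - P) = τ by omega] at d1
      rw [show P + (τ' - P) = τ' by omega] at d2
      have := hXm (c τ) (c τ') (by omega)
      omega

end Pool.Agent.Lib.MP_dec383_lc
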