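import Pool.Agent.Lib.MP_dec383_lc.Snake

/-! The order in which the bins are visited. -/

namespace Pool.Agent.Lib.MP_dec383_lc

/-- Bin visited at step `u` of a phase in which the bins `a, …, b` are swept three times. -/
def locB (q a b u : ℕ) : ℕ :=
  if u < 3 * a then u / 3 else if u < 2 * a + b + 1 then u - 2 * a
  else if u < a + 2 * b + 2 then 2 * a + 2 * b + 1 - u else if u < 3 * b + 3 then u - (2 * b + 2)
  else if u < 3 * q then u / 3 else 4 * q - 1 - u

/-- Layer used at step `u` of such a phase. -/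
def locL (q a b u : ℕ) : ℕ :=
  if u < 3 * a then u % 3 else if u < 2 * a + b + 1 then 0
  else if u < a + 2 * b + 2 then 1 else if u < 3 * b + 3 then 2
  else if u < 3 * q then u % 3 else 3

section
variable {q a b : ℕ} (h1 : a ≤ b) (h2 : b < q)
include h1 h2

theorem loc_lt {u : ℕ} (hu : u < 4 * q) :
    locB q a b u < q ∧ locL q a b u ≤ 3 ∧ (3 * q ≤ u → 3 ≤ locL q a b u) ∧
      (u < 3 * q → locL q a b u < 3) := by
  unfold locB locL; split_ifs <;> omega

theorem loc_surj {x k : ℕ} (hx : x < q) (hk : k < 4) :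
    ∃ u < 4 * q, locB q a b u = x ∧ locL q a b u = k := by
  refine ⟨if k = 3 then 4 * q - 1 - x else if x < a ∨ b < x then 3 * x + k else
    if k = 0 then x + 2 * a else if k = 1 then 2 * a + 2 * b + 1 - x else x + 2 * b + 2, ?_⟩
  unfold locB locL; split_ifs <;> omega

omit h2 in
theorem loc_mono {u v : ℕ} (huv : u < v) (hv : v < 4 * q) (e : locB q a b u = locB q a b v) :
    locL q a b u < locL q a b v := by
  revert e
  unfold locB locL; split_ifs <;> omega

theorem loc_step {u : ℕ} (hu : u + 1 < 4 * q) :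
    (locB q a b (u + 1) = locB q a b u ∧ locL q a b (u + 1) = locL q a b u + 1) ∨
    (locL q a b u % 2 = 0 ∧ locL q a b (u + 1) % 2 = 0 ∧ locB q a b (u + 1) = locB q a b u + 1) ∨
    (locL q a b u % 2 = 1 ∧ locL q a b (u + 1) % 2 = 1 ∧ locB q a b (u + 1) + 1 = locB q a b u) := by
  unfold locB locL; split_ifs <;> omega

omit h2 in
theorem loc_zero : locB q a b 0 = 0 ∧ locL q a b 0 = 0 := by
  unfold locB locL; split_ifs <;> omega

theorem loc_last {u : ℕ} (hu : u + 1 = 4 * q) : locB q a b u = 0 ∧ locL q a b u = 3 := by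
  unfold locB locL; split_ifs <;> omega

end

theorem loc_target {q g : ℕ} (hg : g < q) : ∃ a b, a ≤ b ∧ b < q ∧ locB q a b q = g := by
  by_cases c1 : (q + g) % 2 = 1
  · by_cases c2 : 4 * g + 1 ≤ q + g
    · exact ⟨g, (q + g - 1) / 2 - g, by omega, by omega, by unfold locB; split_ifs <;> omega⟩
    · exact ⟨(q + g - 1) / 2 - g, g, by omega, by omega, by unfold locB; split_ifs <;> omega⟩
  · by_cases c2 : q ≤ 3 * g
    · exact ⟨(q - g) / 2, g, by omega, by omega, by unfold locB; split_ifs <;> omega⟩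
    · exact ⟨0, (q - g - 2) / 2, by omega, by omega, by unfold locB; split_ifs <;> omega⟩

theorem sched (q N : ℕ) (hq : 1 ≤ q) (hN : 1 ≤ N) (g : ℕ → ℕ) (hg : ∀ i, g i < q) :
    ∃ c j : ℕ → ℕ, c 0 = 0 ∧ j 0 = 0 ∧ (∀ τ, c τ < q ∧ j τ ≤ 4 * N + 1) ∧
      (∀ τ < 4 * N * q, j τ < 4 * N) ∧
      (∀ b < q, c (4 * N * q + b) = b ∧ j (4 * N * q + b) = 4 * N) ∧
      (∀ b < q, ∀ k < 4 * N, ∃ τ < 4 * N * q, c τ = b ∧ j τ = k) ∧
      (∀ τ τ', τ < τ' → τ' ≤ 4 * N * q + q → c τ = c τ' → j τ < j τ') ∧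
      (∀ τ < 4 * N * q + q, (c (τ + 1) = c τ ∧ j (τ + 1) = j τ + 1) ∨
        (j τ % 2 = 0 ∧ j (τ + 1) % 2 = 0 ∧ c (τ + 1) = c τ + 1) ∨
        (j τ % 2 = 1 ∧ j (τ + 1) % 2 = 1 ∧ c (τ + 1) + 1 = c τ)) ∧
      (∀ i < N, c (i * (4 * q) + q) = g i) ∧
      ∀ τ < 4 * N * q, (3 * q ≤ τ ∧ τ < 4 * q) ↔ j τ = 3 := by
  choose A B hAB hB hT using fun i => loc_target (hg i)
  have hT0 : 0 < 4 * q := by omega
  obtain ⟨P, hP⟩ : ∃ P, P = 4 * N * q := ⟨_, rfl⟩
  have hP' : P = N * (4 * q) := by rw [hP]; ring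
  have hP0 : 4 * q ≤ P := by rw [hP']; exact Nat.le_mul_of_pos_left _ hN
  have hdiv : ∀ τ, τ < P ↔ τ / (4 * q) < N := fun τ => by rw [Nat.div_lt_iff_lt_mul hT0, hP']
  have hm : ∀ τ, τ % (4 * q) < 4 * q := fun τ => Nat.mod_lt _ hT0
  have hl := fun τ => loc_lt (hAB (τ / (4 * q))) (hB _) (hm τ)
  rw [← hP]
  refine ⟨fun τ => if τ < P then locB q (A (τ / (4 * q))) (B (τ / (4 * q))) (τ % (4 * q)) else
      if τ < P + q then τ - P else q - 1,
    fun τ => if τ < P then 4 * (τ / (4 * q)) +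
      locL q (A (τ / (4 * q))) (B (τ / (4 * q))) (τ % (4 * q)) else
      if τ < P + q then 4 * N else 4 * N + 1, ?_, ?_, fun τ => ?_, fun τ hτ => ?_, fun b hb => ?_,
      fun b hb k hk => ?_, fun τ τ' h1 h2 => ?_, fun τ hτ => ?_, fun i hi => ?_, fun τ hτ => ?_⟩
  · simp only [if_pos (show 0 < P by omega), Nat.zero_mod]
    exact (loc_zero (hAB _)).1
  · simp only [if_pos (show 0 < P by omega), Nat.zero_mod, Nat.zero_div]
    have := (loc_zero (q := q) (hAB 0)).2
    omega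
  · have := hl τ
    have := hdiv τ
    beta_reduce; split_ifs <;> omega
  · have := hl τ
    have := hdiv τ
    beta_reduce; split_ifs <;> omega
  · beta_reduce; split_ifs <;> omega
  · obtain ⟨u, hu, e1, e2⟩ := loc_surj (hAB (k / 4)) (hB _) hb (Nat.mod_lt k (by omega))
    have a1 : (k / 4 * (4 * q) + u) / (4 * q) = k / 4 := by
      rw [mul_comm, Nat.mul_add_div hT0, Nat.div_eq_of_lt hu, add_zero]
    have a2 : (k / 4 * (4 * q) + u) % (4 * q) = u := Nat.mul_add_mod_of_lt hu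
    have a3 : k / 4 * (4 * q) + u < P := (hdiv _).2 (by omega)
    refine ⟨k / 4 * (4 * q) + u, a3, ?_⟩
    simp only [if_pos a3, a1, a2, e1, e2, true_and]
    omega
  · have a1 := hl τ
    have a2 := hl τ'
    have a3 := hdiv τ
    have a4 := hdiv τ'
    have a5 : τ / (4 * q) ≤ τ' / (4 * q) := Nat.div_le_div_right h1.le
    beta_reduce
    split_ifs <;> try omega
    intro e
    rcases a5.lt_or_eq with a6 | a6
    · omega
    · have b1 := Nat.div_add_mod τ (4 * q)
      have b2 := Nat.div_add_mod τ' (4 * q)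
      rw [a6] at b1 e ⊢
      have := loc_mono (hAB _) (by omega) (hm τ') e
      omega
  · have a3 := hdiv τ
    have a4 := hdiv (τ + 1)
    beta_reduce
    rcases succ_divmod hT0 τ with ⟨b1, b2⟩ | ⟨b1, b2, b3⟩
    · have := loc_step (hAB (τ / (4 * q))) (hB _) (b2 ▸ hm (τ + 1))
      rw [b1, b2]
      split_ifs <;> omega
    · have c1 := loc_last (hAB (τ / (4 * q))) (hB _) b3
      have c2 := loc_zero (q := q) (hAB (τ / (4 * q) + 1))
      rw [b1, b2]
      split_ifs <;> omega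
  · have a1 : (i * (4 * q) + q) / (4 * q) = i := by
      rw [mul_comm, Nat.mul_add_div hT0, Nat.div_eq_of_lt (by omega), add_zero]
    have a2 : (i * (4 * q) + q) % (4 * q) = q := Nat.mul_add_mod_of_lt (by omega)
    have a3 : i * (4 * q) + q < P := (hdiv _).2 (by omega)
    simp only [if_pos a3, a1, a2, hT]
  · have a1 := hl τ
    have b1 := Nat.div_add_mod τ (4 * q)
    have b2 : τ / (4 * q) < 1 ↔ τ < 1 * (4 * q) := Nat.div_lt_iff_lt_mul hT0
    simp only [if_pos hτ]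
    by_cases c : τ < 4 * q
    · rw [Nat.mod_eq_of_lt c] at a1 ⊢
      omega
    · omega

end Pool.Agent.Lib.MP_dec383_lc
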