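import Pool.Agent.Lib.MP_dec383_lc.Params
import Pool.Agent.Lib.MP_dec383_lc.Sched
import Pool.Agent.Lib.MP_dec383_lc.Assemble

/-! A packing gives a folding whose `H` cells fill the hexagon. -/

namespace Pool.Agent.Lib.MP_dec383_lc

open Finset

variable {a : List ℕ} {q B : ℕ}

theorem bin_layers (hq : 1 ≤ q) (hB : 1 ≤ B) {g c j : ℕ → ℕ}
    (hg : ∀ b < q, ∑ i ∈ range a.length, (if g i = b then a.getD i 0 else 0) = B)
    (hjP : ∀ τ < pR a B * q, j τ < pR a B)
    (hsur : ∀ b < q, ∀ k < pR a B, ∃ τ < pR a B * q, c τ = b ∧ j τ = k)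
    (hmon : ∀ τ τ', τ < τ' → τ' < pR a B * q → c τ = c τ' → j τ < j τ')
    (hit : ∀ i < a.length, c (i * (4 * q) + q) = g i)
    (h3 : ∀ τ < pR a B * q, (3 * q ≤ τ ∧ τ < 4 * q) ↔ j τ = 3) {b : ℕ} (hb : b < q) :
    ∃ C : ℕ → Set Pt, (∀ τ < pR a B * q, c τ = b →
      Run (pL a q B τ) ((j τ : ℤ), 0) (2 * (pt a B : ℤ) - 1 - j τ, 0) (C (j τ))) ∧
      ∀ x y : ℤ, 0 ≤ x → 0 ≤ y → y < pt a B → x + y < 2 * pt a B →
        (y = 0 ∧ (pR a B : ℤ) ≤ x ∧ x < 2 * pt a B - pR a B) ∨ ∃ k < pR a B, (x, y) ∈ C k := by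
  choose! tm t1 t2 t3 using hsur b hb
  have hinj : ∀ τ < pR a B * q, c τ = b → tm (j τ) = τ := fun τ hτ e => by
    have k1 := hjP τ hτ
    rcases lt_trichotomy (tm (j τ)) τ with d | d | d
    · have := hmon _ _ d hτ (by rw [t2 _ k1, e]); rw [t3 _ k1] at this; omega
    · exact d
    · have := hmon _ _ d (t1 _ k1) (by rw [t2 _ k1, e]); rw [t3 _ k1] at this; omega
  have hR := pR_pos (a := a) hB
  have ht := pt_ge (a := a) hB
  obtain ⟨h5, h6⟩ := pD0_add (a := a) hB
  have e1 : ∑ k ∈ range (pR a B), (if tm k % (4 * q) = q then a.getD (tm k / (4 * q)) 0 else 0) =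
      B := by
    have e0 := sum_items (a := a) hq hB fun τ => c τ = b
    rw [sum_congr rfl (g := fun i => if g i = b then a.getD i 0 else 0) (s₂ := range a.length)
      fun i hi => by rw [hit i (mem_range.1 hi)], hg b hb, ← sum_filter] at e0
    refine Eq.trans ?_ e0
    refine sum_bij (fun k _ => tm k) (fun k hk => ?_) (fun k hk k' hk' e => ?_) (fun τ hτ => ?_)
      fun _ _ => rfl
    · rw [mem_range] at hk
      exact mem_filter.2 ⟨mem_range.2 (t1 k hk), t2 k hk⟩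
    · rw [← t3 k (mem_range.1 hk), ← t3 k' (mem_range.1 hk'), e]
    · rw [mem_filter, mem_range] at hτ
      exact ⟨j τ, mem_range.2 (hjP τ hτ.1), hinj τ hτ.1 hτ.2⟩
  have e2 : ∑ k ∈ range (pR a B), (if 3 * q ≤ tm k ∧ tm k < 4 * q then pD0 a B else 6 * pt a B) +
      6 * pt a B = pD0 a B + pR a B * (6 * pt a B) := by
    obtain ⟨D, hD⟩ : ∃ D, pD0 a B = 6 * pt a B + D := ⟨pD0 a B - 6 * pt a B, by omega⟩
    rw [sum_congr rfl (g := fun k => 6 * pt a B + if k = 3 then D else 0) fun k hk => by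
      rw [mem_range] at hk
      have := h3 _ (t1 k hk)
      rw [t3 k hk] at this
      split_ifs <;> omega, sum_add_distrib, sum_ite_eq', if_pos (mem_range.2 (by omega))]
    simp only [sum_const, card_range, smul_eq_mul]
    omega
  obtain ⟨C, c1, c2⟩ := layers (pt a B) (pR a B) (fun k => pL a q B (tm k)) (by omega)
    (fun k _ => by unfold pL; split_ifs <;> omega) (by
      rw [← two_pPhi]
      simp only [pL, sum_add_distrib, e1]
      omega)
  refine ⟨C, fun τ hτ e => ?_, c2⟩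
  have := c1 _ (hjP τ hτ)
  rwa [hinj τ hτ e] at this

theorem hh_vals : (∀ b < q, hh a q B (3 + b) = 3 * pt a B + 4) ∧
    (∀ k < pz a q B, hh a q B (i1 q + k) = 4) ∧ hh a q B (i2 a q B) = 2 ∧
    (∀ k < ps a q B - 1, hh a q B (i2 a q B + 1 + k) = 4) ∧ hh a q B (i3 a q B) = 3 ∧
    hh a q B (i3 a q B + 1) = 1 ∧ (∀ k < ps a q B - 2, hh a q B (i3 a q B + 2 + k) = 4) ∧
    (∀ τ < pR a B * q, hh a q B (i4 a q B + τ) = pL a q B τ + 2) ∧
    (∀ τ < pR a B * q, pp a q B (i4 a q B + τ) = plink a q B τ) ∧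
    ∀ {b k}, k < pt a B - pR a B → hh a q B (i5 a q B + b * (pt a B - pR a B) + k) = 4 := by
  have e1 : i1 q = 3 + q := rfl
  have e2 : i2 a q B = i1 q + pz a q B := rfl
  have e3 : i3 a q B = i2 a q B + ps a q B := rfl
  have e4 : i4 a q B = i3 a q B + ps a q B := rfl
  have e5 : i5 a q B = i4 a q B + pR a B * q := rfl
  have es : 6 ≤ ps a q B := by unfold ps; omega
  refine ⟨fun k hk => ?_, fun k hk => ?_, ?_, fun k hk => ?_, ?_, ?_, fun k hk => ?_,
    fun k hk => ?_, fun k hk => ?_, fun _ => ?_⟩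
  iterate 7 unfold hh; split_ifs <;> first | contradiction | omega
  · unfold hh; rw [Nat.add_sub_cancel_left]; split_ifs <;> omega
  · unfold pp; rw [Nat.add_sub_cancel_left]; split_ifs <;> omega
  · unfold hh; split_ifs <;> omega

theorem pp_vals : (∀ k, k + 1 < i4 a q B → pp a q B k = 1) ∧ pp a q B (i4 a q B - 1) = 12 ∧
    ∀ b, ∀ k < pt a B - pR a B, pp a q B (i5 a q B + b * (pt a B - pR a B) + k) =
      if k + 1 = pt a B - pR a B then plink a q B (pR a B * q + b) else 1 := by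
  have e4 : 1 ≤ i4 a q B := by unfold i4 ps; omega
  have e5 : i5 a q B = i4 a q B + pR a B * q := rfl
  refine ⟨fun k hk => by unfold pp; rw [if_pos hk], by unfold pp; split_ifs <;> omega,
    fun b k hk => ?_⟩
  unfold pp
  rw [if_neg (by omega), if_neg (by omega), if_neg (by omega),
    show i5 a q B + b * (pt a B - pR a B) + k - i5 a q B =
      (pt a B - pR a B) * b + k by rw [mul_comm b]; omega, add_assoc, Nat.mul_add_mod,
    Nat.mul_add_div (by omega), Nat.div_eq_of_lt hk, add_zero]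
  by_cases d : k + 1 = pt a B - pR a B
  · rw [if_pos d, d, Nat.mod_self, if_pos rfl]
  · rw [if_neg d, Nat.mod_eq_of_lt (by omega), if_neg (by omega)]

theorem complete (hq : 1 ≤ q) (hB : 1 ≤ B) (hs : a.sum = q * B) (h : EBP a q B) :
    ∃ A, BFold (ps a q B) (pM a q B) (hh a q B) (pp a q B) A := by
  obtain ⟨g, hg1, hg2⟩ := h
  have hN : a.length + 1 ≤ (a.length + 1) * B := Nat.le_mul_of_pos_right _ hB
  obtain ⟨c, j, c0, j0, hcj, hjP, hend, hsur, hmon, hst, hit, h3⟩ :=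
    sched q ((a.length + 1) * B) hq (by omega) (fun i => if i < a.length then g i else 0)
      fun i => by split_ifs with d; exacts [hg1 i d, hq]
  rw [show 4 * ((a.length + 1) * B) = pR a B from rfl] at hcj hjP hend hsur hmon hst h3
  have hlay := fun b (hb : b < q) => bin_layers hq hB hg2 hjP hsur
    (fun τ τ' d1 d2 => hmon τ τ' d1 (by omega))
    (fun i hi => by rw [hit i (by omega), if_pos hi]) h3 hb
  choose! Cl hCl1 hCl2 using hlay
  have hR := pR_pos (a := a) hB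
  have ht := pt_ge (a := a) hB
  have hF := (pF_add (a := a) (q := q) (B := B)).1
  have hPhi := two_pPhi (a := a) (B := B)
  obtain ⟨v0, v1, v2, v3, v4, v5, v6, v7, v8, v9⟩ := hh_vals (a := a) (q := q) (B := B)
  obtain ⟨w1, w2, w3⟩ := pp_vals (a := a) (q := q) (B := B)
  exact assemble (P := pR a B * q) (z := pz a q B) (pl := plink a q B) (F := pF a q B) hq rfl
    (by unfold pz ps; ring) (by omega) (by unfold pR; omega) (by nlinarith) c0 j0 hcj hjP hend hsur
    hmon hst (fun _ => rfl) rfl rfl rfl v0 v1 v2 v3 v4 v5 v6 pp_pos w1 w2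
    (fun τ hτ => ⟨v7 τ hτ, v8 τ hτ⟩) (fun b hb k hk => ⟨v9 hk, w3 b k hk⟩) hCl1 hCl2
    (sum_hh hq hB hs).le

end Pool.Agent.Lib.MP_dec383_lc
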