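import Pool.Prelude.Def_H_3587d628

namespace Pool.Agent.Lib.MP_dec383_lc

open N487b59b3 N68a2faeb

/-- The points `a + b ω` and `c + d ω` are at distance one. -/
def Adj (p q : ℤ × ℤ) : Prop :=
  (p.1 - q.1) ^ 2 + (p.1 - q.1) * (p.2 - q.2) + (p.2 - q.2) ^ 2 = 1

/-- A self-avoiding walk indexed by the positions of the chain. -/
def IsFolding (s : List Bool) (f : Fin s.length → ℤ × ℤ) : Prop :=
  Function.Injective f ∧ ∀ i j : Fin s.length, j.val = i.val + 1 → Adj (f i) (f j)

/-- The number of contacts; `true` stands for `H`. -/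
noncomputable def contacts (s : List Bool) (f : Fin s.length → ℤ × ℤ) : ℕ :=
  {p : Fin s.length × Fin s.length | p.1.val + 2 ≤ p.2.val ∧ s.get p.1 = true ∧
    s.get p.2 = true ∧ Adj (f p.1) (f p.2)}.ncard

open Classical in
/-- The folding problem as a language of bit strings. -/
noncomputable def HP : DecisionProblem := fun x =>
  decide (∃ (s : List Bool) (k : ℕ), bitEncode (s, k) = x ∧
    ∃ f, IsFolding s f ∧ k ≤ contacts s f)

end Pool.Agent.Lib.MP_dec383_lc
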