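import Pool.Agent.Lib.MP_dec383_lc.Orient

/-! Exact bin packing in unary is NP-hard. -/

namespace Pool.Agent.Lib.MP_dec383_lc

open Pool.Agent.Lib.helper82 N487b59b3

abbrev Fm := List (List (ℕ × Bool))

def lit (φ : Fm) (t : ℕ) : ℕ × Bool := φ.flatten.getD t (0, false)
def nx (φ : Fm) (t : ℕ) : ℕ := if t + 1 = 3 * φ.length then 0 else t + 1
def pv (φ : Fm) (t : ℕ) : ℕ := if t = 0 then 3 * φ.length - 1 else t - 1
def w2 (φ : Fm) (x t : ℕ) : ℕ := if x = (lit φ t).1 then 1 else 2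
def W1 (φ : Fm) (x t : ℕ) : Ed := ((1, x, t), (0, x, nx φ t), 3, 2)
def W2 (φ : Fm) (x t : ℕ) : Ed := ((0, x, t), (1, x, t), 4, w2 φ x t)
def Le (φ : Fm) (j k : ℕ) (b : Bool) : Ed :=
  ((bif b then 3 else 2, j, 0),
    (if b = (lit φ (3 * j + k)).2 then 0 else 1, (lit φ (3 * j + k)).1, 3 * j + k), k, 1)
def Sk (j i : ℕ) : Ed := ((2, j, 0), (3, j, 0), 3 + i, 1)
def XX (φ : Fm) : List ℕ := (List.range (3 * φ.length)).map fun t => (lit φ t).1
def VV (φ : Fm) : List Vx :=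
  (((XX φ).flatMap fun x => (List.range (3 * φ.length)).flatMap fun t => [(0, x, t), (1, x, t)]) ++
    (List.range φ.length).flatMap fun j => [(2, j, 0), (3, j, 0)]).dedup
def EE (φ : Fm) : List Ed :=
  (((XX φ).flatMap fun x => (List.range (3 * φ.length)).flatMap fun t => [W1 φ x t, W2 φ x t]) ++
    (List.range φ.length).flatMap fun j => [Le φ j 0 false, Le φ j 1 false, Le φ j 2 false,
      Le φ j 0 true, Le φ j 1 true, Le φ j 2 true, Sk j 0, Sk j 1]).dedup
def inc (φ : Fm) (v : Vx) (d : ℕ) : Ed :=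
  if v.1 = 0 then (if d = 3 then W1 φ v.2.1 (pv φ v.2.2) else if d = 4 then W2 φ v.2.1 v.2.2
    else Le φ (v.2.2 / 3) d (lit φ v.2.2).2)
  else if v.1 = 1 then (if d = 3 then W1 φ v.2.1 v.2.2 else if d = 4 then W2 φ v.2.1 v.2.2
    else Le φ (v.2.2 / 3) d !(lit φ v.2.2).2)
  else if d < 3 then Le φ v.2.1 d (decide (v.1 = 3)) else Sk v.2.1 (d - 3)

variable {φ : Fm}

theorem mem_VV {v : Vx} : v ∈ VV φ ↔ (∃ x ∈ XX φ, ∃ t < 3 * φ.length, v = (0, x, t) ∨ v = (1, x, t)) ∨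
    ∃ j < φ.length, v = (2, j, 0) ∨ v = (3, j, 0) := by
  simp [VV]

theorem mem_EE {e : Ed} : e ∈ EE φ ↔
    (∃ x ∈ XX φ, ∃ t < 3 * φ.length, e = W1 φ x t ∨ e = W2 φ x t) ∨
    ∃ j < φ.length, (∃ k < 3, ∃ b, e = Le φ j k b) ∨ ∃ i < 2, e = Sk j i := by
  simp only [EE, List.mem_dedup, List.mem_append, List.mem_flatMap, List.mem_range, List.mem_cons,
    List.not_mem_nil, or_false]
  refine or_congr Iff.rfl (exists_congr fun j => and_congr Iff.rfl ?_)
  constructor
  · rintro (h | h | h | h | h | h | h | h)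
    exacts [.inl ⟨0, by omega, _, h⟩, .inl ⟨1, by omega, _, h⟩, .inl ⟨2, by omega, _, h⟩,
      .inl ⟨0, by omega, _, h⟩, .inl ⟨1, by omega, _, h⟩, .inl ⟨2, by omega, _, h⟩,
      .inr ⟨0, by omega, h⟩, .inr ⟨1, by omega, h⟩]
  · rintro (⟨k, hk, b, h⟩ | ⟨i, hi, h⟩)
    · interval_cases k <;> cases b <;> simp [h]
    · interval_cases i <;> simp [h]

theorem lit_mem {t : ℕ} (ht : t < 3 * φ.length) : (lit φ t).1 ∈ XX φ :=
  List.mem_map.2 ⟨t, List.mem_range.2 ht, rfl⟩

theorem nx_lt {t : ℕ} (ht : t < 3 * φ.length) : nx φ t < 3 * φ.length := by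
  unfold nx; split_ifs <;> omega

theorem pv_lt {t : ℕ} (ht : t < 3 * φ.length) : pv φ t < 3 * φ.length := by
  unfold pv; split_ifs <;> omega

theorem pv_nx {t : ℕ} : pv φ (nx φ t) = t := by
  by_cases h : t + 1 = 3 * φ.length <;> simp [pv, nx, h]
  omega

theorem nx_pv {t : ℕ} (ht : t < 3 * φ.length) : nx φ (pv φ t) = t := by
  unfold pv nx; split_ifs <;> omega

theorem W1_mem {x t : ℕ} (hx : x ∈ XX φ) (ht : t < 3 * φ.length) : W1 φ x t ∈ EE φ :=
  mem_EE.2 (.inl ⟨x, hx, t, ht, .inl rfl⟩)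

theorem W2_mem {x t : ℕ} (hx : x ∈ XX φ) (ht : t < 3 * φ.length) : W2 φ x t ∈ EE φ :=
  mem_EE.2 (.inl ⟨x, hx, t, ht, .inr rfl⟩)

theorem Le_mem {j k : ℕ} (hj : j < φ.length) (hk : k < 3) (b : Bool) : Le φ j k b ∈ EE φ :=
  mem_EE.2 (.inr ⟨j, hj, .inl ⟨k, hk, b, rfl⟩⟩)

theorem Sk_mem {j i : ℕ} (hj : j < φ.length) (hi : i < 2) : Sk j i ∈ EE φ :=
  mem_EE.2 (.inr ⟨j, hj, .inr ⟨i, hi, rfl⟩⟩)

theorem en_mem : ∀ e ∈ EE φ, ∀ b, en e b ∈ VV φ := by
  intro e he b
  rw [mem_VV]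
  rcases mem_EE.1 he with ⟨x, hx, t, ht, rfl | rfl⟩ | ⟨j, hj, ⟨k, hk, c, rfl⟩ | ⟨i, hi, rfl⟩⟩ <;>
    cases b
  · exact .inl ⟨x, hx, _, nx_lt ht, .inl rfl⟩
  · exact .inl ⟨x, hx, _, ht, .inr rfl⟩
  · exact .inl ⟨x, hx, _, ht, .inr rfl⟩
  · exact .inl ⟨x, hx, _, ht, .inl rfl⟩
  · refine .inl ⟨_, lit_mem (t := 3 * j + k) (by omega), 3 * j + k, by omega, ?_⟩
    simp only [en, Le, cond_false]
    split_ifs <;> simp
  · refine .inr ⟨j, hj, ?_⟩
    cases c <;> simp [en, Le]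
  · exact .inr ⟨j, hj, .inr rfl⟩
  · exact .inr ⟨j, hj, .inl rfl⟩

theorem en_ne : ∀ e ∈ EE φ, e.1 ≠ e.2.1 := by
  intro e he
  rcases mem_EE.1 he with ⟨x, hx, t, ht, rfl | rfl⟩ | ⟨j, hj, ⟨k, hk, c, rfl⟩ | ⟨i, hi, rfl⟩⟩
  · simp [W1]
  · simp [W2]
  · simp only [Le]
    cases c <;> split_ifs <;> simp
  · simp [Sk]

theorem sl_W1 (x t : ℕ) : sl (W1 φ x t) = 3 := rfl
theorem sl_W2 (x t : ℕ) : sl (W2 φ x t) = 4 := rfl
theorem sl_Le (j : ℕ) {k : ℕ} (hk : k < 3) (b : Bool) : sl (Le φ j k b) = k := by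
  simp only [sl, Le]; omega
theorem sl_Sk (j : ℕ) {i : ℕ} (hi : i < 2) : sl (Sk j i) = 3 + i := by
  simp only [sl, Sk]; omega

theorem inc_en : ∀ e ∈ EE φ, ∀ b, inc φ (en e b) (sl e) = e := by
  intro e he b
  rcases mem_EE.1 he with ⟨x, hx, t, ht, rfl | rfl⟩ | ⟨j, hj, ⟨k, hk, c, rfl⟩ | ⟨i, hi, rfl⟩⟩
  · rw [sl_W1]; cases b <;> simp [inc, en, W1, pv_nx]
  · rw [sl_W2]; cases b <;> simp [inc, en, W2]
  · rw [sl_Le j hk]
    have h1 : (3 * j + k) / 3 = j := by omega
    have h2 : k ≠ 3 := by omega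
    have h3 : k ≠ 4 := by omega
    cases b
    · have e : en (Le φ j k c) false = (if c = (lit φ (3 * j + k)).2 then 0 else 1,
        (lit φ (3 * j + k)).1, 3 * j + k) := rfl
      rw [e]
      by_cases h : c = (lit φ (3 * j + k)).2
      · simp [inc, h, h1, h2, h3]
      · have h4 : (!(lit φ (3 * j + k)).2) = c := by
          cases c <;> simpa using h
        simp [inc, h, h1, h2, h3, h4]
    · have e : en (Le φ j k c) true = (bif c then 3 else 2, j, 0) := rfl
      rw [e]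
      cases c <;> simp [inc, hk]
  · rw [sl_Sk j hi]
    cases b <;> simp [inc, en, Sk]

def sumAt (φ : Fm) (o : Ed → Bool) (v : Vx) : ℕ :=
  ∑ e ∈ (EE φ).toFinset, if en e (o e) = v then wt e else 0

theorem wt_W2 (x t : ℕ) : wt (W2 φ x t) = w2 φ x t := by
  simp only [wt, W2, w2]; split_ifs <;> rfl

theorem en_Le (j k : ℕ) (b c : Bool) : en (Le φ j k b) c = bif c then (bif b then 3 else 2, j, 0)
    else (if b = (lit φ (3 * j + k)).2 then 0 else 1, (lit φ (3 * j + k)).1, 3 * j + k) := rfl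

theorem sumP (o : Ed → Bool) {x j k : ℕ} (hx : x ∈ XX φ) (hj : j < φ.length) (hk : k < 3) :
    sumAt φ o (0, x, 3 * j + k) = (bif o (W1 φ x (pv φ (3 * j + k))) then 0 else 2) +
      (bif o (W2 φ x (3 * j + k)) then w2 φ x (3 * j + k) else 0) +
      if x = (lit φ (3 * j + k)).1 then (bif o (Le φ j k (lit φ (3 * j + k)).2) then 0 else 1)
      else 0 := by
  have ht : 3 * j + k < 3 * φ.length := by omega
  have h1 : (3 * j + k) / 3 = j := by omega
  have e3 : inc φ (0, x, 3 * j + k) 3 = W1 φ x (pv φ (3 * j + k)) := by simp [inc]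
  have e4 : inc φ (0, x, 3 * j + k) 4 = W2 φ x (3 * j + k) := by simp [inc]
  have e0 : ∀ d ∈ Finset.range 3, inc φ (0, x, 3 * j + k) d = Le φ j d (lit φ (3 * j + k)).2 := by
    intro d hd
    rw [Finset.mem_range] at hd
    simp [inc, h1, show d ≠ 3 by omega, show d ≠ 4 by omega]
  rw [sumAt, sum_at (inc φ) inc_en, Finset.sum_range_succ, Finset.sum_range_succ,
    Finset.sum_eq_single k, e0 k (Finset.mem_range.2 hk), e3, e4]
  · simp only [W1_mem hx (pv_lt ht), W2_mem hx ht, Le_mem hj hk, sl_W1, sl_W2, sl_Le j hk,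
      true_and, wt_W2, en_Le]
    rw [add_assoc, add_comm]
    congr 1
    · congr 1
      · cases o (W1 φ x (pv φ (3 * j + k))) <;> simp [en, W1, nx_pv ht, wt]
      · cases o (W2 φ x (3 * j + k)) <;> simp [en, W2]
    · cases o (Le φ j k (lit φ (3 * j + k)).2)
      · simp [wt, Le, @eq_comm _ x]
      · cases (lit φ (3 * j + k)).2 <;> simp
  · intro d hd hne
    rw [e0 d hd, en_Le, if_neg]
    rintro ⟨-, -, h⟩
    generalize o _ = c at h
    cases c
    · simp at h; omega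
    · generalize (lit φ (3 * j + k)).2 = b at h
      cases b <;> simp at h
  · intro h; exact absurd (Finset.mem_range.2 hk) h

theorem sumQ (o : Ed → Bool) {x j k : ℕ} (hx : x ∈ XX φ) (hj : j < φ.length) (hk : k < 3) :
    sumAt φ o (1, x, 3 * j + k) = (bif o (W1 φ x (3 * j + k)) then 2 else 0) +
      (bif o (W2 φ x (3 * j + k)) then 0 else w2 φ x (3 * j + k)) +
      if x = (lit φ (3 * j + k)).1 then (bif o (Le φ j k !(lit φ (3 * j + k)).2) then 0 else 1)
      else 0 := by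
  have ht : 3 * j + k < 3 * φ.length := by omega
  have h1 : (3 * j + k) / 3 = j := by omega
  have e3 : inc φ (1, x, 3 * j + k) 3 = W1 φ x (3 * j + k) := by simp [inc]
  have e4 : inc φ (1, x, 3 * j + k) 4 = W2 φ x (3 * j + k) := by simp [inc]
  have e0 : ∀ d ∈ Finset.range 3, inc φ (1, x, 3 * j + k) d = Le φ j d !(lit φ (3 * j + k)).2 := by
    intro d hd
    rw [Finset.mem_range] at hd
    simp [inc, h1, show d ≠ 3 by omega, show d ≠ 4 by omega]
  rw [sumAt, sum_at (inc φ) inc_en, Finset.sum_range_succ, Finset.sum_range_succ,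
    Finset.sum_eq_single k, e0 k (Finset.mem_range.2 hk), e3, e4]
  · simp only [W1_mem hx ht, W2_mem hx ht, Le_mem hj hk, sl_W1, sl_W2, sl_Le j hk,
      true_and, wt_W2, en_Le]
    rw [add_assoc, add_comm]
    congr 1
    · congr 1
      · cases o (W1 φ x (3 * j + k)) <;> simp [en, W1, wt]
      · cases o (W2 φ x (3 * j + k)) <;> simp [en, W2]
    · cases o (Le φ j k !(lit φ (3 * j + k)).2)
      · simp [wt, Le, @eq_comm _ x]
      · cases (lit φ (3 * j + k)).2 <;> simp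
  · intro d hd hne
    rw [e0 d hd, en_Le, if_neg]
    rintro ⟨-, -, h⟩
    generalize o _ = c at h
    cases c
    · simp at h; omega
    · generalize (lit φ (3 * j + k)).2 = b at h
      cases b <;> simp at h
  · intro h; exact absurd (Finset.mem_range.2 hk) h

theorem sumC (o : Ed → Bool) {j : ℕ} (hj : j < φ.length) (b : Bool) :
    sumAt φ o (bif b then 3 else 2, j, 0) = (o (Le φ j 0 b)).toNat + (o (Le φ j 1 b)).toNat +
      (o (Le φ j 2 b)).toNat + (xor b (o (Sk j 0))).toNat + (xor b (o (Sk j 1))).toNat := by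
  have e0 : ∀ d < 3, inc φ (bif b then 3 else 2, j, 0) d = Le φ j d b := by
    intro d hd; cases b <;> simp [inc, hd]
  have e1 : ∀ d < 2, inc φ (bif b then 3 else 2, j, 0) (3 + d) = Sk j d := by
    intro d hd; cases b <;> simp [inc]
  have e2 : ∀ d < 3, (if Le φ j d b ∈ EE φ ∧ sl (Le φ j d b) = d ∧
      en (Le φ j d b) (o (Le φ j d b)) = (bif b then 3 else 2, j, 0) then wt (Le φ j d b) else 0) =
      (o (Le φ j d b)).toNat := by
    intro d hd
    simp only [Le_mem hj hd, sl_Le j hd, true_and, en_Le]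
    cases o (Le φ j d b)
    · rw [if_neg]
      · rfl
      · cases b <;> simp only [cond_false, cond_true] <;> split_ifs <;> simp
    · simp [wt, Le]
  have e3 : ∀ d < 2, (if Sk j d ∈ EE φ ∧ sl (Sk j d) = 3 + d ∧
      en (Sk j d) (o (Sk j d)) = (bif b then 3 else 2, j, 0) then wt (Sk j d) else 0) =
      (xor b (o (Sk j d))).toNat := by
    intro d hd
    simp only [Sk_mem hj hd, sl_Sk j hd, true_and]
    cases o (Sk j d) <;> cases b <;> simp [en, Sk, wt]
  rw [sumAt, sum_at (inc φ) inc_en]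
  simp only [Finset.sum_range_succ, Finset.range_zero, Finset.sum_empty, zero_add]
  rw [e0 0 (by omega), e0 1 (by omega), e0 2 (by omega), e1 0 (by omega), e1 1 (by omega),
    e2 0 (by omega), e2 1 (by omega), e2 2 (by omega), e3 0 (by omega), e3 1 (by omega)]

theorem ori_iff : Ori (VV φ) (EE φ) ↔
    ∃ a : ℕ → Bool, ∀ j < φ.length, ∃ k < 3, a (lit φ (3 * j + k)).1 = (lit φ (3 * j + k)).2 := by
  have hd : ∀ t < 3 * φ.length, ∃ j < φ.length, ∃ k < 3, t = 3 * j + k := fun t ht =>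
    ⟨t / 3, by omega, t % 3, by omega, by omega⟩
  constructor
  · rintro ⟨o, ho⟩
    have hP : ∀ x ∈ XX φ, ∀ j < φ.length, ∀ k < 3,
        o (W1 φ x (pv φ (3 * j + k))) = o (W2 φ x (3 * j + k)) ∧ (x = (lit φ (3 * j + k)).1 →
          o (Le φ j k (lit φ (3 * j + k)).2) = !o (W2 φ x (3 * j + k))) := by
      intro x hx j hj k hk
      have h := (sumP o hx hj hk).symm.trans
        (ho _ (mem_VV.2 (.inl ⟨x, hx, _, by omega, .inl rfl⟩)))
      revert h
      simp only [w2]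
      cases o (W1 φ x (pv φ (3 * j + k))) <;> cases o (W2 φ x (3 * j + k)) <;>
        cases o (Le φ j k (lit φ (3 * j + k)).2) <;> split_ifs with h <;> simp [dm, h]
    have hQ : ∀ x ∈ XX φ, ∀ j < φ.length, ∀ k < 3,
        o (W1 φ x (3 * j + k)) = o (W2 φ x (3 * j + k)) ∧ (x = (lit φ (3 * j + k)).1 →
          o (Le φ j k !(lit φ (3 * j + k)).2) = o (W2 φ x (3 * j + k))) := by
      intro x hx j hj k hk
      have h := (sumQ o hx hj hk).symm.trans
        (ho _ (mem_VV.2 (.inl ⟨x, hx, _, by omega, .inr rfl⟩)))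
      revert h
      simp only [w2]
      cases o (W1 φ x (3 * j + k)) <;> cases o (W2 φ x (3 * j + k)) <;>
        cases o (Le φ j k !(lit φ (3 * j + k)).2) <;> split_ifs with h <;> simp [dm, h]
    have hc : ∀ x ∈ XX φ, ∀ t < 3 * φ.length, o (W2 φ x t) = o (W2 φ x 0) := by
      intro x hx t
      induction t with
      | zero => intro _; rfl
      | succ t ih =>
        intro ht
        rw [← ih (by omega)]
        obtain ⟨j, hj, k, hk, e⟩ := hd (t + 1) ht
        obtain ⟨j', hj', k', hk', e'⟩ := hd t (by omega)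
        have h1 := (hP x hx j hj k hk).1
        have h2 := (hQ x hx j' hj' k' hk').1
        rw [← e, show pv φ (t + 1) = t by simp [pv]] at h1
        rw [← e'] at h2
        rw [← h1, h2]
    refine ⟨fun x => !o (W2 φ x 0), fun j hj => ?_⟩
    have h := (sumC o hj true).symm.trans (ho _ (mem_VV.2 (.inr ⟨j, hj, .inr rfl⟩)))
    have h1 : ∃ k < 3, o (Le φ j k true) = true := by
      by_contra hne
      push Not at hne
      have h0 := hne 0 (by omega)
      have h1 := hne 1 (by omega)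
      have h2 := hne 2 (by omega)
      simp only [ne_eq, Bool.not_eq_true] at h0 h1 h2
      rw [h0, h1, h2] at h
      revert h
      cases o (Sk j 0) <;> cases o (Sk j 1) <;> simp [dm]
    obtain ⟨k, hk, h1⟩ := h1
    have hx := lit_mem (φ := φ) (t := 3 * j + k) (by omega)
    have h2 := (hP _ hx j hj k hk).2 rfl
    have h3 := (hQ _ hx j hj k hk).2 rfl
    rw [hc _ hx _ (by omega)] at h2 h3
    refine ⟨k, hk, ?_⟩
    beta_reduce
    revert h2 h3
    cases (lit φ (3 * j + k)).2 <;> simp +contextual [h1]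
  · rintro ⟨a, ha⟩
    let tr : ℕ → ℕ → Bool := fun j k => a (lit φ (3 * j + k)).1 == (lit φ (3 * j + k)).2
    let o : Ed → Bool := fun e => if e.1.1 < 2 then !a e.1.2.1 else if e.2.2.1 < 3 then
      (if e.2.1.1 = 0 then a e.2.1.2.1 else !a e.2.1.2.1) else
      decide (6 ≤ (tr e.1.2.1 0).toNat + (tr e.1.2.1 1).toNat + (tr e.1.2.1 2).toNat + e.2.2.1)
    have o1 : ∀ x t, o (W1 φ x t) = !a x := fun x t => by simp [o, W1]
    have o2 : ∀ x t, o (W2 φ x t) = !a x := fun x t => by simp [o, W2]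
    have o3 : ∀ j, ∀ k < 3, ∀ b, o (Le φ j k b) = (tr j k == b) := fun j k hk b => by
      simp only [o, Le, tr, hk, if_true]
      cases b <;> cases a (lit φ (3 * j + k)).1 <;> cases (lit φ (3 * j + k)).2 <;> simp
    have o4 : ∀ j i, o (Sk j i) =
        decide (6 ≤ (tr j 0).toNat + (tr j 1).toNat + (tr j 2).toNat + (3 + i)) := fun j i => by
      simp [o, Sk]
    have hC : ∀ j < φ.length, ∀ b, sumAt φ o (bif b then 3 else 2, j, 0) =
        dm (bif b then 3 else 2, j, 0) := by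
      intro j hj b
      rw [sumC o hj, o3 j 0 (by omega), o3 j 1 (by omega), o3 j 2 (by omega), o4, o4]
      have h : tr j 0 = true ∨ tr j 1 = true ∨ tr j 2 = true := by
        obtain ⟨k, hk, h⟩ := ha j hj
        interval_cases k
        exacts [.inl (beq_iff_eq.2 h), .inr (.inl (beq_iff_eq.2 h)), .inr (.inr (beq_iff_eq.2 h))]
      revert h
      cases tr j 0 <;> cases tr j 1 <;> cases tr j 2 <;> cases b <;> simp [dm]
    refine ⟨o, fun v hv => ?_⟩
    rcases mem_VV.1 hv with ⟨x, hx, t, ht, rfl | rfl⟩ | ⟨j, hj, rfl | rfl⟩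
    · obtain ⟨j, hj, k, hk, rfl⟩ := hd t ht
      refine (sumP o hx hj hk).trans ?_
      rw [o1, o2, o3 j k hk, w2]
      split_ifs with h
      · subst h
        simp only [tr]
        cases a (lit φ (3 * j + k)).1 <;> cases (lit φ (3 * j + k)).2 <;> simp [dm]
      · cases a x <;> simp [dm]
    · obtain ⟨j, hj, k, hk, rfl⟩ := hd t ht
      refine (sumQ o hx hj hk).trans ?_
      rw [o1, o2, o3 j k hk, w2]
      split_ifs with h
      · subst h
        simp only [tr]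
        cases a (lit φ (3 * j + k)).1 <;> cases (lit φ (3 * j + k)).2 <;> simp [dm]
      · cases a x <;> simp [dm]
    · exact hC j hj false
    · exact hC j hj true

theorem sat_iff_lit (a : ℕ → Bool) : ∀ φ : Fm, (∀ C ∈ φ, C.length = 3) →
    ((∀ C ∈ φ, ∃ l ∈ C, a l.1 = l.2) ↔
      ∀ j < φ.length, ∃ k < 3, a (lit φ (3 * j + k)).1 = (lit φ (3 * j + k)).2)
  | [], _ => by simp
  | C :: φ, h => by
    obtain ⟨x, y, z, rfl⟩ := List.length_eq_three.1 (h C List.mem_cons_self)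
    have ih := sat_iff_lit a φ fun D hD => h D (List.mem_cons_of_mem _ hD)
    have e : ∀ j k, lit ([x, y, z] :: φ) (3 * (j + 1) + k) = lit φ (3 * j + k) := fun j k => by
      rw [show 3 * (j + 1) + k = 3 * j + k + 1 + 1 + 1 by ring]
      simp [lit]
    rw [List.forall_mem_cons, ih, List.length_cons, Nat.forall_lt_succ_left]
    simp only [e]
    refine and_congr ?_ Iff.rfl
    simp only [Nat.exists_lt_succ_right]
    simp [lit, or_assoc]

theorem len_un : UN fun φ : Fm => φ.length := UN.length PT.id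

theorem len3_un : UN fun φ : Fm => 3 * φ.length := (UN.const 3).mul len_un

theorem lit_pt : PT fun p : Fm × ℕ => lit p.1 p.2 := ptGetD (PT.flatten PT.fst') PT.snd' _

theorem XX_pt : PT XX :=
  PT.map (F := fun (φ : Fm) t => (lit φ t).1) len3_un.range (PT.fst lit_pt)

theorem VV_pt : PT VV := by
  have h1 : PT fun p : Fm × ℕ => List.range (3 * p.1.length) :=
    (PT.comp len3_un.range (F := fun p : Fm × ℕ => p.1) PT.fst' :)
  have h2 : ∀ c : ℕ, PT fun p : (Fm × ℕ) × ℕ => ((c, p.1.2, p.2) : Vx) := fun c =>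
    PT.pair (PT.const c) (PT.pair (PT.snd PT.fst') PT.snd')
  have h3 : ∀ c : ℕ, PT fun p : Fm × ℕ => ((c, p.2, 0) : Vx) := fun c =>
    PT.pair (PT.const c) (PT.pair PT.snd' (PT.const 0))
  exact PT.dedup (PT.append
    (PT.flatMap (F := fun (φ : Fm) x => (List.range (3 * φ.length)).flatMap
      fun t => [((0, x, t) : Vx), (1, x, t)]) XX_pt
      (PT.flatMap (F := fun (p : Fm × ℕ) t => [((0, p.2, t) : Vx), (1, p.2, t)]) h1
        (PT.cons (h2 0) (PT.cons (h2 1) (PT.const [])))))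
    (PT.flatMap (F := fun (_ : Fm) j => [((2, j, 0) : Vx), (3, j, 0)]) len_un.range
      (PT.cons (h3 2) (PT.cons (h3 3) (PT.const [])))))

theorem EE_pt : PT EE := by
  have h1 : PT fun p : Fm × ℕ => List.range (3 * p.1.length) :=
    (PT.comp len3_un.range (F := fun p : Fm × ℕ => p.1) PT.fst' :)
  have h2 : ∀ c : ℕ, PT fun p : (Fm × ℕ) × ℕ => ((c, p.1.2, p.2) : Vx) := fun c =>
    PT.pair (PT.const c) (PT.pair (PT.snd PT.fst') PT.snd')
  have h3 : ∀ c : ℕ, PT fun p : Fm × ℕ => ((c, p.2, 0) : Vx) := fun c =>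
    PT.pair (PT.const c) (PT.pair PT.snd' (PT.const 0))
  have h4 : PT fun p : (Fm × ℕ) × ℕ => nx p.1.1 p.2 :=
    PT.iteEq (PT.succ PT.snd') (PT.mul (PT.const 3) (PT.length (PT.fst PT.fst'))) (PT.const 0)
      (PT.succ PT.snd')
  have h5 : PT fun p : (Fm × ℕ) × ℕ => lit p.1.1 p.2 :=
    (PT.comp lit_pt (F := fun p : (Fm × ℕ) × ℕ => (p.1.1, p.2))
      (PT.pair (PT.fst PT.fst') PT.snd') :)
  have h6 : PT fun p : (Fm × ℕ) × ℕ => W1 p.1.1 p.1.2 p.2 :=
    PT.pair (h2 1) (PT.pair (PT.pair (PT.const 0) (PT.pair (PT.snd PT.fst') h4)) (PT.const _))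
  have h7 : PT fun p : (Fm × ℕ) × ℕ => W2 p.1.1 p.1.2 p.2 :=
    PT.pair (h2 0) (PT.pair (h2 1) (PT.pair (PT.const 4)
      (PT.iteEq (PT.snd PT.fst') (PT.fst h5) (PT.const 1) (PT.const 2))))
  have h8 : ∀ k b, PT fun p : Fm × ℕ => Le p.1 p.2 k b := fun k b => by
    have i1 : PT fun p : Fm × ℕ => 3 * p.2 + k :=
      PT.add (PT.mul (PT.const 3) PT.snd') (PT.const k)
    have i2 : PT fun p : Fm × ℕ => lit p.1 (3 * p.2 + k) :=
      (PT.comp lit_pt (F := fun p : Fm × ℕ => (p.1, 3 * p.2 + k)) (PT.pair PT.fst' i1) :)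
    exact PT.pair (h3 _) (PT.pair (PT.pair (PT.iteEq (PT.const b) (PT.snd i2) (PT.const 0)
      (PT.const 1)) (PT.pair (PT.fst i2) i1)) (PT.const _))
  have h9 : ∀ i, PT fun p : Fm × ℕ => Sk p.2 i := fun i =>
    PT.pair (h3 2) (PT.pair (h3 3) (PT.const _))
  exact PT.dedup (PT.append
    (PT.flatMap (F := fun (φ : Fm) x => (List.range (3 * φ.length)).flatMap
      fun t => [W1 φ x t, W2 φ x t]) XX_pt
      (PT.flatMap (F := fun (p : Fm × ℕ) t => [W1 p.1 p.2 t, W2 p.1 p.2 t]) h1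
        (PT.cons h6 (PT.cons h7 (PT.const [])))))
    (PT.flatMap (F := fun (φ : Fm) j => [Le φ j 0 false, Le φ j 1 false, Le φ j 2 false,
      Le φ j 0 true, Le φ j 1 true, Le φ j 2 true, Sk j 0, Sk j 1]) len_un.range
      (PT.cons (h8 _ _) (PT.cons (h8 _ _) (PT.cons (h8 _ _) (PT.cons (h8 _ _) (PT.cons (h8 _ _)
        (PT.cons (h8 _ _) (PT.cons (h9 _) (PT.cons (h9 _) (PT.const [])))))))))))

theorem ebp_hard {L : N68a2faeb.DecisionProblem} (hL : L ∈ N68a2faeb.NP) :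
    ∃ F : List Bool → List (List Bool) × List Bool × List Bool, PT F ∧
      ∀ x, 1 ≤ (F x).2.1.length ∧ 1 ≤ (F x).2.2.length ∧
        (L x = true ↔ EBP ((F x).1.map List.length) (F x).2.1.length (F x).2.2.length) := by
  obtain ⟨G, hG, h⟩ := cook_levin hL
  let H : List Bool → Fm := fun x => [(0, true), (0, false), (0, true)] :: G x
  have hH : PT H := PT.cons (PT.const _) hG
  have hp : PT fun x => (VV (H x), EE (H x)) := PT.pair (PT.comp VV_pt hH) (PT.comp EE_pt hH)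
  refine ⟨fun x => ((items (VV (H x)) (EE (H x))).map fun n => List.replicate n true,
    List.replicate (VV (H x)).length true, List.replicate (BB (VV (H x)) (EE (H x))) true),
    PT.pair (PT.comp items_pt hp :) (PT.pair (UN.length (PT.comp VV_pt hH)) (BB_un.comp hp :)),
    fun x => ?_⟩
  obtain ⟨h1, h2⟩ := h x
  have h3 : ∀ C ∈ H x, C.length = 3 := List.forall_mem_cons.2 ⟨rfl, h1⟩
  simp only [List.length_replicate, List.map_map, Function.comp_def, List.map_id']
  refine ⟨List.length_pos_of_mem (mem_VV.2 (.inr ⟨0, by simp [H], .inl rfl⟩)),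
    Nat.le_add_right _ _, ?_⟩
  rw [ebp_iff_ori (V := VV (H x)) (E := EE (H x)) (List.nodup_dedup _) (List.nodup_dedup _)
    en_mem en_ne _ inc_en, ori_iff, h2]
  refine exists_congr fun a => ?_
  rw [← sat_iff_lit a _ h3, List.forall_mem_cons]
  cases e : a 0 <;> simp [e]

end Pool.Agent.Lib.MP_dec383_lc
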