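import Pool.Agent.Lib.helper82.CookLevin

namespace Pool.Agent.Lib.MP_dec383_lc

/-- Exact bin packing: the items `a` go to `q` bins, each receiving total size `B`. -/
def EBP (a : List ℕ) (q B : ℕ) : Prop :=
  ∃ g : ℕ → ℕ, (∀ i < a.length, g i < q) ∧
    ∀ c < q, ∑ i ∈ Finset.range a.length, (if g i = c then a.getD i 0 else 0) = B

end Pool.Agent.Lib.MP_dec383_lc
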