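import Pool.Agent.Lib.MP_dec383_lc.Iso

/-! Optimal foldings are those whose `H` nodes fill a hexagon. -/

namespace Pool.Agent.Lib.MP_dec383_lc

open Finset

def dirs : Finset Pt := {(1, 0), (-1, 0), (0, 1), (0, -1), (1, -1), (-1, 1)}

theorem adj_iff_dirs (p q : Pt) : adj p q ↔ q - p ∈ dirs := by
  obtain ⟨a, b⟩ := p
  obtain ⟨c, d⟩ := q
  simp only [adj, dirs, mem_insert, mem_singleton, Prod.mk_sub_mk, Prod.mk.injEq]
  omega

theorem sum_dirs (F : Pt → ℕ) : ∑ d ∈ dirs, F d =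
    F (1, 0) + F (-1, 0) + F (0, 1) + F (0, -1) + F (1, -1) + F (-1, 1) := by
  simp only [dirs]
  rw [sum_insert (by decide), sum_insert (by decide), sum_insert (by decide),
    sum_insert (by decide), sum_insert (by decide), sum_singleton]
  omega

theorem sum_rd (S : Finset Pt) : ∑ d ∈ dirs, rd S d = 2 * KK S := by
  have h1 := rd_neg S (1, 0)
  have h2 := rd_neg S (0, 1)
  have h3 := rd_neg S (-1, 1)
  simp only [Prod.neg_mk, neg_zero, neg_neg] at h1 h2 h3
  rw [sum_dirs, KK]; omega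

theorem edge_count (S : Finset Pt) :
    ((S ×ˢ S).filter fun e => adj e.1 e.2).card + 2 * KK S = 6 * S.card := by
  rw [card_eq_sum_card_fiberwise (f := fun e : Pt × Pt => e.2 - e.1) (t := dirs)
    (fun e he => (adj_iff_dirs _ _).1 (mem_filter.1 he).2), ← sum_rd, ← sum_add_distrib]
  rw [sum_congr rfl (g := fun _ => S.card)]
  · rw [sum_const, smul_eq_mul]; rfl
  intro d hd
  rw [← rd_add S d]
  congr 1
  refine card_bij (fun e _ => e.1) ?_ ?_ ?_
  · rintro ⟨p, q⟩ h
    simp only [mem_filter, mem_product] at h ⊢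
    refine ⟨h.1.1.1, ?_⟩
    rw [← h.2]; simpa using h.1.1.2
  · rintro ⟨p, q⟩ h ⟨p', q'⟩ h' e
    simp only [mem_filter] at h h' e
    subst e
    have := h.2.trans h'.2.symm
    simpa using this
  · intro p hp
    rw [mem_filter] at hp
    refine ⟨(p, p + d), ?_, rfl⟩
    simp only [mem_filter, mem_product, adj_iff_dirs]
    simpa using ⟨hp, hd⟩

theorem card_hexF (s : ℕ) : (hexF s).card = 3 * s ^ 2 + 3 * s + 1 := by
  refine le_antisymm (card_hexF_le s) ?_
  let R : Finset Pt := Icc (1 : ℤ) s ×ˢ Icc (-s : ℤ) 0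
  have hR : R.card = s * (s + 1) := by
    simp only [R, card_product, Int.card_Icc]
    congr 1 <;> omega
  have i2 : Function.Injective fun p : Pt => ((-p.1 - p.2, p.1) : Pt) := by
    rintro ⟨a, b⟩ ⟨c, d⟩ h; simp only [Prod.mk.injEq] at h ⊢; omega
  have i3 : Function.Injective fun p : Pt => ((p.2, -p.1 - p.2) : Pt) := by
    rintro ⟨a, b⟩ ⟨c, d⟩ h; simp only [Prod.mk.injEq] at h ⊢; omega
  have mR : ∀ p, p ∈ R ↔ 1 ≤ p.1 ∧ p.1 ≤ s ∧ -s ≤ p.2 ∧ p.2 ≤ 0 := by
    intro p; simp [R, and_assoc]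
  have h : insert (0, 0) (R ∪ (R.image (fun p : Pt => ((-p.1 - p.2, p.1) : Pt)) ∪
      R.image fun p : Pt => ((p.2, -p.1 - p.2) : Pt))) ⊆ hexF s := by
    intro p hp
    simp only [mem_insert, mem_union, mem_image, mR] at hp
    rw [mem_hexF, hex]
    rcases hp with rfl | hp | ⟨r, hr, rfl⟩ | ⟨r, hr, rfl⟩ <;> (try dsimp only) <;> omega
  have h2 := card_le_card h
  rw [card_insert_of_notMem, card_union_of_disjoint, card_union_of_disjoint,
    card_image_of_injective _ i2, card_image_of_injective _ i3, hR] at h2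
  · nlinarith
  · rw [disjoint_left]
    intro p h1 h2
    obtain ⟨r, hr, rfl⟩ := mem_image.1 h1
    obtain ⟨u, hu, e⟩ := mem_image.1 h2
    simp only [mR, Prod.mk.injEq] at hr hu e
    omega
  · rw [disjoint_left]
    intro p h1 h2
    simp only [mem_union, mem_image, mR] at h1 h2
    rcases h2 with ⟨r, hr, rfl⟩ | ⟨r, hr, rfl⟩ <;> dsimp only at h1 <;> omega
  · simp only [mem_union, mem_image, mR, Prod.mk.injEq]
    rintro (h | ⟨r, hr, h⟩ | ⟨r, hr, h⟩) <;> omega

def Walk (n : ℕ) (f : ℕ → Pt) : Prop :=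
  (∀ i < n, ∀ j < n, f i = f j → i = j) ∧ ∀ i, i + 1 < n → adj (f i) (f (i + 1))

def hs (σ : List Bool) : Finset ℕ := (range σ.length).filter fun i => σ.getD i false = true

def bonds (σ : List Bool) : ℕ :=
  ((range σ.length).filter fun i => σ.getD i false = true ∧ σ.getD (i + 1) false = true).card

def con (σ : List Bool) (f : ℕ → Pt) : ℕ :=
  ((hs σ ×ˢ hs σ).filter fun e => e.1 + 2 ≤ e.2 ∧ adj (f e.1) (f e.2)).card

theorem lt_of_getD {σ : List Bool} {i : ℕ} (h : σ.getD i false = true) : i < σ.length := by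
  by_contra h1
  rw [List.getD_eq_default _ _ (by omega)] at h
  simp at h

theorem mem_hs {σ : List Bool} {i : ℕ} : i ∈ hs σ ↔ σ.getD i false = true := by
  simp only [hs, mem_filter, mem_range]
  exact ⟨fun h => h.2, fun h => ⟨lt_of_getD h, h⟩⟩

theorem con_add {σ : List Bool} {f : ℕ → Pt} (hf : Walk σ.length f) :
    con σ f + bonds σ + KK ((hs σ).image f) = 3 * (hs σ).card := by
  have hinj : Set.InjOn f (hs σ) := fun i hi j hj =>
    hf.1 i (lt_of_getD (mem_hs.1 hi)) j (lt_of_getD (mem_hs.1 hj))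
  have h1 := edge_count ((hs σ).image f)
  rw [card_image_of_injOn hinj] at h1
  set P := (hs σ ×ˢ hs σ).filter fun e => adj (f e.1) (f e.2) with hP
  have h2 : P.card = (((hs σ).image f ×ˢ (hs σ).image f).filter fun e => adj e.1 e.2).card := by
    refine card_bij (fun e _ => (f e.1, f e.2)) ?_ ?_ ?_
    · intro e he
      simp only [hP, mem_filter, mem_product] at he ⊢
      exact ⟨⟨mem_image_of_mem _ he.1.1, mem_image_of_mem _ he.1.2⟩, he.2⟩
    · intro e he e' he' h
      simp only [hP, mem_filter, mem_product, Prod.mk.injEq] at he he' h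
      exact Prod.ext (hinj he.1.1 he'.1.1 h.1) (hinj he.1.2 he'.1.2 h.2)
    · rintro ⟨p, q⟩ h
      simp only [mem_filter, mem_product, mem_image] at h
      obtain ⟨⟨⟨i, hi, rfl⟩, j, hj, rfl⟩, h⟩ := h
      exact ⟨(i, j), by simp [hP, hi, hj, h], rfl⟩
  have h3 := card_filter_add_card_filter_not (s := P) fun e => e.1 < e.2
  have h4 : (P.filter fun e => ¬ e.1 < e.2).card = (P.filter fun e => e.1 < e.2).card := by
    refine card_bij (fun e _ => e.swap) ?_ (by simp) ?_
    · rintro ⟨i, j⟩ h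
      simp only [hP, mem_filter, mem_product, Prod.swap] at h ⊢
      refine ⟨⟨h.1.1.symm, adj_symm h.1.2⟩, lt_of_le_of_ne (by omega) ?_⟩
      rintro rfl
      have := h.1.2
      unfold adj at this
      omega
    · rintro ⟨i, j⟩ h
      refine ⟨(j, i), ?_, rfl⟩
      simp only [hP, mem_filter, mem_product] at h ⊢
      exact ⟨⟨h.1.1.symm, adj_symm h.1.2⟩, by omega⟩
  have h5 := card_filter_add_card_filter_not (s := P.filter fun e => e.1 < e.2)
    fun e => e.1 + 2 ≤ e.2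
  have h6 : ((P.filter fun e => e.1 < e.2).filter fun e => e.1 + 2 ≤ e.2).card = con σ f := by
    unfold con
    congr 1
    ext e
    simp only [hP, mem_filter]
    constructor
    · exact fun h => ⟨h.1.1.1, h.2, h.1.1.2⟩
    · exact fun h => ⟨⟨⟨h.1, h.2.2⟩, by omega⟩, h.2.1⟩
  have h7 : bonds σ = ((P.filter fun e => e.1 < e.2).filter fun e => ¬ e.1 + 2 ≤ e.2).card := by
    refine card_bij (fun i _ => (i, i + 1)) ?_ (by simp) ?_
    · intro i hi
      simp only [hP, mem_filter, mem_product, mem_hs] at hi ⊢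
      exact ⟨⟨⟨hi.2, hf.2 i (lt_of_getD hi.2.2)⟩, by omega⟩, by omega⟩
    · rintro ⟨i, j⟩ h
      simp only [hP, mem_filter, mem_product, mem_hs] at h
      obtain rfl : j = i + 1 := by omega
      exact ⟨i, mem_filter.2 ⟨mem_range.2 (lt_of_getD h.1.1.1.1), h.1.1.1⟩, rfl⟩
  omega

theorem contacts_eq (σ : List Bool) (f : ℕ → Pt) :
    contacts σ (fun i => f i.val) = con σ f := by
  unfold contacts con
  rw [← Set.ncard_coe_finset]
  refine Set.ncard_congr (fun e _ => (e.1.val, e.2.val)) ?_ ?_ ?_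
  · rintro ⟨i, j⟩ ⟨h1, h2, h3, h4⟩
    simp only [coe_filter, mem_product, mem_hs, Set.mem_ofPred_eq]
    refine ⟨⟨?_, ?_⟩, h1, (Adj_iff _ _).1 h4⟩
    · rwa [List.getD_eq_getElem _ _ i.2]
    · rwa [List.getD_eq_getElem _ _ j.2]
  · rintro ⟨i, j⟩ ⟨i', j'⟩ _ _ h
    simp only [Prod.mk.injEq] at h ⊢
    exact ⟨Fin.ext h.1, Fin.ext h.2⟩
  · rintro ⟨i, j⟩ h
    simp only [coe_filter, mem_product, mem_hs, Set.mem_ofPred_eq] at h
    obtain ⟨⟨h1, h2⟩, h3, h4⟩ := h
    refine ⟨(⟨i, lt_of_getD h1⟩, ⟨j, lt_of_getD h2⟩), ⟨h3, ?_, ?_, (Adj_iff _ _).2 h4⟩, rfl⟩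
    · rwa [List.getD_eq_getElem _ _ (lt_of_getD h1)] at h1
    · rwa [List.getD_eq_getElem _ _ (lt_of_getD h2)] at h2

theorem folding_iff (σ : List Bool) (k : ℕ) :
    (∃ f, IsFolding σ f ∧ k ≤ contacts σ f) ↔ ∃ f, Walk σ.length f ∧ k ≤ con σ f := by
  constructor
  · rintro ⟨f, ⟨h1, h2⟩, h3⟩
    let g : ℕ → Pt := fun i => if h : i < σ.length then f ⟨i, h⟩ else 0
    have e : f = fun i => g i.val := funext fun i => by simp [g]
    refine ⟨g, ⟨fun i hi j hj h => ?_, fun i hi => ?_⟩, by rwa [← contacts_eq, ← e]⟩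
    · simp only [g, hi, hj, dif_pos] at h
      exact congrArg Fin.val (h1 h)
    · simp only [g, hi, show i < σ.length by omega, dif_pos]
      exact (Adj_iff _ _).1 (h2 _ _ rfl)
  · rintro ⟨f, ⟨h1, h2⟩, h3⟩
    refine ⟨fun i => f i.val, ⟨fun i j h => Fin.ext (h1 _ i.2 _ j.2 h), fun i j h => ?_⟩,
      by rwa [contacts_eq]⟩
    rw [Adj_iff]
    change adj (f i) (f j)
    rw [h]
    exact h2 _ (h ▸ j.2)

/-- A walk that puts the `H` nodes exactly on the hexagon of radius `s`. -/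
def HexFold (s : ℕ) (σ : List Bool) (f : ℕ → Pt) : Prop :=
  Walk σ.length f ∧ ∀ x, hex s x ↔ ∃ i, σ.getD i false = true ∧ f i = x

theorem fold_iff (σ : List Bool) (s k : ℕ) (hn : (hs σ).card = 3 * s ^ 2 + 3 * s + 1)
    (hk : k + bonds σ = 9 * s ^ 2 + 3 * s) :
    (∃ f, IsFolding σ f ∧ k ≤ contacts σ f) ↔ ∃ f, HexFold s σ f := by
  rw [folding_iff]
  constructor
  · rintro ⟨f, hf, h⟩
    have h1 := con_add hf
    have hinj : Set.InjOn f (hs σ) := fun i hi j hj =>
      hf.1 i (lt_of_getD (mem_hs.1 hi)) j (lt_of_getD (mem_hs.1 hj))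
    obtain ⟨c, hc⟩ := hex_unique ((hs σ).image f) s (by rw [card_image_of_injOn hinj, hn])
      (by omega)
    refine ⟨fun i => f i - c, ⟨fun i hi j hj e => hf.1 i hi j hj (by simpa using e),
      fun i hi => ?_⟩, fun x => ?_⟩
    · have := hf.2 i hi
      rw [adj_iff_dirs] at this ⊢
      simpa using this
    · have := hc (x + c)
      rw [add_sub_cancel_right] at this
      rw [← this, mem_image]
      simp only [mem_hs, sub_eq_iff_eq_add]
  · rintro ⟨f, hf, h⟩
    refine ⟨f, hf, ?_⟩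
    have h1 := con_add hf
    have : (hs σ).image f = hexF s := by
      ext x
      simp only [mem_image, mem_hs, mem_hexF, h]
    rw [this] at h1
    have := KK_hexF s
    omega

end Pool.Agent.Lib.MP_dec383_lc
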