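import Pool.Agent.Lib.MP_dec383_lc.Defs

/-! Edge isoperimetry in the triangular lattice. -/

namespace Pool.Agent.Lib.MP_dec383_lc

open Finset

abbrev Pt := ℤ × ℤ

def adj (p q : Pt) : Prop :=
  (q.1 = p.1 + 1 ∧ q.2 = p.2) ∨ (q.1 = p.1 - 1 ∧ q.2 = p.2) ∨ (q.1 = p.1 ∧ q.2 = p.2 + 1) ∨
  (q.1 = p.1 ∧ q.2 = p.2 - 1) ∨ (q.1 = p.1 + 1 ∧ q.2 = p.2 - 1) ∨ (q.1 = p.1 - 1 ∧ q.2 = p.2 + 1)

instance (p q : Pt) : Decidable (adj p q) := by unfold adj; infer_instance

theorem adj_symm {p q : Pt} (h : adj p q) : adj q p := by unfold adj at *; omega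

theorem Adj_iff (p q : Pt) : Adj p q ↔ adj p q := by
  unfold Adj adj
  constructor
  · intro h
    obtain ⟨u, hu⟩ : ∃ u, u = p.1 - q.1 := ⟨_, rfl⟩
    obtain ⟨v, hv⟩ : ∃ v, v = p.2 - q.2 := ⟨_, rfl⟩
    rw [← hu, ← hv] at h
    have h1 : -1 ≤ u ∧ u ≤ 1 := by constructor <;> nlinarith [sq_nonneg (u + 2 * v)]
    have h2 : -1 ≤ v ∧ v ≤ 1 := by constructor <;> nlinarith [sq_nonneg (2 * u + v)]
    obtain ⟨h3, h4⟩ := h1
    obtain ⟨h5, h6⟩ := h2
    interval_cases u <;> interval_cases v <;> omega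
  · rintro (⟨h1, h2⟩ | ⟨h1, h2⟩ | ⟨h1, h2⟩ | ⟨h1, h2⟩ | ⟨h1, h2⟩ | ⟨h1, h2⟩) <;> rw [h1, h2] <;> ring

def hex (s : ℤ) (p : Pt) : Prop :=
  -s ≤ p.1 ∧ p.1 ≤ s ∧ -s ≤ p.2 ∧ p.2 ≤ s ∧ -s ≤ p.1 + p.2 ∧ p.1 + p.2 ≤ s

instance (s : ℤ) (p : Pt) : Decidable (hex s p) := by unfold hex; infer_instance

/-- The number of points of `S` whose neighbour in direction `d` is outside `S`. -/
def rd (S : Finset Pt) (d : Pt) : ℕ := (S.filter fun p => p + d ∉ S).card

theorem rd_add (S : Finset Pt) (d : Pt) : (S.filter fun p => p + d ∈ S).card + rd S d = S.card :=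
  card_filter_add_card_filter_not _

theorem rd_neg (S : Finset Pt) (d : Pt) : rd S (-d) = rd S d := by
  have h1 := rd_add S d
  have h2 := rd_add S (-d)
  have : (S.filter fun p => p + d ∈ S).card = (S.filter fun p => p + -d ∈ S).card :=
    card_bij (fun p _ => p + d) (by simp +contextual) (by simp) (by
      intro b hb
      simp only [mem_filter] at hb
      exact ⟨b + -d, by simp only [mem_filter]; exact ⟨hb.2, by simpa using hb.1⟩, by simp⟩)
  omega

def KK (S : Finset Pt) : ℕ := rd S (1, 0) + rd S (0, 1) + rd S (-1, 1)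

theorem image_ends (S : Finset Pt) (d : Pt) (π lv : Pt → ℤ) (h1 : ∀ p, π (p + d) = π p)
    (h2 : ∀ p, lv (p + d) = lv p + 1) :
    (S.filter fun p => p + d ∉ S).image π = S.image π := by
  refine Subset.antisymm (image_subset_image (filter_subset _ _)) fun z hz => ?_
  obtain ⟨p, hp, rfl⟩ := mem_image.1 hz
  obtain ⟨r, hr, hmax⟩ := exists_max_image (S.filter fun r => π r = π p) lv ⟨p, by simpa⟩
  rw [mem_filter] at hr
  refine mem_image.2 ⟨r, mem_filter.2 ⟨hr.1, fun h => ?_⟩, hr.2⟩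
  have := hmax (r + d) (mem_filter.2 ⟨h, by rw [h1, hr.2]⟩)
  rw [h2] at this
  omega

theorem card_image_le_rd (S : Finset Pt) (d : Pt) (π lv : Pt → ℤ) (h1 : ∀ p, π (p + d) = π p)
    (h2 : ∀ p, lv (p + d) = lv p + 1) : (S.image π).card ≤ rd S d := by
  rw [← image_ends S d π lv h1 h2]; exact card_image_le

/-- If the number of line ends equals the number of lines, every line meets `S` in a segment. -/
theorem line_convex (S : Finset Pt) (d : Pt) (π lv : Pt → ℤ) (h1 : ∀ p, π (p + d) = π p)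
    (h2 : ∀ p, lv (p + d) = lv p + 1) (h : rd S d ≤ (S.image π).card) {p r : Pt} (hp : p ∈ S)
    (hr : r ∈ S) (e : π p = π r) (hlt : lv p < lv r) : p + d ∈ S := by
  by_contra hn
  have hinj : Set.InjOn π (S.filter fun p => p + d ∉ S) := by
    rw [← card_image_iff, image_ends S d π lv h1 h2]
    exact le_antisymm (card_image_le_rd S d π lv h1 h2) h
  obtain ⟨u, hu, hmax⟩ := exists_max_image (S.filter fun u => π u = π p) lv ⟨p, by simpa⟩
  rw [mem_filter] at hu
  have hu' : u + d ∉ S := fun h => by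
    have := hmax (u + d) (mem_filter.2 ⟨h, by rw [h1, hu.2]⟩)
    rw [h2] at this
    omega
  have := hinj (mem_coe.2 (mem_filter.2 ⟨hu.1, hu'⟩)) (mem_coe.2 (mem_filter.2 ⟨hp, hn⟩)) hu.2
  have h3 := hmax r (mem_filter.2 ⟨hr, e.symm⟩)
  rw [this] at h3
  omega

def rnk (A : Finset ℤ) (u : ℤ → ℤ) (x : ℤ) : ℕ := (A.filter fun y => u y < u x).card

theorem rnk_lt_rk {A : Finset ℤ} {u : ℤ → ℤ} {x y : ℤ} (hx : x ∈ A) (h : u x < u y) :
    rnk A u x < rnk A u y :=
  card_lt_card ⟨fun z hz => by simp only [mem_filter] at hz ⊢; exact ⟨hz.1, hz.2.trans h⟩,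
    fun hs => by simpa using hs (mem_filter.2 ⟨hx, h⟩)⟩

theorem rnk_lt {A : Finset ℤ} {u : ℤ → ℤ} {x : ℤ} (hx : x ∈ A) : rnk A u x < A.card :=
  card_lt_card ⟨filter_subset _ _, fun hs => by simpa using hs hx⟩

theorem rnk_injOn (A : Finset ℤ) {u : ℤ → ℤ} (hu : Function.Injective u) :
    Set.InjOn (rnk A u) A := by
  intro x hx y hy h
  rcases lt_trichotomy (u x) (u y) with h1 | h1 | h1
  · have := rnk_lt_rk (A := A) hx h1; omega
  · exact hu h1
  · have := rnk_lt_rk (A := A) hy h1; omega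

theorem card_rnk_ge (A : Finset ℤ) {u : ℤ → ℤ} (hu : Function.Injective u) (τ : ℕ) :
    (A.filter fun x => τ ≤ rnk A u x).card ≤ A.card - τ := by
  rw [← Nat.card_Ico]
  exact card_le_card_of_injOn (rnk A u) (fun x hx => by
    simp only [coe_filter, Set.mem_ofPred_eq] at hx
    simpa using ⟨hx.2, rnk_lt hx.1⟩) ((rnk_injOn A hu).mono (by simp +contextual [Set.subset_def]))

theorem exists_rnk (A : Finset ℤ) {u : ℤ → ℤ} (hu : Function.Injective u) {τ : ℕ}
    (h : τ < A.card) : ∃ x ∈ A, rnk A u x = τ := by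
  have : A.image (rnk A u) = range A.card :=
    eq_of_subset_of_card_le (fun z hz => by
      obtain ⟨x, hx, rfl⟩ := mem_image.1 hz
      exact mem_range.2 (rnk_lt hx)) (by rw [card_range, card_image_of_injOn (rnk_injOn A hu)])
  exact mem_image.1 (this ▸ mem_range.2 h)

/-- The chain decomposition behind Pollard's inequality. -/
theorem low_part (S : Finset Pt) (e : ℤ) (he : e = 1 ∨ e = -1) (τ : ℕ) :
    (S.filter fun p => ¬ (τ ≤ rnk (S.image Prod.fst) (fun x => -e * x) p.1 ∧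
      τ ≤ rnk (S.image Prod.snd) (fun y => e * y) p.2)).card ≤
      τ * (S.image fun p => p.1 + p.2).card := by
  refine le_trans ?_ (by rw [card_product, card_range] :
    (range τ ×ˢ (S.image fun p => p.1 + p.2)).card = _).le
  refine card_le_card_of_injOn (fun p => (min (rnk (S.image Prod.fst) (fun x => -e * x) p.1)
    (rnk (S.image Prod.snd) (fun y => e * y) p.2), p.1 + p.2)) (fun p hp => ?_) ?_
  · simp only [coe_filter, Set.mem_ofPred_eq] at hp
    simp only [coe_product, coe_range, Set.mem_prod, Set.mem_Iio, mem_coe]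
    exact ⟨by omega, mem_image_of_mem _ hp.1⟩
  · have key : ∀ p ∈ S, ∀ r ∈ S, p.1 + p.2 = r.1 + r.2 → e * r.1 < e * p.1 →
        min (rnk (S.image Prod.fst) (fun x => -e * x) p.1) (rnk (S.image Prod.snd) (fun y => e * y) p.2) <
        min (rnk (S.image Prod.fst) (fun x => -e * x) r.1) (rnk (S.image Prod.snd) (fun y => e * y) r.2) := by
      intro p hp r _ h1 h2
      have h3 := rnk_lt_rk (u := fun x => -e * x) (y := r.1) (mem_image_of_mem Prod.fst hp)
        (by linarith)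
      have h4 := rnk_lt_rk (u := fun y => e * y) (y := r.2) (mem_image_of_mem Prod.snd hp)
        (by rcases he with rfl | rfl <;> linarith)
      omega
    intro p hp r hr h
    simp only [coe_filter, Set.mem_ofPred_eq, Prod.mk.injEq] at hp hr h
    rcases lt_trichotomy (e * r.1) (e * p.1) with h1 | h1 | h1
    · have := key p hp.1 r hr.1 h.2 h1; omega
    · refine Prod.ext ?_ ?_ <;> rcases he with rfl | rfl <;> omega
    · have := key r hr.1 p hp.1 h.2.symm h1; omega

theorem neg_mul_inj {e : ℤ} (he : e = 1 ∨ e = -1) : Function.Injective fun x : ℤ => -e * x := by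
  intro x y h; rcases he with rfl | rfl <;> simp only at h <;> omega

theorem mul_inj {e : ℤ} (he : e = 1 ∨ e = -1) : Function.Injective fun x : ℤ => e * x := by
  intro x y h; rcases he with rfl | rfl <;> simp only at h <;> omega

theorem high_sub (S : Finset Pt) (e : ℤ) (τ : ℕ) :
    (S.filter fun p => τ ≤ rnk (S.image Prod.fst) (fun x => -e * x) p.1 ∧
      τ ≤ rnk (S.image Prod.snd) (fun y => e * y) p.2) ⊆
    ((S.image Prod.fst).filter fun x => τ ≤ rnk (S.image Prod.fst) (fun x => -e * x) x) ×ˢ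
      ((S.image Prod.snd).filter fun y => τ ≤ rnk (S.image Prod.snd) (fun y => e * y) y) := by
  intro p hp
  simp only [mem_filter, mem_product] at hp ⊢
  exact ⟨⟨mem_image_of_mem _ hp.1, hp.2.1⟩, mem_image_of_mem _ hp.1, hp.2.2⟩

theorem pollard (S : Finset Pt) (τ : ℕ) :
    S.card ≤ ((S.image Prod.fst).card - τ) * ((S.image Prod.snd).card - τ) +
      τ * (S.image fun p => p.1 + p.2).card := by
  have h1 := low_part S 1 (Or.inl rfl) τ
  have h2 := card_le_card (high_sub S 1 τ)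
  rw [card_product] at h2
  have h3 := h2.trans (Nat.mul_le_mul (card_rnk_ge _ (neg_mul_inj (Or.inl rfl)) τ)
    (card_rnk_ge _ (mul_inj (Or.inl rfl)) τ))
  have h4 := card_filter_add_card_filter_not (s := S)
    fun p => τ ≤ rnk (S.image Prod.fst) (fun x => -1 * x) p.1 ∧
      τ ≤ rnk (S.image Prod.snd) (fun y => 1 * y) p.2
  omega

theorem iso_num {n a b c : ℕ} (h : ∀ τ, n ≤ (a - τ) * (b - τ) + τ * c) :
    12 * n + 2 * (((a : ℤ) - b) ^ 2 + ((b : ℤ) - c) ^ 2 + ((c : ℤ) - a) ^ 2) ≤ (a + b + c) ^ 2 + 3 ∨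
      16 * n ≤ (a + b + c) ^ 2 := by
  by_cases h1 : a + b ≤ c
  · have := h 0
    simp only [Nat.sub_zero, zero_mul, add_zero] at this
    right
    zify at *
    nlinarith [sq_nonneg ((a : ℤ) - b)]
  by_cases h2 : a + c ≤ b
  · have := h a
    simp only [Nat.sub_self, zero_mul, zero_add] at this
    right
    zify at *
    nlinarith [sq_nonneg ((a : ℤ) - c)]
  by_cases h3 : b + c ≤ a
  · have := h b
    simp only [Nat.sub_self, mul_zero, zero_add] at this
    right
    zify at *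
    nlinarith [sq_nonneg ((b : ℤ) - c)]
  left
  obtain ⟨τ, hτ⟩ : ∃ τ, a + b = c + 2 * τ ∨ a + b = c + 2 * τ + 1 := ⟨(a + b - c) / 2, by omega⟩
  have h4 := h τ
  have h5 : τ ≤ a := by omega
  have h6 : τ ≤ b := by omega
  zify [h5, h6] at h4 hτ
  rcases hτ with h7 | h7
  · have : (c : ℤ) = a + b - 2 * τ := by omega
    rw [this] at h4 ⊢
    nlinarith
  · have : (c : ℤ) = a + b - 2 * τ - 1 := by omega
    rw [this] at h4 ⊢
    nlinarith

theorem proj_le (S : Finset Pt) : (S.image Prod.snd).card ≤ rd S (1, 0) ∧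
    (S.image Prod.fst).card ≤ rd S (0, 1) ∧ (S.image fun p => p.1 + p.2).card ≤ rd S (-1, 1) :=
  ⟨card_image_le_rd S _ _ Prod.fst (by simp) (by simp),
    card_image_le_rd S _ _ Prod.snd (by simp) (by simp),
    card_image_le_rd S _ _ Prod.snd (fun p => by simp; ring) (by simp)⟩

theorem iso (S : Finset Pt) : 12 * S.card ≤ KK S ^ 2 + 3 := by
  obtain ⟨h1, h2, h3⟩ := proj_le S
  have h4 : ((S.image Prod.fst).card + (S.image Prod.snd).card +
      (S.image fun p => p.1 + p.2).card) ^ 2 ≤ KK S ^ 2 :=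
    Nat.pow_le_pow_left (by unfold KK; omega) 2
  rcases iso_num (pollard S) with h | h
  · zify at h4 ⊢
    nlinarith [sq_nonneg (((S.image Prod.fst).card : ℤ) - (S.image Prod.snd).card),
      sq_nonneg (((S.image Prod.snd).card : ℤ) - (S.image fun p => p.1 + p.2).card),
      sq_nonneg (((S.image fun p => p.1 + p.2).card : ℤ) - (S.image Prod.fst).card)]
  · omega

noncomputable def hexF (s : ℤ) : Finset Pt := (Icc (-s) s ×ˢ Icc (-s) s).filter (hex s)

theorem mem_hexF {s : ℤ} {p : Pt} : p ∈ hexF s ↔ hex s p := by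
  simp only [hexF, mem_filter, mem_product, mem_Icc, hex]; omega

theorem KK_hexF (s : ℕ) : KK (hexF s) ≤ 6 * s + 3 := by
  have key : ∀ (d : Pt) (π : Pt → ℤ), (∀ p, hex s p → -s ≤ π p ∧ π p ≤ s) →
      (∀ p r, hex s p → hex s r → ¬ hex s (p + d) → ¬ hex s (r + d) → π p = π r → p = r) →
      rd (hexF s) d ≤ 2 * s + 1 := by
    intro d π h1 h2
    have : (Icc (-s : ℤ) s).card = 2 * s + 1 := by simp; omega
    rw [← this]
    refine card_le_card_of_injOn π (fun p hp => ?_) fun p hp r hr h => ?_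
    · simp only [coe_filter, mem_hexF, Set.mem_ofPred_eq] at hp
      simpa using h1 p hp.1
    · simp only [coe_filter, mem_hexF, Set.mem_ofPred_eq] at hp hr
      exact h2 p r hp.1 hr.1 hp.2 hr.2 h
  have h1 := key (1, 0) Prod.snd (by unfold hex; omega) (by
    rintro ⟨a, b⟩ ⟨c, d⟩; simp only [hex, Prod.mk_add_mk, Prod.mk.injEq]; omega)
  have h2 := key (0, 1) Prod.fst (by unfold hex; omega) (by
    rintro ⟨a, b⟩ ⟨c, d⟩; simp only [hex, Prod.mk_add_mk, Prod.mk.injEq]; omega)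
  have h3 := key (-1, 1) (fun p => p.1 + p.2) (by unfold hex; omega) (by
    rintro ⟨a, b⟩ ⟨c, d⟩; simp only [hex, Prod.mk_add_mk, Prod.mk.injEq]; omega)
  unfold KK; omega

theorem card_hexF_le (s : ℕ) : (hexF s).card ≤ 3 * s ^ 2 + 3 * s + 1 := by
  have h1 := iso (hexF s)
  have h2 := Nat.pow_le_pow_left (KK_hexF s) 2
  nlinarith

theorem interval_of {A : Finset ℤ} {s : ℕ} (hA : A.card = 2 * s + 1) {x₀ : ℤ}
    (h₀ : rnk A (fun x => 1 * x) x₀ = s) (hx₀ : x₀ ∈ A)
    (hc : ∀ x ∈ A, ∀ y ∈ A, x < y → x + 1 ∈ A) : A = Icc (x₀ - s) (x₀ + s) := by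
  have hne : A.Nonempty := ⟨_, hx₀⟩
  have h1 : ∀ k : ℕ, A.min' hne + k ≤ A.max' hne → A.min' hne + k ∈ A := by
    intro k
    induction k with
    | zero => intro _; simpa using A.min'_mem hne
    | succ k ih =>
      intro hk
      have := hc _ (ih (by omega)) _ (A.max'_mem hne) (by omega)
      rwa [add_assoc] at this
  have h2 : A = Icc (A.min' hne) (A.max' hne) := by
    ext x
    rw [mem_Icc]
    refine ⟨fun hx => ⟨A.min'_le x hx, A.le_max' x hx⟩, fun hx => ?_⟩
    have := h1 (x - A.min' hne).toNat (by omega)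
    rwa [show A.min' hne + ((x - A.min' hne).toNat : ℤ) = x by omega] at this
  generalize A.min' hne = lo at h2
  generalize A.max' hne = hi at h2
  subst h2
  have h3 : (Icc lo hi).filter (fun y => 1 * y < 1 * x₀) = Ico lo x₀ := by
    ext y; simp only [mem_filter, mem_Icc, mem_Ico] at hx₀ ⊢; omega
  rw [rnk, h3, Int.card_Ico] at h₀
  rw [Int.card_Icc] at hA
  rw [mem_Icc] at hx₀
  congr 1 <;> omega

theorem rnk_neg {A : Finset ℤ} {x : ℤ} (hx : x ∈ A) :
    rnk A (fun x => 1 * x) x + rnk A (fun x => -1 * x) x + 1 = A.card := by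
  have h1 := card_filter_add_card_filter_not (s := A) fun y => 1 * y < 1 * x
  have h2 : A.filter (fun y => ¬ 1 * y < 1 * x) = insert x (A.filter fun y => -1 * y < -1 * x) := by
    ext y
    simp only [mem_filter, mem_insert]
    constructor
    · rintro ⟨h3, h4⟩
      by_cases e : y = x
      · exact Or.inl e
      · exact Or.inr ⟨h3, by omega⟩
    · rintro (rfl | ⟨h3, h4⟩)
      · exact ⟨hx, by omega⟩
      · exact ⟨h3, by omega⟩
  rw [h2, card_insert_of_notMem (by simp)] at h1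
  unfold rnk; omega

/-- The regular hexagon is the only optimal shape of its size. -/
theorem hex_unique (S : Finset Pt) (s : ℕ) (hn : S.card = 3 * s ^ 2 + 3 * s + 1)
    (hK : KK S ≤ 6 * s + 3) : ∃ c : Pt, ∀ p, p ∈ S ↔ hex s (p - c) := by
  obtain ⟨h1, h2, h3⟩ := proj_le S
  set A := S.image Prod.fst with hA
  set B := S.image Prod.snd with hB
  set C := S.image fun p => p.1 + p.2 with hC
  have hsum : A.card + B.card + C.card ≤ 6 * s + 3 := by unfold KK at hK; omega
  have hsq := Nat.pow_le_pow_left hsum 2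
  have habc : A.card = 2 * s + 1 ∧ B.card = 2 * s + 1 ∧ C.card = 2 * s + 1 := by
    rcases iso_num (pollard S) with h | h
    · rw [← hA, ← hB, ← hC, hn] at h
      zify at hsq
      push_cast at h
      have e1 : (A.card : ℤ) - B.card = 0 := by
        nlinarith [sq_nonneg ((A.card : ℤ) - B.card), sq_nonneg ((B.card : ℤ) - C.card),
          sq_nonneg ((C.card : ℤ) - A.card)]
      have e2 : (B.card : ℤ) - C.card = 0 := by
        nlinarith [sq_nonneg ((A.card : ℤ) - B.card), sq_nonneg ((B.card : ℤ) - C.card),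
          sq_nonneg ((C.card : ℤ) - A.card)]
      have e3 : B.card = A.card := by omega
      have e4 : C.card = A.card := by omega
      rw [e3, e4] at h ⊢
      have : 2 * s + 1 ≤ A.card := by
        by_contra h5
        have h6 : (A.card : ℤ) ≤ 2 * s := by omega
        nlinarith
      omega
    · rw [← hA, ← hB, ← hC, hn] at h
      nlinarith
  obtain ⟨ha, hb, hc⟩ := habc
  have block : ∀ e : ℤ, e = 1 ∨ e = -1 → ∀ x ∈ A, ∀ y ∈ B, s ≤ rnk A (fun x => -e * x) x →
      s ≤ rnk B (fun y => e * y) y → (x, y) ∈ S := by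
    intro e he x hx y hy h4 h5
    have h6 := low_part S e he s
    have h7 := card_filter_add_card_filter_not (s := S)
      fun p => s ≤ rnk A (fun x => -e * x) p.1 ∧ s ≤ rnk B (fun y => e * y) p.2
    have h8 := Nat.mul_le_mul (card_rnk_ge A (neg_mul_inj he) s) (card_rnk_ge B (mul_inj he) s)
    rw [ha, hb, show 2 * s + 1 - s = s + 1 by omega, ← card_product] at h8
    rw [← hA, ← hB, ← hC, hc] at h6
    have h9 := eq_of_subset_of_card_le (high_sub S e s) (by
      rw [← hA, ← hB]; nlinarith)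
    rw [← hA, ← hB] at h9
    have : (x, y) ∈ S.filter fun p => s ≤ rnk A (fun x => -e * x) p.1 ∧
        s ≤ rnk B (fun y => e * y) p.2 := by
      rw [h9]; exact mem_product.2 ⟨mem_filter.2 ⟨hx, h4⟩, mem_filter.2 ⟨hy, h5⟩⟩
    exact (mem_filter.1 this).1
  have b1 := block 1 (Or.inl rfl)
  have b2 := block (-1) (Or.inr rfl)
  simp only [neg_neg] at b2
  obtain ⟨x₀, hx₀, hx⟩ := exists_rnk A (mul_inj (Or.inl rfl)) (show s < A.card by omega)
  obtain ⟨y₀, hy₀, hy⟩ := exists_rnk B (mul_inj (Or.inl rfl)) (show s < B.card by omega)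
  have hx' := rnk_neg hx₀
  have hy' := rnk_neg hy₀
  have row : ∀ x ∈ A, (x, y₀) ∈ S := fun x hx => by
    have := rnk_neg hx
    by_cases h : s ≤ rnk A (fun x => -1 * x) x
    · exact b1 x hx y₀ hy₀ h hy.ge
    · exact b2 x hx y₀ hy₀ (by omega) (by omega)
  have col : ∀ y ∈ B, (x₀, y) ∈ S := fun y hy => by
    have := rnk_neg hy
    by_cases h : s ≤ rnk B (fun x => 1 * x) y
    · exact b1 x₀ hx₀ y hy (by omega) h
    · exact b2 x₀ hx₀ y hy hx.ge (by omega)
  unfold KK at hK
  have eA := interval_of ha hx hx₀ fun x hx y hy h =>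
    mem_image_of_mem Prod.fst (line_convex S (1, 0) Prod.snd Prod.fst (by simp) (by simp)
      (by rw [← hB]; omega) (row x hx) (row y hy) rfl h)
  have eB := interval_of hb hy hy₀ fun x hx y hy h =>
    mem_image_of_mem Prod.snd (line_convex S (0, 1) Prod.fst Prod.snd (by simp) (by simp)
      (by rw [← hA]; omega) (col x hx) (col y hy) rfl h)
  have eC : Icc (x₀ + y₀ - s) (x₀ + y₀ + s) = C := by
    refine eq_of_subset_of_card_le (fun z hz => ?_) (by rw [hc, Int.card_Icc]; omega)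
    rw [mem_Icc] at hz
    by_cases h : z ≤ x₀ + y₀
    · refine mem_image.2 ⟨_, row (z - y₀) (by rw [eA, mem_Icc]; omega), by simp⟩
    · refine mem_image.2 ⟨_, col (z - x₀) (by rw [eB, mem_Icc]; omega), by simp⟩
  have hsub : S ⊆ (hexF s).image fun p => p + (x₀, y₀) := by
    intro p hp
    have h4 : p.1 ∈ A := mem_image_of_mem _ hp
    have h5 : p.2 ∈ B := mem_image_of_mem _ hp
    have h6 : p.1 + p.2 ∈ C := mem_image_of_mem (fun p : Pt => p.1 + p.2) hp
    rw [eA, mem_Icc] at h4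
    rw [eB, mem_Icc] at h5
    rw [← eC, mem_Icc] at h6
    refine mem_image.2 ⟨p - (x₀, y₀), mem_hexF.2 ?_, by simp⟩
    simp only [hex, Prod.fst_sub, Prod.snd_sub]; omega
  have heq := eq_of_subset_of_card_le hsub (card_image_le.trans ((card_hexF_le s).trans hn.ge))
  refine ⟨(x₀, y₀), fun p => ?_⟩
  rw [heq, mem_image]
  constructor
  · rintro ⟨r, hr, rfl⟩; simpa using mem_hexF.1 hr
  · exact fun h => ⟨_, mem_hexF.2 h, by simp⟩

end Pool.Agent.Lib.MP_dec383_lc
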