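import Pool.Agent.Lib.MP_dec383_lc.Fold

/-! The region cut off from a half plane by a path, and a bound on its size. -/

namespace Pool.Agent.Lib.MP_dec383_lc

open Finset

def ed (S : Finset Pt) (d : Pt) : ℕ := (S.filter fun p => p + d ∉ S ∧ 0 ≤ (p + d).2).card

def bdE (S : Finset Pt) : Finset (Pt × Pt) :=
  (S ×ˢ dirs).filter fun e => e.1 + e.2 ∉ S ∧ 0 ≤ (e.1 + e.2).2

theorem card_bdE (S : Finset Pt) : (bdE S).card = ∑ d ∈ dirs, ed S d := by
  simp only [bdE, ed, card_filter]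
  rw [sum_product_right]

def intv (S : Finset Pt) : ℕ := (S.filter fun p => p.2 = 0 ∧ p + (-1, 0) ∉ S).card

theorem half_iso (S : Finset Pt) (hS : ∀ p ∈ S, 0 ≤ p.2) :
    24 * S.card ≤ ((bdE S).card + intv S) ^ 2 + 3 := by
  let ρ : Pt → Pt := fun p => (p.1 + p.2, -1 - p.2)
  have hρ : Function.Injective ρ := by
    rintro ⟨a, b⟩ ⟨c, d⟩ h; simp only [ρ, Prod.mk.injEq] at h ⊢; omega
  have hc : (S ∪ S.image ρ).card = 2 * S.card := by
    rw [card_union_of_disjoint, card_image_of_injective _ hρ, two_mul]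
    rw [disjoint_left]
    intro p h1 h2
    obtain ⟨r, hr, rfl⟩ := mem_image.1 h2
    have := hS _ h1
    have := hS _ hr
    simp only [ρ] at *
    omega
  have key : ∀ (d : Pt) (U : Finset Pt), 0 ≤ d.2 →
      (∀ p ∈ S, ρ p + d ∉ S → ρ p + d ∉ S.image ρ → p ∈ U) →
      rd (S ∪ S.image ρ) d ≤ ed S d + U.card := by
    intro d U hd h
    rw [← card_image_of_injective U hρ]
    refine le_trans (card_le_card fun p hp => ?_) (card_union_le _ _)
    simp only [mem_filter, mem_union, not_or] at hp ⊢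
    rcases hp.1 with h1 | h1
    · exact Or.inl ⟨h1, hp.2.1, by have := hS p h1; simp only [Prod.snd_add]; omega⟩
    · obtain ⟨r, hr, rfl⟩ := mem_image.1 h1
      exact Or.inr (mem_image_of_mem _ (h r hr hp.2.1 hp.2.2))
  have h1 := key (1, 0) (S.filter fun p => p + (1, 0) ∉ S) le_rfl fun p hp _ h =>
    mem_filter.2 ⟨hp, fun h' => h (mem_image.2 ⟨_, h', by simp [ρ]; ring⟩)⟩
  have h2 := key (0, 1) (S.filter fun p => p + (1, -1) ∉ S ∧ 0 ≤ (p + (1, -1)).2) (by simp)
    fun p hp h h' => mem_filter.2 ⟨hp, fun h3 => h' (mem_image.2 ⟨_, h3, by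
      simp only [ρ, Prod.ext_iff, Prod.fst_add, Prod.snd_add]; omega⟩), by
      by_contra h4
      have := hS p hp
      refine h (by
        convert hp using 1
        simp only [ρ, Prod.ext_iff, Prod.fst_add, Prod.snd_add] at h4 ⊢; omega)⟩
  have h3 := key (-1, 1) ((S.filter fun p => p + (0, -1) ∉ S ∧ 0 ≤ (p + (0, -1)).2) ∪
      S.filter fun p => p.2 = 0 ∧ p + (-1, 0) ∉ S) (by simp) fun p hp h h' => by
    have := hS p hp
    by_cases h4 : p.2 = 0
    · refine mem_union_right _ (mem_filter.2 ⟨hp, h4, fun h5 => h ?_⟩)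
      convert h5 using 1
      simp only [ρ, Prod.ext_iff, Prod.fst_add, Prod.snd_add]; omega
    · refine mem_union_left _ (mem_filter.2 ⟨hp, fun h3 => h' (mem_image.2 ⟨_, h3, ?_⟩), ?_⟩)
      · simp only [ρ, Prod.ext_iff, Prod.fst_add, Prod.snd_add]; omega
      · simp only [Prod.snd_add]; omega
  have h4 := card_union_le (S.filter fun p => p + (0, -1) ∉ S ∧ 0 ≤ (p + (0, -1)).2)
    (S.filter fun p => p.2 = 0 ∧ p + (-1, 0) ∉ S)
  have h5 : rd S (-1, 0) = ed S (-1, 0) := by
    unfold rd ed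
    congr 1
    exact filter_congr fun p hp => by simpa using fun _ => hS p hp
  have h6 := rd_neg S (1, 0)
  simp only [Prod.neg_mk, neg_zero] at h6
  have h7 := iso (S ∪ S.image ρ)
  have h8 : KK (S ∪ S.image ρ) ≤ (bdE S).card + intv S := by
    rw [card_bdE, sum_dirs]
    change rd _ _ ≤ _ + rd S (1, 0) at h1
    change rd _ _ ≤ _ + ed S (1, -1) at h2
    change _ ≤ ed S (0, -1) + intv S at h4
    unfold KK
    omega
  have := Nat.pow_le_pow_left h8 2
  omega

theorem tele (g : ℕ → ZMod 2) (n : ℕ) : ∑ j ∈ range n, (g j + g (j + 1)) = g 0 + g n := by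
  induction n with
  | zero => simp [CharTwo.add_self_eq_zero]
  | succ n ih =>
    rw [sum_range_succ, ih, add_assoc, ← add_assoc (g n), CharTwo.add_self_eq_zero, zero_add]

def cr (u a b : Pt) : Prop :=
  (a.2 = u.2 ∧ b.2 = u.2 + 1 ∧ a.1 < u.1) ∨ (b.2 = u.2 ∧ a.2 = u.2 + 1 ∧ b.1 < u.1)

instance (u a b : Pt) : Decidable (cr u a b) := by unfold cr; infer_instance

def ind (P : Prop) [Decidable P] : ZMod 2 := if P then 1 else 0

theorem ind_xor {P Q R : Prop} [Decidable P] [Decidable Q] [Decidable R] (h : P ↔ ¬ (Q ↔ R)) :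
    ind P = ind Q + ind R := by
  unfold ind
  by_cases hQ : Q <;> by_cases hR : R <;> simp_all [CharTwo.add_self_eq_zero]

theorem ind_xor2 {P P' Q R : Prop} [Decidable P] [Decidable P'] [Decidable Q] [Decidable R]
    (h : (P ↔ P') ↔ (Q ↔ R)) : ind P + ind P' = ind Q + ind R := by
  unfold ind
  by_cases hQ : Q <;> by_cases hR : R <;> by_cases hP : P <;>
    simp_all [CharTwo.add_self_eq_zero]

section
variable (W : ℕ → Pt) (n : ℕ)

def par (u : Pt) : ZMod 2 := ∑ j ∈ range n, ind (cr u (W j) (W (j + 1)))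

variable {W n} (hadj : ∀ j < n, adj (W j) (W (j + 1))) (h0 : (W 0).2 = 0) (hn : (W n).2 = 0)
include hadj h0 hn

theorem par_down {u v : Pt} (hu : ∀ j ≤ n, W j ≠ u) (hv : ∀ j ≤ n, W j ≠ v) (hy : 0 ≤ u.2)
    (h : v.2 = u.2 + 1) (h' : v.1 = u.1 ∨ v.1 = u.1 - 1) : par W n u = par W n v := by
  have h1 := tele (fun j => ind ((W j).2 = v.2 ∧ (W j).1 < v.1)) n
  have h2 : par W n u + par W n v = 0 := by
    unfold par
    rw [← sum_add_distrib, sum_congr rfl fun j hj => ind_xor2
      (Q := (W j).2 = v.2 ∧ (W j).1 < v.1) (R := (W (j + 1)).2 = v.2 ∧ (W (j + 1)).1 < v.1) ?_, h1]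
    · simp only [ind]
      rw [if_neg (by omega), if_neg (by omega), add_zero]
    · rw [mem_range] at hj
      have a1 := hadj j hj
      have a2 := hu j hj.le
      have a3 := hu (j + 1) hj
      have a4 := hv j hj.le
      have a5 := hv (j + 1) hj
      simp only [ne_eq, Prod.ext_iff, adj, cr] at *
      omega
  rwa [CharTwo.add_eq_zero] at h2

theorem par_adj {u v : Pt} (hu : ∀ j ≤ n, W j ≠ u) (hv : ∀ j ≤ n, W j ≠ v) (hy : 0 ≤ u.2)
    (hy' : 0 ≤ v.2) (h : adj u v) : par W n u = par W n v := by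
  have hor : ∀ u v : Pt, (∀ j ≤ n, W j ≠ u) → v.1 = u.1 + 1 → v.2 = u.2 →
      par W n u = par W n v := by
    intro u v hu h1 h2
    refine sum_congr rfl fun j hj => ?_
    rw [mem_range] at hj
    have a2 := hu j hj.le
    have a3 := hu (j + 1) hj
    unfold ind
    refine if_congr ?_ rfl rfl
    simp only [ne_eq, Prod.ext_iff, cr] at *
    omega
  rcases h with h | h | h | h | h | h
  · exact hor u v hu h.1 h.2
  · exact (hor v u hv (by omega) h.2.symm).symm
  · exact par_down hadj h0 hn hu hv hy h.2 (Or.inl h.1)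
  · exact (par_down hadj h0 hn hv hu hy' (by omega) (Or.inl h.1.symm)).symm
  · exact (par_down hadj h0 hn hv hu hy' (by omega) (Or.inr (by omega))).symm
  · exact par_down hadj h0 hn hu hv hy h.2 (Or.inr h.1)

theorem par_top (hW : ∀ j ≤ n, 0 ≤ (W j).2) {x : ℤ} (hu : ∀ j ≤ n, W j ≠ (x, 0)) :
    par W n (x, 0) = ind ((W 0).1 < x) + ind ((W n).1 < x) := by
  have h1 := tele (fun j => ind ((W j).2 = 0 ∧ (W j).1 < x)) n
  unfold par
  rw [sum_congr rfl fun j hj => ind_xor
    (Q := (W j).2 = 0 ∧ (W j).1 < x) (R := (W (j + 1)).2 = 0 ∧ (W (j + 1)).1 < x) ?_, h1]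
  · simp [h0, hn]
  · rw [mem_range] at hj
    have a1 := hadj j hj
    have a2 := hu j hj.le
    have a3 := hu (j + 1) hj
    have a4 := hW j hj.le
    have a5 := hW (j + 1) hj
    simp only [ne_eq, Prod.ext_iff, adj, cr] at *
    omega

theorem par_far {K : ℤ} (hK : ∀ j ≤ n, -K ≤ (W j).1 ∧ (W j).1 ≤ K ∧ (W j).2 ≤ K) {u : Pt}
    (h : ¬ (-K ≤ u.1 ∧ u.1 ≤ K ∧ u.2 ≤ K)) : par W n u = 0 := by
  by_cases h1 : K < u.1
  · have h2 := tele (fun j => ind ((W j).2 ≤ u.2)) n
    unfold par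
    rw [sum_congr rfl fun j hj => ind_xor (Q := (W j).2 ≤ u.2) (R := (W (j + 1)).2 ≤ u.2) ?_, h2]
    · simp [h0, hn, CharTwo.add_self_eq_zero]
    · rw [mem_range] at hj
      have a1 := hadj j hj
      have a2 := hK j hj.le
      have a3 := hK (j + 1) hj
      simp only [adj, cr] at *
      omega
  · refine sum_eq_zero fun j hj => if_neg ?_
    rw [mem_range] at hj
    have a2 := hK j hj.le
    have a3 := hK (j + 1) hj
    simp only [cr] at *
    omega

end

theorem jordan (W : ℕ → Pt) (t : ℕ) (hinj : ∀ i ≤ 3 * t + 1, ∀ j ≤ 3 * t + 1, W i = W j → i = j)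
    (hadj : ∀ j < 3 * t + 1, adj (W j) (W (j + 1))) (h0 : (W 0).2 = 0)
    (hn : (W (3 * t + 1)).2 = 0) (hmid : ∀ j, 0 < j → j < 3 * t + 1 → 0 < (W j).2)
    (hlt : (W (3 * t + 1)).1 < (W 0).1) :
    ∃ I : Finset Pt, 2 * I.card ≤ t * (3 * t + 1) ∧
      (∀ x, (W (3 * t + 1)).1 < x → x < (W 0).1 → (x, 0) ∈ I) ∧
      ∀ u ∈ I, ∀ v, adj u v → 0 ≤ v.2 → (∀ j ≤ 3 * t + 1, W j ≠ v) → v ∈ I := by
  classical
  set n := 3 * t + 1 with hn'
  have hW : ∀ j ≤ n, 0 ≤ (W j).2 := fun j hj => by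
    rcases Nat.eq_zero_or_pos j with rfl | h
    · omega
    · rcases hj.lt_or_eq with h1 | rfl
      · exact (hmid j h h1).le
      · omega
  have hrow : ∀ j ≤ n, (W j).2 = 0 → j = 0 ∨ j = n := fun j hj h => by
    by_contra h1
    have := hmid j (by omega) (by omega)
    omega
  obtain ⟨K, hK⟩ : ∃ K : ℤ, ∀ j ≤ n, -K ≤ (W j).1 ∧ (W j).1 ≤ K ∧ (W j).2 ≤ K := by
    refine ⟨((range (n + 1)).sup fun j => (W j).1.natAbs + (W j).2.natAbs : ℕ), fun j hj => ?_⟩
    have := le_sup (f := fun j => (W j).1.natAbs + (W j).2.natAbs) 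
      (mem_range.2 (show j < n + 1 by omega))
    omega
  let I := (Icc (-K) K ×ˢ Icc 0 K).filter fun u => par W n u = 1 ∧ ∀ j ≤ n, W j ≠ u
  have mI : ∀ u, u ∈ I ↔ 0 ≤ u.2 ∧ par W n u = 1 ∧ ∀ j ≤ n, W j ≠ u := by
    intro u
    simp only [I, mem_filter, mem_product, mem_Icc]
    refine ⟨fun h => ⟨h.1.2.1, h.2⟩, fun h => ⟨?_, h.2⟩⟩
    by_contra h1
    have := par_far hadj h0 hn hK (u := u) (by omega)
    rw [h.2.1] at this
    exact one_ne_zero this
  have hcl : ∀ u ∈ I, ∀ v, adj u v → 0 ≤ v.2 → (∀ j ≤ n, W j ≠ v) → v ∈ I := by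
    intro u hu v h1 h2 h3
    rw [mI] at hu ⊢
    exact ⟨h2, by rw [← par_adj hadj h0 hn hu.2.2 h3 hu.1 h2 h1, hu.2.1], h3⟩
  have htop : ∀ x, (x, 0) ∈ I ↔ (W n).1 < x ∧ x < (W 0).1 := by
    intro x
    rw [mI]
    constructor
    · rintro ⟨-, h1, h2⟩
      rw [par_top hadj h0 hn hW h2] at h1
      have a1 := h2 0 (by omega)
      have a2 := h2 n le_rfl
      simp only [ne_eq, Prod.ext_iff] at a1 a2
      unfold ind at h1
      split_ifs at h1
      · exact absurd h1 (by decide)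
      · omega
      · omega
      · exact absurd h1 (by decide)
    · intro h
      have h2 : ∀ j ≤ n, W j ≠ (x, 0) := by
        intro j hj e
        rcases hrow j hj (by rw [e]) with rfl | rfl <;> rw [e] at h <;> simp at h
      refine ⟨le_rfl, ?_, h2⟩
      rw [par_top hadj h0 hn hW h2]
      unfold ind
      rw [if_neg (by omega), if_pos h.1, zero_add]
  refine ⟨I, ?_, fun x h1 h2 => (htop x).2 ⟨h1, h2⟩, hcl⟩
  let Wf := (range (n + 1)).image W
  have mW : ∀ u, u ∈ Wf ↔ ∃ j ≤ n, W j = u := fun u => by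
    simp only [Wf, mem_image, mem_range, Nat.lt_succ_iff]
  have hdis : Disjoint I Wf := by
    rw [disjoint_left]
    intro u h1 h2
    obtain ⟨j, hj, e⟩ := (mW u).1 h2
    exact ((mI u).1 h1).2.2 j hj e
  have hJ : (I ∪ Wf).card = I.card + (n + 1) := by
    rw [card_union_of_disjoint hdis, card_image_of_injOn, card_range]
    intro i hi j hj
    exact hinj i (by simpa [Nat.lt_succ_iff] using hi) j (by simpa [Nat.lt_succ_iff] using hj)
  have i1 := half_iso I fun p hp => ((mI p).1 hp).1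
  have i2 := half_iso (I ∪ Wf) fun p hp => by
    rcases mem_union.1 hp with h | h
    · exact ((mI p).1 h).1
    · obtain ⟨j, hj, rfl⟩ := (mW p).1 h
      exact hW j hj
  have j1 : intv I ≤ 1 := by
    refine card_le_one.2 fun p hp r hr => ?_
    obtain ⟨a, b⟩ := p
    obtain ⟨c, d⟩ := r
    simp only [mem_filter, Prod.mk_add_mk, add_zero] at hp hr
    obtain ⟨h1, rfl, h2⟩ := hp
    obtain ⟨h3, rfl, h4⟩ := hr
    simp only [htop] at h1 h2 h3 h4
    rw [Prod.mk.injEq]; omega
  have j2 : intv (I ∪ Wf) ≤ 1 := by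
    have : ∀ x, (x, 0) ∈ I ∪ Wf ↔ (W n).1 ≤ x ∧ x ≤ (W 0).1 := by
      intro x
      rw [mem_union, htop, mW]
      constructor
      · rintro (h | ⟨j, hj, e⟩)
        · omega
        · rcases hrow j hj (by rw [e]) with rfl | rfl <;> rw [e] at hlt ⊢ <;> simp at hlt ⊢ <;> omega
      · intro h
        by_cases h1 : x = (W 0).1
        · exact Or.inr ⟨0, by omega, Prod.ext h1.symm h0⟩
        by_cases h2 : x = (W n).1
        · exact Or.inr ⟨n, le_rfl, Prod.ext h2.symm hn⟩
        · left; omega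
    refine card_le_one.2 fun p hp r hr => ?_
    obtain ⟨a, b⟩ := p
    obtain ⟨c, d⟩ := r
    simp only [mem_filter, Prod.mk_add_mk, add_zero] at hp hr
    obtain ⟨h1, rfl, h2⟩ := hp
    obtain ⟨h3, rfl, h4⟩ := hr
    simp only [this] at h1 h2 h3 h4
    rw [Prod.mk.injEq]; omega
  let T := range (n + 1) ×ˢ dirs
  have hT : T.card = 6 * (n + 1) := by rw [card_product, card_range, mul_comm]; rfl
  let X1 := T.filter fun e => W e.1 + e.2 ∈ I
  let X2 := T.filter fun e => W e.1 + e.2 ∉ I ∪ Wf ∧ 0 ≤ (W e.1 + e.2).2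
  let X3 := T.filter fun e => W e.1 + e.2 ∈ Wf
  let X4 := T.filter fun e => (W e.1 + e.2).2 < 0
  have ndirs : ∀ d ∈ dirs, -d ∈ dirs := by decide
  have k1 : (bdE I).card ≤ X1.card := by
    refine card_le_card_of_surjOn (fun e => (W e.1 + e.2, -e.2)) fun e he => ?_
    simp only [bdE, coe_filter, mem_product, Set.mem_ofPred_eq] at he
    obtain ⟨⟨h1, h2⟩, h3, h4⟩ := he
    have h5 : adj e.1 (e.1 + e.2) := by rw [adj_iff_dirs]; simpa using h2
    have h6 : ∃ j ≤ n, W j = e.1 + e.2 := by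
      by_contra h6
      exact h3 (hcl _ h1 _ h5 h4 fun j hj e => h6 ⟨j, hj, e⟩)
    obtain ⟨j, hj, h7⟩ := h6
    refine ⟨(j, -e.2), ?_, by simp [h7]⟩
    simp only [X1, T, coe_filter, mem_product, mem_range, Set.mem_ofPred_eq]
    exact ⟨⟨by omega, ndirs _ h2⟩, by simpa [h7] using h1⟩
  have k2 : (bdE (I ∪ Wf)).card ≤ X2.card := by
    refine card_le_card_of_surjOn (fun e => (W e.1, e.2)) fun e he => ?_
    simp only [bdE, coe_filter, mem_product, Set.mem_ofPred_eq] at he
    obtain ⟨⟨h1, h2⟩, h3, h4⟩ := he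
    have h5 : adj e.1 (e.1 + e.2) := by rw [adj_iff_dirs]; simpa using h2
    rcases mem_union.1 h1 with h1 | h1
    · exact absurd (mem_union_left _ (hcl _ h1 _ h5 h4 fun j hj e =>
        h3 (mem_union_right _ ((mW _).2 ⟨j, hj, e⟩)))) h3
    · obtain ⟨j, hj, h7⟩ := (mW _).1 h1
      refine ⟨(j, e.2), ?_, by simp [h7]⟩
      simp only [X2, T, coe_filter, mem_product, mem_range, Set.mem_ofPred_eq, h7]
      exact ⟨⟨by omega, h2⟩, h3, h4⟩
  have k3 : 2 * n ≤ X3.card := by
    have : (range n ×ˢ (univ : Finset Bool)).card = 2 * n := by simp [mul_comm]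
    rw [← this]
    refine card_le_card_of_injOn (fun e => if e.2 = true then (e.1, W (e.1 + 1) - W e.1)
      else (e.1 + 1, W e.1 - W (e.1 + 1))) ?_ ?_
    · rintro ⟨j, b⟩ h
      simp only [coe_product, coe_range, coe_univ, Set.mem_prod, Set.mem_Iio] at h
      have h1 := hadj j h.1
      simp only [X3, T, coe_filter, mem_product, mem_range, Set.mem_ofPred_eq, mW]
      cases b
      · exact ⟨⟨by simpa using h.1, (adj_iff_dirs _ _).1 (adj_symm h1)⟩, j, h.1.le, by simp⟩
      · exact ⟨⟨by simp; omega, (adj_iff_dirs _ _).1 h1⟩, j + 1, h.1, by simp⟩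
    · rintro ⟨j, b⟩ h ⟨j', b'⟩ h' e
      simp only [coe_product, coe_range, coe_univ, Set.mem_prod, Set.mem_Iio] at h h'
      cases b <;> cases b' <;> simp only [Bool.false_eq_true, if_false, if_true, Prod.mk.injEq,
        and_true, and_false, Bool.true_eq_false] at e ⊢
      · omega
      · obtain ⟨rfl, e⟩ := e
        have := hinj j (by omega) (j + 1 + 1) (by omega) (by simpa using e)
        omega
      · obtain ⟨rfl, e⟩ := e
        have := hinj j' (by omega) (j' + 1 + 1) (by omega) (by simpa using e.symm)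
        omega
      · omega
  have k4 : 4 ≤ X4.card := by
    have : ({0, n} ×ˢ ({(0, -1), (1, -1)} : Finset Pt)).card = 4 := by
      rw [card_product, card_pair (by omega), card_pair (by decide)]
    rw [← this]
    refine card_le_card fun e he => ?_
    simp only [mem_product, mem_insert, mem_singleton] at he
    simp only [X4, T, mem_filter, mem_product, mem_range, Prod.snd_add]
    obtain ⟨h1, h2⟩ := he
    refine ⟨⟨by omega, by rcases h2 with h | h <;> rw [h] <;> decide⟩, ?_⟩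
    rcases h1 with h1 | h1 <;> rcases h2 with h | h <;> rw [h, h1] <;> simp [h0, hn]
  have k5 : X1.card + X2.card + X3.card + X4.card ≤ T.card := by
    rw [← card_union_of_disjoint, ← card_union_of_disjoint, ← card_union_of_disjoint]
    · exact card_le_card (union_subset (union_subset (union_subset (filter_subset _ _)
        (filter_subset _ _)) (filter_subset _ _)) (filter_subset _ _))
    · rw [disjoint_left]
      intro e h1 h2
      simp only [X1, X2, X3, X4, mem_union, mem_filter] at h1 h2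
      rcases h1 with (h1 | h1) | h1
      · have := ((mI _).1 h1.2).1; omega
      · omega
      · obtain ⟨j, hj, e⟩ := (mW _).1 h1.2
        have := hW j hj
        rw [e] at this; omega
    · rw [disjoint_left]
      intro e h1 h2
      simp only [X1, X2, X3, mem_union, mem_filter] at h1 h2
      rcases h1 with h1 | h1
      · exact disjoint_left.1 hdis h1.2 h2.2
      · exact h1.2.1 (Or.inr h2.2)
    · rw [disjoint_left]
      intro e h1 h2
      simp only [X1, X2, mem_union, mem_filter] at h1 h2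
      exact h2.2.1 (Or.inl h1.2)
  by_contra hbig
  have hev : t * (3 * t + 1) + 2 ≤ 2 * I.card := by
    have : Even (t * (3 * t + 1)) := by
      rcases Nat.even_or_odd t with h | h
      · exact h.mul_right _
      · exact Even.mul_left (by rw [Nat.even_add_one, Nat.not_even_iff_odd]; exact Odd.mul (by decide) h) _
    obtain ⟨r, hr⟩ := this
    rw [← hn'] at hr ⊢
    omega
  rw [hJ] at i2
  have l1 : 6 * t + 2 ≤ (bdE I).card + intv I := by
    by_contra h
    have := Nat.pow_le_pow_left (show (bdE I).card + intv I ≤ 6 * t + 1 by omega) 2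
    nlinarith
  have l2 : 6 * t + 8 ≤ (bdE (I ∪ Wf)).card + intv (I ∪ Wf) := by
    by_contra h
    have := Nat.pow_le_pow_left (show (bdE (I ∪ Wf)).card + intv (I ∪ Wf) ≤ 6 * t + 7 by omega) 2
    nlinarith
  omega

end Pool.Agent.Lib.MP_dec383_lc
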