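import Pool.Agent.Lib.MP_dec383_lc.UN
import Pool.Agent.Lib.MP_dec383_lc.EBPDef

/-! Exact weighted orientation reduces to exact bin packing. -/

namespace Pool.Agent.Lib.MP_dec383_lc

open Pool.Agent.Lib.helper82 N487b59b3

theorem sum_range_getD {ι : Type} (d : ι) (F : ι → ℕ) : ∀ l : List ι,
    ∑ k ∈ Finset.range l.length, F (l.getD k d) = (l.map F).sum
  | [] => by simp
  | b :: l => by
    rw [List.length_cons, Finset.sum_range_succ']
    simp only [List.getD_cons_succ, List.getD_cons_zero, List.map_cons, List.sum_cons]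
    rw [sum_range_getD d F l, add_comm]

theorem ebp_bridge {ι β : Type} [DecidableEq β] [Inhabited ι] [Inhabited β]
    {I : List ι} {W : List β} (hI : I.Nodup) (hW : W.Nodup) (s : ι → ℕ) (B : ℕ) :
    EBP (I.map s) W.length B ↔ ∃ g : ι → β, (∀ i ∈ I, g i ∈ W) ∧
      ∀ c ∈ W, (I.map fun i => if g i = c then s i else 0).sum = B := by
  classical
  have e1 : ∀ k < I.length, (I.map s).getD k 0 = s (I.getD k default) := fun k hk => by
    simp [List.getD_eq_getElem?_getD, List.getElem?_eq_getElem hk]
  constructor
  · rintro ⟨g, h1, h2⟩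
    rw [List.length_map] at h1 h2
    refine ⟨fun i => W.getD (g (I.idxOf i)) default, fun i hi => ?_, fun c hc => ?_⟩
    · have := h1 _ (List.idxOf_lt_length_iff.2 hi)
      simp [List.getD_eq_getElem?_getD, List.getElem?_eq_getElem this]
    · rw [← sum_range_getD default, ← h2 _ (List.idxOf_lt_length_iff.2 hc)]
      refine Finset.sum_congr rfl fun k hk => ?_
      rw [Finset.mem_range] at hk
      have e2 : I.idxOf (I.getD k default) = k := by
        rw [List.getD_eq_getElem _ _ hk, hI.idxOf_getElem]
      beta_reduce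
      rw [e1 k hk, e2]
      refine if_congr ?_ rfl rfl
      rw [List.getD_eq_getElem _ _ (h1 k hk)]
      constructor
      · intro h; rw [← h, hW.idxOf_getElem]
      · intro h; simp [h]
  · rintro ⟨g, h1, h2⟩
    have e3 : ∀ k < I.length, g (I.getD k default) ∈ W := fun k hk =>
      h1 _ (by rw [List.getD_eq_getElem _ _ hk]; exact List.getElem_mem _)
    refine ⟨fun k => W.idxOf (g (I.getD k default)), fun k hk => ?_, fun c hc => ?_⟩
    · rw [List.length_map] at hk
      exact List.idxOf_lt_length_iff.2 (e3 k hk)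
    · rw [List.length_map, ← h2 W[c] (List.getElem_mem _), ← sum_range_getD default]
      refine Finset.sum_congr rfl fun k hk => ?_
      rw [Finset.mem_range] at hk
      rw [e1 k hk]
      refine if_congr ?_ rfl rfl
      beta_reduce
      constructor
      · intro h; subst h; simp
      · intro h; rw [h, hW.idxOf_getElem]

theorem digits_eq {R : ℕ} : ∀ (D : ℕ) (f g : ℕ → ℕ) (x y : ℕ), (∀ d < D, f d < R) →
    (∀ d < D, g d < R) →
    ∑ d ∈ Finset.range D, R ^ d * f d + R ^ D * x = ∑ d ∈ Finset.range D, R ^ d * g d + R ^ D * y →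
    (∀ d < D, f d = g d) ∧ (0 < R → x = y)
  | 0, f, g, x, y, _, _, h => by simpa using fun _ => by simpa using h
  | D + 1, f, g, x, y, hf, hg, h => by
    have h1 := hf D (by omega)
    have h2 := hg D (by omega)
    obtain ⟨h3, h4⟩ := digits_eq D f g (f D + R * x) (g D + R * y) (fun d hd => hf d (by omega))
      (fun d hd => hg d (by omega)) (by
        rw [Finset.sum_range_succ, Finset.sum_range_succ] at h
        linear_combination h)
    have h5 := h4 (by omega)
    have h6 : f D = g D := by
      have := congrArg (· % R) h5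
      simpa [Nat.mod_eq_of_lt h1, Nat.mod_eq_of_lt h2] using this
    refine ⟨fun d hd => ?_, fun _ => ?_⟩
    · rcases Nat.lt_succ_iff_lt_or_eq.1 hd with h7 | rfl
      · exact h3 d h7
      · exact h6
    · rw [h6] at h5
      exact Nat.eq_of_mul_eq_mul_left (by omega) (Nat.add_left_cancel h5)

theorem exists_eq_of_sum {ι : Type} [DecidableEq ι] {S : Finset ι} {f : ι → ℕ} {N c : ℕ}
    (h : ∀ i ∈ S, f i = 0 ∨ N ≤ f i) (hs : ∑ i ∈ S, f i = c) (h0 : 0 < c) (h2 : c < 2 * N) :
    ∃ i ∈ S, f i = c := by
  obtain ⟨i, hi, h3⟩ := Finset.exists_ne_zero_of_sum_ne_zero (hs ▸ h0.ne')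
  refine ⟨i, hi, ?_⟩
  rw [← Finset.add_sum_erase _ _ hi] at hs
  by_contra hne
  obtain ⟨j, hj, h4⟩ := Finset.exists_ne_zero_of_sum_ne_zero
    (show ∑ x ∈ S.erase i, f x ≠ 0 by omega)
  have h5 := Finset.single_le_sum (f := f) (fun _ _ => Nat.zero_le _) hj
  have := h i hi
  have := h j (Finset.mem_of_mem_erase hj)
  omega

/-- The rank of a number in a list. -/
def rk (L : List ℕ) (c : ℕ) : ℕ := (L.filter fun u => decide (u < c)).length

theorem length_filter_lt {α : Type} {p q : α → Bool} (h : ∀ a, p a = true → q a = true)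
    {l : List α} {v : α} (hv : v ∈ l) (h1 : p v = false) (h2 : q v = true) :
    (l.filter p).length < (l.filter q).length := by
  have hs : (l.filter p).Sublist (l.filter q) := List.monotone_filter_right l h
  refine lt_of_le_of_ne hs.length_le fun e => ?_
  have := hs.eq_of_length e
  have h3 : v ∈ l.filter q := List.mem_filter.2 ⟨hv, h2⟩
  rw [← this, List.mem_filter, h1] at h3
  simp at h3

theorem rk_lt {L : List ℕ} {v : ℕ} (hv : v ∈ L) : rk L v < L.length := by
  have := length_filter_lt (p := fun u => decide (u < v)) (q := fun _ => true) (by simp) hv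
    (by simp) rfl
  rwa [List.filter_true] at this

theorem rk_lt_rk {L : List ℕ} {u v : ℕ} (hu : u ∈ L) (h : u < v) : rk L u < rk L v :=
  length_filter_lt (fun a ha => by simp at ha ⊢; omega) hu (by simp) (by simpa using h)

theorem rk_inj {L : List ℕ} {u v : ℕ} (hu : u ∈ L) (hv : v ∈ L) (h : rk L u = rk L v) :
    u = v := by
  rcases lt_trichotomy u v with h1 | h1 | h1
  · have := rk_lt_rk hu h1; omega
  · exact h1
  · have := rk_lt_rk hv h1; omega

abbrev Vx := ℕ × ℕ × ℕ
abbrev Ed := Vx × Vx × ℕ × ℕ

def en (e : Ed) (b : Bool) : Vx := bif b then e.1 else e.2.1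
def sl (e : Ed) : ℕ := min 4 e.2.2.1
def wt (e : Ed) : ℕ := min 2 e.2.2.2
def dm (v : Vx) : ℕ := if v.1 = 3 then 3 else 2
def cl (E : List Ed) (e : Ed) : ℕ := E.length + rk (E.map (tag true)) (tag true e)
def RR (E : List Ed) : ℕ := 1 + 2 * (E.map (cl E)).sum
def base (E : List Ed) (e : Ed) : ℕ := RR E ^ sl e * cl E e
def size (E : List Ed) (e : Ed) (b : Bool) : ℕ := base E e + RR E ^ 5 * bif b then wt e else 0
def dem (E : List Ed) (v : Vx) : ℕ :=
  (E.map fun e => (if e.1 = v then base E e else 0) + if e.2.1 = v then base E e else 0).sum +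
    RR E ^ 5 * dm v
def BB (V : List Vx) (E : List Ed) : ℕ := 1 + 2 * (V.map (dem E)).sum
def items (V : List Vx) (E : List Ed) : List ℕ :=
  E.map (fun e => size E e false) ++ E.map (fun e => size E e true) ++
    V.map fun v => BB V E - dem E v

theorem cl_bounds {E : List Ed} {e : Ed} (he : e ∈ E) :
    E.length ≤ cl E e ∧ cl E e < 2 * E.length := by
  have := rk_lt (List.mem_map_of_mem (f := tag true) he)
  rw [List.length_map] at this
  unfold cl
  omega

theorem cl_inj {E : List Ed} {e e' : Ed} (he : e ∈ E) (he' : e' ∈ E) (h : cl E e = cl E e') :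
    e = e' :=
  tag_injective true (rk_inj (List.mem_map_of_mem he) (List.mem_map_of_mem he')
    (Nat.add_left_cancel h))

theorem sl_lt (e : Ed) : sl e < 5 := by unfold sl; omega

theorem base_eq (E : List Ed) (e : Ed) :
    base E e = ∑ d ∈ Finset.range 5, RR E ^ d * if sl e = d then cl E e else 0 := by
  simp [base, Finset.sum_ite_eq, sl_lt]

theorem dem_le {V : List Vx} (E : List Ed) {v : Vx} (hv : v ∈ V) :
    dem E v ≤ (V.map (dem E)).sum :=
  List.single_le_sum (fun _ _ => Nat.zero_le _) _ (List.mem_map_of_mem hv)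

/-- Exact orientations. -/
def Ori (V : List Vx) (E : List Ed) : Prop :=
  ∃ o : Ed → Bool, ∀ v ∈ V, ∑ e ∈ E.toFinset, (if en e (o e) = v then wt e else 0) = dm v

theorem ebp_iff_ori {V : List Vx} {E : List Ed} (hV : V.Nodup) (hE : E.Nodup)
    (h1 : ∀ e ∈ E, ∀ b, en e b ∈ V) (h2 : ∀ e ∈ E, e.1 ≠ e.2.1) (inc : Vx → ℕ → Ed)
    (h3 : ∀ e ∈ E, ∀ b, inc (en e b) (sl e) = e) :
    EBP (items V E) V.length (BB V E) ↔ Ori V E := by
  let I : List ((Ed × Bool) ⊕ Vx) :=
    E.map (fun e => .inl (e, false)) ++ E.map (fun e => .inl (e, true)) ++ V.map .inr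
  let s : (Ed × Bool) ⊕ Vx → ℕ := Sum.elim (fun p => size E p.1 p.2) fun v => BB V E - dem E v
  have e1 : items V E = I.map s := by simp [items, I, s, Function.comp_def]
  have hI : I.Nodup := by
    simp only [I, List.nodup_append, List.mem_append, List.mem_map]
    refine ⟨⟨hE.map fun _ _ h => by simpa using h, hE.map fun _ _ h => by simpa using h, ?_⟩,
      hV.map Sum.inr_injective, ?_⟩
    · rintro _ ⟨a, -, rfl⟩ _ ⟨b, -, rfl⟩; simp
    · rintro _ (⟨a, -, rfl⟩ | ⟨a, -, rfl⟩) _ ⟨b, -, rfl⟩ <;> simp
  have e2 : ∀ F : (Ed × Bool) ⊕ Vx → ℕ, (I.map F).sum =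
      ∑ e ∈ E.toFinset, (F (.inl (e, false)) + F (.inl (e, true))) +
        ∑ v ∈ V.toFinset, F (.inr v) := fun F => by
    rw [Finset.sum_add_distrib, List.sum_toFinset _ hE, List.sum_toFinset _ hE,
      List.sum_toFinset _ hV]
    simp [I, Function.comp_def, add_assoc]
  have e3 : ∀ v, dem E v = ∑ e ∈ E.toFinset, ((if e.1 = v then base E e else 0) +
      if e.2.1 = v then base E e else 0) + RR E ^ 5 * dm v := fun v => by
    rw [List.sum_toFinset _ hE]; rfl
  have hB : ∀ u ∈ V, ∀ v ∈ V, dem E u + dem E v < BB V E := fun u hu v hv => by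
    have := dem_le E hu
    have := dem_le E hv
    unfold BB
    omega
  rw [e1, ebp_bridge hI hV]
  simp only [e2]
  constructor
  · rintro ⟨g, g1, g2⟩
    have p1 : ∀ u ∈ V, g (.inr u) ∈ V := fun u hu => g1 _ (by simp [I, hu])
    have p2 : ∀ u ∈ V, ∀ v ∈ V, g (.inr u) = g (.inr v) → u = v := fun u hu v hv h => by
      by_contra hne
      have h4 := g2 _ (p1 u hu)
      have h5 : ∑ x ∈ {u, v}, (if g (.inr x) = g (.inr u) then s (.inr x) else 0) ≤
          ∑ x ∈ V.toFinset, (if g (.inr x) = g (.inr u) then s (.inr x) else 0) :=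
        Finset.sum_le_sum_of_subset (by intro x hx; simp at hx ⊢; rcases hx with rfl | rfl <;> assumption)
      rw [Finset.sum_pair hne, if_pos rfl, if_pos h.symm] at h5
      have := hB u hu v hv
      simp only [s, Sum.elim_inr] at h4 h5
      omega
    have p3 : ∀ u ∈ V, ∑ e ∈ E.toFinset, ((if g (.inl (e, false)) = g (.inr u) then size E e false
        else 0) + if g (.inl (e, true)) = g (.inr u) then size E e true else 0) = dem E u := by
      intro u hu
      have h4 := g2 _ (p1 u hu)
      rw [Finset.sum_eq_single u (fun v hv hne => if_neg fun h =>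
        hne (p2 v (by simpa using hv) u hu h)) (fun h => absurd (by simpa using hu) h),
        if_pos rfl] at h4
      have := hB u hu u hu
      simp only [s, Sum.elim_inr, Sum.elim_inl] at h4
      omega
    have hR : ∀ (p q : Ed → Prop) [DecidablePred p] [DecidablePred q] (d : ℕ),
        ∑ e ∈ E.toFinset, ((if p e then (if sl e = d then cl E e else 0) else 0) +
          if q e then (if sl e = d then cl E e else 0) else 0) < RR E := by
      intro p q _ _ d
      have : ∑ e ∈ E.toFinset, ((if p e then (if sl e = d then cl E e else 0) else 0) +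
          if q e then (if sl e = d then cl E e else 0) else 0) ≤ ∑ e ∈ E.toFinset, 2 * cl E e :=
        Finset.sum_le_sum fun e _ => by split_ifs <;> omega
      rw [← Finset.mul_sum, List.sum_toFinset (cl E) hE] at this
      unfold RR
      omega
    have hD : ∀ (p q : Ed → Prop) [DecidablePred p] [DecidablePred q],
        ∑ e ∈ E.toFinset, ((if p e then base E e else 0) + if q e then base E e else 0) =
        ∑ d ∈ Finset.range 5, RR E ^ d * ∑ e ∈ E.toFinset,
          ((if p e then (if sl e = d then cl E e else 0) else 0) +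
          if q e then (if sl e = d then cl E e else 0) else 0) := by
      intro p q _ _
      simp only [Finset.mul_sum]
      rw [Finset.sum_comm]
      refine Finset.sum_congr rfl fun e _ => ?_
      rw [base_eq]
      by_cases hp : p e <;> by_cases hq : q e <;>
        simp only [hp, hq, if_true, if_false, mul_add, Finset.sum_add_distrib, mul_zero,
          Finset.sum_const_zero]
    have p4 : ∀ u ∈ V, (∀ d < 5, ∑ e ∈ E.toFinset,
          ((if g (.inl (e, false)) = g (.inr u) then (if sl e = d then cl E e else 0) else 0) +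
          if g (.inl (e, true)) = g (.inr u) then (if sl e = d then cl E e else 0) else 0) =
        ∑ e ∈ E.toFinset, ((if e.1 = u then (if sl e = d then cl E e else 0) else 0) +
          if e.2.1 = u then (if sl e = d then cl E e else 0) else 0)) ∧ (0 < RR E →
        ∑ e ∈ E.toFinset, (if g (.inl (e, true)) = g (.inr u) then wt e else 0) = dm u) := by
      intro u hu
      refine digits_eq 5 _ _ _ _ (fun d _ => hR _ _ d) (fun d _ => hR _ _ d) ?_
      rw [← hD, ← hD, ← e3, ← p3 u hu, Finset.mul_sum, ← Finset.sum_add_distrib]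
      refine Finset.sum_congr rfl fun e _ => ?_
      split_ifs <;> simp [size, add_assoc]
    have p5 : ∀ e ∈ E, ∀ b, ∃ c, g (.inl (e, c)) = g (.inr (en e b)) := by
      intro e he b
      have h4 := (p4 _ (h1 e he b)).1 _ (sl_lt e)
      have h5 : ∑ e' ∈ E.toFinset, ((if e'.1 = en e b then (if sl e' = sl e then cl E e' else 0)
          else 0) + if e'.2.1 = en e b then (if sl e' = sl e then cl E e' else 0) else 0) =
          cl E e := by
        rw [Finset.sum_eq_single e]
        · have := h2 e he
          cases b <;> simp [en, this, this.symm]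
        · intro e' he' hne
          have h6 : ∀ c, en e' c = en e b → sl e' ≠ sl e := fun c h h' => hne (by
            rw [← h3 e' (by simpa using he') c, h, h', h3 e he b])
          by_cases h7 : sl e' = sl e
          · rw [if_neg fun h : e'.1 = en e b => h6 true h h7,
              if_neg fun h : e'.2.1 = en e b => h6 false h h7, add_zero]
          · simp only [h7, if_false, ite_self, add_zero]
        · intro h; exact absurd (by simpa using he) h
      have h6 : ∑ p ∈ E.toFinset ×ˢ (Finset.univ : Finset Bool), (if g (.inl p) = g (.inr (en e b))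
          then (if sl p.1 = sl e then cl E p.1 else 0) else 0) = cl E e := by
        rw [Finset.sum_product, ← h5, ← h4]
        refine Finset.sum_congr rfl fun e _ => ?_
        rw [Fintype.sum_bool, add_comm]
      have h7 := cl_bounds he
      have h8 := List.length_pos_of_mem he
      obtain ⟨⟨e', c⟩, hp, h9⟩ := exists_eq_of_sum (N := E.length) (fun p hp => by
        have := cl_bounds (E := E) (e := p.1) (by simpa using hp)
        split_ifs <;> omega) h6 (by omega) h7.2
      split_ifs at h9 with i1 i2
      · obtain rfl := cl_inj (by simpa using hp) he h9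
        exact ⟨c, i1⟩
      · omega
      · omega
    refine ⟨fun e => decide (g (.inl (e, true)) = g (.inr e.1)), fun v hv => ?_⟩
    rw [← (p4 v hv).2 (by unfold RR; omega)]
    refine Finset.sum_congr rfl fun e he => if_congr ?_ rfl rfl
    have he' : e ∈ E := by simpa using he
    have p6 : g (.inl (e, true)) = g (.inr (en e (decide (g (.inl (e, true)) = g (.inr e.1))))) := by
      by_cases h : g (.inl (e, true)) = g (.inr e.1)
      · simp [h, en]
      · obtain ⟨c, hc⟩ := p5 e he' true
        obtain ⟨c', hc'⟩ := p5 e he' false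
        have h4 := p2 _ (h1 e he' true) _ (h1 e he' false)
        have h5 := h2 e he'
        simp only [en, cond_true, cond_false] at hc hc' h4
        cases c
        · cases c'
          · exact absurd (h4 (hc.symm.trans hc')) h5
          · simpa [h, en] using hc'
        · exact absurd hc h
    constructor
    · intro h; rw [p6, h]
    · intro h; exact p2 _ (h1 e he' _) _ hv (p6.symm.trans h)
  · rintro ⟨o, ho⟩
    refine ⟨Sum.elim (fun p => en p.1 (bif p.2 then o p.1 else !o p.1)) id, ?_, fun c hc => ?_⟩
    · simp only [I, List.mem_append, List.mem_map]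
      rintro _ ((⟨a, ha, rfl⟩ | ⟨a, ha, rfl⟩) | ⟨a, ha, rfl⟩)
      · exact h1 a ha _
      · exact h1 a ha _
      · exact ha
    · simp only [s, Sum.elim_inl, Sum.elim_inr, id, cond_true, cond_false]
      rw [Finset.sum_ite_eq', if_pos (by simpa using hc)]
      have h4 : ∑ e ∈ E.toFinset, ((if en e (!o e) = c then size E e false else 0) +
          if en e (o e) = c then size E e true else 0) = dem E c := by
        rw [e3, ← ho c hc, Finset.mul_sum, ← Finset.sum_add_distrib]
        refine Finset.sum_congr rfl fun e _ => ?_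
        cases o e <;> simp only [en, size, Bool.not_false, Bool.not_true, cond_true, cond_false] <;>
          split_ifs <;> simp <;> ring
      have := hB c hc c hc
      omega

theorem sum_at {E : List Ed} (inc : Vx → ℕ → Ed) (h3 : ∀ e ∈ E, ∀ b, inc (en e b) (sl e) = e)
    (o : Ed → Bool) (v : Vx) : ∑ e ∈ E.toFinset, (if en e (o e) = v then wt e else 0) =
      ∑ d ∈ Finset.range 5, if inc v d ∈ E ∧ sl (inc v d) = d ∧ en (inc v d) (o (inc v d)) = v
        then wt (inc v d) else 0 := by
  have e1 : ∀ e ∈ E.toFinset, (if en e (o e) = v then wt e else 0) = ∑ d ∈ Finset.range 5,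
      if e = inc v d then (if sl e = d ∧ en e (o e) = v then wt e else 0) else 0 := by
    intro e he
    rw [Finset.sum_eq_single (sl e)]
    · by_cases h : en e (o e) = v
      · have := h3 e (by simpa using he) (o e)
        rw [h] at this
        simp [h, this]
      · simp [h]
    · intro d _ hd; simp [hd.symm]
    · intro h; exact absurd (Finset.mem_range.2 (sl_lt e)) h
  rw [Finset.sum_congr rfl e1, Finset.sum_comm]
  refine Finset.sum_congr rfl fun d _ => ?_
  rw [Finset.sum_ite_eq']
  by_cases h : inc v d ∈ E <;> simp [h]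

variable {α : Type} [Enc α]

theorem cl_un : UN fun p : List Ed × Ed => cl p.1 p.2 :=
  (UN.length PT.fst').add (UN.length (PT.filter
    (P := fun (p : List Ed × Ed) u => decide (u < tag true p.2))
    (PT.map (F := fun _ (e : Ed) => tag true e) PT.fst' (PT.tag true PT.snd'))
    (PT.lt PT.snd' (PT.tag true (PT.snd PT.fst')))))

theorem RR_un : UN RR :=
  (UN.const 1).add ((UN.const 2).mul (UN.sum (f := cl) PT.id cl_un))

theorem base_un : UN fun p : List Ed × Ed => base p.1 p.2 :=
  (((RR_un.comp PT.fst').powLe (k := fun p : List Ed × Ed => sl p.2)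
    ((UN.const 4).min (PT.fst (PT.snd (PT.snd PT.snd')))) 4 fun _ => min_le_left _ _).mul cl_un)

theorem size_un (b : Bool) : UN fun p : List Ed × Ed => size p.1 p.2 b :=
  base_un.add (((RR_un.comp PT.fst').pow 5).mul (UN.cond (PT.const b)
    ((UN.const 2).min (PT.snd (PT.snd (PT.snd PT.snd')))) (UN.const 0)))

theorem dem_un : UN fun p : List Ed × Vx => dem p.1 p.2 := by
  have h1 : UN fun p : (List Ed × Vx) × Ed => base p.1.1 p.2 :=
    (base_un.comp (F := fun p : (List Ed × Vx) × Ed => (p.1.1, p.2))
      (PT.pair (PT.fst PT.fst') PT.snd') :)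
  exact (UN.sum (f := fun (p : List Ed × Vx) (e : Ed) =>
    (if e.1 = p.2 then base p.1 e else 0) + if e.2.1 = p.2 then base p.1 e else 0) PT.fst'
    ((UN.ite (PT.eq (PT.fst PT.snd') (PT.snd PT.fst')) h1 (UN.const 0)).add
      (UN.ite (PT.eq (PT.fst (PT.snd PT.snd')) (PT.snd PT.fst')) h1 (UN.const 0)))).add
    (((RR_un.comp PT.fst').pow 5).mul
      (UN.ite (PT.eq (PT.fst PT.snd') (PT.const 3)) (UN.const 3) (UN.const 2)))

theorem BB_un : UN fun p : List Vx × List Ed => BB p.1 p.2 :=
  (UN.const 1).add ((UN.const 2).mul (UN.sum (f := fun (p : List Vx × List Ed) v => dem p.2 v)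
    PT.fst' (dem_un.comp (F := fun p : (List Vx × List Ed) × Vx => (p.1.2, p.2))
      (PT.pair (PT.snd PT.fst') PT.snd') :)))

theorem items_pt : PT fun p : List Vx × List Ed =>
    (items p.1 p.2).map fun n => List.replicate n true := by
  have h1 : ∀ b, UN fun p : (List Vx × List Ed) × Ed => size p.1.2 p.2 b := fun b =>
    ((size_un b).comp (F := fun p : (List Vx × List Ed) × Ed => (p.1.2, p.2))
      (PT.pair (PT.snd PT.fst') PT.snd') :)
  have h2 : UN fun p : (List Vx × List Ed) × Vx => BB p.1.1 p.1.2 - dem p.1.2 p.2 :=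
    UN.sub (BB_un.comp (F := fun p : (List Vx × List Ed) × Vx => p.1) PT.fst' :)
      (dem_un.comp (F := fun p : (List Vx × List Ed) × Vx => (p.1.2, p.2))
        (PT.pair (PT.snd PT.fst') PT.snd') :).pt
  exact (PT.append (PT.append
    (UN.list (f := fun (p : List Vx × List Ed) e => size p.2 e false) PT.snd' (h1 false))
    (UN.list (f := fun (p : List Vx × List Ed) e => size p.2 e true) PT.snd' (h1 true)))
    (UN.list (f := fun (p : List Vx × List Ed) v => BB p.1 p.2 - dem p.2 v) PT.fst' h2)).congr
    fun p => by simp [items, Function.comp_def]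

end Pool.Agent.Lib.MP_dec383_lc
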