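import Pool.Agent.Lib.MP_dec383_lc.Blocks
import Pool.Agent.Lib.MP_dec383_lc.EBPDef

/-! The chain attached to an instance of exact bin packing. -/

namespace Pool.Agent.Lib.MP_dec383_lc

open Finset

section
variable (a : List ℕ) (q B : ℕ)

/-- Passes through each bin. -/
def pR : ℕ := 4 * ((a.length + 1) * B)
/-- Depth of a bin. -/
def pt : ℕ := 2 * B * (8 * pR a B + 1)
/-- Capacity of a bin, `t (3 t + 1) / 2`. -/
def pPhi : ℕ := B * (8 * pR a B + 1) * (3 * pt a B + 1)
/-- Reduced length of the special dummy pass. -/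
def pD0 : ℕ := pPhi a B + 2 * pR a B + 6 * pt a B - (B + 2 * pt a B + pR a B * (6 * pt a B))
/-- Radius of the hexagon. -/
def ps : ℕ := q * (2 * pt a B + 2) + 6
def pz : ℕ := q * (pt a B + 1) + 4
/-- Deep part of the filler. -/
def pF : ℕ := 3 * (ps a q B - 2) ^ 2 + 3 * (ps a q B - 2) + 1 - q * (pPhi a B + pt a B)
/-- Reduced length of pass number `τ`. -/
def pL (τ : ℕ) : ℕ := (if 3 * q ≤ τ ∧ τ < 4 * q then pD0 a B else 6 * pt a B) +
  if τ % (4 * q) = q then a.getD (τ / (4 * q)) 0 else 0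
def i1 : ℕ := 3 + q
def i2 : ℕ := i1 q + pz a q B
def i3 : ℕ := i2 a q B + ps a q B
def i4 : ℕ := i3 a q B + ps a q B
def i5 : ℕ := i4 a q B + pR a B * q
def pM : ℕ := i5 a q B + q * (pt a B - pR a B)
def plink (τ : ℕ) : ℕ := (τ + 2) * (2 * ps a q B)

/-- Lengths of the runs of `H`. -/
def hh (i : ℕ) : ℕ :=
  if i = 0 then pF a q B + 2 else if i = 1 then 2 else if i = 2 then 4
  else if i < i1 q then 3 * pt a B + 4 else if i = i2 a q B then 2 else if i = i3 a q B then 3
  else if i = i3 a q B + 1 then 1 else if i < i4 a q B then 4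
  else if i < i5 a q B then pL a q B (i - i4 a q B) + 2 else 4

/-- Lengths of the runs of `P`. -/
def pp (i : ℕ) : ℕ :=
  if i + 1 < i4 a q B then 1 else if i + 1 = i4 a q B then 12
  else if i < i5 a q B then plink a q B (i - i4 a q B)
  else if (i - i5 a q B + 1) % (pt a B - pR a B) = 0 then
    plink a q B (pR a B * q + (i - i5 a q B) / (pt a B - pR a B)) else 1

def chain : List Bool := str (hh a q B) (pp a q B) (pM a q B)

def target : ℕ := 6 * ps a q B ^ 2 + 3 * ps a q B

variable {a q B}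

theorem two_pPhi : 2 * pPhi a B = pt a B * (3 * pt a B + 1) := by unfold pPhi pt; ring

theorem pR_pos (hB : 1 ≤ B) : 4 ≤ pR a B := by unfold pR; nlinarith

theorem pt_ge (hB : 1 ≤ B) : 16 * pR a B + 2 * B ≤ pt a B := by unfold pt; nlinarith

theorem pD0_add (hB : 1 ≤ B) : pD0 a B + (B + 2 * pt a B + pR a B * (6 * pt a B)) =
    pPhi a B + 2 * pR a B + 6 * pt a B ∧ 6 * pt a B ≤ pD0 a B := by
  have h1 := two_pPhi (a := a) (B := B)
  have h2 := pt_ge (a := a) hB
  have h3 := pR_pos (a := a) hB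
  have h4 : B + 2 * pt a B + pR a B * (6 * pt a B) ≤ pPhi a B := by nlinarith
  unfold pD0
  omega

theorem pF_add : pF a q B + q * (pPhi a B + pt a B) =
    3 * (ps a q B - 2) ^ 2 + 3 * (ps a q B - 2) + 1 ∧ 1 ≤ pF a q B := by
  have h1 := two_pPhi (a := a) (B := B)
  have h2 : ps a q B - 2 = q * (2 * pt a B + 2) + 4 := by unfold ps; omega
  have h3 : q * (pPhi a B + pt a B) ≤ 3 * (ps a q B - 2) ^ 2 := by
    rw [h2]
    rcases Nat.eq_zero_or_pos q with rfl | hq
    · simp
    · have : pPhi a B + pt a B ≤ 3 * (q * (2 * pt a B + 2) ^ 2) := by nlinarith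
      nlinarith
  unfold pF
  omega

theorem pM_eq (hB : 1 ≤ B) : pM a q B = 3 * ps a q B + 1 := by
  have h2 := pt_ge (a := a) hB
  obtain ⟨u, hu⟩ : ∃ u, pt a B = pR a B + u := ⟨pt a B - pR a B, by omega⟩
  simp only [pM, i5, i4, i3, i2, i1, pz, ps, hu, Nat.add_sub_cancel_left]
  ring

theorem hh_pos (i : ℕ) : 1 ≤ hh a q B i := by unfold hh; split_ifs <;> omega

theorem pp_pos (i : ℕ) : 1 ≤ pp a q B i := by
  have : ∀ τ, 1 ≤ plink a q B τ := fun τ => Nat.mul_pos (by omega) (by unfold ps; omega)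
  unfold pp; split_ifs <;> first | omega | exact this _

theorem sum_range_mul (F : ℕ → ℕ) (m n : ℕ) :
    ∑ τ ∈ range (m * n), F τ = ∑ i ∈ range m, ∑ u ∈ range n, F (i * n + u) := by
  induction m with
  | zero => simp
  | succ m ih => rw [add_mul, one_mul, sum_range_add, ih, sum_range_succ]

theorem sum_getD (a : List ℕ) {m : ℕ} (hm : a.length ≤ m) (F : ℕ → Prop) [DecidablePred F] :
    ∑ i ∈ range m, (if F i then a.getD i 0 else 0) =
      ∑ i ∈ range a.length, (if F i then a.getD i 0 else 0) := by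
  symm
  refine sum_subset (range_mono hm) fun i _ hi => ?_
  rw [List.getD_eq_default _ _ (by simpa using hi), ite_self]

/-- The item part of the pass lengths. -/
theorem sum_items (hq : 1 ≤ q) (hB : 1 ≤ B) (F : ℕ → Prop) [DecidablePred F] :
    ∑ τ ∈ range (pR a B * q), (if F τ then
      (if τ % (4 * q) = q then a.getD (τ / (4 * q)) 0 else 0) else 0) =
    ∑ i ∈ range a.length, (if F (i * (4 * q) + q) then a.getD i 0 else 0) := by
  rw [show pR a B * q = ((a.length + 1) * B) * (4 * q) by unfold pR; ring, sum_range_mul,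
    ← sum_getD a (m := (a.length + 1) * B) (by nlinarith)]
  refine sum_congr rfl fun i _ => ?_
  rw [sum_eq_single q]
  · rw [Nat.mul_add_mod_of_lt (by omega), if_pos rfl, mul_comm i, Nat.mul_add_div (by omega),
      Nat.div_eq_of_lt (by omega), add_zero]
  · intro u hu hne
    rw [Nat.mul_add_mod_of_lt (mem_range.1 hu), if_neg hne, ite_self]
  · intro h; simp at h; omega

theorem sum_pL (hq : 1 ≤ q) (hB : 1 ≤ B) (hs : a.sum = q * B) :
    ∑ τ ∈ range (pR a B * q), pL a q B τ + q * (2 * (pt a B - pR a B)) = q * pPhi a B := by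
  have h1 := sum_items (a := a) hq hB fun _ => True
  simp only [if_true] at h1
  have h2 : ∑ i ∈ range a.length, a.getD i 0 = a.sum := by
    clear h1 hs
    induction a using List.reverseRecOn with
    | nil => simp
    | append_singleton l x ih =>
      rw [List.length_append, List.length_singleton, sum_range_succ, List.sum_append, ← ih,
        List.getD_append_right _ _ _ _ le_rfl]
      simp only [Nat.sub_self, List.getD_cons_zero, List.sum_singleton]
      congr 1
      exact sum_congr rfl fun i hi => List.getD_append _ _ _ _ (mem_range.1 hi)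
  have h3 := pR_pos (a := a) hB
  have h4 := pt_ge (a := a) hB
  obtain ⟨h5, h6⟩ := pD0_add (a := a) hB
  obtain ⟨r, hr⟩ : ∃ r, pR a B = 4 + r := ⟨pR a B - 4, by omega⟩
  have h7 : ∑ τ ∈ range (pR a B * q), (if 3 * q ≤ τ ∧ τ < 4 * q then pD0 a B else 6 * pt a B) =
      3 * q * (6 * pt a B) + q * pD0 a B + r * q * (6 * pt a B) := by
    rw [hr, show (4 + r) * q = 3 * q + q + r * q by ring, sum_range_add, sum_range_add,
      sum_congr rfl fun τ hτ => if_neg (by rw [mem_range] at hτ; omega),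
      sum_congr rfl fun τ hτ => if_pos (by rw [mem_range] at hτ; omega),
      sum_congr rfl fun τ hτ => if_neg (by omega)]
    simp
  simp only [pL, sum_add_distrib, h1, h2, h7, hs]
  obtain ⟨u, hu⟩ : ∃ u, pt a B = pR a B + u := ⟨pt a B - pR a B, by omega⟩
  rw [show pt a B - pR a B = u by omega]
  have : pD0 a B + B + 2 * u + (3 + r) * (6 * pt a B) = pPhi a B := by
    rw [hr] at h5 hu; nlinarith
  rw [← this]; ring

theorem sum_Ico_const {F : ℕ → ℕ} {m n c : ℕ} (h : ∀ i, m ≤ i → i < m + n → F i = c) :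
    ∑ i ∈ range (m + n), F i = ∑ i ∈ range m, F i + n * c := by
  rw [sum_range_add, sum_congr rfl fun i hi => h (m + i) (by omega) (by simpa using hi)]
  simp

theorem sum_hh (hq : 1 ≤ q) (hB : 1 ≤ B) (hs : a.sum = q * B) :
    ∑ i ∈ range (pM a q B), hh a q B i = 3 * ps a q B ^ 2 + 3 * ps a q B + 1 := by
  have h1 := sum_pL hq hB hs
  have h2 := (pF_add (a := a) (q := q) (B := B)).1
  have h3 := pt_ge (a := a) hB
  obtain ⟨s, hs'⟩ : ∃ s, ps a q B = s + 2 := ⟨ps a q B - 2, by unfold ps; omega⟩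
  have e1 : i1 q = 3 + q := rfl
  have e2 : i2 a q B = i1 q + pz a q B := rfl
  have e3 : i3 a q B = i2 a q B + 1 + (s + 1) := by unfold i3; omega
  have e4 : i4 a q B = i3 a q B + 1 + 1 + s := by unfold i4; omega
  have e5 : i5 a q B = i4 a q B + pR a B * q := rfl
  have s5 : ∑ i ∈ range (i5 a q B), hh a q B i = ∑ i ∈ range (i4 a q B), hh a q B i +
      (∑ τ ∈ range (pR a B * q), pL a q B τ + pR a B * q * 2) := by
    rw [e5, sum_range_add]
    congr 1
    rw [sum_congr rfl (g := fun τ => pL a q B τ + 2) fun τ hτ => by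
      rw [mem_range] at hτ
      unfold hh
      split_ifs <;> first | omega | simp, sum_add_distrib]
    simp
  rw [pM, sum_Ico_const (c := 4) fun i h1 h2 => by unfold hh; split_ifs <;> omega, s5,
    e4, sum_Ico_const (c := 4) fun i h1 h2 => by unfold hh; split_ifs <;> omega,
    sum_Ico_const (c := 1) fun i h1 h2 => by unfold hh; split_ifs <;> omega,
    sum_Ico_const (c := 3) fun i h1 h2 => by unfold hh; split_ifs <;> omega,
    e3, sum_Ico_const (c := 4) fun i h1 h2 => by unfold hh; split_ifs <;> omega,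
    sum_Ico_const (c := 2) fun i h1 h2 => by unfold hh; split_ifs <;> omega,
    e2, sum_Ico_const (c := 4) fun i h1 h2 => by unfold hh; split_ifs <;> omega,
    e1, sum_Ico_const (c := 3 * pt a B + 4) fun i h1 h2 => by unfold hh; split_ifs <;> omega]
  have s3 : ∑ i ∈ range 3, hh a q B i = pF a q B + 8 := by
    simp [sum_range_succ, hh]
  have e6 : s = q * (2 * pt a B + 2) + 4 := by unfold ps at hs'; omega
  obtain ⟨u, hu⟩ : ∃ u, pt a B = pR a B + u := ⟨pt a B - pR a B, by omega⟩
  rw [show pt a B - pR a B = u by omega] at h1 ⊢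
  rw [s3, hs', pz]
  rw [hs', Nat.add_sub_cancel] at h2
  rw [hu] at e6 h2 ⊢
  nlinarith

theorem chain_iff (hq : 1 ≤ q) (hB : 1 ≤ B) (hs : a.sum = q * B) :
    (∃ f, IsFolding (chain a q B) f ∧ target a q B ≤ contacts (chain a q B) f) ↔
      ∃ A, BFold (ps a q B) (pM a q B) (hh a q B) (pp a q B) A := by
  have h1 := sum_hh hq hB hs
  have h2 := bonds_str (hh a q B) (pp a q B) (pM a q B) (fun i _ => hh_pos i) fun i _ => pp_pos i
  rw [fold_iff _ (ps a q B) _ (by rw [chain, card_hs_str, h1]) (by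
    rw [h1, pM_eq hB] at h2
    unfold target chain
    rw [pM_eq hB]
    omega), chain, hexFold_iff _ _ _ _ fun i _ => hh_pos i]

end

end Pool.Agent.Lib.MP_dec383_lc
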