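import Pool.Agent.Lib.MP_dec383_lc.Params
import Pool.Agent.Lib.MP_dec383_lc.EBP

/-! The reduction to the folding problem runs in polynomial time. -/

namespace Pool.Agent.Lib.MP_dec383_lc

open Pool.Agent.Lib.helper82 N487b59b3

variable {α β : Type} [Enc α] [Enc β]

/-- Parameters available in unary. -/
structure Par (a : α → List ℕ) (q B : α → ℕ) : Prop where
  ha : ∃ u : α → List (List Bool), PT u ∧ ∀ x, a x = (u x).map List.length
  hq : UN q
  hB : UN B

theorem ptAnd {P Q : α → Prop} [DecidablePred P] [DecidablePred Q]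
    (hP : PT fun x => decide (P x)) (hQ : PT fun x => decide (Q x)) :
    PT fun x => decide (P x ∧ Q x) := (PT.and hP hQ).congr fun _ => by simp

theorem str_eq (h p : ℕ → ℕ) (M : ℕ) : str h p M = (List.range M).flatMap fun i =>
    List.replicate (h i) true ++ List.replicate (p i) false := by
  induction M with
  | zero => rfl
  | succ M ih => simp [str, ih, List.range_succ]

namespace Par

variable {a : α → List ℕ} {q B τ : α → ℕ}

theorem comp (h : Par a q B) {F : β → α} (hF : PT F) :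
    Par (fun y => a (F y)) (fun y => q (F y)) fun y => B (F y) := by
  obtain ⟨⟨u, h1, h2⟩, h3, h4⟩ := h
  exact ⟨⟨_, PT.comp h1 hF, fun y => h2 _⟩, h3.comp hF, h4.comp hF⟩

theorem len (h : Par a q B) : UN fun x => (a x).length := by
  obtain ⟨u, h1, h2⟩ := h.ha
  exact (UN.length h1).congr fun x => by rw [h2, List.length_map]

theorem get (h : Par a q B) (hτ : PT τ) : UN fun x => (a x).getD (τ x) 0 := by
  obtain ⟨u, h1, h2⟩ := h.ha
  refine (UN.length (ptGetD h1 hτ [])).congr fun x => ?_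
  rw [h2]
  exact (List.getD_map (u x) [] List.length).symm

theorem sum (h : Par a q B) : UN fun x => (a x).sum := by
  obtain ⟨u, h1, h2⟩ := h.ha
  exact (UN.sum (f := fun _ (l : List Bool) => l.length) h1 (UN.length PT.snd')).congr fun x => by
    rw [h2]

theorem pR (h : Par a q B) : UN fun x => pR (a x) (B x) :=
  (UN.const _).mul ((h.len.add (UN.const _)).mul h.hB)

theorem pt (h : Par a q B) : UN fun x => pt (a x) (B x) :=
  ((UN.const _).mul h.hB).mul (((UN.const _).mul h.pR).add (UN.const _))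

theorem pPhi (h : Par a q B) : UN fun x => pPhi (a x) (B x) :=
  (h.hB.mul (((UN.const _).mul h.pR).add (UN.const _))).mul
    (((UN.const _).mul h.pt).add (UN.const _))

theorem pD0 (h : Par a q B) : UN fun x => pD0 (a x) (B x) :=
  ((h.pPhi.add ((UN.const _).mul h.pR)).add ((UN.const _).mul h.pt)).sub
    ((h.hB.add ((UN.const _).mul h.pt)).add (h.pR.mul ((UN.const _).mul h.pt))).pt

theorem ps (h : Par a q B) : UN fun x => ps (a x) (q x) (B x) :=
  (h.hq.mul (((UN.const _).mul h.pt).add (UN.const _))).add (UN.const _)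

theorem pz (h : Par a q B) : UN fun x => pz (a x) (q x) (B x) :=
  (h.hq.mul (h.pt.add (UN.const _))).add (UN.const _)

theorem pF (h : Par a q B) : UN fun x => pF (a x) (q x) (B x) :=
  ((((UN.const _).mul ((h.ps.sub (PT.const _)).pow _)).add
    ((UN.const _).mul (h.ps.sub (PT.const _)))).add (UN.const _)).sub
    (h.hq.mul (h.pPhi.add h.pt)).pt

theorem pL (h : Par a q B) (hτ : UN τ) : UN fun x => pL (a x) (q x) (B x) (τ x) := by
  have h4 : ∀ c : ℕ, PT fun x => c * q x := fun c => ((UN.const c).mul h.hq).pt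
  exact (UN.ite (ptAnd (PT.le (h4 _) hτ.pt) (PT.lt hτ.pt (h4 _))) h.pD0
    ((UN.const _).mul h.pt)).add
    (UN.ite (PT.eq (hτ.mod (h4 _)).pt h.hq.pt) (h.get (hτ.div (h4 _)).pt) (UN.const _))

theorem i1 (h : Par a q B) : UN fun x => i1 (q x) := (UN.const _).add h.hq

theorem i2 (h : Par a q B) : UN fun x => i2 (a x) (q x) (B x) := h.i1.add h.pz

theorem i3 (h : Par a q B) : UN fun x => i3 (a x) (q x) (B x) := h.i2.add h.ps

theorem i4 (h : Par a q B) : UN fun x => i4 (a x) (q x) (B x) := h.i3.add h.ps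

theorem i5 (h : Par a q B) : UN fun x => i5 (a x) (q x) (B x) := h.i4.add (h.pR.mul h.hq)

theorem pM (h : Par a q B) : UN fun x => pM (a x) (q x) (B x) :=
  h.i5.add (h.hq.mul (h.pR.pt |> h.pt.sub))

theorem plink (h : Par a q B) (hτ : UN τ) : UN fun x => plink (a x) (q x) (B x) (τ x) :=
  (hτ.add (UN.const _)).mul ((UN.const _).mul h.ps)

theorem hh (h : Par a q B) (hτ : UN τ) : UN fun x => hh (a x) (q x) (B x) (τ x) :=
  UN.ite (PT.eq hτ.pt (PT.const _)) (h.pF.add (UN.const _))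
  (UN.ite (PT.eq hτ.pt (PT.const _)) (UN.const _)
  (UN.ite (PT.eq hτ.pt (PT.const _)) (UN.const _)
  (UN.ite (PT.lt hτ.pt h.i1.pt) (((UN.const _).mul h.pt).add (UN.const _))
  (UN.ite (PT.eq hτ.pt h.i2.pt) (UN.const _)
  (UN.ite (PT.eq hτ.pt h.i3.pt) (UN.const _)
  (UN.ite (PT.eq hτ.pt h.i3.pt.succ) (UN.const _)
  (UN.ite (PT.lt hτ.pt h.i4.pt) (UN.const _)
  (UN.ite (PT.lt hτ.pt h.i5.pt) ((h.pL (hτ.sub h.i4.pt)).add (UN.const _)) (UN.const _)))))))))

theorem pp (h : Par a q B) (hτ : UN τ) : UN fun x => pp (a x) (q x) (B x) (τ x) :=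
  UN.ite (PT.lt hτ.pt.succ h.i4.pt) (UN.const _)
  (UN.ite (PT.eq hτ.pt.succ h.i4.pt) (UN.const _)
  (UN.ite (PT.lt hτ.pt h.i5.pt) (h.plink (hτ.sub h.i4.pt))
  (UN.ite (PT.eq (((hτ.sub h.i5.pt).add (UN.const _)).mod (h.pt.sub h.pR.pt).pt).pt (PT.const _))
    (h.plink ((h.pR.mul h.hq).add ((hτ.sub h.i5.pt).div (h.pt.sub h.pR.pt).pt))) (UN.const _))))

theorem target (h : Par a q B) : UN fun x => target (a x) (q x) (B x) :=
  ((UN.const _).mul (h.ps.pow _)).add ((UN.const _).mul h.ps)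

theorem chain (h : Par a q B) : PT fun x => chain (a x) (q x) (B x) := by
  have h1 : Par (fun y : α × ℕ => a y.1) (fun y => q y.1) fun y => B y.1 := h.comp PT.fst'
  have h2 : UN fun y : α × ℕ => min (MP_dec383_lc.pM (a y.1) (q y.1) (B y.1)) y.2 :=
    h1.pM.min PT.snd'
  refine (PT.flatMap (F := fun x i =>
    List.replicate (MP_dec383_lc.hh (a x) (q x) (B x)
      (min (MP_dec383_lc.pM (a x) (q x) (B x)) i)) true ++
    List.replicate (MP_dec383_lc.pp (a x) (q x) (B x)
      (min (MP_dec383_lc.pM (a x) (q x) (B x)) i)) false) h.pM.range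
    (PT.append (h1.hh h2) ((h1.pp h2).replicate (PT.const false)))).congr fun x => ?_
  rw [MP_dec383_lc.chain, str_eq]
  refine List.flatMap_congr fun i hi => ?_
  rw [min_eq_right (List.mem_range.1 hi).le]

end Par

theorem EBP.sum_eq {a : List ℕ} {q B : ℕ} (h : EBP a q B) : a.sum = q * B := by
  obtain ⟨g, h1, h2⟩ := h
  have h3 : ∑ c ∈ Finset.range q, ∑ i ∈ Finset.range a.length,
      (if g i = c then a.getD i 0 else 0) = q * B := by
    rw [Finset.sum_congr rfl fun c hc => h2 c (Finset.mem_range.1 hc)]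
    simp
  rw [← h3, Finset.sum_comm, Finset.sum_congr rfl (g := fun i => a.getD i 0) fun i hi => by
    rw [Finset.sum_ite_eq, if_pos (Finset.mem_range.2 (h1 i (Finset.mem_range.1 hi)))]]
  simpa using (sum_range_getD 0 id a).symm

theorem HP_enc (s : List Bool) (k : ℕ) :
    HP (bitEncode (s, k)) = true ↔ ∃ f, IsFolding s f ∧ k ≤ contacts s f := by
  simp only [HP, decide_eq_true_eq]
  constructor
  · rintro ⟨s', k', e, h⟩
    obtain ⟨rfl, rfl⟩ := Prod.mk.inj (enc_injective e)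
    exact h
  · exact fun h => ⟨s, k, rfl, h⟩

theorem hp_hard (h : ∀ (a : List ℕ) (q B : ℕ), 1 ≤ q → 1 ≤ B → a.sum = q * B →
    (EBP a q B ↔ ∃ A, BFold (ps a q B) (pM a q B) (hh a q B) (pp a q B) A)) :
    ∀ L ∈ N68a2faeb.NP, ∃ F : List Bool → List Bool, N68a2faeb.IsPolyTime F ∧
      ∀ x, L x = HP (F x) := by
  intro L hL
  obtain ⟨G, hG, h1⟩ := ebp_hard hL
  have hP : Par (fun x => (G x).1.map List.length) (fun x => (G x).2.1.length)
      fun x => (G x).2.2.length :=
    ⟨⟨_, PT.fst hG, fun _ => rfl⟩, UN.length (PT.fst (PT.snd hG)), UN.length (PT.snd (PT.snd hG))⟩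
  have h2 := PT.comp PT.encList (PT.iteEq hP.sum.pt (hP.hq.mul hP.hB).pt
    (PT.pair hP.chain hP.target.pt) (PT.const (([] : List Bool), 1)))
  refine ⟨_, h2.isPolyTime, fun x => ?_⟩
  obtain ⟨h3, h4, h5⟩ := h1 x
  rw [Bool.eq_iff_iff, h5]
  split_ifs with h6
  · rw [h _ _ _ h3 h4 h6, ← chain_iff h3 h4 h6]
    exact (HP_enc _ _).symm
  · refine iff_of_false (fun h7 => h6 h7.sum_eq) fun h7 => ?_
    obtain ⟨f, -, h8⟩ := (HP_enc _ _).1 h7
    have h9 : contacts [] f = 0 := by
      unfold contacts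
      rw [Set.ncard_eq_zero]
      exact Set.eq_empty_of_forall_notMem fun p _ => p.1.elim0
    omega

end Pool.Agent.Lib.MP_dec383_lc
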