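import Pool.Agent.Lib.MP_dec383_lc.Run

/-! Column snakes: the layers of a bin and the filler. -/

namespace Pool.Agent.Lib.MP_dec383_lc

open Finset

theorem column (x a : ℤ) (k : ℕ) :
    Run (k + 1) (x, a) (x, a + k) {u | u.1 = x ∧ a ≤ u.2 ∧ u.2 ≤ a + k} :=
  (Run.seg (x, a) (0, 1) (by simp [adj]) k).congr rfl rfl (by simp) (by
    rintro ⟨u, v⟩ ⟨h1, h2, h3⟩
    dsimp only at h1 h2 h3
    refine ⟨(v - a).toNat, by omega, ?_⟩
    simp only [Prod.smul_mk, smul_eq_mul, Prod.mk_add_mk, Prod.mk.injEq]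
    omega)

theorem column' (x a b : ℤ) (h : a ≤ b) :
    Run (b + 1 - a).toNat (x, a) (x, b) {u | u.1 = x ∧ a ≤ u.2 ∧ u.2 ≤ b} :=
  (column x a (b - a).toNat).congr (by omega) rfl (by congr 1; omega) (by
    rintro ⟨u, v⟩ ⟨h1, h2, h3⟩
    dsimp only at h1 h2 h3
    exact ⟨h1, h2, by dsimp only; omega⟩)

/-- A walk through the columns `a, …, a + m`; column `x` is traversed downwards when
`x ≡ e` modulo two. -/
theorem snake (top bot : ℤ → ℤ) (a e : ℤ) (m : ℕ)
    (h : ∀ x, a ≤ x → x ≤ a + m → top x ≤ bot x)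
    (hb : ∀ x, a ≤ x → x < a + m → x % 2 = e % 2 → bot (x + 1) = bot x ∨ bot (x + 1) = bot x - 1)
    (ht : ∀ x, a ≤ x → x < a + m → x % 2 ≠ e % 2 → top (x + 1) = top x ∨ top (x + 1) = top x - 1) :
    Run (∑ k ∈ range (m + 1), (bot (a + k) + 1 - top (a + k)).toNat)
      (a, if a % 2 = e % 2 then top a else bot a)
      (a + m, if (a + m) % 2 = e % 2 then bot (a + m) else top (a + m))
      {u | a ≤ u.1 ∧ u.1 ≤ a + m ∧ top u.1 ≤ u.2 ∧ u.2 ≤ bot u.1} := by
  have col : ∀ x, top x ≤ bot x → Run (bot x + 1 - top x).toNat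
      (x, if x % 2 = e % 2 then top x else bot x) (x, if x % 2 = e % 2 then bot x else top x)
      {u | u.1 = x ∧ top x ≤ u.2 ∧ u.2 ≤ bot x} := fun x hx => by
    split_ifs
    · exact column' _ _ _ hx
    · exact (column' _ _ _ hx).rev
  induction m with
  | zero =>
    refine (col a (h a le_rfl (by omega))).congr (by simp) rfl (by simp) ?_
    rintro ⟨u, v⟩ ⟨h1, h2, h3⟩
    obtain rfl : u = a := by dsimp only at h1 h2; omega
    exact ⟨rfl, h3⟩
  | succ m ih =>
    have h1 := ih (fun x a b => h x a (by omega)) (fun x a b => hb x a (by omega))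
      fun x a b => ht x a (by omega)
    have e1 : a + ((m + 1 : ℕ) : ℤ) = a + m + 1 := by omega
    rw [sum_range_succ, e1]
    refine (h1.append (col (a + m + 1) (h _ (by omega) (by omega))) ?_).mono ?_
    · have h2 := hb (a + m) (by omega) (by omega)
      have h3 := ht (a + m) (by omega) (by omega)
      split_ifs <;> (unfold adj; dsimp only; omega)
    · rintro ⟨u, v⟩ ⟨h2, h3, h4⟩
      dsimp only at h2 h3 h4
      by_cases c : u ≤ a + m
      · exact Or.inl ⟨h2, c, h4⟩
      · obtain rfl : u = a + m + 1 := by omega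
        exact Or.inr ⟨rfl, h4⟩

/-- A staircase with `n` cells over `T` columns. -/
def stair (T n : ℕ) (x : ℤ) : ℤ := (n / T : ℕ) + if x < (n % T : ℕ) then 1 else 0

theorem succ_divmod {T : ℕ} (hT : 0 < T) (n : ℕ) :
    ((n + 1) / T = n / T ∧ (n + 1) % T = n % T + 1) ∨
      ((n + 1) / T = n / T + 1 ∧ (n + 1) % T = 0 ∧ n % T + 1 = T) := by
  have h1 := Nat.div_add_mod n T
  have h2 := Nat.mod_lt n hT
  by_cases c : n % T + 1 < T
  · left
    exact (Nat.div_mod_unique hT).2 ⟨by omega, c⟩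
  · right
    have := (Nat.div_mod_unique hT (a := n + 1) (d := n / T + 1) (c := 0)).2
      ⟨by rw [mul_add]; omega, hT⟩
    omega

theorem stair_succ {T : ℕ} (hT : 0 < T) (n : ℕ) {x : ℤ} (h0 : 0 ≤ x) (h1 : x < T) :
    stair T (n + 1) x = stair T n x + if x = (n % T : ℕ) then 1 else 0 := by
  unfold stair
  rcases succ_divmod hT n with ⟨a, b⟩ | ⟨a, b, c⟩ <;> rw [a, b] <;> split_ifs <;> omega

theorem stair_mono {T : ℕ} (hT : 0 < T) {n n' : ℕ} (h : n ≤ n') {x : ℤ} (h0 : 0 ≤ x) (h1 : x < T) :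
    stair T n x ≤ stair T n' x := by
  induction h with
  | refl => exact le_rfl
  | step _ ih => rw [stair_succ hT _ h0 h1]; split_ifs <;> omega

theorem stair_add {T : ℕ} (hT : 0 < T) (n : ℕ) (x : ℤ) : stair T (n + T) x = stair T n x + 1 := by
  unfold stair
  rw [Nat.add_div_right _ hT, Nat.add_mod_right]
  push_cast; ring

theorem stair_mul {T : ℕ} (hT : 0 < T) (k : ℕ) {x : ℤ} (h0 : 0 ≤ x) : stair T (T * k) x = k := by
  unfold stair
  rw [Nat.mul_div_cancel_left _ hT, Nat.mul_mod_right, if_neg (by omega), add_zero]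

theorem stair_step (T n : ℕ) (x : ℤ) :
    stair T n (x + 1) = stair T n x ∨ stair T n (x + 1) = stair T n x - 1 := by
  unfold stair; split_ifs <;> omega

/-- Height of column `x` after `j` layers have been removed. -/
def prof (t j n : ℕ) (x : ℤ) : ℤ := min (stair (2 * t) n x) (2 * t - j - x)

def area (t j n : ℕ) : ℤ := ∑ k ∈ range (2 * (t - j)), prof t j n (j + k)

theorem area_succ {t : ℕ} (ht : 0 < t) (j n : ℕ) : area t j (n + 1) ≤ area t j n + 1 := by
  have h1 : ∑ k ∈ range (2 * (t - j)), (if (j + k : ℤ) = (n % (2 * t) : ℕ) then (1 : ℤ) else 0) ≤ 1 := by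
    refine le_trans (sum_le_sum (g := fun k => if k = n % (2 * t) - j then (1 : ℤ) else 0)
      fun k _ => ?_) ?_
    · split_ifs <;> omega
    · rw [sum_ite_eq']; split_ifs <;> omega
  refine le_trans ?_ (add_le_add_right h1 _)
  unfold area
  rw [← sum_add_distrib]
  refine sum_le_sum fun k hk => ?_
  rw [mem_range] at hk
  unfold prof
  rw [stair_succ (by omega) n (by omega) (by omega)]
  split_ifs <;> omega

theorem ivt {F : ℕ → ℤ} (hF : ∀ n, F (n + 1) ≤ F n + 1) {a b : ℕ} (hab : a ≤ b) {y : ℤ}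
    (h1 : F a ≤ y) (h2 : y ≤ F b) : ∃ n, a ≤ n ∧ n ≤ b ∧ F n = y := by
  induction hab with
  | refl => exact ⟨a, le_rfl, le_rfl, le_antisymm h1 h2⟩
  | @step b hab ih =>
    by_cases c : y ≤ F b
    · obtain ⟨n, h3, h4, h5⟩ := ih c
      exact ⟨n, h3, by omega, h5⟩
    · have := hF b
      exact ⟨b + 1, by have : a ≤ b := hab; omega, le_rfl, by simp only [Nat.succ_eq_add_one] at h2; omega⟩

theorem area_min {t j : ℕ} (hj : j ≤ t) (ht : 0 < t) : area t j (2 * t) = 2 * (t - j) := by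
  unfold area
  rw [sum_congr rfl (g := fun _ => (1 : ℤ)) fun k hk => by
    rw [mem_range] at hk
    have := stair_mul (T := 2 * t) (by omega) 1 (x := j + k) (by omega)
    rw [mul_one] at this
    unfold prof
    omega]
  simp; omega

theorem area_split {t j : ℕ} (hj : j < t) (F : ℤ → ℤ) :
    ∑ k ∈ range (2 * (t - j)), F (j + k) =
      F j + F (2 * t - 1 - j) + ∑ k ∈ range (2 * (t - (j + 1))), F ((j + 1 : ℕ) + k) := by
  rw [show 2 * (t - j) = 2 * (t - (j + 1)) + 1 + 1 by omega, sum_range_succ, sum_range_succ']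
  have : (j : ℤ) + ((2 * (t - (j + 1)) + 1 : ℕ) : ℤ) = 2 * t - 1 - j := by omega
  rw [this]
  simp only [Nat.cast_add, Nat.cast_one, Nat.cast_zero, add_zero]
  rw [sum_congr rfl (g := fun k : ℕ => F (j + 1 + k)) fun k _ => by congr 1; ring]
  ring

theorem peel {t j n L : ℕ} (hj : j < t) (hL : 6 * t ≤ L)
    (hA : 2 * ((t : ℤ) - (j + 1)) + L ≤ area t j n) :
    ∃ n', 2 * t ≤ n' ∧ area t (j + 1) n' = area t j n - L ∧
      Run L ((j : ℤ), 0) (2 * (t : ℤ) - 1 - j, 0)
        {u | j ≤ u.1 ∧ u.1 < 2 * t - j ∧ 0 ≤ u.2 ∧ u.2 < prof t j n u.1 ∧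
          ¬ (((j + 1 : ℕ) : ℤ) ≤ u.1 ∧ u.1 < 2 * t - (j + 1 : ℕ) ∧ u.2 < prof t (j + 1) n' u.1)} := by
  have hT : 0 < 2 * t := by omega
  have h4 : 4 * t ≤ n := by
    by_contra c
    have : area t j n ≤ ∑ k ∈ range (2 * (t - j)), (2 : ℤ) := sum_le_sum fun k hk => by
      rw [mem_range] at hk
      have h1 := stair_mono hT (show n ≤ 2 * t * 2 by omega) (x := j + k) (by omega) (by omega)
      rw [stair_mul hT 2 (by omega)] at h1
      unfold prof
      omega
    simp only [sum_const, card_range, nsmul_eq_mul] at this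
    omega
  obtain ⟨m, rfl⟩ : ∃ m, n = m + 2 * t := ⟨n - 2 * t, by omega⟩
  have h5 : area t j (m + 2 * t) - L ≤ area t (j + 1) m := by
    unfold area
    rw [area_split hj (prof t j (m + 2 * t)), sum_congr rfl
      (g := fun k : ℕ => prof t (j + 1) m ((j + 1 : ℕ) + k) + 1) fun k _ => by
        unfold prof
        rw [stair_add hT]
        omega, sum_add_distrib]
    simp only [sum_const, card_range, nsmul_eq_mul]
    have a1 : prof t j (m + 2 * t) j ≤ 2 * t := by unfold prof; omega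
    have a2 : prof t j (m + 2 * t) (2 * t - 1 - j) ≤ 1 := by unfold prof; omega
    omega
  obtain ⟨n', g1, g2, g3⟩ := ivt (area_succ (by omega) (j + 1)) (show 2 * t ≤ m by omega)
    (y := area t j (m + 2 * t) - L) (by rw [area_min (by omega) (by omega)]; omega) h5
  refine ⟨n', g1, g3, ?_⟩
  have lo : ∀ x : ℤ, 0 ≤ x → x < 2 * t → 1 ≤ stair (2 * t) n' x ∧
      stair (2 * t) n' x + 1 ≤ stair (2 * t) (m + 2 * t) x := fun x a b => by
    have b1 := stair_mono hT (show 2 * t * 1 ≤ n' by omega) a (by omega)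
    have b2 := stair_mono hT g2 a (by omega)
    rw [stair_mul hT 1 a] at b1
    rw [stair_add hT]
    omega
  have hs := snake (fun x => if x = j then 0 else prof t (j + 1) n' x)
    (fun x => prof t j (m + 2 * t) x - 1) j j (2 * (t - j) - 1) (fun x a b => by
      have := lo x (by omega) (by omega)
      unfold prof; split_ifs <;> omega) (fun x a b _ => by
      have := stair_step (2 * t) (m + 2 * t) x
      unfold prof; omega) (fun x a b c => by
      have := stair_step (2 * t) n' x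
      unfold prof; split_ifs <;> omega)
  refine hs.congr ?_ (by simp) ?_ ?_
  · rw [show 2 * (t - j) - 1 + 1 = 2 * (t - j) by omega]
    have e1 := area_split hj fun x => if x = j then 0 else prof t (j + 1) n' x
    have e2 : ∑ k ∈ range (2 * (t - (j + 1))), (if ((j + 1 : ℕ) : ℤ) + k = j then 0 else
        prof t (j + 1) n' ((j + 1 : ℕ) + k)) = area t (j + 1) n' :=
      sum_congr rfl fun k _ => if_neg (by omega)
    have e3 : prof t (j + 1) n' (2 * t - 1 - j) = 0 := by
      have := lo (2 * t - 1 - j) (by omega) (by omega)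
      unfold prof; omega
    rw [e2, if_pos rfl, if_neg (by omega), e3, g3] at e1
    zify
    rw [sum_congr rfl (g := fun k : ℕ => prof t j (m + 2 * t) (j + k) -
      if (j : ℤ) + k = j then 0 else prof t (j + 1) n' (j + k)) fun k hk => by
        rw [mem_range] at hk
        have := lo (j + k) (by omega) (by omega)
        unfold prof; split_ifs <;> omega, sum_sub_distrib, e1]
    unfold area; ring
  · have e : (j : ℤ) + ((2 * (t - j) - 1 : ℕ) : ℤ) = 2 * t - 1 - j := by omega
    have := lo (2 * t - 1 - j) (by omega) (by omega)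
    rw [e, if_neg (by omega), if_neg (by omega)]
    congr 1
    unfold prof; omega
  · rintro ⟨x, y⟩ ⟨a1, a2, a3, a4, a5⟩
    dsimp only at a1 a2 a3 a4 a5
    have := lo x (by omega) (by omega)
    refine ⟨a1, by dsimp only; omega, ?_, by dsimp only; omega⟩
    dsimp only
    unfold prof at *
    split_ifs <;> omega

theorem layers (t R : ℕ) (L : ℕ → ℕ) (hR : R < t) (hL : ∀ j < R, 6 * t ≤ L j)
    (hs : 2 * (∑ j ∈ range R, L j + 2 * (t - R)) = t * (3 * t + 1)) :
    ∃ C : ℕ → Set Pt, (∀ j < R, Run (L j) ((j : ℤ), 0) (2 * (t : ℤ) - 1 - j, 0) (C j)) ∧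
      ∀ x y : ℤ, 0 ≤ x → 0 ≤ y → y < t → x + y < 2 * t →
        (y = 0 ∧ (R : ℤ) ≤ x ∧ x < 2 * t - R) ∨ ∃ j < R, (x, y) ∈ C j := by
  have hT : 0 < 2 * t := by omega
  have key : ∀ j ≤ R, ∃ n, 2 * t ≤ n ∧
      area t j n + ∑ i ∈ range j, (L i : ℤ) = ∑ i ∈ range R, (L i : ℤ) + 2 * (t - R) ∧
      ∃ C : ℕ → Set Pt, (∀ i < j, Run (L i) ((i : ℤ), 0) (2 * (t : ℤ) - 1 - i, 0) (C i)) ∧
      ∀ x y : ℤ, 0 ≤ x → 0 ≤ y → y < t → x + y < 2 * t →
        ((j : ℤ) ≤ x ∧ x < 2 * t - j ∧ y < prof t j n x) ∨ ∃ i < j, (x, y) ∈ C i := by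
    intro j hj
    induction j with
    | zero =>
      refine ⟨2 * t * t, by nlinarith, ?_, fun _ => ∅, fun _ _ => by omega, fun x y a b c d => ?_⟩
      · have e1 : 2 * area t 0 (2 * t * t) = t * (3 * t + 1) := by
          unfold area
          rw [sum_congr rfl (g := fun k : ℕ => min (t : ℤ) (2 * t - k)) fun k _ => by
            unfold prof; rw [stair_mul hT t (by omega)]; simp,
            show 2 * (t - 0) = t + t by omega, sum_range_add]
          have b1 : ∑ k ∈ range t, min (t : ℤ) (2 * t - (k : ℕ)) = ∑ k ∈ range t, (t : ℤ) :=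
            sum_congr rfl fun k hk => by rw [mem_range] at hk; omega
          have b2 : ∑ k ∈ range t, min (t : ℤ) (2 * t - (t + k : ℕ)) =
              ∑ k ∈ range t, ((t : ℤ) - k) := sum_congr rfl fun k hk => by omega
          rw [b1, b2, sum_sub_distrib]
          have := sum_range_id_mul_two t
          zify [show 1 ≤ t by omega] at this
          simp only [sum_const, card_range, nsmul_eq_mul]
          linarith
        zify [hR.le] at hs
        simp only [range_zero, sum_empty]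
        linarith
      · left
        unfold prof
        rw [stair_mul hT t a]
        omega
    | succ j ih =>
      obtain ⟨n, -, h2, C, h3, h4⟩ := ih (by omega)
      have h5 : ∑ i ∈ range (j + 1), (L i : ℤ) + 2 * (R - (j + 1)) ≤ ∑ i ∈ range R, (L i : ℤ) := by
        obtain ⟨r, rfl⟩ : ∃ r, R = j + 1 + r := ⟨R - (j + 1), by omega⟩
        rw [sum_range_add _ (j + 1) r]
        have : ∑ i ∈ range r, (2 : ℤ) ≤ ∑ i ∈ range r, (L (j + 1 + i) : ℤ) :=
          sum_le_sum fun i hi => by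
            have := hL (j + 1 + i) (by rw [mem_range] at hi; omega)
            omega
        simp only [sum_const, card_range, nsmul_eq_mul] at this
        push_cast; linarith
      rw [sum_range_succ] at h5
      obtain ⟨n', g1, g2, g3⟩ := peel (t := t) (j := j) (n := n) (L := L j) (by omega)
        (hL j (by omega)) (by linarith)
      refine ⟨n', g1, by rw [g2, sum_range_succ]; linarith, Function.update C j
        {u | j ≤ u.1 ∧ u.1 < 2 * t - j ∧ 0 ≤ u.2 ∧ u.2 < prof t j n u.1 ∧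
          ¬ (((j + 1 : ℕ) : ℤ) ≤ u.1 ∧ u.1 < 2 * t - (j + 1 : ℕ) ∧ u.2 < prof t (j + 1) n' u.1)},
        fun i hi => ?_,
        fun x y a b c d => ?_⟩
      · by_cases e : i = j
        · subst e; rw [Function.update_self]; exact g3
        · rw [Function.update_of_ne e]; exact h3 i (by omega)
      · rcases h4 x y a b c d with ⟨b1, b2, b3⟩ | ⟨i, hi, hx⟩
        · by_cases c : ((j + 1 : ℕ) : ℤ) ≤ x ∧ x < 2 * t - (j + 1 : ℕ) ∧ y < prof t (j + 1) n' x
          · exact Or.inl c
          · exact Or.inr ⟨j, by omega, by rw [Function.update_self]; exact ⟨b1, b2, b, b3, c⟩⟩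
        · exact Or.inr ⟨i, by omega, by rwa [Function.update_of_ne (by omega)]⟩
  obtain ⟨n, h1, h2, C, h3, h4⟩ := key R le_rfl
  refine ⟨C, h3, fun x y a b c d => (h4 x y a b c d).imp_left fun ⟨b1, b2, b3⟩ => ⟨?_, b1, b2⟩⟩
  have lo : ∀ k ∈ range (2 * (t - R)), 1 ≤ prof t R n (R + k) := fun k hk => by
    rw [mem_range] at hk
    have b1 := stair_mono hT (show 2 * t * 1 ≤ n by omega) (x := R + k) (by omega) (by omega)
    rw [stair_mul hT 1 (by omega)] at b1
    unfold prof; omega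
  have := (sum_eq_sum_iff_of_le lo).1 (by
    simp only [sum_const, card_range, nsmul_eq_mul]
    unfold area at h2
    omega) (x - R).toNat (by rw [mem_range]; omega)
  rw [show (R : ℤ) + ((x - R).toNat : ℤ) = x by omega] at this
  omega

theorem sum_hexcol (S : ℕ) : ∑ k ∈ range (2 * S + 1), (2 * S + 1 - |(k : ℤ) - S|) =
    3 * S ^ 2 + 3 * S + 1 := by
  rw [show 2 * S + 1 = S + (S + 1) by omega, sum_range_add]
  have b1 : ∑ k ∈ range S, (2 * S + 1 - |(k : ℤ) - S|) = ∑ k ∈ range S, ((S : ℤ) + 1 + k) :=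
    sum_congr rfl fun k hk => by rw [mem_range] at hk; rw [abs_of_nonpos (by omega)]; ring
  have b2 : ∑ k ∈ range (S + 1), (2 * S + 1 - |((S + k : ℕ) : ℤ) - S|) =
      ∑ k ∈ range (S + 1), (2 * (S : ℤ) + 1 - k) :=
    sum_congr rfl fun k hk => by rw [abs_of_nonneg (by omega)]; push_cast; ring
  rw [b1, b2, sum_add_distrib, sum_sub_distrib, sum_range_succ (fun k => (k : ℤ))]
  simp only [sum_const, card_range, nsmul_eq_mul]
  push_cast; ring

theorem sum_depth (t : ℕ) : 2 * ∑ r ∈ range (2 * t + 2), min t r = t * (3 * t + 3) := by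
  rw [show 2 * t + 2 = (t + 1) + (t + 1) by omega, sum_range_add]
  have b1 : ∑ r ∈ range (t + 1), min t r = ∑ r ∈ range (t + 1), r :=
    sum_congr rfl fun k hk => by rw [mem_range] at hk; omega
  have b2 : ∑ r ∈ range (t + 1), min t (t + 1 + r) = ∑ r ∈ range (t + 1), t :=
    sum_congr rfl fun k hk => by omega
  have := sum_range_id_mul_two (t + 1)
  rw [b1, b2]
  simp only [sum_const, card_range, smul_eq_mul, Nat.add_sub_cancel] at this ⊢
  nlinarith

theorem sum_range_mul' (F : ℕ → ℕ) (m n : ℕ) :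
    ∑ τ ∈ range (m * n), F τ = ∑ i ∈ range m, ∑ u ∈ range n, F (i * n + u) := by
  induction m with
  | zero => simp
  | succ m ih => rw [add_mul, one_mul, sum_range_add, ih, sum_range_succ]

theorem filler (t q s F : ℕ) (hs : s = q * (2 * t + 2) + 6)
    (hF : 2 * F + q * (t * (3 * t + 3)) = 2 * (3 * (s - 2) ^ 2 + 3 * (s - 2) + 1)) :
    ∃ u, Run F u ((s : ℤ) - 2, -(s : ℤ) + 2) {p | hex ((s : ℤ) - 2) p ∧ ∀ c : ℕ, c < q →
      ¬ ((s : ℤ) - 2 - (c + 1) * (2 * t + 2) ≤ p.1 ∧ p.1 + p.2 + s - 1 ≤ s - 3 - c * (2 * t + 2) ∧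
        p.2 + s - 1 ≤ t)} := by
  obtain ⟨w, hw⟩ : ∃ w, w = 2 * t + 2 := ⟨_, rfl⟩
  obtain ⟨Q, hQ⟩ : ∃ Q, Q = q * w := ⟨_, rfl⟩
  obtain ⟨S, hS⟩ : ∃ S, S = s - 2 := ⟨_, rfl⟩
  rw [← hw, ← hQ] at hs
  rw [← hS] at hF
  have hw0 : 0 < w := by omega
  have hQe : Q % 2 = 0 := by rw [hQ, hw, show q * (2 * t + 2) = 2 * (q * (t + 1)) by ring]; omega
  have hQt : Q = 0 ∨ t ≤ Q := by
    rcases Nat.eq_zero_or_pos q with rfl | h
    · left; simpa using hQ
    · right; nlinarith
  let dep : ℤ → ℤ := fun x => if 4 ≤ x ∧ x ≤ s - 3 then (min t ((s - 3 - x).toNat % w) : ℕ) else 0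
  have dep0 : ∀ x, 0 ≤ dep x ∧ dep x ≤ Q ∧ (x < 4 → dep x = 0) := fun x => by
    simp only [dep]; split_ifs <;> omega
  have hstep : ∀ x : ℤ, x % 2 ≠ (s + 1) % 2 → dep (x + 1) = dep x ∨ dep (x + 1) = dep x - 1 := by
    intro x hx
    simp only [dep]
    by_cases c1 : 4 ≤ x ∧ x ≤ s - 4
    · rw [if_pos (by omega), if_pos (by omega),
        show ((s : ℤ) - 3 - x).toNat = ((s : ℤ) - 3 - (x + 1)).toNat + 1 by omega]
      rcases succ_divmod hw0 ((s : ℤ) - 3 - (x + 1)).toNat with ⟨-, b⟩ | ⟨-, b, c⟩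
      · omega
      · exfalso
        have h1 := Nat.div_add_mod ((s : ℤ) - 3 - (x + 1)).toNat w
        rw [hw, show ∀ z, (2 * t + 2) * z = 2 * ((t + 1) * z) from fun z => by ring, ← hw] at h1
        omega
    · rw [if_neg (by omega), if_neg (by omega)]; omega
  have hsn := snake (fun x => max (-(S : ℤ)) (-S - x) + dep x) (fun x => min (S : ℤ) (S - x))
    (-S) (s + 1) (2 * S) (fun x a b => by have := dep0 x; omega) (fun x a b _ => by omega)
    (fun x a b c => by have := hstep x c; have := dep0 x; have := dep0 (x + 1); omega)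
  refine ⟨_, hsn.congr ?_ rfl ?_ ?_⟩
  · have e1 := sum_hexcol S
    have e2 : ∑ k ∈ range (2 * S + 1), dep (-S + k) = (∑ v ∈ range Q, min t (v % w) : ℕ) := by
      rw [show 2 * S + 1 = S + 4 + Q + 1 by omega, sum_range_succ, sum_range_add,
        sum_eq_zero fun k hk => (dep0 _).2.2 (by rw [mem_range] at hk; omega),
        ← sum_range_reflect (fun v => min t (v % w)) Q]
      simp only [dep]
      rw [if_neg (by omega), zero_add, add_zero]
      push_cast
      refine sum_congr rfl fun k hk => ?_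
      rw [mem_range] at hk
      rw [if_pos (by omega), show ((s : ℤ) - 3 - (-S + (S + 4 + k))).toNat = Q - 1 - k by omega]
    have e3 : 2 * ∑ v ∈ range Q, min t (v % w) = q * (t * (3 * t + 3)) := by
      rw [hQ, sum_range_mul', sum_congr rfl (g := fun _ => ∑ r ∈ range w, min t r) fun i _ =>
        sum_congr rfl fun r hr => by rw [Nat.mul_add_mod_of_lt (mem_range.1 hr)], ← sum_depth, ← hw]
      simp only [sum_const, card_range, smul_eq_mul]; ring
    zify at hF e3 ⊢
    rw [sum_congr rfl (g := fun k : ℕ => (2 * S + 1 - |(k : ℤ) - S|) - dep (-S + k)) fun k hk => by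
      rw [mem_range] at hk
      have := dep0 (-S + k)
      rcases abs_cases ((k : ℤ) - S) with h | h <;> omega, sum_sub_distrib, e1, e2]
    push_cast
    linarith
  · have e : -(S : ℤ) + ((2 * S : ℕ) : ℤ) = s - 2 := by omega
    rw [e, if_neg (by omega)]
    simp only [dep]
    rw [if_neg (by omega)]
    congr 1; omega
  · rintro ⟨x, y⟩ ⟨h1, h2⟩
    unfold hex at h1
    dsimp only at h1 h2
    refine ⟨by dsimp only; omega, by dsimp only; omega, ?_, by dsimp only; omega⟩
    dsimp only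
    by_cases c : 4 ≤ x ∧ x ≤ s - 3
    · have a1 := Nat.div_add_mod ((s : ℤ) - 3 - x).toNat w
      have a2 := Nat.mod_lt ((s : ℤ) - 3 - x).toNat hw0
      have a3 : ((s : ℤ) - 3 - x).toNat / w < q := by
        rw [Nat.div_lt_iff_lt_mul hw0, ← hQ]; omega
      have a4 := h2 _ a3
      simp only [dep]
      rw [if_pos c]
      generalize ((s : ℤ) - 3 - x).toNat / w = d at *
      have a5 : ((d : ℤ) + 1) * (2 * t + 2) = (w * d : ℕ) + w := by rw [hw]; push_cast; ring
      have a6 : (d : ℤ) * (2 * t + 2) = (w * d : ℕ) := by rw [hw]; push_cast; ring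
      rw [a5, a6] at a4
      omega
    · simp only [dep]
      rw [if_neg c]
      omega

end Pool.Agent.Lib.MP_dec383_lc
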