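import Pool.Agent.Lib.MP_dec383_lc.Seg
import Pool.Agent.Lib.MP_dec383_lc.Snake

/-! The two outer rings of the hexagon and the walls of the bins. -/

namespace Pool.Agent.Lib.MP_dec383_lc

open Finset

variable {h p : ℕ → ℕ}

theorem seg_rh (i K : ℕ) (e o : ℕ → Pt) (d : Pt) (hh : ∀ k < K, h (i + k) = 4 ∧ p (i + k) = 1)
    (h1 : ∀ k < K, adj (e (2 * k)) (e (2 * k) + d) ∧ adj (e (2 * k) + d) (e (2 * k + 1) + d) ∧
      adj (e (2 * k + 1) + d) (e (2 * k + 1)) ∧ adj (e (2 * k + 1)) (o k) ∧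
      adj (o k) (e (2 * (k + 1))))
    (hinj : ∀ k k', k < k' → k' < K → o k ≠ o k') :
    Seg h p i (i + K) (e 0) (e (2 * K)) {x | ∃ π < 2 * K, x = e π ∨ x = e π + d}
      {x | ∃ k < K, x = o k} := by
  refine (Seg.chain K (fun k => i + k) (fun k => e (2 * k)) _ (fun k => {o k})
    (fun k hk => Seg.one (hh k hk).1 (hh k hk).2 (rhombus _ _ d (h1 k hk).1 (h1 k hk).2.1
      (h1 k hk).2.2.1) (Link.single (h1 k hk).2.2.2.1 (h1 k hk).2.2.2.2))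
    fun k k' a b x hx hx' => hinj k k' a b (hx.symm.trans hx')).mono ?_ fun x hx => hx
  rintro x ⟨π, hπ, hx⟩
  refine ⟨π / 2, by omega, ?_⟩
  rcases Nat.mod_two_eq_zero_or_one π with c | c
  · rw [show 2 * (π / 2) = π by omega]
    exact hx.elim Or.inl fun a => Or.inr (Or.inl a)
  · rw [show 2 * (π / 2) + 1 = π by omega]
    exact hx.elim (fun a => Or.inr (Or.inr (Or.inr a))) fun a => Or.inr (Or.inr (Or.inl a))

theorem rimA (s z i : ℕ) (hz : 2 * z = s + 2) (hs : 6 ≤ s)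
    (hh : ∀ k < z, h (i + k) = 4 ∧ p (i + k) = 1) :
    Seg h p i (i + z) (3, -(s : ℤ)) (1 - (s : ℤ), -1)
      {u | 2 - s ≤ u.1 ∧ u.1 ≤ 3 ∧
        (u.2 = max (-(s : ℤ)) (-u.1 - s) ∨ u.2 = max (-(s : ℤ)) (-u.1 - s) + 1)}
      {u | u.1 ≤ 2 ∧ u.2 ≤ -2 ∧ (u.2 < -s ∨ u.1 + u.2 < -s)} := by
  refine (seg_rh i z (fun π => (3 - (π : ℤ), max (-(s : ℤ)) (π - 3 - s)))
    (fun k => if k = 0 then (2, -(s : ℤ) - 1) else (1 - 2 * (k : ℤ), 2 * (k : ℤ) - 2 - s)) (0, 1) hh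
    (fun k hk => ?_) fun k k' a b => ?_).congr rfl rfl ?_ ?_ ?_ ?_
  · split_ifs <;> dsimp only [adj, Prod.mk_add_mk] <;> omega
  · split_ifs <;> simp only [ne_eq, Prod.mk.injEq] <;> omega
  · simp only [Prod.mk.injEq]; omega
  · simp only [Prod.mk.injEq]; omega
  · rintro ⟨x, y⟩ ⟨a, b, c⟩
    dsimp only at a b c
    refine ⟨(3 - x).toNat, by omega, ?_⟩
    simp only [Prod.mk_add_mk, Prod.mk.injEq]; omega
  · rintro ⟨x, y⟩ ⟨k, hk, e⟩
    rw [Set.mem_ofPred_eq]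
    split_ifs at e <;> simp only [Prod.mk.injEq] at e <;> dsimp only <;> omega

theorem rimB (s i : ℕ) (hs : 6 ≤ s) (hh : ∀ k < s - 1, h (i + k) = 4 ∧ p (i + k) = 1) :
    Seg h p i (i + (s - 1)) (-(s : ℤ), 1) (-1, (s : ℤ))
      {u | (u.1 = -s ∧ 1 ≤ u.2 ∧ u.2 ≤ s) ∨ (u.2 = s ∧ -s ≤ u.1 ∧ u.1 ≤ -2) ∨
        (u.1 = -s + 1 ∧ 0 ≤ u.2 ∧ u.2 ≤ s - 1) ∨ (u.2 = s - 1 ∧ -s + 1 ≤ u.1 ∧ u.1 ≤ -1)}
      {u | u.1 ≤ -2 ∧ 3 ≤ u.2 ∧ (u.1 < -s ∨ s < u.2)} := by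
  refine (seg_rh i (s - 1) (fun π => (max (-(s : ℤ)) (π + 1 - 2 * s), min ((π : ℤ) + 1) s))
    (fun k => if 2 * k + 2 < s then (-(s : ℤ) - 1, 2 * (k : ℤ) + 3) else
      (2 * (k : ℤ) + 2 - 2 * s, (s : ℤ) + 1)) (1, -1) hh
    (fun k hk => ?_) fun k k' a b => ?_).congr rfl rfl ?_ ?_ ?_ ?_
  · split_ifs <;> dsimp only [adj, Prod.mk_add_mk] <;> omega
  · split_ifs <;> simp only [ne_eq, Prod.mk.injEq] <;> omega
  · simp only [Prod.mk.injEq]; omega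
  · simp only [Prod.mk.injEq]; omega
  · rintro ⟨x, y⟩ (a | a | a | a) <;> dsimp only at a
    · refine ⟨(y - 1).toNat, by omega, ?_⟩
      simp only [Prod.mk_add_mk, Prod.mk.injEq]; omega
    · refine ⟨(x + 2 * s - 1).toNat, by omega, ?_⟩
      simp only [Prod.mk_add_mk, Prod.mk.injEq]; omega
    · refine ⟨y.toNat, by omega, ?_⟩
      simp only [Prod.mk_add_mk, Prod.mk.injEq]; omega
    · refine ⟨(x + 2 * s - 2).toNat, by omega, ?_⟩
      simp only [Prod.mk_add_mk, Prod.mk.injEq]; omega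
  · rintro ⟨x, y⟩ ⟨k, hk, e⟩
    rw [Set.mem_ofPred_eq]
    split_ifs at e <;> simp only [Prod.mk.injEq] at e <;> dsimp only <;> omega

theorem rimC (s i : ℕ) (hs : 6 ≤ s) (hh : ∀ k < s - 3, h (i + k) = 4 ∧ p (i + k) = 1) :
    Seg h p i (i + (s - 3)) (2, (s : ℤ) - 2) ((s : ℤ), -(s : ℤ) + 4)
      {u | -s + 5 ≤ u.2 ∧ u.2 ≤ s - 2 ∧
        (u.1 = min ((s : ℤ) - u.2) s ∨ u.1 = min ((s : ℤ) - u.2) s - 1)}
      {u | 4 ≤ u.1 ∧ -s + 4 ≤ u.2 ∧ (s < u.1 ∨ s < u.1 + u.2)} := by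
  refine (seg_rh i (s - 3) (fun π => (min ((π : ℤ) + 2) s, (s : ℤ) - 2 - π))
    (fun k => if 2 * k + 3 < s then (2 * (k : ℤ) + 4, (s : ℤ) - 3 - 2 * k) else
      ((s : ℤ) + 1, (s : ℤ) - 4 - 2 * k)) (-1, 0) hh
    (fun k hk => ?_) fun k k' a b => ?_).congr rfl rfl ?_ ?_ ?_ ?_
  · split_ifs <;> dsimp only [adj, Prod.mk_add_mk] <;> omega
  · split_ifs <;> simp only [ne_eq, Prod.mk.injEq] <;> omega
  · simp only [Prod.mk.injEq]; omega
  · simp only [Prod.mk.injEq]; omega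
  · rintro ⟨x, y⟩ ⟨a, b, c⟩
    dsimp only at a b c
    refine ⟨(s - 2 - y).toNat, by omega, ?_⟩
    simp only [Prod.mk_add_mk, Prod.mk.injEq]; omega
  · rintro ⟨x, y⟩ ⟨k, hk, e⟩
    rw [Set.mem_ofPred_eq]
    split_ifs at e <;> simp only [Prod.mk.injEq] at e <;> dsimp only <;> omega

theorem runPair {u v : Pt} (a : adj u v) : Run 2 u v {x | x = u ∨ x = v} :=
  ((Run.single v).cons u a).mono fun x hx => by simpa using hx

/-- The cells of the two outer rings that are covered by the small blocks after the walls. -/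
def rimSet (s : ℤ) : Set Pt := {u | hex s u ∧ ¬ hex (s - 2) u ∧ (u.1 ≤ 3 ∨ -s + 3 ≤ u.2)}

/-- A set that contains the links of these blocks. -/
def rimOut (s : ℤ) : Set Pt := {u | (u.1 ≤ 2 ∧ u.2 ≤ -2 ∧ (u.2 < -s ∨ u.1 + u.2 < -s)) ∨
  (1 ≤ u.2 ∧ (u.1 < -s ∨ s < u.2 ∨ s < u.1 + u.2)) ∨ (-s + 4 ≤ u.2 ∧ s < u.1) ∨
  (s < u.1 ∧ -s - 2 ≤ u.2 ∧ u.2 ≤ -s + 2 ∧ ¬ (u.1 = s + 1 ∧ u.2 = -s + 1)) ∨
  (s - 4 ≤ u.1 ∧ u.2 = -s - 2) ∨ (u.1 = s - 4 ∧ u.2 = -s - 1)}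

theorem rim_seg (s z i : ℕ) (hz : 2 * z = s + 2) (hs' : 7 ≤ s)
    (hA : ∀ k < z, h (i + k) = 4) (h2 : h (i + z) = 2) (hB : ∀ k < s - 1, h (i + z + 1 + k) = 4)
    (h3 : h (i + z + s) = 3) (h1 : h (i + z + s + 1) = 1)
    (hC : ∀ k < s - 2, h (i + z + s + 2 + k) = 4)
    (hp : ∀ k, k + 1 < i + z + s + s → p k = 1) (h12 : p (i + z + s + s - 1) = 12) :
    Seg h p i (i + z + s + s) (3, -(s : ℤ)) ((s : ℤ) - 4, -(s : ℤ)) (rimSet s) (rimOut s) := by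
  have hs : 6 ≤ s := by omega
  have s4 := rimA (h := h) (p := p) s z i hz hs fun k hk => ⟨hA k hk, hp _ (by omega)⟩
  have s5 := Seg.one h2 (hp (i + z) (by omega))
    (runPair (u := (1 - (s : ℤ), -1)) (v := (-(s : ℤ), 0)) (by unfold adj; dsimp only; omega))
    (Link.single (w := (-(s : ℤ) - 1, 1)) (v := (-(s : ℤ), 1)) (by unfold adj; dsimp only; omega)
      (by unfold adj; dsimp only; omega))
  have s6 := (rimB (h := h) (p := p) s (i + z + 1) hs fun k hk => ⟨hB k hk, hp _ (by omega)⟩).congr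
    rfl (show _ = i + z + s by omega) rfl rfl subset_rfl subset_rfl
  have s7 := Seg.one h3 (hp (i + z + s) (by omega))
    ((runPair (u := (0, (s : ℤ) - 1)) (v := (0, (s : ℤ))) (by unfold adj; dsimp only; omega)).cons
      (-1, (s : ℤ)) (by unfold adj; dsimp only; omega))
    (Link.single (w := (1, (s : ℤ))) (v := (1, (s : ℤ) - 1)) (by unfold adj; dsimp only; omega)
      (by unfold adj; dsimp only; omega))
  have s8 := Seg.one h1 (hp (i + z + s + 1) (by omega)) (Run.single (1, (s : ℤ) - 1))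
    (Link.single (w := (2, (s : ℤ) - 1)) (v := (2, (s : ℤ) - 2)) (by unfold adj; dsimp only; omega)
      (by unfold adj; dsimp only; omega))
  have s9 := rimC (h := h) (p := p) s (i + z + s + 1 + 1) hs fun k hk =>
    ⟨hC k (by omega), hp _ (by omega)⟩
  have s10 := Seg.one (i := i + z + s + 1 + 1 + (s - 3)) (hC (s - 3) (by omega))
    (show p _ = 12 by rw [← h12]; congr 1; omega)
    (rhombus ((s : ℤ), -(s : ℤ) + 4) ((s : ℤ), -(s : ℤ) + 3) (-1, 0)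
      (by dsimp only [adj, Prod.mk_add_mk]; omega) (by dsimp only [adj, Prod.mk_add_mk]; omega)
      (by dsimp only [adj, Prod.mk_add_mk]; omega)) (link12 s)
  refine ((((((s4.trans s5 ?_).trans s6 ?_).trans s7 ?_).trans s8 ?_).trans s9 ?_).trans
    s10 ?_).congr rfl (by omega) rfl rfl ?_ ?_
  iterate 6
    rintro ⟨x, y⟩ a b
    simp only [Set.mem_union, Set.mem_ofPred_eq, Set.mem_singleton_iff, Prod.mk.injEq,
      ne_eq] at a b
    omega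
  · rintro ⟨x, y⟩ a
    simp only [rimSet, hex, Set.mem_union, Set.mem_ofPred_eq, Set.mem_singleton_iff,
      Prod.mk.injEq, Set.mem_insert_iff, Prod.mk_add_mk] at a ⊢
    by_cases c4 : 2 - s ≤ x ∧ x ≤ 3 ∧ (y ≤ -s + 1 ∨ x + y ≤ -s + 1)
    · exact Or.inl (Or.inl (Or.inl (Or.inl (Or.inl (Or.inl (by omega))))))
    by_cases c5 : x ≤ 1 - s ∧ x + y ≤ -s
    · exact Or.inl (Or.inl (Or.inl (Or.inl (Or.inl (Or.inr (by omega))))))
    by_cases c6 : x ≤ 1 - s ∨ (s - 1 ≤ y ∧ x + y ≤ s - 2)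
    · exact Or.inl (Or.inl (Or.inl (Or.inl (Or.inr (by omega)))))
    by_cases c7 : s - 1 ≤ y ∧ x ≤ 0
    · exact Or.inl (Or.inl (Or.inl (Or.inr (by omega))))
    by_cases c8 : s - 1 ≤ y
    · exact Or.inl (Or.inl (Or.inr (by omega)))
    by_cases c9 : -s + 5 ≤ y
    · exact Or.inl (Or.inr (by omega))
    · exact Or.inr (by omega)
  · rintro ⟨x, y⟩ a
    simp only [rimOut, Set.mem_union, Set.mem_ofPred_eq, Set.mem_singleton_iff,
      Prod.mk.injEq, ne_eq] at a ⊢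
    rcases a with (((((a | a) | a) | a) | a) | a) | a
    · exact Or.inl a
    · exact Or.inr (Or.inl (by omega))
    · exact Or.inr (Or.inl (by omega))
    · exact Or.inr (Or.inl (by omega))
    · exact Or.inr (Or.inl (by omega))
    · by_cases c : s < x
      · exact Or.inr (Or.inr (Or.inl (by omega)))
      · exact Or.inr (Or.inl (by omega))
    · exact Or.inr (Or.inr (Or.inr a))

/-- The wall of a bin whose interior starts in column `X`. -/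
theorem runWall (s X : ℤ) (t : ℕ) : Run (3 * t + 4) (X + 2 * t, -s) (X - 1, -s)
    {u | X - 1 ≤ u.1 ∧ -s ≤ u.2 ∧ u.2 ≤ -s + 1 + t ∧ (u.1 = X - 1 ∨
      (u.1 = X + 2 * t ∧ u.2 = -s) ∨ (u.1 + u.2 = X + 2 * t - s + 1 ∧ -s < u.2) ∨
      (u.2 = -s + 1 + t ∧ u.1 ≤ X + t))} := by
  have r1 := Run.seg (X + 2 * t, -s + 1) (-1, 1) (by simp [adj]) t
  have r2 := Run.seg (X + t - 1, -s + 1 + t) (-1, 0) (by simp [adj]) t
  have r3 := Run.seg (X - 1, -s + t) (0, -1) (by simp [adj]) t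
  refine (((r1.cons (X + 2 * t, -s) (by unfold adj; dsimp only; omega)).append r2 ?_).append
    r3 ?_).congr (by omega) rfl ?_ ?_
  · simp only [adj, Prod.smul_mk, smul_eq_mul, Prod.mk_add_mk]; omega
  · simp only [adj, Prod.smul_mk, smul_eq_mul, Prod.mk_add_mk]; omega
  · simp only [Prod.smul_mk, smul_eq_mul, Prod.mk_add_mk, Prod.mk.injEq]; omega
  · rintro ⟨x, y⟩ ⟨a, b, c, d⟩
    dsimp only at a b c d
    simp only [Set.mem_union, Set.mem_insert_iff, Set.mem_ofPred_eq, Prod.smul_mk, smul_eq_mul,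
      Prod.mk_add_mk, Prod.mk.injEq]
    by_cases c1 : x = X + 2 * t ∧ y = -s
    · exact Or.inl (Or.inl (Or.inl c1))
    by_cases c2 : x + y = X + 2 * t - s + 1 ∧ -s < y
    · exact Or.inl (Or.inl (Or.inr ⟨(y + s - 1).toNat, by omega, by omega⟩))
    by_cases c3 : y = -s + 1 + t
    · exact Or.inl (Or.inr ⟨(X + t - 1 - x).toNat, by omega, by omega⟩)
    · exact Or.inr ⟨(-s + t - y).toNat, by omega, by omega⟩

end Pool.Agent.Lib.MP_dec383_lc
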