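import Pool.Agent.Lib.MP_dec383_lc.Blocks

/-! The boundary ring of a hexagon. -/

namespace Pool.Agent.Lib.MP_dec383_lc

open Finset

def ring (s : ℤ) (x : Pt) : Prop := hex s x ∧ ¬ hex (s - 1) x

instance (s : ℤ) (x : Pt) : Decidable (ring s x) := by unfold ring; infer_instance

theorem ring_of_out {s : ℤ} {x w : Pt} (h1 : hex s x) (h2 : ¬ hex s w) (h : adj x w) :
    ring s x := by
  refine ⟨h1, fun h3 => h2 ?_⟩
  unfold hex at *
  rcases h with h | h | h | h | h | h <;> omega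

theorem ring_in {s : ℤ} {x y : Pt} (h1 : ring s x) (h2 : hex (s - 1) y) (h : adj x y) :
    ring (s - 1) y := by
  refine ⟨h2, fun h3 => h1.2 ?_⟩
  unfold hex at *
  rcases h with h | h | h | h | h | h <;> omega

theorem adj_of_out {s : ℤ} {x x' w : Pt} (h1 : hex s x) (h1' : hex s x') (h2 : ¬ hex s w)
    (h : adj x w) (h' : adj w x') (hne : x ≠ x') : adj x x' := by
  obtain ⟨x1, x2⟩ := x
  obtain ⟨y1, y2⟩ := x'
  obtain ⟨w1, w2⟩ := w
  simp only [hex, adj, ne_eq, Prod.mk.injEq] at *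
  rcases h with ⟨rfl, rfl⟩ | ⟨rfl, rfl⟩ | ⟨rfl, rfl⟩ | ⟨rfl, rfl⟩ | ⟨rfl, rfl⟩ | ⟨rfl, rfl⟩ <;>
  rcases h' with ⟨rfl, rfl⟩ | ⟨rfl, rfl⟩ | ⟨rfl, rfl⟩ | ⟨rfl, rfl⟩ | ⟨rfl, rfl⟩ | ⟨rfl, rfl⟩ <;>
  omega

theorem card_ring (s : ℕ) : ((hexF ((s + 1 : ℕ) : ℤ)).filter (ring ((s + 1 : ℕ) : ℤ))).card =
    6 * (s + 1) := by
  have h1 := card_hexF (s + 1)
  have h2 := card_hexF s
  have h3 := card_filter_add_card_filter_not (s := hexF ((s + 1 : ℕ) : ℤ)) (ring ((s + 1 : ℕ) : ℤ))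
  have h4 : (hexF ((s + 1 : ℕ) : ℤ)).filter (fun x => ¬ ring ((s + 1 : ℕ) : ℤ) x) = hexF s := by
    ext x
    simp only [mem_filter, mem_hexF, ring, Nat.cast_add, Nat.cast_one, add_sub_cancel_right,
      not_and, not_not]
    refine ⟨fun h => h.2 h.1, fun h => ⟨?_, fun _ => h⟩⟩
    unfold hex at *; omega
  rw [h4, h1, h2] at h3
  nlinarith

/-- Position on the ring, counted from the corner `(s, -s)`. -/
def pos (s : ℤ) (x : Pt) : ℤ :=
  if x.2 = -s ∨ x.1 + x.2 = -s then s - x.1 else if x.1 = -s then 2 * s + x.2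
  else if x.2 = s ∨ x.1 + x.2 = s then 4 * s + x.1 else 5 * s - x.2

theorem pos_cases {s : ℤ} {x : Pt} (hs : 1 ≤ s) (h : ring s x) :
    (x.2 = -s ∧ 0 ≤ x.1 ∧ x.1 ≤ s ∧ pos s x = s - x.1) ∨
    (x.1 + x.2 = -s ∧ -s ≤ x.1 ∧ x.1 < 0 ∧ pos s x = s - x.1) ∨
    (x.1 = -s ∧ 0 < x.2 ∧ x.2 ≤ s ∧ pos s x = 2 * s + x.2) ∨
    (x.2 = s ∧ -s < x.1 ∧ x.1 ≤ 0 ∧ pos s x = 4 * s + x.1) ∨
    (x.1 + x.2 = s ∧ 0 < x.1 ∧ x.1 ≤ s ∧ pos s x = 4 * s + x.1) ∨
    (x.1 = s ∧ -s < x.2 ∧ x.2 < 0 ∧ pos s x = 5 * s - x.2) := by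
  obtain ⟨h1, h2⟩ := h
  unfold hex at h1 h2
  unfold pos
  by_cases a1 : x.2 = -s
  · left; rw [if_pos (Or.inl a1)]; omega
  by_cases a2 : x.1 + x.2 = -s
  · right; left; rw [if_pos (Or.inr a2)]; omega
  rw [if_neg (by omega)]
  by_cases a3 : x.1 = -s
  · right; right; left; rw [if_pos a3]; omega
  rw [if_neg a3]
  by_cases a4 : x.2 = s
  · right; right; right; left; rw [if_pos (Or.inl a4)]; omega
  by_cases a5 : x.1 + x.2 = s
  · right; right; right; right; left; rw [if_pos (Or.inr a5)]; omega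
  rw [if_neg (by omega)]
  right; right; right; right; right; omega

theorem pos_range {s : ℤ} {x : Pt} (hs : 1 ≤ s) (h : ring s x) : 0 ≤ pos s x ∧ pos s x < 6 * s := by
  rcases pos_cases hs h with a | a | a | a | a | a <;> omega

theorem pos_inj {s : ℤ} {x y : Pt} (hs : 1 ≤ s) (h : ring s x) (h' : ring s y)
    (e : pos s x = pos s y) : x = y := by
  rcases pos_cases hs h with a | a | a | a | a | a <;>
  rcases pos_cases hs h' with b | b | b | b | b | b <;>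
  exact Prod.ext (by omega) (by omega)

theorem pos_adj {s : ℤ} {x y : Pt} (hs : 2 ≤ s) (h : ring s x) (h' : ring s y) (e : adj x y) :
    pos s y = pos s x + 1 ∨ pos s y = pos s x - 1 ∨ (pos s x = 0 ∧ pos s y = 6 * s - 1) ∨
      (pos s y = 0 ∧ pos s x = 6 * s - 1) := by
  rcases pos_cases (by omega) h with a | a | a | a | a | a <;>
  rcases pos_cases (by omega) h' with b | b | b | b | b | b <;>
  rcases e with e | e | e | e | e | e <;> omega

theorem pos_top {s : ℤ} {x : Pt} (hs : 1 ≤ s) (h : ring s x) (e : pos s x ≤ s) :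
    x.2 = -s ∧ x.1 = s - pos s x := by
  rcases pos_cases hs h with a | a | a | a | a | a <;> omega

def corner (s : ℤ) (x : Pt) : Prop :=
  x = (s, -s) ∨ x = (0, -s) ∨ x = (-s, 0) ∨ x = (-s, s) ∨ x = (0, s) ∨ x = (s, 0)

theorem pos_corner {s : ℤ} {x : Pt} (hs : 1 ≤ s) (h : corner s x) :
    pos s x = 0 ∨ pos s x = s ∨ pos s x = 2 * s ∨ pos s x = 3 * s ∨ pos s x = 4 * s ∨
      pos s x = 5 * s := by
  unfold pos
  rcases h with h | h | h | h | h | h <;> rw [Prod.ext_iff] at h <;> dsimp only at h <;>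
    split_ifs <;> omega

def rot (x : Pt) : Pt := (x.1 + x.2, -x.1)
def refl (x : Pt) : Pt := (-x.2, -x.1)

theorem adj_rot {x y : Pt} : adj (rot x) (rot y) ↔ adj x y := by
  simp only [adj, rot]
  constructor <;> rintro (h | h | h | h | h | h) <;> omega

theorem adj_refl {x y : Pt} : adj (refl x) (refl y) ↔ adj x y := by
  simp only [adj, refl]
  constructor <;> rintro (h | h | h | h | h | h) <;> omega

theorem hex_rot {s : ℤ} {x : Pt} : hex s (rot x) ↔ hex s x := by simp only [hex, rot]; omega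
theorem hex_refl {s : ℤ} {x : Pt} : hex s (refl x) ↔ hex s x := by simp only [hex, refl]; omega

theorem corner_rot {s : ℤ} {x : Pt} (h : corner s (rot x)) : corner s x := by
  obtain ⟨x1, x2⟩ := x
  simp only [corner, rot, Prod.mk.injEq] at *
  rcases h with h | h | h | h | h | h <;> omega

theorem BFold.map {s M : ℕ} {h p : ℕ → ℕ} {A : ℕ → ℕ → Pt} (hA : BFold s M h p A) (φ : Pt → Pt)
    (hφ : Function.Bijective φ) (h1 : ∀ x y, adj (φ x) (φ y) ↔ adj x y)
    (h2 : ∀ x, hex s (φ x) ↔ hex s x) : BFold s M h p fun i j => φ (A i j) := by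
  refine ⟨fun i hi j hj i' hi' j' hj' e => hA.inj i hi j hj i' hi' j' hj' (hφ.1 e),
    fun i hi j hj => (h1 _ _).2 (hA.step i hi j hj), fun i hi => (h1 _ _).2 (hA.next i hi),
    fun x => ?_⟩
  obtain ⟨y, rfl⟩ := hφ.2 x
  simp only [h2, hA.cov, hφ.1.eq_iff]

theorem BFold.rot {s M : ℕ} {h p : ℕ → ℕ} {A : ℕ → ℕ → Pt} (hA : BFold s M h p A) :
    BFold s M h p fun i j => rot (A i j) :=
  hA.map _ ⟨fun x y e => by
    simp only [MP_dec383_lc.rot, Prod.mk.injEq] at e; exact Prod.ext (by omega) (by omega),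
    fun y => ⟨(-y.2, y.1 + y.2), by simp [MP_dec383_lc.rot]⟩⟩ (fun _ _ => adj_rot) fun _ => hex_rot

theorem BFold.refl {s M : ℕ} {h p : ℕ → ℕ} {A : ℕ → ℕ → Pt} (hA : BFold s M h p A) :
    BFold s M h p fun i j => refl (A i j) :=
  hA.map _ ⟨fun x y e => by
    simp only [MP_dec383_lc.refl, Prod.mk.injEq] at e; exact Prod.ext (by omega) (by omega),
    fun y => ⟨(-y.2, -y.1), by simp [MP_dec383_lc.refl]⟩⟩ (fun _ _ => adj_refl) fun _ => hex_refl

/-- It suffices to treat foldings in which a given ring point is on the top side. -/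
theorem rot_ind {s M : ℕ} {h p : ℕ → ℕ} {P : (ℕ → ℕ → Pt) → Prop} {r : ℤ} (hr : 1 ≤ r) (i j : ℕ)
    (hρ : ∀ A, P (fun i j => rot (A i j)) → P A)
    (H : ∀ A, BFold s M h p A → (A i j).2 = -r → 0 < (A i j).1 → (A i j).1 ≤ r → P A)
    {A : ℕ → ℕ → Pt} (hA : BFold s M h p A) (hx : ring r (A i j)) : P A := by
  obtain ⟨h1, h2⟩ := hx
  unfold hex at h1 h2
  by_cases a0 : (A i j).2 = -r ∧ 0 < (A i j).1
  · exact H A hA a0.1 a0.2 (by omega)
  refine hρ _ ?_
  by_cases a1 : (A i j).1 = r ∧ (A i j).2 ≤ 0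
  · exact H _ hA.rot (by simp only [rot]; omega) (by simp only [rot]; omega)
      (by simp only [rot]; omega)
  refine hρ _ ?_
  by_cases a2 : (A i j).1 + (A i j).2 = r ∧ 0 ≤ (A i j).1
  · exact H _ hA.rot.rot (by simp only [rot]; omega) (by simp only [rot]; omega)
      (by simp only [rot]; omega)
  refine hρ _ ?_
  by_cases a3 : (A i j).2 = r
  · exact H _ hA.rot.rot.rot (by simp only [rot]; omega) (by simp only [rot]; omega)
      (by simp only [rot]; omega)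
  refine hρ _ ?_
  by_cases a4 : (A i j).1 = -r
  · exact H _ hA.rot.rot.rot.rot (by simp only [rot]; omega) (by simp only [rot]; omega)
      (by simp only [rot]; omega)
  refine hρ _ ?_
  exact H _ hA.rot.rot.rot.rot.rot (by simp only [rot]; omega) (by simp only [rot]; omega)
      (by simp only [rot]; omega)

end Pool.Agent.Lib.MP_dec383_lc
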