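import Pool.Agent.Lib.MP_dec383_lc.Blocks

/-! Walks that cover prescribed sets, and the assembly of a folding from such walks. -/

namespace Pool.Agent.Lib.MP_dec383_lc

open Finset

/-- A walk with `n` points from `u` to `v` that visits every point of `C`. -/
def Run (n : ℕ) (u v : Pt) (C : Set Pt) : Prop :=
  1 ≤ n ∧ ∃ f : ℕ → Pt, f 0 = u ∧ f (n - 1) = v ∧ (∀ j, j + 1 < n → adj (f j) (f (j + 1))) ∧
    ∀ x ∈ C, ∃ j < n, f j = x

namespace Run

variable {n m : ℕ} {u v u' v' : Pt} {C C' : Set Pt}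

theorem single (u : Pt) : Run 1 u u {u} :=
  ⟨le_rfl, fun _ => u, rfl, rfl, fun j hj => by omega, fun x hx => ⟨0, by omega, hx.symm⟩⟩

theorem mono (h : Run n u v C) (hC : C' ⊆ C) : Run n u v C' := by
  obtain ⟨h0, f, h1, h2, h3, h4⟩ := h
  exact ⟨h0, f, h1, h2, h3, fun x hx => h4 x (hC hx)⟩

theorem congr (h : Run n u v C) (e : n = m) (eu : u = u') (ev : v = v') (hC : C' ⊆ C) :
    Run m u' v' C' := by
  subst e eu ev; exact h.mono hC

theorem append (h : Run n u v C) (h' : Run m u' v' C') (a : adj v u') :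
    Run (n + m) u v' (C ∪ C') := by
  obtain ⟨h0, f, h1, h2, h3, h4⟩ := h
  obtain ⟨g0, g, g1, g2, g3, g4⟩ := h'
  refine ⟨by omega, fun j => if j < n then f j else g (j - n), by simp only; rw [if_pos (by omega), h1],
    by simp only; rw [if_neg (by omega), ← g2]; congr 1; omega, fun j hj => ?_, ?_⟩
  · simp only
    by_cases a1 : j + 1 < n
    · rw [if_pos (by omega), if_pos a1]; exact h3 j a1
    · by_cases a2 : j < n
      · rw [if_pos a2, if_neg a1, show j = n - 1 by omega, h2, show n - 1 + 1 - n = 0 by omega, g1]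
        exact a
      · rw [if_neg a2, if_neg a1, show j + 1 - n = j - n + 1 by omega]
        exact g3 _ (by omega)
  · rintro x (hx | hx)
    · obtain ⟨j, hj, e⟩ := h4 x hx
      exact ⟨j, by omega, by simp only; rw [if_pos hj, e]⟩
    · obtain ⟨j, hj, e⟩ := g4 x hx
      exact ⟨n + j, by omega, by simp only; rw [if_neg (by omega), Nat.add_sub_cancel_left, e]⟩

theorem cons (w : Pt) (h : Run n u v C) (a : adj w u) : Run (n + 1) w v (insert w C) :=
  ((single w).append h a).congr (add_comm _ _) rfl rfl fun _ hx => hx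

theorem snoc (w : Pt) (h : Run n u v C) (a : adj v w) : Run (n + 1) u w (insert w C) :=
  (h.append (single w) a).mono fun _ hx => hx.symm

theorem rev (h : Run n u v C) : Run n v u C := by
  obtain ⟨h0, f, h1, h2, h3, h4⟩ := h
  refine ⟨h0, fun j => f (n - 1 - j), h2, by simp [h1], fun j hj => ?_, fun x hx => ?_⟩
  · have := h3 (n - 1 - (j + 1)) (by omega)
    rw [show n - 1 - (j + 1) + 1 = n - 1 - j by omega] at this
    exact adj_symm this
  · obtain ⟨j, hj, e⟩ := h4 x hx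
    exact ⟨n - 1 - j, by omega, by simp only; rw [← e]; congr 1; omega⟩

theorem shift (d : Pt) (h : Run n u v C) : Run n (u + d) (v + d) {x | x - d ∈ C} := by
  obtain ⟨h0, f, h1, h2, h3, h4⟩ := h
  refine ⟨h0, fun j => f j + d, by simp [h1], by simp [h2], fun j hj => ?_, fun x hx => ?_⟩
  · have := h3 j hj
    simp only [adj, Prod.fst_add, Prod.snd_add] at this ⊢
    omega
  · obtain ⟨j, hj, e⟩ := h4 _ hx
    exact ⟨j, hj, by simp [e]⟩

/-- A straight segment in the direction `d`. -/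
theorem seg (u d : Pt) (hd : adj 0 d) (k : ℕ) :
    Run (k + 1) u (u + (k : ℤ) • d) {x | ∃ j : ℕ, j ≤ k ∧ x = u + (j : ℤ) • d} := by
  refine ⟨by omega, fun j => u + (j : ℤ) • d, by simp, by simp, fun j _ => ?_, ?_⟩
  · simp only [adj, Prod.fst_add, Prod.snd_add, Prod.smul_fst, Prod.smul_snd, smul_eq_mul,
      Prod.fst_zero, Prod.snd_zero, Nat.cast_add, Nat.cast_one, add_mul, one_mul] at hd ⊢
    omega
  · rintro x ⟨j, hj, rfl⟩
    exact ⟨j, by omega, rfl⟩

end Run

/-- A self-avoiding walk with `n` points inside `T` that joins a neighbour of `u` to a neighbour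
of `v`. -/
def Link (n : ℕ) (u v : Pt) (T : Set Pt) : Prop :=
  ∃ f : ℕ → Pt, adj u (f 0) ∧ adj (f (n - 1)) v ∧ (∀ j, j + 1 < n → adj (f j) (f (j + 1))) ∧
    (∀ j < n, f j ∈ T) ∧ ∀ i < n, ∀ j < n, f i = f j → i = j

theorem Link.single {u v w : Pt} (h1 : adj u w) (h2 : adj w v) : Link 1 u v {w} :=
  ⟨fun _ => w, h1, h2, fun j hj => by omega, fun _ _ => rfl, fun i hi j hj _ => by omega⟩

theorem Link.mono {n : ℕ} {u v : Pt} {T T' : Set Pt} (h : Link n u v T) (hT : T ⊆ T') :
    Link n u v T' := by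
  obtain ⟨f, h1, h2, h3, h4, h5⟩ := h
  exact ⟨f, h1, h2, h3, fun j hj => hT (h4 j hj), h5⟩

theorem Link.rev {n : ℕ} {u v : Pt} {T : Set Pt} (h : Link n u v T) : Link n v u T := by
  obtain ⟨f, h1, h2, h3, h4, h5⟩ := h
  refine ⟨fun j => f (n - 1 - j), adj_symm h2, by simpa using adj_symm h1, fun j hj => ?_,
    fun j hj => h4 _ (by omega), fun i hi j hj e => ?_⟩
  · have := h3 (n - 1 - (j + 1)) (by omega)
    rw [show n - 1 - (j + 1) + 1 = n - 1 - j by omega] at this
    exact adj_symm this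
  · have := h5 _ (by omega) _ (by omega) e
    omega

theorem bfold_of_runs {s M : ℕ} {h p : ℕ → ℕ} (d0 d1 : ℕ → Pt) (C T : ℕ → Set Pt)
    (hp : ∀ i < M, 1 ≤ p i)
    (hr : ∀ i < M, Run (h i) (d0 i) (d1 i) (C i))
    (hl : ∀ i < M, Link (p i) (d1 i) (d0 (i + 1)) (T i))
    (cov : ∀ x, hex s x → ∃ i < M, x ∈ C i)
    (cnt : ∑ i ∈ range M, h i ≤ 3 * s ^ 2 + 3 * s + 1)
    (out : ∀ i < M, ∀ x ∈ T i, ¬ hex s x)
    (dis : ∀ i, ∀ i' < M, i < i' → ∀ x ∈ T i, x ∉ T i') : ∃ A, BFold s M h p A := by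
  have h0 : ∀ i < M, 1 ≤ h i := fun i hi => (hr i hi).1
  have hr' := fun i hi => (hr i hi).2
  choose! f f1 f2 f3 f4 using hr'
  choose! g g1 g2 g3 g4 g5 using hl
  have e : ∀ i j, (if h i + j < h i then f i (h i + j) else g i (h i + j - h i)) = g i j :=
    fun i j => by simp
  refine ⟨fun i j => if j < h i then f i j else g i (j - h i), bfold_of (fun i hi j hj => ?_)
    (fun i hi => ?_) (fun x hx => ?_) cnt (fun i hi j hj => ?_) fun i hi j hj i' hi' j' hj' => ?_⟩
  · have := h0 i hi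
    by_cases a1 : j + 1 < h i
    · rw [if_pos (by omega), if_pos a1]; exact f3 i hi j a1
    · by_cases a2 : j < h i
      · rw [if_pos a2, if_neg a1, show j = h i - 1 by omega, f2 i hi,
          show h i - 1 + 1 - h i = 0 by omega]
        exact g1 i hi
      · rw [if_neg a2, if_neg a1, show j + 1 - h i = j - h i + 1 by omega]
        exact g3 i hi _ (by omega)
  · have := hp i (by omega)
    have := h0 (i + 1) hi
    rw [if_neg (by omega), if_pos (by omega), f1 _ hi, show h i + p i - 1 - h i = p i - 1 by omega]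
    exact g2 i (by omega)
  · obtain ⟨i, hi, hx⟩ := cov x hx
    obtain ⟨j, hj, e⟩ := f4 i hi x hx
    exact ⟨i, hi, j, hj, by rw [if_pos hj, e]⟩
  · rw [e]; exact out i hi _ (g4 i hi j hj)
  · rw [e, e]
    intro e'
    rcases lt_trichotomy i i' with a | rfl | a
    · exact absurd (e' ▸ g4 i' hi' j' hj') (dis i i' hi' a _ (g4 i hi j hj))
    · exact ⟨rfl, g5 i hi j hj j' hj' e'⟩
    · exact absurd (e' ▸ g4 i hi j hj) (dis i' i hi a _ (g4 i' hi' j' hj'))

/-- The ends of runs that cover the hexagon without waste are distinct. -/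
theorem doors_inj {s M : ℕ} {h : ℕ → ℕ} {d0 d1 : ℕ → Pt} {C : ℕ → Set Pt}
    (hr : ∀ i < M, Run (h i) (d0 i) (d1 i) (C i))
    (cov : ∀ x, hex s x → ∃ i < M, x ∈ C i)
    (cnt : ∑ i ∈ range M, h i ≤ 3 * s ^ 2 + 3 * s + 1) {i i' : ℕ} (hi : i < M) (hi' : i' < M) :
    (d0 i = d0 i' → i = i') ∧ (d1 i = d1 i' → i = i') ∧ (d0 i = d1 i' → i = i' ∧ h i = 1) := by
  classical
  have h0 : ∀ i < M, 1 ≤ h i := fun i hi => (hr i hi).1
  have hr' := fun i hi => (hr i hi).2
  choose! f f1 f2 f3 f4 using hr'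
  let I := (range M).sigma fun i => range (h i)
  have hI : I.card ≤ (hexF s).card := by rw [card_hexF]; simpa [I] using cnt
  have hsub : hexF s ⊆ I.image fun e => f e.1 e.2 := fun x hx => by
    obtain ⟨i, hi, hx⟩ := cov x (mem_hexF.1 hx)
    obtain ⟨j, hj, rfl⟩ := f4 i hi x hx
    exact mem_image.2 ⟨⟨i, j⟩, by simp [I, hi, hj], rfl⟩
  have heq := eq_of_subset_of_card_le hsub (card_image_le.trans hI)
  have hinj : Set.InjOn (fun e : Σ _ : ℕ, ℕ => f e.1 e.2) I :=
    card_image_iff.1 (le_antisymm card_image_le (by rw [← heq]; exact hI))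
  have key : ∀ j < h i, ∀ j' < h i', f i j = f i' j' → i = i' ∧ j = j' := fun j a j' a' e => by
    have := @hinj ⟨i, j⟩ (by simp [I, hi, a]) ⟨i', j'⟩ (by simp [I, hi', a']) e
    simpa using this
  have a := h0 i hi
  have a' := h0 i' hi'
  rw [← f1 i hi, ← f1 i' hi', ← f2 i hi, ← f2 i' hi']
  refine ⟨fun e => (key _ (by omega) _ (by omega) e).1,
    fun e => (key _ (by omega) _ (by omega) e).1, fun e => ?_⟩
  obtain ⟨rfl, e2⟩ := key _ (by omega) _ (by omega) e
  omega

end Pool.Agent.Lib.MP_dec383_lc
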