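import Pool.Agent.Lib.MP_dec383_lc.Run

/-! Consecutive blocks of a chain, folded one stretch at a time. -/

namespace Pool.Agent.Lib.MP_dec383_lc

open Finset

/-- Blocks `i0 ≤ i < i1` are folded, starting at `u`, with the last link ending next to `v`;
the `H` runs cover `C` and the links are disjoint and lie in `T`. -/
def Seg (h p : ℕ → ℕ) (i0 i1 : ℕ) (u v : Pt) (C T : Set Pt) : Prop :=
  i0 ≤ i1 ∧ ∃ (d0 d1 : ℕ → Pt) (Cs Ts : ℕ → Set Pt), d0 i0 = u ∧ d0 i1 = v ∧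
    (∀ i, i0 ≤ i → i < i1 → Run (h i) (d0 i) (d1 i) (Cs i) ∧
      Link (p i) (d1 i) (d0 (i + 1)) (Ts i) ∧ Ts i ⊆ T) ∧
    (∀ x ∈ C, ∃ i, i0 ≤ i ∧ i < i1 ∧ x ∈ Cs i) ∧
    ∀ i i', i0 ≤ i → i < i' → i' < i1 → ∀ x ∈ Ts i, x ∉ Ts i'

namespace Seg

variable {h p : ℕ → ℕ} {i0 i1 i2 : ℕ} {u v w : Pt} {C T C' T' : Set Pt}

theorem nil (i : ℕ) (u : Pt) : Seg h p i i u u ∅ ∅ :=
  ⟨le_rfl, fun _ => u, fun _ => u, fun _ => ∅, fun _ => ∅, rfl, rfl, fun _ _ _ => by omega,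
    fun _ hx => hx.elim, fun _ _ _ _ _ => by omega⟩

theorem one {i n m : ℕ} (hn : h i = n) (hm : p i = m) (hr : Run n u w C) (hl : Link m w v T) :
    Seg h p i (i + 1) u v C T := by
  subst hn hm
  refine ⟨by omega, fun k => if k = i then u else v, fun _ => w, fun _ => C, fun _ => T, by simp,
    by simp, fun k h1 h2 => ?_, fun x hx => ⟨i, le_rfl, by omega, hx⟩, fun _ _ _ _ _ => by omega⟩
  obtain rfl : k = i := by omega
  simpa using ⟨hr, hl⟩

theorem mono (hs : Seg h p i0 i1 u v C T) (hC : C' ⊆ C) (hT : T ⊆ T') :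
    Seg h p i0 i1 u v C' T' := by
  obtain ⟨h0, d0, d1, Cs, Ts, h1, h2, h3, h4, h5⟩ := hs
  exact ⟨h0, d0, d1, Cs, Ts, h1, h2, fun i a b => ⟨(h3 i a b).1, (h3 i a b).2.1,
    (h3 i a b).2.2.trans hT⟩, fun x hx => h4 x (hC hx), h5⟩

theorem congr {j0 j1 : ℕ} {u' v' : Pt} (hs : Seg h p i0 i1 u v C T) (e0 : i0 = j0) (e1 : i1 = j1)
    (eu : u = u') (ev : v = v') (hC : C' ⊆ C) (hT : T ⊆ T') : Seg h p j0 j1 u' v' C' T' := by
  subst e0 e1 eu ev; exact hs.mono hC hT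

theorem trans (hs : Seg h p i0 i1 u v C T) (hs' : Seg h p i1 i2 v w C' T')
    (hd : ∀ x ∈ T, x ∉ T') : Seg h p i0 i2 u w (C ∪ C') (T ∪ T') := by
  obtain ⟨h0, d0, d1, Cs, Ts, h1, h2, h3, h4, h5⟩ := hs
  obtain ⟨g0, e0, e1, Ds, Us, g1, g2, g3, g4, g5⟩ := hs'
  have key : ∀ i, i ≤ i1 → (if i < i1 then d0 i else e0 i) = d0 i := fun i hi => by
    split_ifs with a
    · rfl
    · obtain rfl : i = i1 := by omega
      rw [g1, h2]
  refine ⟨by omega, fun i => if i < i1 then d0 i else e0 i, fun i => if i < i1 then d1 i else e1 i,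
    fun i => if i < i1 then Cs i else Ds i, fun i => if i < i1 then Ts i else Us i,
    (key i0 h0).trans h1, by simp only; rw [if_neg (by omega), g2], fun i a b => ?_, ?_,
    fun i i' a b c x hx => ?_⟩
  · simp only
    by_cases c : i < i1
    · rw [key (i + 1) c]
      simp only [if_pos c]
      exact ⟨(h3 i a c).1, (h3 i a c).2.1, (h3 i a c).2.2.trans Set.subset_union_left⟩
    · rw [if_neg (show ¬ i + 1 < i1 by omega)]
      simp only [if_neg c]
      have := g3 i (by omega) b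
      exact ⟨this.1, this.2.1, this.2.2.trans Set.subset_union_right⟩
  · rintro x (hx | hx)
    · obtain ⟨i, a, b, c⟩ := h4 x hx
      exact ⟨i, a, by omega, by simp only; rwa [if_pos b]⟩
    · obtain ⟨i, a, b, c⟩ := g4 x hx
      exact ⟨i, by omega, b, by simp only; rwa [if_neg (by omega)]⟩
  · simp only at hx ⊢
    by_cases c1 : i' < i1
    · rw [if_pos (by omega)] at hx
      rw [if_pos c1]
      exact h5 i i' a b c1 x hx
    · rw [if_neg c1]
      by_cases c2 : i < i1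
      · rw [if_pos c2] at hx
        exact fun hx' => hd x ((h3 i a c2).2.2 hx) ((g3 i' (by omega) c).2.2 hx')
      · rw [if_neg c2] at hx
        exact g5 i i' (by omega) b c x hx

theorem chain (K : ℕ) (ix : ℕ → ℕ) (e : ℕ → Pt) (C T : ℕ → Set Pt)
    (hs : ∀ k < K, Seg h p (ix k) (ix (k + 1)) (e k) (e (k + 1)) (C k) (T k))
    (hd : ∀ k k', k < k' → k' < K → ∀ x ∈ T k, x ∉ T k') :
    Seg h p (ix 0) (ix K) (e 0) (e K) {x | ∃ k < K, x ∈ C k} {x | ∃ k < K, x ∈ T k} := by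
  induction K with
  | zero => exact (nil _ _).mono (by rintro x ⟨k, hk, -⟩; omega) (Set.empty_subset _)
  | succ K ih =>
    refine ((ih (fun k hk => hs k (by omega)) fun k k' a b => hd k k' a (by omega)).trans
      (hs K (by omega)) ?_).mono ?_ ?_
    · rintro x ⟨k, hk, hx⟩
      exact hd k K hk (by omega) x hx
    · rintro x ⟨k, hk, hx⟩
      by_cases a : k < K
      · exact Or.inl ⟨k, a, hx⟩
      · obtain rfl : k = K := by omega
        exact Or.inr hx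
    · rintro x (⟨k, hk, hx⟩ | hx)
      · exact ⟨k, by omega, hx⟩
      · exact ⟨K, by omega, hx⟩

theorem final {s M : ℕ} (hs : Seg h p 0 M u v C T) (hp : ∀ i < M, 1 ≤ p i)
    (cov : ∀ x, hex s x → x ∈ C) (out : ∀ x ∈ T, ¬ hex s x)
    (cnt : ∑ i ∈ range M, h i ≤ 3 * s ^ 2 + 3 * s + 1) : ∃ A, BFold s M h p A := by
  obtain ⟨-, d0, d1, Cs, Ts, -, -, h3, h4, h5⟩ := hs
  refine bfold_of_runs d0 d1 Cs Ts hp (fun i hi => (h3 i (by omega) hi).1)
    (fun i hi => (h3 i (by omega) hi).2.1) (fun x hx => ?_) cnt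
    (fun i hi x hx => out x ((h3 i (by omega) hi).2.2 hx))
    fun i i' a b => h5 i i' (by omega) b a
  obtain ⟨i, -, a, b⟩ := h4 x (cov x hx)
  exact ⟨i, a, b⟩

end Seg

/-- Four cells: a door, the cell below it, the next cell and the next door. -/
theorem rhombus (e e' d : Pt) (h1 : adj e (e + d)) (h2 : adj (e + d) (e' + d))
    (h3 : adj (e' + d) e') : Run 4 e e' {x | x = e ∨ x = e + d ∨ x = e' + d ∨ x = e'} :=
  ((((Run.single e').cons _ h3).cons _ h2).cons _ h1).mono fun x hx => by simpa using hx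

/-- The cells of an arc of height `η` over the top side. -/
def arcSet (s x1 x2 : ℤ) (η : ℕ) : Set Pt :=
  {u | ((u.1 = x1 ∨ u.1 = x2) ∧ -s - η ≤ u.2 ∧ u.2 < -s) ∨ (x1 ≤ u.1 ∧ u.1 ≤ x2 ∧ u.2 = -s - η)}

theorem arc (s x1 x2 : ℤ) (p η : ℕ) (h : x1 < x2) (hη : 2 ≤ η)
    (hp : (p : ℤ) = 2 * η + (x2 - x1) - 1 ∨ (p : ℤ) = 2 * η + (x2 - x1) - 2) :
    Link p (x1, -s) (x2, -s) (arcSet s x1 x2 η) := by
  obtain ⟨a, ha⟩ : ∃ a : ℤ, a = p - (x2 - x1) - (η - 1) := ⟨_, rfl⟩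
  refine ⟨fun j => if (j : ℤ) < a then (x1, -s - 1 - j) else
    if (j : ℤ) < a + (x2 - x1) then (x1 + 1 + (j - a), -s - η) else
      (x2, -s - η + 1 + (j - a - (x2 - x1))), ?_, ?_, fun j hj => ?_, fun j hj => ?_,
      fun i hi j hj => ?_⟩
  · beta_reduce; split_ifs <;> (unfold adj; dsimp only; omega)
  · beta_reduce; split_ifs <;> (unfold adj; dsimp only; omega)
  · beta_reduce; split_ifs <;> (unfold adj; dsimp only; omega)
  · beta_reduce; split_ifs <;> (rw [arcSet, Set.mem_ofPred_eq]; dsimp only; omega)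
  · simp only; split_ifs <;> simp only [Prod.mk.injEq] <;> omega

theorem link12 (s : ℤ) : Link 12 (s, -s + 3) (s - 4, -s)
    {u | (s < u.1 ∧ -s - 2 ≤ u.2 ∧ u.2 ≤ -s + 2 ∧ u ≠ (s + 1, -s + 1)) ∨
      (s - 4 ≤ u.1 ∧ u.2 = -s - 2) ∨ u = (s - 4, -s - 1)} := by
  refine ⟨fun j => if j = 0 then (s + 1, -s + 2) else if j ≤ 4 then (s + 2, -s + 2 - j) else
    if j ≤ 10 then (s + 6 - j, -s - 2) else (s - 4, -s - 1), ?_, ?_, fun j hj => ?_,
    fun j hj => ?_, fun i hi j hj => ?_⟩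
  · simp [adj]; omega
  · simp [adj]
  · beta_reduce; split_ifs <;> first | contradiction | (unfold adj; dsimp only; omega)
  · beta_reduce; split_ifs <;> (rw [Set.mem_ofPred_eq, ne_eq, Prod.ext_iff, Prod.ext_iff]; dsimp only; omega)
  · simp only; split_ifs <;> simp only [Prod.mk.injEq] <;> omega

end Pool.Agent.Lib.MP_dec383_lc
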