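import Pool.Agent.Lib.MP_dec383_lc.Ring

/-! The two outer rings of a folding. -/

namespace Pool.Agent.Lib.MP_dec383_lc

open Finset

structure Fr (s M u v : ℕ) (h p : ℕ → ℕ) : Prop where
  hM : M = 3 * s + 1
  hs : 6 ≤ s
  u3 : 3 ≤ u
  uv : u + 2 ≤ v
  vM : v + 3 ≤ M
  h0 : 3 ≤ h 0
  h1 : h 1 = 2
  hu : h u = 2
  hv : h v = 3
  hv1 : h (v + 1) = 1
  h4 : ∀ i, i ≠ 0 → i ≠ 1 → i ≠ u → i ≠ v → i ≠ v + 1 → 4 ≤ h i
  p1 : ∀ i, 1 ≤ p i
  pe : ∀ i, i ≤ 1 ∨ i + 1 = u ∨ i = u ∨ i = v ∨ i = v + 1 → p i = 1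

variable {s M u v : ℕ} {h p : ℕ → ℕ} {A : ℕ → ℕ → Pt}

theorem Fr.cases (F : Fr s M u v h p) (i : ℕ) : (i = 0 ∧ 3 ≤ h i) ∨ (i = 1 ∧ h i = 2) ∨
    (i = u ∧ h i = 2) ∨ (i = v ∧ h i = 3) ∨ (i = v + 1 ∧ h i = 1) ∨
    (i ≠ 0 ∧ i ≠ 1 ∧ i ≠ u ∧ i ≠ v ∧ i ≠ v + 1 ∧ 4 ≤ h i) := by
  by_cases a0 : i = 0
  · exact Or.inl ⟨a0, a0 ▸ F.h0⟩
  by_cases a1 : i = 1
  · exact Or.inr (Or.inl ⟨a1, a1 ▸ F.h1⟩)
  by_cases a2 : i = u
  · exact Or.inr (Or.inr (Or.inl ⟨a2, a2 ▸ F.hu⟩))
  by_cases a3 : i = v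
  · exact Or.inr (Or.inr (Or.inr (Or.inl ⟨a3, a3 ▸ F.hv⟩)))
  by_cases a4 : i = v + 1
  · exact Or.inr (Or.inr (Or.inr (Or.inr (Or.inl ⟨a4, a4 ▸ F.hv1⟩))))
  exact Or.inr (Or.inr (Or.inr (Or.inr (Or.inr ⟨a0, a1, a2, a3, a4, F.h4 i a0 a1 a2 a3 a4⟩))))

theorem Fr.pos (F : Fr s M u v h p) (i : ℕ) : 1 ≤ h i := by have := F.cases i; omega

namespace BFold

variable (hA : BFold s M h p A)
include hA

theorem hexH {i j : ℕ} (hi : i < M) (hj : j < h i) : hex s (A i j) :=
  (hA.cov _).2 ⟨i, hi, j, hj, rfl⟩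

theorem injH {i j i' j' : ℕ} (hi : i < M) (hj : j < h i) (hi' : i' < M) (hj' : j' < h i')
    (e : A i j = A i' j') : i = i' ∧ j = j' :=
  hA.inj i hi j (by omega) i' hi' j' (by omega) e

theorem outP {i j : ℕ} (hi : i < M) (hj : h i ≤ j) (hj' : j < h i + p i) : ¬ hex s (A i j) := by
  intro e
  obtain ⟨i', hi', j', h1, e⟩ := (hA.cov _).1 e
  obtain ⟨rfl, rfl⟩ := hA.inj i' hi' j' (by omega) i hi j hj' e
  omega

theorem stepH {i j : ℕ} (hi : i < M) (hj : j + 1 < h i) : adj (A i j) (A i (j + 1)) :=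
  hA.step i hi j (by omega)

variable (F : Fr s M u v h p)
include F

theorem ring_d1 {i : ℕ} (hi : i < M) : ring s (A i (h i - 1)) := by
  have := F.pos i
  have := F.p1 i
  exact ring_of_out (hA.hexH hi (by omega)) (hA.outP hi (by omega) (by omega))
    (hA.step i hi _ (by omega))

theorem ring_d0 {i : ℕ} (h1 : 1 ≤ i) (hi : i < M) : ring s (A i 0) := by
  obtain ⟨i, rfl⟩ : ∃ k, i = k + 1 := ⟨i - 1, by omega⟩
  have := F.pos i
  have := F.p1 i
  exact ring_of_out (hA.hexH hi (F.pos _)) (hA.outP (by omega) (by omega) (by omega))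
    (adj_symm (hA.next i hi))

theorem link_adj {i : ℕ} (hi : i + 1 < M) (hp : p i = 1) : adj (A i (h i - 1)) (A (i + 1) 0) := by
  have := F.pos i
  have a := hA.next i hi
  rw [show h i + p i - 1 = h i - 1 + 1 by omega] at a
  refine adj_of_out (hA.hexH (by omega) (by omega)) (hA.hexH hi (F.pos _))
    (hA.outP (by omega) (by omega) (by omega)) (hA.step i (by omega) _ (by omega)) a fun e => ?_
  have := hA.injH (by omega) (by omega) hi (F.pos _) e
  omega

theorem door_of_ring {x : Pt} (hx : ring s x) :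
    ∃ i < M, x = A i (h i - 1) ∨ (1 ≤ i ∧ x = A i 0) := by
  obtain ⟨r, hr⟩ : ∃ r, s = r + 1 := ⟨s - 1, by have := F.hs; omega⟩
  have hM := F.hM
  have := F.vM
  obtain ⟨e, he, rfl⟩ := fill (U := (hexF s).filter (ring s))
    (I := (range M).disjSum (((range M).erase 0).erase (v + 1)))
    (F := Sum.elim (fun i => A i (h i - 1)) fun i => A i 0) (by
      rintro (i | i) hi <;> simp only [inl_mem_disjSum, inr_mem_disjSum, mem_erase, mem_range] at hi
      · have := hA.ring_d1 F hi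
        exact mem_filter.2 ⟨mem_hexF.2 this.1, this⟩
      · have := hA.ring_d0 F (by omega) hi.2.2
        exact mem_filter.2 ⟨mem_hexF.2 this.1, this⟩) (by
      rintro (i | i) hi (j | j) hj e <;>
      simp only [mem_coe, inl_mem_disjSum, inr_mem_disjSum, mem_erase, mem_range] at hi hj <;>
      have a := F.cases i <;> have b := F.cases j <;>
      have := hA.injH (by omega) (by omega) (by omega) (by omega) e
      · rw [this.1]
      · omega
      · omega
      · rw [this.1]) (by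
      rw [hr, card_ring, card_disjSum, card_erase_of_mem (by simp; omega),
        card_erase_of_mem (by simp; omega), card_range]
      omega) x (mem_filter.2 ⟨mem_hexF.2 hx.1, hx⟩)
  rcases e with i | i <;> simp only [inl_mem_disjSum, inr_mem_disjSum, mem_erase, mem_range] at he
  · exact ⟨i, he, Or.inl rfl⟩
  · exact ⟨i, he.2.2, Or.inr ⟨by omega, rfl⟩⟩

theorem inner1 {i j : ℕ} (hi : i < M) (hj : j + 1 < h i) (h0 : 0 < j ∨ i = 0) :
    hex (s - 1) (A i j) := by
  by_contra e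
  obtain ⟨k, hk, e⟩ := hA.door_of_ring F ⟨hA.hexH hi (by omega), e⟩
  have := F.pos k
  rcases e with e | ⟨_, e⟩ <;> obtain ⟨rfl, a⟩ := hA.injH hi (by omega) hk (by omega) e <;> omega

theorem ring1_d1 {i : ℕ} (hi : i < M) (h3 : 3 ≤ h i) : ring (s - 1) (A i (h i - 2)) := by
  have a := hA.stepH hi (j := h i - 2) (by omega)
  rw [show h i - 2 + 1 = h i - 1 by omega] at a
  exact ring_in (hA.ring_d1 F hi) (hA.inner1 F hi (by omega) (by omega)) (adj_symm a)

theorem ring1_d0 {i : ℕ} (h1 : 1 ≤ i) (hi : i < M) (h3 : 3 ≤ h i) : ring (s - 1) (A i 1) :=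
  ring_in (hA.ring_d0 F h1 hi) (hA.inner1 F hi (by omega) (by omega)) (hA.stepH hi (by omega))

theorem part_of_ring {y : Pt} (hy : ring (s - 1) y) :
    ∃ i < M, 3 ≤ h i ∧ (y = A i (h i - 2) ∨ (1 ≤ i ∧ y = A i 1)) := by
  obtain ⟨r, hr⟩ : ∃ r, s = r + 2 := ⟨s - 2, by have := F.hs; omega⟩
  have hM := F.hM
  have := F.vM
  have := F.uv
  have := F.u3
  have e1 : (s : ℤ) - 1 = ((r + 1 : ℕ) : ℤ) := by omega
  obtain ⟨e, he, rfl⟩ := fill (U := (hexF (s - 1)).filter (ring (s - 1)))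
    (I := ((((range M).erase 1).erase u).erase (v + 1)).disjSum
      ((((((range M).erase 1).erase u).erase (v + 1)).erase 0).erase v))
    (F := Sum.elim (fun i => A i (h i - 2)) fun i => A i 1) (by
      rintro (i | i) hi <;>
      simp only [inl_mem_disjSum, inr_mem_disjSum, mem_erase, mem_range] at hi <;>
      have a := F.cases i
      · have := hA.ring1_d1 F (i := i) (by omega) (by omega)
        exact mem_filter.2 ⟨mem_hexF.2 this.1, this⟩
      · have := hA.ring1_d0 F (i := i) (by omega) (by omega) (by omega)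
        exact mem_filter.2 ⟨mem_hexF.2 this.1, this⟩) (by
      rintro (i | i) hi (j | j) hj e <;>
      simp only [mem_coe, inl_mem_disjSum, inr_mem_disjSum, mem_erase, mem_range] at hi hj <;>
      have a := F.cases i <;> have b := F.cases j <;>
      have := hA.injH (by omega) (by omega) (by omega) (by omega) e
      · rw [this.1]
      · omega
      · omega
      · rw [this.1]) (by
      rw [e1, card_ring, card_disjSum, card_erase_of_mem (a := v) (by simp; omega),
        card_erase_of_mem (a := 0) (by simp; omega), card_erase_of_mem (by simp; omega),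
        card_erase_of_mem (by simp; omega), card_erase_of_mem (by simp; omega), card_range]
      omega) y (mem_filter.2 ⟨mem_hexF.2 hy.1, hy⟩)
  rcases e with i | i <;>
  simp only [inl_mem_disjSum, inr_mem_disjSum, mem_erase, mem_range] at he <;>
  have a := F.cases i
  · exact ⟨i, by omega, by omega, Or.inl rfl⟩
  · exact ⟨i, by omega, by omega, Or.inr ⟨by omega, rfl⟩⟩

theorem inner2 {i j : ℕ} (hi : i < M) (hj : j + 2 < h i) (h0 : 1 < j) :
    hex (s - 1 - 1) (A i j) := by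
  by_contra e
  obtain ⟨k, hk, h3, e⟩ := hA.part_of_ring F ⟨hA.inner1 F hi (by omega) (by omega), e⟩
  rcases e with e | ⟨_, e⟩ <;> obtain ⟨rfl, a⟩ := hA.injH hi (by omega) hk (by omega) e <;> omega

/-- A run cannot cut off boundary points. -/
theorem no_pocket {i : ℕ} (hi : i < M) (E : Pt → Prop) {e : Pt} (he : E e)
    (h1 : ∀ x, E x → ring s x) (h2 : ∀ x, E x → x ≠ A i 0 ∧ x ≠ A i (h i - 1))
    (h3 : ∀ x, E x → ∀ y, adj x y → hex s y → E y ∨ ∃ j < h i, y = A i j) : False := by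
  have := F.vM
  have := F.uv
  have := F.u3
  have key : ∀ k < M, ∀ j < h k, E (A k j) → k ≠ i ∧ h k ≤ 2 := by
    intro k hk j hj hE
    obtain ⟨k', hk', e⟩ := hA.door_of_ring F (h1 _ hE)
    have := F.pos k'
    have a : k' = k ∧ (j = h k - 1 ∨ (1 ≤ k ∧ j = 0)) := by
      rcases e with e | ⟨_, e⟩ <;> obtain ⟨rfl, a⟩ := hA.injH hk hj hk' (by omega) e <;> omega
    obtain ⟨rfl, a⟩ := a
    have hne : k' ≠ i := by
      rintro rfl
      rcases a with rfl | ⟨_, rfl⟩
      · exact (h2 _ hE).2 rfl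
      · exact (h2 _ hE).1 rfl
    refine ⟨hne, by_contra fun h4 => ?_⟩
    have b : ∀ j', j' < h k' → adj (A k' j) (A k' j') → hex (s - 1) (A k' j') → False := by
      intro j' hj' b1 b2
      rcases h3 _ hE _ b1 (hA.hexH hk hj') with b3 | ⟨j'', b3, b4⟩
      · exact (h1 _ b3).2 b2
      · exact hne (hA.injH hk hj' hi b3 b4).1
    rcases a with rfl | ⟨a, rfl⟩
    · have c := hA.stepH hk (j := h k' - 2) (by omega)
      rw [show h k' - 2 + 1 = h k' - 1 by omega] at c
      exact b _ (by omega) (adj_symm c) (hA.inner1 F hk (by omega) (by omega))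
    · exact b 1 (by omega) (hA.stepH hk (by omega)) (hA.inner1 F hk (by omega) (by omega))
  obtain ⟨k, hk, j, hj, rfl⟩ := (hA.cov _).1 (h1 _ he).1
  obtain ⟨a1, a2⟩ := key k hk j hj he
  have c := F.cases k
  have both : E (A k 0) ∧ E (A k (h k - 1)) := by
    have b : ∀ j', j' < h k → adj (A k j) (A k j') → E (A k j') := fun j' hj' b1 =>
      (h3 _ he _ b1 (hA.hexH hk hj')).resolve_right fun ⟨j'', b3, b4⟩ =>
        a1 (hA.injH hk hj' hi b3 b4).1
    by_cases b1 : h k = 1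
    · obtain rfl : j = 0 := by omega
      exact ⟨he, by rw [b1]; exact he⟩
    · have b2 : h k - 1 = 0 + 1 := by omega
      have b3 := hA.stepH hk (j := 0) (by omega)
      rw [b2]
      obtain rfl | rfl : j = 0 ∨ j = 0 + 1 := by omega
      · exact ⟨he, b _ (by omega) b3⟩
      · exact ⟨b _ (by omega) (adj_symm b3), he⟩
  obtain ⟨m, rfl⟩ : ∃ m, k = m + 1 := ⟨k - 1, by omega⟩
  have d1 := hA.link_adj F hk (F.pe m (by omega))
  have d2 := hA.link_adj F (i := m + 1) (by omega) (F.pe _ (by omega))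
  have c1 := F.cases m
  have c2 := F.cases (m + 1 + 1)
  have e1 : m = i := by
    rcases h3 _ both.1 _ (adj_symm d1) (hA.hexH (by omega) (by omega)) with b | ⟨j', b1, b2⟩
    · have := key m (by omega) _ (by omega) b
      omega
    · exact (hA.injH (by omega) (by omega) hi b1 b2).1
  have e2 : m + 1 + 1 = i := by
    rcases h3 _ both.2 _ d2 (hA.hexH (by omega) (by omega)) with b | ⟨j', b1, b2⟩
    · have := key (m + 1 + 1) (by omega) _ (by omega) b
      omega
    · exact (hA.injH (by omega) (by omega) hi b1 b2).1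
  omega

end BFold

end Pool.Agent.Lib.MP_dec383_lc
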