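import Pool.Agent.Lib.MP_dec383_lc.Sound1

/-! Short runs have adjacent ends, and runs of two contain a corner. -/

namespace Pool.Agent.Lib.MP_dec383_lc

open Finset

theorem nb_top {s : ℤ} (hs : 6 ≤ s) {x y : Pt} (t1 : y.2 = -(s - 1)) (t2 : 0 ≤ y.1)
    (t3 : y.1 ≤ s - 1) (r : ring s x) (a : adj x y) : x = (y.1, -s) ∨ x = (y.1 + 1, -s) ∨
      (y.1 = s - 1 ∧ x = (s, 1 - s)) ∨ (y.1 = 0 ∧ x = (-1, 1 - s)) := by
  simp only [ring, hex, Prod.ext_iff] at r ⊢
  rcases a with a | a | a | a | a | a <;> omega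

theorem nb_top' {s : ℤ} (hs : 6 ≤ s) {x y : Pt} (t1 : y.1 = s - 1) (t2 : y.2 = 2 - s)
    (r : ring s x) (a : adj x y) : x = (s, 1 - s) ∨ x = (s, 2 - s) := by
  simp only [ring, hex, Prod.ext_iff] at r ⊢
  rcases a with a | a | a | a | a | a <;> omega

theorem nb_same {s : ℤ} (hs : 2 ≤ s) {x y : Pt} (t1 : y.2 = -s) (t2 : 0 < y.1)
    (t3 : y.1 ≤ s) (r : ring s x) (a : adj y x) : x = (y.1 - 1, -s) ∨
      (y.1 < s ∧ x = (y.1 + 1, -s)) ∨ (y.1 = s ∧ x = (s, 1 - s)) := by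
  simp only [ring, hex, Prod.ext_iff] at r ⊢
  rcases a with a | a | a | a | a | a <;> omega

theorem pocket {s : ℤ} (hs : 6 ≤ s) {x0 y0 y1 x1 : Pt} (e1 e2 f1 f2 : ℤ)
    (k1 : e2 = -s ∧ 0 ≤ e1 ∧ e1 ≤ s ∨ e1 = s ∧ e2 = 1 - s)
    (k2 : f2 = -s ∧ 0 ≤ f1 ∧ f1 ≤ s ∨ f1 = s ∧ f2 = 1 - s)
    (k3 : ¬ (e1 = x0.1 ∧ e2 = x0.2)) (k4 : ¬ (e1 = x1.1 ∧ e2 = x1.2))
    (k5 : ¬ (f1 = x0.1 ∧ f2 = x0.2)) (k6 : ¬ (f1 = x1.1 ∧ f2 = x1.2))
    (k7 : ∀ v : Pt, adj (e1, e2) v ∨ adj (f1, f2) v → hex s v →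
      (v.1 = e1 ∧ v.2 = e2) ∨ (v.1 = f1 ∧ v.2 = f2) ∨ (v.1 = x0.1 ∧ v.2 = x0.2) ∨
      (v.1 = y0.1 ∧ v.2 = y0.2) ∨ (v.1 = y1.1 ∧ v.2 = y1.2) ∨ (v.1 = x1.1 ∧ v.2 = x1.2)) :
    ∃ e e', ring s e ∧ ring s e' ∧ e ≠ x0 ∧ e ≠ x1 ∧ e' ≠ x0 ∧ e' ≠ x1 ∧
      ∀ v, adj e v ∨ adj e' v → hex s v → v = e ∨ v = e' ∨ v = x0 ∨ v = y0 ∨ v = y1 ∨ v = x1 := by
  refine ⟨(e1, e2), (f1, f2), ?_, ?_, by simpa [Prod.ext_iff] using k3,
    by simpa [Prod.ext_iff] using k4, by simpa [Prod.ext_iff] using k5,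
    by simpa [Prod.ext_iff] using k6, fun v => by simpa only [Prod.ext_iff] using k7 v⟩ <;>
  clear k3 k4 k5 k6 k7 <;> simp only [ring, hex] <;> omega

theorem geo {s : ℤ} (hs : 6 ≤ s) {x0 y0 y1 x1 : Pt} (t1 : y0.2 = -(s - 1)) (t2 : 0 < y0.1)
    (t3 : y0.1 ≤ s - 1) (r0 : ring s x0) (r1 : ring s x1) (r2 : ring (s - 1) y1) (a0 : adj x0 y0)
    (a1 : y1 = y0 ∨ adj y0 y1) (a2 : adj y1 x1) (hne : x0 ≠ x1) : adj x0 x1 ∨
    ∃ e e', ring s e ∧ ring s e' ∧ e ≠ x0 ∧ e ≠ x1 ∧ e' ≠ x0 ∧ e' ≠ x1 ∧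
      ∀ v, adj e v ∨ adj e' v → hex s v → v = e ∨ v = e' ∨ v = x0 ∨ v = y0 ∨ v = y1 ∨ v = x1 := by
  have b0 := nb_top hs t1 t2.le t3 r0 a0
  have b1 := a1.imp_right (nb_same (by omega) t1 t2 t3 r2)
  have b2 : (y1.2 = -(s - 1) ∧ (x1 = (y1.1, -s) ∨ x1 = (y1.1 + 1, -s) ∨
      (y1.1 = s - 1 ∧ x1 = (s, 1 - s)) ∨ (y1.1 = 0 ∧ x1 = (-1, 1 - s)))) ∨
      (y1.2 = 2 - s ∧ (x1 = (s, 1 - s) ∨ x1 = (s, 2 - s))) := by
    simp only [Prod.ext_iff] at b1
    rcases b1 with b1 | b1 | b1 | b1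
    iterate 3 exact Or.inl ⟨by omega, nb_top hs (by omega) (by omega) (by omega) r1 (adj_symm a2)⟩
    exact Or.inr ⟨by omega, nb_top' hs (by omega) (by omega) r1 (adj_symm a2)⟩
  clear a0 a1 a2 r0 r1 r2
  simp only [Prod.ext_iff, ne_eq] at b0 b1 b2 hne
  rcases b0 with b0 | b0 | b0 | b0 <;> rcases b1 with b1 | b1 | b1 | b1 <;>
  rcases b2 with ⟨b3, b2 | b2 | b2 | b2⟩ | ⟨b3, b2 | b2⟩ <;>
  first
  | omega
  | (left; unfold adj; omega)
  | (right; clear hne
     first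
     | refine pocket hs s (-s) s (-s) (by omega) (by omega) (by omega) (by omega) (by omega)
        (by omega) fun v k1 k2 => ?_
       simp only [adj, hex] at k1 k2
       rcases k1 with (k | k | k | k | k | k) | (k | k | k | k | k | k) <;> omega
     | refine pocket hs y0.1 (-s) y0.1 (-s) (by omega) (by omega) (by omega) (by omega) (by omega)
        (by omega) fun v k1 k2 => ?_
       simp only [adj, hex] at k1 k2
       rcases k1 with (k | k | k | k | k | k) | (k | k | k | k | k | k) <;> omega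
     | refine pocket hs (y0.1 + 1) (-s) (y0.1 + 1) (-s) (by omega) (by omega) (by omega)
        (by omega) (by omega) (by omega) fun v k1 k2 => ?_
       simp only [adj, hex] at k1 k2
       rcases k1 with (k | k | k | k | k | k) | (k | k | k | k | k | k) <;> omega
     | refine pocket hs 0 (-s) 0 (-s) (by omega) (by omega) (by omega) (by omega) (by omega)
        (by omega) fun v k1 k2 => ?_
       simp only [adj, hex] at k1 k2
       rcases k1 with (k | k | k | k | k | k) | (k | k | k | k | k | k) <;> omega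
     | refine pocket hs s (1 - s) s (1 - s) (by omega) (by omega) (by omega) (by omega) (by omega)
        (by omega) fun v k1 k2 => ?_
       simp only [adj, hex] at k1 k2
       rcases k1 with (k | k | k | k | k | k) | (k | k | k | k | k | k) <;> omega
     | refine pocket hs s (-s) (s - 1) (-s) (by omega) (by omega) (by omega) (by omega) (by omega)
        (by omega) fun v k1 k2 => ?_
       simp only [adj, hex] at k1 k2
       rcases k1 with (k | k | k | k | k | k) | (k | k | k | k | k | k) <;> omega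
     | refine pocket hs 1 (-s) 0 (-s) (by omega) (by omega) (by omega) (by omega) (by omega)
        (by omega) fun v k1 k2 => ?_
       simp only [adj, hex] at k1 k2
       rcases k1 with (k | k | k | k | k | k) | (k | k | k | k | k | k) <;> omega
     | refine pocket hs s (-s) s (1 - s) (by omega) (by omega) (by omega) (by omega) (by omega)
        (by omega) fun v k1 k2 => ?_
       simp only [adj, hex] at k1 k2
       rcases k1 with (k | k | k | k | k | k) | (k | k | k | k | k | k) <;> omega)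

variable {s M u v : ℕ} {h p : ℕ → ℕ} {A : ℕ → ℕ → Pt}

theorem BFold.rhomb (hA : BFold s M h p A) (F : Fr s M u v h p) {i : ℕ} (h1 : 1 ≤ i) (hi : i < M)
    (h3 : h i = 3 ∨ h i = 4) : adj (A i 0) (A i (h i - 1)) := by
  have hs := F.hs
  refine rot_ind (P := fun A => adj (A i 0) (A i (h i - 1))) (r := s - 1) (by omega) i 1
    (fun A hA => adj_rot.1 hA) (fun A hA t1 t2 t3 => ?_) hA (hA.ring1_d0 F h1 hi (by omega))
  have a2 := hA.stepH hi (j := h i - 2) (by omega)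
  rw [show h i - 2 + 1 = h i - 1 by omega] at a2
  refine (geo (by omega) t1 t2 t3 (hA.ring_d0 F h1 hi) (hA.ring_d1 F hi)
    (hA.ring1_d1 F hi (by omega)) (hA.stepH hi (by omega)) ?_ a2 fun e => ?_).resolve_right ?_
  · rcases h3 with h3 | h3 <;> rw [h3]
    · exact Or.inl rfl
    · exact Or.inr (hA.stepH hi (by omega))
  · have := hA.injH hi (by omega) hi (by omega) e
    omega
  · rintro ⟨e, e', k1, k2, k3, k4, k5, k6, k7⟩
    refine hA.no_pocket F hi (fun x => x = e ∨ x = e') (Or.inl rfl) ?_ ?_ fun x hx y hy hy' => ?_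
    · rintro x (rfl | rfl) <;> assumption
    · rintro x (rfl | rfl) <;> exact ⟨by assumption, by assumption⟩
    · rcases k7 y (by rcases hx with rfl | rfl; exacts [Or.inl hy, Or.inr hy]) hy' with k | k | k | k | k | k
      · exact Or.inl (Or.inl k)
      · exact Or.inl (Or.inr k)
      all_goals exact Or.inr ⟨_, by omega, k⟩

theorem BFold.pin (hA : BFold s M h p A) (F : Fr s M u v h p) {i : ℕ} (h1 : 1 ≤ i) (hi : i < M)
    (h2 : h i = 2) : corner s (A i 0) ∨ corner s (A i 1) := by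
  have hs := F.hs
  refine rot_ind (P := fun A => corner s (A i 0) ∨ corner s (A i 1)) (r := s) (by omega) i 0
    (fun A hA => hA.imp corner_rot corner_rot) (fun A hA t1 t2 t3 => ?_) hA (hA.ring_d0 F h1 hi)
  have r1 : ring s (A i 1) := by have := hA.ring_d1 F hi; rwa [h2] at this
  have b := nb_same (by omega) t1 t2 t3 r1 (hA.stepH hi (by omega))
  by_cases c1 : (A i 0).1 = s
  · exact Or.inl (Or.inl (Prod.ext c1 t1))
  by_cases c2 : (A i 1).1 = s
  · refine Or.inr (Or.inl (Prod.ext c2 ?_))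
    simp only [Prod.ext_iff] at b ⊢; omega
  by_cases c3 : (A i 1).1 = 0
  · refine Or.inr (Or.inr (Or.inl (Prod.ext c3 ?_)))
    simp only [Prod.ext_iff] at b ⊢; omega
  exfalso
  have key : ∀ x, ring s x → adj x (min (A i 0).1 (A i 1).1, 1 - s) → x = A i 0 ∨ x = A i 1 := by
    intro x hx a
    have := nb_top (by omega) (y := (min (A i 0).1 (A i 1).1, 1 - s)) (by dsimp only; omega)
      (by simp only [Prod.ext_iff] at b ⊢; omega) (by simp only [Prod.ext_iff] at b ⊢; omega) hx a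
    simp only [Prod.ext_iff] at b this ⊢
    omega
  obtain ⟨k, hk, k3, e⟩ := hA.part_of_ring F (y := (min (A i 0).1 (A i 1).1, 1 - s)) (by
    simp only [Prod.ext_iff, ring, hex] at b ⊢; omega)
  have ne : ∀ j < h k, ¬ (A k j = A i 0 ∨ A k j = A i 1) := by
    rintro j hj (e | e) <;> obtain ⟨rfl, -⟩ := hA.injH hk hj hi (by omega) e <;> omega
  rcases e with e | ⟨k1, e⟩
  · have a2 := hA.stepH hk (j := h k - 2) (by omega)
    rw [show h k - 2 + 1 = h k - 1 by omega, ← e] at a2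
    exact ne _ (by omega) (key _ (hA.ring_d1 F hk) (adj_symm a2))
  · exact ne _ (by omega) (key _ (hA.ring_d0 F k1 hk) (e ▸ hA.stepH hk (by omega)))

end Pool.Agent.Lib.MP_dec383_lc
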