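import Pool.Agent.Lib.MP_dec383_lc.Sound2
import Pool.Agent.Lib.MP_dec383_lc.Jordan

/-! The frame is rigid, so that the remaining runs sit in bins of bounded capacity. -/

namespace Pool.Agent.Lib.MP_dec383_lc

open Finset

structure Fr2 (s M u v : ℕ) (h p : ℕ → ℕ) (q t z : ℕ) : Prop extends Fr s M u v h p where
  q1 : 1 ≤ q
  eu : u = 3 + q + z
  ez : 2 * z = s + 2
  ev : v = u + s
  e4 : v + s ≤ M
  h2 : h 2 = 4
  hw : ∀ c < q, h (3 + c) = 3 * t + 4
  hr : ∀ i, 3 + q ≤ i → i < v + s → h i ≤ 4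
  pl : ∀ i, i + 1 < v + s → p i = 1

theorem rigid (Q : ℕ → ℤ) (n : ℕ) (h1 : ∀ k, k + 1 < n → Q (k + 1) = Q k + 1 ∨ Q (k + 1) = Q k - 1)
    (h2 : ∀ k, k + 2 < n → Q (k + 2) ≠ Q k) :
    (∀ k < n, Q k = Q 0 + k) ∨ ∀ k < n, Q k = Q 0 - k := by
  have key : ∀ e : ℤ, e = 1 ∨ e = -1 → (1 < n → Q 1 = Q 0 + e) →
      ∀ k, k + 1 < n → Q (k + 1) = Q k + e := by
    intro e he h0 k
    induction k with
    | zero => exact h0
    | succ k ih =>
      intro hk
      have := ih (by omega)
      have := h1 (k + 1) hk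
      have := h2 k hk
      simp only [add_assoc, Nat.reduceAdd] at *
      omega
  by_cases a : 1 < n → Q 1 = Q 0 + 1
  · refine Or.inl fun k => ?_
    induction k with
    | zero => simp
    | succ k ih => intro hk; have := key 1 (Or.inl rfl) a k hk; have := ih (by omega); omega
  · refine Or.inr fun k => ?_
    have b : 1 < n → Q 1 = Q 0 + -1 := fun hn => by
      have := h1 0 hn
      simp only [zero_add] at this
      omega
    induction k with
    | zero => simp
    | succ k ih => intro hk; have := key (-1) (Or.inr rfl) b k hk; have := ih (by omega); omega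

theorem part_top {s : ℤ} {x y : Pt} (t1 : x.2 = -s) (hy : hex (s - 1) y) (a : adj x y) :
    y.2 = 1 - s ∧ (y.1 = x.1 ∨ y.1 = x.1 - 1) := by
  unfold hex at hy
  rcases a with a | a | a | a | a | a <;> omega

variable {s M u v q t z : ℕ} {h p : ℕ → ℕ} {A : ℕ → ℕ → Pt}

/-- The position of an end of run `i`. -/
def dp (s : ℕ) (h : ℕ → ℕ) (A : ℕ → ℕ → Pt) (i : ℕ) (b : Bool) : ℤ :=
  pos s (A i (if b then h i - 1 else 0))

def Nx (s : ℕ) (a b : ℤ) : Prop :=
  b = a + 1 ∨ b = a - 1 ∨ (a = 0 ∧ b = 6 * s - 1) ∨ (b = 0 ∧ a = 6 * s - 1)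

namespace BFold

variable (hA : BFold s M h p A) (F : Fr s M u v h p)
include hA F

theorem ring_dp {i : ℕ} (b : Bool) (h1 : 1 ≤ i ∨ b = true) (hi : i < M) :
    ring s (A i (if b then h i - 1 else 0)) := by
  cases b
  · exact hA.ring_d0 F (by simpa using h1) hi
  · exact hA.ring_d1 F hi

theorem dp_range {i : ℕ} (b : Bool) (h1 : 1 ≤ i ∨ b = true) (hi : i < M) :
    0 ≤ dp s h A i b ∧ dp s h A i b < 6 * s :=
  pos_range (by have := F.hs; omega) (hA.ring_dp F b h1 hi)

theorem dp_inj {i k : ℕ} {b c : Bool} (h1 : 1 ≤ i ∨ b = true) (hi : i < M)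
    (k1 : 1 ≤ k ∨ c = true) (hk : k < M) (e : dp s h A i b = dp s h A k c) :
    i = k ∧ (b = c ∨ i = v + 1) := by
  have a := pos_inj (by have := F.hs; omega) (hA.ring_dp F b h1 hi) (hA.ring_dp F c k1 hk) e
  have := F.pos i
  have := F.pos k
  obtain ⟨rfl, a⟩ := hA.injH hi (by split_ifs <;> omega) hk (by split_ifs <;> omega) a
  have := F.cases i
  cases b <;> cases c <;> simp at a ⊢ <;> omega

theorem dp_link {i : ℕ} (hi : i + 1 < M) (hp : p i = 1) :
    Nx s (dp s h A i true) (dp s h A (i + 1) false) :=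
  pos_adj (by have := F.hs; omega) (hA.ring_d1 F (by omega)) (hA.ring_d0 F (by omega) hi)
    (hA.link_adj F hi hp)

theorem dp_run {i : ℕ} (h1 : 1 ≤ i) (hi : i < M) (h2 : 2 ≤ h i) (h4 : h i ≤ 4) :
    Nx s (dp s h A i false) (dp s h A i true) := by
  refine pos_adj (by have := F.hs; omega) (hA.ring_d0 F h1 hi) (hA.ring_d1 F hi) ?_
  by_cases a : h i = 2
  · have := hA.stepH hi (j := 0) (by omega)
    simpa [a] using this
  · exact hA.rhomb F h1 hi (by omega)

end BFold

/-- The ends of the long comb. -/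
def zi (q v n : ℕ) : ℕ := if n < 2 * (v + 1 - (3 + q)) then 3 + q + n / 2 else 3 + q + (n + 1) / 2
def zb (q v n : ℕ) : Bool :=
  if n < 2 * (v + 1 - (3 + q)) then decide (n % 2 = 1) else decide (n % 2 = 0)

theorem BFold.frame (hA : BFold s M h p A) (G : Fr2 s M u v h p q t z) (σ : ℤ)
    (hσ : (σ = 0 ∧ dp s h A 1 true = 0 ∧ dp s h A 1 false = 6 * s - 1) ∨
      (σ = 1 ∧ dp s h A 1 false = 0 ∧ dp s h A 1 true = 1)) :
    dp s h A 3 false = σ + 3 ∧ dp s h A (3 + q) false ≤ s - 2 ∧
    s - 3 ≤ dp s h A (3 + q) false ∧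
    ∀ i b, 3 ≤ i → i < M → (i < 3 + q ∨ v + s ≤ i) → (i = 3 ∧ b = false) ∨
      (σ + 4 ≤ dp s h A i b ∧ dp s h A i b < dp s h A (3 + q) false) ∨
        dp s h A i b = 6 * s - 2 := by
  have F := G.toFr
  obtain ⟨q1, eu, ez, ev, e4⟩ : 1 ≤ q ∧ u = 3 + q + z ∧ 2 * z = s + 2 ∧ v = u + s ∧ v + s ≤ M :=
    ⟨G.q1, G.eu, G.ez, G.ev, G.e4⟩
  have hs := F.hs
  have ne : ∀ i b k c, (1 ≤ i ∨ b = true) → i < M → (1 ≤ k ∨ c = true) → k < M →
      (i ≠ k ∨ (b ≠ c ∧ i ≠ v + 1)) → dp s h A i b ≠ dp s h A k c := fun i b k c a1 a2 a3 a4 a5 e => by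
    have := hA.dp_inj F a1 a2 a3 a4 e
    tauto
  have l0 := hA.dp_link F (i := 0) (by omega) (G.pl _ (by omega))
  have l1 := hA.dp_link F (i := 1) (by omega) (G.pl _ (by omega))
  have l2 := hA.dp_link F (i := 2) (by omega) (G.pl _ (by omega))
  have r2 := hA.dp_run F (i := 2) (by omega) (by omega) (by rw [G.h2]; omega) (by rw [G.h2])
  have n1 := ne 0 true 1 true (by simp) (by omega) (by simp) (by omega) (by simp)
  have n2 := ne 1 false 2 false (by simp) (by omega) (by simp) (by omega) (by simp)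
  have n3 := ne 1 true 2 true (by simp) (by omega) (by simp) (by omega) (by simp)
  have n4 := ne 2 false 3 false (by simp) (by omega) (by simp) (by omega) (by simp)
  have g0 := hA.dp_range F (i := 0) true (by simp) (by omega)
  have g2 := hA.dp_range F (i := 2) false (by simp) (by omega)
  simp only [Nx, Nat.reduceAdd] at l0 l1 l2 r2
  have p2 : dp s h A 2 false = σ + 1 := by clear l0 l2 r2 n1 n3 n4; omega
  have p2' : dp s h A 2 true = σ + 2 := by clear l0 l1 l2 n1 n2 n4; omega
  have p3 : dp s h A 3 false = σ + 3 := by clear l0 l1 r2 n1 n2 n3; omega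
  have p0 : dp s h A 0 true = 6 * s + σ - 2 := by clear l1 l2 r2 n2 n3 n4; omega
  clear l0 l1 l2 r2 n1 n2 n3 n4 g0 g2
  have mid : ∀ i b, 3 ≤ i → i < M → ¬ (i = 3 ∧ b = false) →
      σ + 4 ≤ dp s h A i b ∧ dp s h A i b ≤ 6 * s + σ - 3 := by
    intro i b a1 a2 a3
    have g := hA.dp_range F (i := i) b (by omega) a2
    have n0 := ne i b 0 true (by omega) a2 (by simp) (by omega) (by omega)
    have n1 := ne i b 1 true (by omega) a2 (by simp) (by omega) (by omega)
    have n2 := ne i b 1 false (by omega) a2 (by simp) (by omega) (by omega)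
    have n3 := ne i b 2 true (by omega) a2 (by simp) (by omega) (by omega)
    have n4 := ne i b 2 false (by omega) a2 (by simp) (by omega) (by omega)
    have n5 := ne i b 3 false (by omega) a2 (by simp) (by omega) (by
      by_cases a : i = 3
      · exact Or.inr ⟨fun e => a3 ⟨a, e⟩, by omega⟩
      · exact Or.inl a)
    rcases hσ with hσ | hσ <;> omega
  have zr : ∀ n < 5 * s + 1, 3 + q ≤ zi q v n ∧ zi q v n < v + s := fun n hn => by
    unfold zi; split_ifs <;> omega
  have zm : ∀ n < 5 * s + 1, σ + 4 ≤ dp s h A (zi q v n) (zb q v n) ∧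
      dp s h A (zi q v n) (zb q v n) ≤ 6 * s + σ - 3 := fun n hn => by
    have := zr n hn
    exact mid _ _ (by omega) (by omega) (by omega)
  have hrig := rigid (fun n => dp s h A (zi q v n) (zb q v n)) (5 * s + 1) (fun k hk => by
    have m1 := zm k (by omega)
    have m2 := zm (k + 1) hk
    have r1 := zr k (by omega)
    have r2 := zr (k + 1) hk
    have : Nx s (dp s h A (zi q v k) (zb q v k)) (dp s h A (zi q v (k + 1)) (zb q v (k + 1))) := by
      by_cases a : zb q v k = true
      · by_cases a' : k + 1 = 2 * (v + 1 - (3 + q))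
        · have e1 : zi q v k = v := by unfold zi; split_ifs <;> omega
          have e2 : zi q v (k + 1) = v + 1 := by unfold zi; split_ifs <;> omega
          have := hA.dp_link F (i := v) (by omega) (G.pl _ (by omega))
          rw [e1, e2, a]
          unfold dp at this ⊢
          simpa [F.hv1] using this
        · have e1 : zi q v (k + 1) = zi q v k + 1 ∧ zb q v (k + 1) = false := by
            unfold zi zb at *
            split_ifs at a ⊢ <;> simp at a ⊢ <;> omega
          rw [a, e1.1, e1.2]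
          exact hA.dp_link F (by omega) (G.pl _ (by omega))
      · have e1 : zi q v (k + 1) = zi q v k ∧ zb q v (k + 1) = true ∧ zi q v k ≠ v + 1 := by
          unfold zi zb at *
          split_ifs at a ⊢ <;> simp at a ⊢ <;> omega
        rw [Bool.not_eq_true] at a
        rw [a, e1.1, e1.2.1]
        have := F.cases (zi q v k)
        exact hA.dp_run F (by omega) (by omega) (by omega) (G.hr _ r1.1 r1.2)
    unfold Nx at this
    rcases hσ with hσ | hσ <;> omega) (fun k hk => by
    have r1 := zr k (by omega)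
    have r2 := zr (k + 2) hk
    refine ne _ _ _ _ (by omega) (by omega) (by omega) (by omega) (Or.inl ?_)
    unfold zi; split_ifs <;> omega)
  have z0 : zi q v 0 = 3 + q ∧ zb q v 0 = false := by
    unfold zi zb; rw [if_pos (by omega), if_pos (by omega)]; simp
  have z1 : zi q v (s + 2) = u ∧ zb q v (s + 2) = false := by
    unfold zi zb; rw [if_pos (by omega), if_pos (by omega)]; simp; omega
  have z2 : zi q v (s + 3) = u ∧ zb q v (s + 3) = true := by
    unfold zi zb; rw [if_pos (by omega), if_pos (by omega)]; simp; omega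
  have hc := (hA.pin F (i := u) (by omega) (by omega) F.hu).imp (pos_corner (by omega))
    (pos_corner (by omega))
  have c0 : pos s (A u 0) = dp s h A u false := rfl
  have c1 : pos s (A u 1) = dp s h A u true := by simp [dp, F.hu]
  rw [c0, c1] at hc
  have m0 := zm 0 (by omega)
  have m5 := zm (5 * s) (by omega)
  simp only [z0.1, z0.2] at hrig m0
  rcases hrig with hrig | hrig <;> have k1 := hrig (s + 2) (by omega) <;>
    have k2 := hrig (s + 3) (by omega) <;> have k5 := hrig (5 * s) (by omega) <;>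
    simp only [z1.1, z1.2, z2.1, z2.2] at k1 k2
  swap
  · exfalso; rcases hσ with hσ | hσ <;> omega
  have b1 : dp s h A (3 + q) false ≤ s - 3 + σ ∧ s - 3 ≤ dp s h A (3 + q) false := by
    rcases hσ with hσ | hσ <;> omega
  refine ⟨p3, by rcases hσ with hσ | hσ <;> omega, b1.2, fun i b a1 a2 a3 => ?_⟩
  by_cases a4 : i = 3 ∧ b = false
  · exact Or.inl a4
  have m := mid i b a1 a2 a4
  by_cases a5 : dp s h A i b < dp s h A (3 + q) false
  · exact Or.inr (Or.inl ⟨m.1, a5⟩)
  by_cases a6 : dp s h A i b ≤ dp s h A (3 + q) false + 5 * s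
  · exfalso
    have k := hrig (dp s h A i b - dp s h A (3 + q) false).toNat (by omega)
    have r := zr (dp s h A i b - dp s h A (3 + q) false).toNat (by omega)
    exact ne _ _ i b (by omega) (by omega) (by omega) a2 (by omega) (k.trans (by omega))
  · rcases hσ with hσ | hσ <;> omega

theorem prop_run {I : Finset Pt} {f : ℕ → Pt} {n j0 : ℕ} (h0 : f j0 ∈ I) (j1 : 1 ≤ j0) (j2 : j0 ≤ n)
    (step : ∀ j, 1 ≤ j → j + 1 ≤ n → (f j ∈ I ↔ f (j + 1) ∈ I)) :
    ∀ j, 1 ≤ j → j ≤ n → f j ∈ I := by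
  have key : ∀ j, j + 1 ≤ n → (f 1 ∈ I ↔ f (j + 1) ∈ I) := by
    intro j
    induction j with
    | zero => simp
    | succ j ih => intro hj; rw [ih (by omega), step _ (by omega) hj]
  intro j a1 a2
  have b1 := key (j0 - 1) (by omega)
  have b2 := key (j - 1) (by omega)
  rw [show j0 - 1 + 1 = j0 by omega] at b1
  rw [show j - 1 + 1 = j by omega] at b2
  exact b2.1 (b1.2 h0)

theorem BFold.bins' (hA : BFold s M h p A) (G : Fr2 s M u v h p q t z) (σ : ℤ)
    (hσ : (σ = 0 ∧ dp s h A 1 true = 0 ∧ dp s h A 1 false = 6 * s - 1) ∨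
      (σ = 1 ∧ dp s h A 1 false = 0 ∧ dp s h A 1 true = 1)) :
    ∃ g : ℕ → ℕ, (∀ i, v + s ≤ i → i < M → g i < q) ∧
      (∀ i, v + s ≤ i → i + 1 < M → h i = 4 → h (i + 1) = 4 → p i = 1 → g (i + 1) = g i) ∧
      ∀ c, 2 * ∑ i ∈ (Ico (v + s) M).filter (fun i => g i = c), (h i - 2) ≤ t * (3 * t + 1) := by
  classical
  have F := G.toFr
  obtain ⟨q1, eu, ez, ev, e4⟩ : 1 ≤ q ∧ u = 3 + q + z ∧ 2 * z = s + 2 ∧ v = u + s ∧ v + s ≤ M :=
    ⟨G.q1, G.eu, G.ez, G.ev, G.e4⟩
  have hs := F.hs
  have σ0 : σ = 0 ∨ σ = 1 := hσ.imp And.left And.left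
  obtain ⟨p3, pz1, pz2, oth⟩ := hA.frame G σ hσ
  clear hσ
  have ne : ∀ i b k c, 1 ≤ i → i < M → 1 ≤ k → k < M →
      (i ≠ k ∨ (b ≠ c ∧ i ≠ v + 1)) → dp s h A i b ≠ dp s h A k c := fun i b k c a1 a2 a3 a4 a5 e => by
    have := hA.dp_inj F (Or.inl a1) a2 (Or.inl a3) a4 e
    tauto
  have wall : ∀ c < q, σ + 4 ≤ dp s h A (3 + c) true ∧
      dp s h A (3 + c) true < dp s h A (3 + q) false ∧
      (dp s h A (3 + c + 1) false = dp s h A (3 + c) true + 1 ∨
        dp s h A (3 + c + 1) false = dp s h A (3 + c) true - 1) := by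
    intro c hc
    have l := hA.dp_link F (i := 3 + c) (by omega) (G.pl _ (by omega))
    have o1 := oth (3 + c) true (by omega) (by omega) (by omega)
    simp only [Bool.true_eq_false, and_false, false_or] at o1
    unfold Nx at l
    by_cases a : c + 1 = q
    · subst a
      rw [add_assoc] at l ⊢
      omega
    · have o2 := oth (3 + c + 1) false (by omega) (by omega) (by omega)
      omega
  have last : dp s h A (3 + (q - 1)) true = dp s h A (3 + q) false - 1 := by
    have := wall (q - 1) (by omega)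
    rw [show 3 + (q - 1) + 1 = 3 + q by omega] at this
    omega
  let f : ℤ → ℕ := fun x => sInf {c | c < q ∧ x < dp s h A (3 + c) true}
  have hf : ∀ i b, v + s ≤ i → i < M → dp s h A i b ≠ 6 * s - 2 → f (dp s h A i b) < q ∧
      dp s h A (3 + f (dp s h A i b)) false < dp s h A i b ∧
      dp s h A i b < dp s h A (3 + f (dp s h A i b)) true := by
    intro i b a1 a2 a3
    have o := oth i b (by omega) a2 (by omega)
    have n1 := ne i b (3 + (q - 1)) true (by omega) a2 (by omega) (by omega) (by omega)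
    have m : f (dp s h A i b) ∈ {c | c < q ∧ dp s h A i b < dp s h A (3 + c) true} :=
      Nat.sInf_mem ⟨q - 1, by omega, by omega⟩
    refine ⟨m.1, ?_, m.2⟩
    obtain e | ⟨c, e⟩ : f (dp s h A i b) = 0 ∨ ∃ c, f (dp s h A i b) = c + 1 := by
      cases f (dp s h A i b) <;> simp
    · rw [e, add_zero]; omega
    · have m1 := m.1
      have m2 : c ∉ {c | c < q ∧ dp s h A i b < dp s h A (3 + c) true} :=
        Nat.notMem_of_lt_sInf (by change c < f _; omega)
      simp only [Set.mem_ofPred_eq, not_and, not_lt] at m2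
      have m3 := m2 (by omega)
      have w := wall c (by omega)
      have n2 := ne i b (3 + c) true (by omega) a2 (by omega) (by omega) (by omega)
      have n3 := ne i b (3 + c + 1) false (by omega) a2 (by omega) (by omega) (by omega)
      rw [e, ← add_assoc]
      omega
  have fnx : ∀ i b k c, v + s ≤ i → i < M → v + s ≤ k → k < M →
      Nx s (dp s h A i b) (dp s h A k c) → dp s h A i b ≠ 6 * s - 2 ∧ dp s h A k c ≠ 6 * s - 2 ∧
        f (dp s h A i b) = f (dp s h A k c) := by
    intro i b k c a1 a2 a3 a4 l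
    have o1 := oth i b (by omega) a2 (by omega)
    have o2 := oth k c (by omega) a4 (by omega)
    unfold Nx at l
    refine ⟨by omega, by omega, congrArg sInf (Set.ext fun e => and_congr_right fun he => ?_)⟩
    have n1 := ne i b (3 + e) true (by omega) a2 (by omega) (by omega) (by omega)
    have n2 := ne k c (3 + e) true (by omega) a4 (by omega) (by omega) (by omega)
    omega
  let sd : ℕ → Bool := fun i => decide (dp s h A i false = 6 * s - 2)
  have hsd : ∀ i, v + s ≤ i → i < M → dp s h A i (sd i) ≠ 6 * s - 2 := by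
    intro i a1 a2
    by_cases a : dp s h A i false = 6 * s - 2
    · have := ne i true i false (by omega) a2 (by omega) a2 (Or.inr ⟨by simp, by omega⟩)
      simp only [sd, a, decide_true]
      omega
    · simp only [sd, a, decide_false]
      exact a
  refine ⟨fun i => f (dp s h A i (sd i)), fun i a1 a2 => (hf i _ a1 a2 (hsd i a1 a2)).1,
    fun i a1 a2 a3 a4 a5 => ?_, fun c => ?_⟩
  · have r1 := fnx i false i true a1 (by omega) a1 (by omega)
      (hA.dp_run F (by omega) (by omega) (by omega) (by omega))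
    have r2 := fnx i true (i + 1) false a1 (by omega) (by omega) a2 (hA.dp_link F a2 a5)
    simp only [sd, r1.1, r2.2.1, decide_false]
    rw [r1.2.2, r2.2.2]
  rcases ((Ico (v + s) M).filter fun i => f (dp s h A i (sd i)) = c).eq_empty_or_nonempty with
    e | ⟨i0, hi0⟩
  · rw [e]; simp
  simp only [mem_filter, mem_Ico] at hi0
  obtain ⟨c1, c2, c3⟩ := hf i0 _ hi0.1.1 hi0.1.2 (hsd _ hi0.1.1 hi0.1.2)
  rw [hi0.2] at c1 c2 c3
  have hw := G.hw c c1
  have w := wall c c1
  have d0 := pos_top (by omega) (hA.ring_d0 F (i := 3 + c) (by omega) (by omega))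
    (show dp s h A (3 + c) false ≤ s by omega)
  have d1 := pos_top (by omega) (hA.ring_d1 F (i := 3 + c) (by omega))
    (show dp s h A (3 + c) true ≤ s by omega)
  have s1 := hA.stepH (i := 3 + c) (j := 3 * t + 2) (by omega) (by omega)
  rw [show 3 * t + 2 + 1 = h (3 + c) - 1 by omega] at s1
  have y0 := part_top d0.1 (hA.inner1 F (i := 3 + c) (j := 1) (by omega) (by omega) (by omega))
    (hA.stepH (by omega) (by omega))
  have y1 := part_top d1.1 (hA.inner1 F (i := 3 + c) (j := 3 * t + 2) (by omega) (by omega)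
    (by omega)) (adj_symm s1)
  replace d0 : (A (3 + c) 0).1 = s - dp s h A (3 + c) false := d0.2
  replace d1 : (A (3 + c) (h (3 + c) - 1)).1 = s - dp s h A (3 + c) true := d1.2
  have sh : ∀ x y : Pt, adj x y → adj (x + (0, (s : ℤ) - 1)) (y + (0, (s : ℤ) - 1)) := by
    intro x y a
    simp only [adj, Prod.fst_add, Prod.snd_add] at a ⊢
    omega
  obtain ⟨I, I1, I2, I3⟩ := jordan (fun j => A (3 + c) (j + 1) + (0, (s : ℤ) - 1)) t
    (fun i hi j hj e => by
      have := hA.injH (by omega) (by omega) (by omega) (by omega) (add_right_cancel e)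
      omega)
    (fun j hj => sh _ _ (hA.stepH (by omega) (by omega)))
    (by simp only [Prod.snd_add, zero_add]; omega)
    (by simp only [Prod.snd_add, add_assoc, Nat.reduceAdd]; omega)
    (fun j a1 a2 => by
      have := hA.inner2 F (i := 3 + c) (j := j + 1) (by omega) (by omega) (by omega)
      simp only [Prod.snd_add, hex] at this ⊢
      omega)
    (by simp only [Prod.fst_add, add_assoc, Nat.reduceAdd, zero_add]; omega)
  refine le_trans (Nat.mul_le_mul_left 2 ?_) I1
  have : ∑ i ∈ (Ico (v + s) M).filter (fun i => f (dp s h A i (sd i)) = c), (h i - 2) =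
      (((Ico (v + s) M).filter fun i => f (dp s h A i (sd i)) = c).sigma
        fun i => range (h i - 2)).card := by simp
  rw [this]
  refine card_le_card_of_injOn (fun e => A e.1 (e.2 + 1) + (0, (s : ℤ) - 1)) ?_ ?_
  · rintro ⟨i, j⟩ he
    simp only [mem_coe, mem_sigma, mem_filter, mem_Ico, mem_range] at he
    obtain ⟨⟨⟨a1, a2⟩, a3⟩, a4⟩ := he
    have hi := F.cases i
    obtain ⟨-, b2, b3⟩ := hf i _ a1 a2 (hsd _ a1 a2)
    rw [a3] at b2 b3
    have nw : ∀ j' < h i, ∀ k ≤ 3 * t + 1, A (3 + c) (k + 1) ≠ A i j' := fun j' hj k hk e => by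
      have := hA.injH (by omega) (by omega) a2 hj e
      omega
    have st : ∀ j, 1 ≤ j → j + 1 ≤ h i - 2 → (A i j + (0, (s : ℤ) - 1) ∈ I ↔
        A i (j + 1) + (0, (s : ℤ) - 1) ∈ I) := by
      intro j k1 k2
      have k3 := hA.inner1 F (j := j) a2 (by omega) (by omega)
      have k4 := hA.inner1 F (j := j + 1) a2 (by omega) (by omega)
      have k5 := sh _ _ (hA.stepH a2 (j := j) (by omega))
      unfold hex at k3 k4
      exact ⟨fun k => I3 _ k _ k5 (by simp only [Prod.snd_add]; omega) fun k hk e =>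
        nw _ (by omega) k hk (add_right_cancel e), fun k => I3 _ k _ (adj_symm k5)
          (by simp only [Prod.snd_add]; omega) fun k hk e => nw _ (by omega) k hk (add_right_cancel e)⟩
    have dt := pos_top (by omega) (hA.ring_dp F (sd i) (by omega) a2)
      (show dp s h A i (sd i) ≤ s by omega)
    have key : ∀ j0, 1 ≤ j0 → j0 ≤ h i - 2 → adj (A i (if sd i then h i - 1 else 0)) (A i j0) →
        A i j0 + (0, (s : ℤ) - 1) ∈ I := by
      intro j0 k1 k2 k3
      have y := part_top dt.1 (hA.inner1 F (j := j0) a2 (by omega) (by omega)) k3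
      have n0 := nw j0 (by omega) 0 (by omega)
      have n1 := nw j0 (by omega) (3 * t + 1) (by omega)
      have dt2 : (A i (if sd i then h i - 1 else 0)).1 = s - dp s h A i (sd i) := dt.2
      simp only [ne_eq, Prod.ext_iff, add_assoc, Nat.reduceAdd, zero_add] at n0 n1
      have := I2 (A i j0).1 (by simp only [Prod.fst_add, add_assoc, Nat.reduceAdd]; omega)
        (by simp only [Prod.fst_add, zero_add]; omega)
      convert this using 1
      exact Prod.ext (by simp) (by simp only [Prod.snd_add]; omega)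
    have base : ∃ j0, 1 ≤ j0 ∧ j0 ≤ h i - 2 ∧ A i j0 + (0, (s : ℤ) - 1) ∈ I := by
      cases hb : sd i
      · exact ⟨1, le_rfl, by omega, key 1 le_rfl (by omega) (by
          rw [hb]; exact hA.stepH a2 (j := 0) (by omega))⟩
      · refine ⟨h i - 2, by omega, le_rfl, key _ (by omega) le_rfl ?_⟩
        have := hA.stepH a2 (j := h i - 2) (by omega)
        rw [show h i - 2 + 1 = h i - 1 by omega] at this
        rw [hb]; exact adj_symm this
    obtain ⟨j0, k1, k2, k3⟩ := base
    exact prop_run (f := fun j => A i j + (0, (s : ℤ) - 1)) k3 k1 k2 st (j + 1) (by omega)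
      (by omega)
  · rintro ⟨i, j⟩ he ⟨i', j'⟩ he' e
    simp only [mem_coe, mem_sigma, mem_filter, mem_Ico, mem_range] at he he'
    obtain ⟨rfl, k⟩ := hA.injH (j := j + 1) (j' := j' + 1) he.1.1.2 (by omega) he'.1.1.2
      (by omega) (add_right_cancel e)
    obtain rfl : j = j' := by omega
    rfl

theorem BFold.bins (hA : BFold s M h p A) (G : Fr2 s M u v h p q t z) :
    ∃ g : ℕ → ℕ, (∀ i, v + s ≤ i → i < M → g i < q) ∧
      (∀ i, v + s ≤ i → i + 1 < M → h i = 4 → h (i + 1) = 4 → p i = 1 → g (i + 1) = g i) ∧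
      ∀ c, 2 * ∑ i ∈ (Ico (v + s) M).filter (fun i => g i = c), (h i - 2) ≤ t * (3 * t + 1) := by
  have F := G.toFr
  have hs := F.hs
  have hM := F.hM
  have h1 := F.h1
  have main : ∀ A, BFold s M h p A → ∀ j, j = 0 ∨ j = 1 → A 1 j = (↑s, -↑s) →
      ∃ A σ, BFold s M h p A ∧ ((σ = 0 ∧ dp s h A 1 true = 0 ∧ dp s h A 1 false = 6 * s - 1) ∨
      (σ = (1 : ℤ) ∧ dp s h A 1 false = 0 ∧ dp s h A 1 true = 1)) := by
    intro A hA j hj e
    have a := hA.stepH (i := 1) (j := 0) (by omega) (by omega)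
    have r0 := hA.ring_d0 F (i := 1) le_rfl (by omega)
    have r1 := hA.ring_d1 F (i := 1) (by omega)
    rw [h1] at r1
    rcases hj with rfl | rfl
    · have b := nb_same (by omega) (by rw [e]) (by rw [e]; dsimp only; omega) (by rw [e]) r1 a
      rw [e] at b
      rcases b with b | b | b
      · refine ⟨A, 1, hA, Or.inr ⟨rfl, ?_, ?_⟩⟩ <;> simp [dp, h1, e, b, pos]
      · simp at b
      · refine ⟨_, 1, hA.refl, Or.inr ⟨rfl, ?_, ?_⟩⟩ <;>
          simp [dp, h1, e, b.2, pos, MP_dec383_lc.refl]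
    · have b := nb_same (by omega) (by rw [e]) (by rw [e]; dsimp only; omega) (by rw [e]) r0
        (adj_symm a)
      rw [e] at b
      rcases b with b | b | b
      · refine ⟨_, 0, hA.refl, Or.inl ⟨rfl, ?_, ?_⟩⟩ <;>
          simp [dp, h1, e, b, pos, MP_dec383_lc.refl]
        split_ifs <;> omega
      · simp at b
      · refine ⟨A, 0, hA, Or.inl ⟨rfl, ?_, ?_⟩⟩ <;> simp [dp, h1, e, b.2, pos]
        split_ifs <;> omega
  have main2 : ∀ j, j = 0 ∨ j = 1 → corner s (A 1 j) → corner s (A 1 j) →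
      ∃ A σ, BFold s M h p A ∧ ((σ = 0 ∧ dp s h A 1 true = 0 ∧ dp s h A 1 false = 6 * s - 1) ∨
      (σ = (1 : ℤ) ∧ dp s h A 1 false = 0 ∧ dp s h A 1 true = 1)) := by
    intro j hj hc
    refine rot_ind (P := fun A => corner s (A 1 j) → _) (r := s) (by omega) 1 j
      (fun A H c => H ?_) (fun A hA t1 t2 t3 c => main A hA j hj ?_) hA ?_
    · simp only [corner, MP_dec383_lc.rot, Prod.ext_iff] at c ⊢
      rcases c with c | c | c | c | c | c <;> omega
    · simp only [corner, Prod.ext_iff] at c ⊢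
      rcases c with c | c | c | c | c | c <;> omega
    · simp only [corner, Prod.ext_iff, ring, hex] at hc ⊢
      rcases hc with c | c | c | c | c | c <;> omega
  obtain ⟨A, σ, hA, hσ⟩ := (hA.pin F (i := 1) le_rfl (by omega) h1).elim
    (fun c => main2 0 (Or.inl rfl) c c) fun c => main2 1 (Or.inr rfl) c c
  exact hA.bins' G σ hσ

end Pool.Agent.Lib.MP_dec383_lc
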