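import Pool.Agent.Lib.MP_dec383_lc.Sound3
import Pool.Agent.Lib.MP_dec383_lc.Params

/-! An optimal folding of the chain yields an exact packing. -/

namespace Pool.Agent.Lib.MP_dec383_lc

open Finset

variable {a : List ℕ} {q B : ℕ}

theorem idx (hB : 1 ≤ B) : i1 q = 3 + q ∧ i2 a q B = 3 + q + pz a q B ∧
    2 * pz a q B = ps a q B + 2 ∧ i3 a q B = i2 a q B + ps a q B ∧
    i4 a q B = i3 a q B + ps a q B ∧ i5 a q B = i4 a q B + pR a B * q ∧
    pM a q B = i5 a q B + q * (pt a B - pR a B) ∧ pM a q B = 3 * ps a q B + 1 ∧ 6 ≤ ps a q B :=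
  ⟨rfl, rfl, by unfold pz ps; ring, rfl, rfl, rfl, rfl, pM_eq hB, by unfold ps; omega⟩

theorem pL_ge (hB : 1 ≤ B) (τ : ℕ) : 6 * pt a B ≤ pL a q B τ := by
  have := (pD0_add (a := a) hB).2
  unfold pL; split_ifs <;> omega

theorem fr2 (hq : 1 ≤ q) (hB : 1 ≤ B) : Fr2 (ps a q B) (pM a q B) (i2 a q B) (i3 a q B)
    (hh a q B) (pp a q B) q (pt a B) (pz a q B) := by
  obtain ⟨e1, e2, e3, e4, e5, e6, e7, e8, e9⟩ := idx (a := a) (q := q) hB
  have h1 := (pF_add (a := a) (q := q) (B := B)).2
  have h2 := pt_ge (a := a) hB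
  have hp : ∀ i, i + 1 < i3 a q B + ps a q B → pp a q B i = 1 := fun i hi => by
    unfold pp; rw [if_pos (by omega)]
  refine ⟨⟨e8, e9, by omega, by omega, by omega, ?_, ?_, ?_, ?_, ?_, fun i a0 a1 a2 a3 a4 => ?_,
    pp_pos, fun i hi => hp i (by omega)⟩, hq, e2, e3, e4, by omega, ?_, fun c hc => ?_,
    fun i a0 a1 => ?_, hp⟩
  on_goal 6 => have := pL_ge (a := a) (q := q) hB (i - i4 a q B)
  all_goals unfold hh; split_ifs <;> first | omega | contradiction

theorem eq_of_sum {F : ℕ → ℕ} {q c : ℕ} (h1 : ∀ i < q, F i ≤ c)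
    (h2 : ∑ i ∈ range q, F i = q * c) : ∀ i < q, F i = c := fun i hi =>
  (sum_eq_sum_iff_of_le (f := F) (g := fun _ => c) fun i hi => h1 i (mem_range.1 hi)).1
    (by simp [h2]) i (mem_range.2 hi)

theorem eq_of_sum' {F : ℕ → ℕ} {q c : ℕ} (h1 : ∀ i < q, c ≤ F i)
    (h2 : ∑ i ∈ range q, F i = q * c) : ∀ i < q, F i = c := fun i hi =>
  ((sum_eq_sum_iff_of_le (g := F) (f := fun _ => c) fun i hi => h1 i (mem_range.1 hi)).1
    (by simp [h2]) i (mem_range.2 hi)).symm

theorem sum_fib {g F : ℕ → ℕ} {q n : ℕ} (hg : ∀ i < n, g i < q) :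
    ∑ c ∈ range q, ∑ i ∈ range n, (if g i = c then F i else 0) = ∑ i ∈ range n, F i := by
  rw [sum_comm]
  exact sum_congr rfl fun i hi => by simp [hg i (mem_range.1 hi)]

theorem sum_getD_eq (a : List ℕ) : ∑ i ∈ range a.length, a.getD i 0 = a.sum := by
  induction a using List.reverseRecOn with
  | nil => simp
  | append_singleton l x ih =>
    rw [List.length_append, List.length_singleton, sum_range_succ, List.sum_append, ← ih,
      List.getD_append_right _ _ _ _ le_rfl]
    simp only [Nat.sub_self, List.getD_cons_zero, List.sum_singleton]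
    congr 1
    exact sum_congr rfl fun i hi => List.getD_append _ _ _ _ (mem_range.1 hi)

theorem sound (hq : 1 ≤ q) (hB : 1 ≤ B) (hs : a.sum = q * B) {A : ℕ → ℕ → Pt}
    (hA : BFold (ps a q B) (pM a q B) (hh a q B) (pp a q B) A) : EBP a q B := by
  obtain ⟨e1, e2, e3, e4, e5, e6, e7, e8, e9⟩ := idx (a := a) (q := q) hB
  obtain ⟨g, g1, g2, g3⟩ := hA.bins (fr2 hq hB)
  rw [← e5] at g1 g2 g3
  have h2 := pt_ge (a := a) hB
  have h3 := pR_pos (a := a) hB
  obtain ⟨w, hw⟩ : ∃ w, pt a B - pR a B = w := ⟨_, rfl⟩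
  have w1 : 1 ≤ w := by omega
  have hcomb : ∀ k, hh a q B (i5 a q B + k) = 4 := fun k => by unfold hh; split_ifs <;> omega
  have hpass : ∀ τ < pR a B * q, hh a q B (i4 a q B + τ) = pL a q B τ + 2 := fun τ hτ => by
    unfold hh; split_ifs <;> first | omega | simp
  have lt : ∀ b < q, ∀ k < w, b * w + k < q * w := fun b hb k hk => by nlinarith
  have const : ∀ b < q, ∀ k < w, g (i5 a q B + (b * w + k)) = g (i5 a q B + b * w) := by
    intro b hb k
    induction k with
    | zero => simp
    | succ k ih =>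
      intro hk
      have := lt b hb _ hk
      rw [← ih (by omega), ← add_assoc, ← add_assoc, ← add_assoc]
      refine g2 _ (by omega) (by rw [e7, hw]; omega) (by rw [add_assoc, hcomb])
        (by rw [add_assoc, add_assoc, hcomb]) ?_
      unfold pp
      rw [if_neg (by omega), if_neg (by omega), if_neg (by omega), if_neg]
      rw [hw, show i5 a q B + b * w + k - i5 a q B + 1 = b * w + (k + 1) by omega,
        Nat.mul_add_mod_of_lt hk]
      omega
  have split : ∀ c, ∑ i ∈ (Ico (i4 a q B) (pM a q B)).filter (fun i => g i = c), (hh a q B i - 2) =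
      ∑ τ ∈ range (pR a B * q), (if g (i4 a q B + τ) = c then pL a q B τ else 0) +
      ∑ b ∈ range q, (if g (i5 a q B + b * w) = c then 2 * w else 0) := by
    intro c
    rw [sum_filter, sum_Ico_eq_sum_range, show pM a q B - i4 a q B = pR a B * q + q * w by
      rw [e7, hw]; omega, sum_range_add, sum_range_mul _ q w]
    congr 1
    · exact sum_congr rfl fun τ hτ => by rw [hpass τ (mem_range.1 hτ)]; rfl
    · refine sum_congr rfl fun b hb => ?_
      rw [sum_congr rfl (g := fun _ => if g (i5 a q B + b * w) = c then 2 else 0) fun k hk => by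
        rw [← add_assoc, ← e6, const b (mem_range.1 hb) k (mem_range.1 hk), hcomb]]
      split_ifs <;> simp [mul_comm]
  have full := eq_of_sum (F := fun c =>
      ∑ τ ∈ range (pR a B * q), (if g (i4 a q B + τ) = c then pL a q B τ else 0) +
      ∑ b ∈ range q, (if g (i5 a q B + b * w) = c then 2 * w else 0)) (q := q) (c := pPhi a B)
    (fun c _ => by
      have := g3 c
      rw [split, ← two_pPhi] at this
      omega) (by
      rw [sum_add_distrib, sum_fib (g := fun τ => g (i4 a q B + τ))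
        fun τ hτ => g1 _ (by omega) (by omega),
        sum_fib (g := fun b => g (i5 a q B + b * w)) fun b hb => g1 _ (by omega) (by
          have := lt b hb 0 w1
          rw [e7, hw]; omega), ← sum_pL hq hB hs, hw]
      simp)
  have hlt : ∀ i < a.length, i * (4 * q) + q < pR a B * q := fun i hi => by
    have : (i + 1) * (4 * q) ≤ (a.length + 1) * B * (4 * q) :=
      Nat.mul_le_mul_right _ (by nlinarith)
    unfold pR; nlinarith
  refine ⟨fun i => g (i4 a q B + (i * (4 * q) + q)), fun i hi => g1 _ (by omega) (by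
    have := hlt i hi; omega), eq_of_sum' (fun c hc => ?_) ?_⟩
  · have f := full c hc
    have d1 : 2 * B ∣ pt a B := Dvd.intro _ rfl
    have d2 : 2 * B ∣ pR a B := ⟨2 * (a.length + 1), by unfold pR; ring⟩
    have d3 : ∃ m, pPhi a B = B + 2 * B * m :=
      ⟨4 * pR a B * (3 * pt a B + 1) + 3 * (B * (8 * pR a B + 1)), by unfold pPhi; rw [pt]; ring⟩
    obtain ⟨m, d3⟩ := d3
    have d4 : 2 * B ∣ pD0 a B := by
      have e := (pD0_add (a := a) hB).1
      have : 2 * B ∣ pD0 a B + (2 * pt a B + pR a B * (6 * pt a B)) := by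
        rw [show pD0 a B + (2 * pt a B + pR a B * (6 * pt a B)) =
          2 * B * m + 2 * pR a B + 6 * pt a B by omega]
        exact Dvd.dvd.add (Dvd.dvd.add (Dvd.intro _ rfl) (d2.mul_left _)) (d1.mul_left _)
      exact (Nat.dvd_add_left (Dvd.dvd.add (d1.mul_left _) (d2.mul_right _))).1 this
    have e : ∑ τ ∈ range (pR a B * q), (if g (i4 a q B + τ) = c then pL a q B τ else 0) =
        ∑ τ ∈ range (pR a B * q), (if g (i4 a q B + τ) = c then
          (if 3 * q ≤ τ ∧ τ < 4 * q then pD0 a B else 6 * pt a B) else 0) +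
        ∑ i ∈ range a.length,
          (if g (i4 a q B + (i * (4 * q) + q)) = c then a.getD i 0 else 0) := by
      rw [← sum_items hq hB fun τ => g (i4 a q B + τ) = c, ← sum_add_distrib]
      exact sum_congr rfl fun τ _ => by unfold pL; split_ifs <;> rfl
    obtain ⟨k1, d5⟩ : 2 * B ∣ ∑ τ ∈ range (pR a B * q), (if g (i4 a q B + τ) = c then
        (if 3 * q ≤ τ ∧ τ < 4 * q then pD0 a B else 6 * pt a B) else 0) :=
      dvd_sum fun τ _ => by
        split_ifs
        exacts [d4, d1.mul_left _, dvd_zero _]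
    obtain ⟨k2, d6⟩ : 2 * B ∣ ∑ b ∈ range q, (if g (i5 a q B + b * w) = c then 2 * w else 0) :=
      dvd_sum fun τ _ => by
        split_ifs
        exacts [(hw ▸ Nat.dvd_sub d1 d2).mul_left _, dvd_zero _]
    rw [e, d5, d6, d3] at f
    dsimp only
    generalize (∑ i ∈ range a.length,
      if g (i4 a q B + (i * (4 * q) + q)) = c then a.getD i 0 else 0) = X at f ⊢
    clear * - f hB
    rcases le_or_gt (k1 + k2) m with k | k
    · have := Nat.mul_le_mul_left (2 * B) k
      nlinarith
    · have := Nat.mul_le_mul_left (2 * B) (Nat.succ_le_of_lt k)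
      rw [Nat.succ_eq_add_one] at this
      nlinarith
  · rw [sum_fib (g := fun i => g (i4 a q B + (i * (4 * q) + q))) fun i hi => g1 _ (by omega) (by
      have := hlt i hi; omega), sum_getD_eq, hs]

end Pool.Agent.Lib.MP_dec383_lc
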